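import Mathlib
import Pool.Agent.TH653.MB.A4

set_option autoImplicit false

/-! # Radial maximal functions -/

namespace Pool.Agent.TH653.MC

open Complex Set Topology Filter Metric MeasureTheory N62a1eb23 Pool.Agent.H712R2 Pool.Agent.H713R2
open Pool.Agent.TH653.MB Real

/-- the clamp to `[0, ρ]` -/
noncomputable def cl (ρ t : ℝ) : ℝ := max 0 (min t ρ)

theorem cl_cont (ρ : ℝ) : Continuous (cl ρ) := by unfold cl; fun_prop

theorem cl_mem {ρ : ℝ} (hρ : 0 < ρ) (t : ℝ) : 0 ≤ cl ρ t ∧ cl ρ t ≤ ρ := by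
  unfold cl
  exact ⟨le_max_left _ _, max_le hρ.le (min_le_right _ _)⟩

theorem cl_eq {ρ t : ℝ} (h0 : 0 ≤ t) (h1 : t ≤ ρ) : cl ρ t = t := by
  unfold cl
  rw [min_eq_left h1, max_eq_right h0]

/-- the integrand -/
noncomputable def Ph (F : ℂ → ℂ) (ρ τ t θ : ℝ) : ℝ :=
  ‖deriv F (circleMap 0 (cl ρ t) θ)‖ ^ 2 * (1 - cl ρ t + τ) ^ 2

/-- the weighted radial energy -/
noncomputable def Kr (F : ℂ → ℂ) (ρ τ θ : ℝ) : ℝ := ∫ t in (0 : ℝ)..ρ, Ph F ρ τ t θ

theorem Ph_nonneg (F : ℂ → ℂ) (ρ τ t θ : ℝ) : 0 ≤ Ph F ρ τ t θ := by unfold Ph; positivity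

theorem Ph_cont {F : ℂ → ℂ} (hF : DifferentiableOn ℂ F (ball 0 1)) {ρ : ℝ} (hρ : 0 < ρ) (hρ1 : ρ < 1)
    (τ : ℝ) : Continuous fun p : ℝ × ℝ => Ph F ρ τ p.1 p.2 := by
  unfold Ph
  have h1 : Continuous fun p : ℝ × ℝ => circleMap 0 (cl ρ p.1) p.2 := by
    unfold circleMap
    have := cl_cont ρ
    fun_prop
  have h2 : ∀ p : ℝ × ℝ, circleMap 0 (cl ρ p.1) p.2 ∈ ball (0 : ℂ) 1 := by
    intro p
    rw [mem_ball_zero_iff, norm_circleMap_zero, abs_of_nonneg (cl_mem hρ _).1]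
    exact (cl_mem hρ _).2.trans_lt hρ1
  have h3 : Continuous fun p : ℝ × ℝ => deriv F (circleMap 0 (cl ρ p.1) p.2) :=
    ((hF.deriv isOpen_ball).continuousOn).comp_continuous h1 h2
  have h4 : Continuous fun p : ℝ × ℝ => (1 - cl ρ p.1 + τ) := by
    have := cl_cont ρ
    fun_prop
  exact (h3.norm.pow 2).mul (h4.pow 2)

theorem Ph_cont' {F : ℂ → ℂ} (hF : DifferentiableOn ℂ F (ball 0 1)) {ρ : ℝ} (hρ : 0 < ρ) (hρ1 : ρ < 1)
    (τ : ℝ) : Continuous fun p : ℝ × ℝ => Ph F ρ τ p.2 p.1 :=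
  Continuous.comp (g := fun p : ℝ × ℝ => Ph F ρ τ p.1 p.2) (f := fun p : ℝ × ℝ => (p.2, p.1))
    (Ph_cont hF hρ hρ1 τ) (continuous_snd.prodMk continuous_fst)

theorem Ph_cont_t {F : ℂ → ℂ} (hF : DifferentiableOn ℂ F (ball 0 1)) {ρ : ℝ} (hρ : 0 < ρ) (hρ1 : ρ < 1)
    (τ θ : ℝ) : Continuous fun t : ℝ => Ph F ρ τ t θ :=
  Continuous.comp (g := fun p : ℝ × ℝ => Ph F ρ τ p.1 p.2) (f := fun t : ℝ => (t, θ))
    (Ph_cont hF hρ hρ1 τ) (continuous_id.prodMk continuous_const)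

theorem Kr_nonneg (F : ℂ → ℂ) {ρ : ℝ} (hρ : 0 < ρ) (τ θ : ℝ) : 0 ≤ Kr F ρ τ θ :=
  intervalIntegral.integral_nonneg hρ.le fun t _ => Ph_nonneg F ρ τ t θ

theorem Kr_cont {F : ℂ → ℂ} (hF : DifferentiableOn ℂ F (ball 0 1)) {ρ : ℝ} (hρ : 0 < ρ) (hρ1 : ρ < 1)
    (τ : ℝ) : Continuous fun θ => Kr F ρ τ θ := by
  exact intervalIntegral.continuous_parametric_intervalIntegral_of_continuous'
    (f := fun θ t => Ph F ρ τ t θ) (Ph_cont' hF hρ hρ1 τ) 0 ρ

/-- if the weighted energy is small then so is the oscillation along the radius -/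
theorem radial_sup {F : ℂ → ℂ} (hF : DifferentiableOn ℂ F (ball 0 1)) {ρ : ℝ} (hρ : 0 < ρ)
    (hρ1 : ρ < 1) {τ : ℝ} (hτ : 0 ≤ τ) {η θ : ℝ} (hη : 0 < η)
    (hK : Kr F ρ τ θ ≤ η ^ 2 * (1 - ρ + τ)) {s : ℝ} (hs0 : 0 ≤ s) (hs1 : s ≤ ρ) :
    ‖F (circleMap 0 s θ) - F 0‖ ≤ η := by
  obtain ⟨ζ, hζ⟩ : ∃ ζ : ℂ, ζ = Complex.exp (θ * I) := ⟨_, rfl⟩
  have hζ1 : ‖ζ‖ = 1 := by rw [hζ]; exact Complex.norm_exp_ofReal_mul_I θ
  have hcm : ∀ t : ℝ, circleMap 0 t θ = (t : ℂ) * ζ := by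
    intro t
    unfold circleMap
    rw [zero_add, hζ]
  have hmem : ∀ t : ℝ, 0 ≤ t → t ≤ ρ → (t : ℂ) * ζ ∈ ball (0 : ℂ) 1 := by
    intro t h0 h1
    rw [mem_ball_zero_iff, norm_mul, hζ1, mul_one, Complex.norm_real, Real.norm_of_nonneg h0]
    exact h1.trans_lt hρ1
  -- the derivative along the radius
  have hd : ∀ t ∈ uIcc 0 s, HasDerivAt (fun t : ℝ => F ((t : ℂ) * ζ)) (deriv F ((t : ℂ) * ζ) * ζ) t := by
    intro t ht
    rw [uIcc_of_le hs0] at ht
    have h1 := (hF.differentiableAt (isOpen_ball.mem_nhds (hmem t ht.1 (ht.2.trans hs1)))).hasDerivAt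
    have h2 : HasDerivAt (fun t : ℝ => (t : ℂ) * ζ) ζ t := by
      have := (Complex.ofRealCLM.hasDerivAt (x := t)).mul_const ζ
      simpa using this
    exact h1.comp t h2
  obtain ⟨u, hu⟩ : ∃ u : ℝ → ℂ, u = fun t => deriv F (((cl ρ t : ℝ) : ℂ) * ζ) * ζ := ⟨_, rfl⟩
  have huc : Continuous u := by
    rw [hu]
    apply Continuous.mul _ continuous_const
    apply ((hF.deriv isOpen_ball).continuousOn).comp_continuous
    · have := cl_cont ρ
      fun_prop
    · intro t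
      exact hmem _ (cl_mem hρ t).1 (cl_mem hρ t).2
  have hint : ∫ t in (0 : ℝ)..s, u t = F (circleMap 0 s θ) - F 0 := by
    have h1 : ∫ t in (0 : ℝ)..s, u t = ∫ t in (0 : ℝ)..s, deriv F ((t : ℂ) * ζ) * ζ := by
      apply intervalIntegral.integral_congr
      intro t ht
      rw [uIcc_of_le hs0] at ht
      rw [hu]
      simp only
      rw [cl_eq ht.1 (ht.2.trans hs1)]
    have h2 : IntervalIntegrable (fun t : ℝ => deriv F ((t : ℂ) * ζ) * ζ) volume 0 s := by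
      apply (huc.intervalIntegrable 0 s).congr
      intro t ht
      rw [uIoc_of_le hs0] at ht
      rw [hu]
      simp only
      rw [cl_eq ht.1.le (ht.2.trans hs1)]
    rw [h1, intervalIntegral.integral_eq_sub_of_hasDerivAt hd h2, hcm]
    simp
  rw [← hint]
  obtain ⟨δ, hδ⟩ : ∃ δ, δ = 1 - ρ + τ := ⟨_, rfl⟩
  have hδ0 : 0 < δ := by rw [hδ]; linarith
  rw [← hδ] at hK
  -- the weight
  obtain ⟨w, hw⟩ : ∃ w : ℝ → ℝ, w = fun t => 1 - cl ρ t + τ := ⟨_, rfl⟩
  have hwc : Continuous w := by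
    rw [hw]
    have := cl_cont ρ
    fun_prop
  have hwδ : ∀ t, δ ≤ w t := by
    intro t
    rw [hw, hδ]
    have := (cl_mem hρ t).2
    simp only
    linarith
  have hw0 : ∀ t, 0 < w t := fun t => hδ0.trans_le (hwδ t)
  have hpt : ∀ t, ‖u t‖ ≤ (2 * η * δ)⁻¹ * Ph F ρ τ t θ + η * δ / 2 * (w t ^ 2)⁻¹ := by
    intro t
    have e1 : ‖u t‖ = ‖deriv F (circleMap 0 (cl ρ t) θ)‖ := by
      rw [hu, hcm]
      simp only
      rw [norm_mul, hζ1, mul_one]
    have e2 : Ph F ρ τ t θ = (‖u t‖ * w t) ^ 2 := by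
      unfold Ph
      rw [← e1, hw]
      ring
    rw [e2]
    have h3 := hw0 t
    obtain ⟨a, ha⟩ : ∃ a, a = ‖u t‖ * w t := ⟨_, rfl⟩
    have e3 : ‖u t‖ = a / w t := by rw [ha]; field_simp
    rw [← ha, e3]
    have e4 : (2 * η * δ)⁻¹ * a ^ 2 + η * δ / 2 * (w t ^ 2)⁻¹ - a / w t =
        (2 * η * δ)⁻¹ * (a - η * δ / w t) ^ 2 := by
      field_simp
      ring
    have e5 : 0 ≤ (2 * η * δ)⁻¹ * (a - η * δ / w t) ^ 2 := by positivity
    linarith
  have hPc : Continuous fun t => Ph F ρ τ t θ := Ph_cont_t hF hρ hρ1 τ θ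
  have hwic : Continuous fun t => (w t ^ 2)⁻¹ := by
    apply Continuous.inv₀ (hwc.pow 2)
    intro t
    exact (pow_pos (hw0 t) 2).ne'
  have hbc : Continuous fun t => (2 * η * δ)⁻¹ * Ph F ρ τ t θ + η * δ / 2 * (w t ^ 2)⁻¹ :=
    (continuous_const.mul hPc).add (continuous_const.mul hwic)
  have hb0 : ∀ t, 0 ≤ (2 * η * δ)⁻¹ * Ph F ρ τ t θ + η * δ / 2 * (w t ^ 2)⁻¹ := fun t =>
    (norm_nonneg _).trans (hpt t)
  calc ‖∫ t in (0 : ℝ)..s, u t‖ ≤ ∫ t in (0 : ℝ)..s, ‖u t‖ :=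
        intervalIntegral.norm_integral_le_integral_norm hs0
    _ ≤ ∫ t in (0 : ℝ)..s, ((2 * η * δ)⁻¹ * Ph F ρ τ t θ + η * δ / 2 * (w t ^ 2)⁻¹) := by
        apply intervalIntegral.integral_mono_on hs0 (huc.norm.intervalIntegrable _ _)
          (hbc.intervalIntegrable _ _)
        intro t _
        exact hpt t
    _ ≤ ∫ t in (0 : ℝ)..ρ, ((2 * η * δ)⁻¹ * Ph F ρ τ t θ + η * δ / 2 * (w t ^ 2)⁻¹) := by
        apply intervalIntegral.integral_mono_interval le_rfl hs0 hs1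
        · exact Eventually.of_forall hb0
        · exact hbc.intervalIntegrable _ _
    _ = (2 * η * δ)⁻¹ * Kr F ρ τ θ + η * δ / 2 * ∫ t in (0 : ℝ)..ρ, (w t ^ 2)⁻¹ := by
        have i1 : IntervalIntegrable (fun t => (2 * η * δ)⁻¹ * Ph F ρ τ t θ) volume 0 ρ :=
          (continuous_const.mul hPc).intervalIntegrable _ _
        have i2 : IntervalIntegrable (fun t => η * δ / 2 * (w t ^ 2)⁻¹) volume 0 ρ :=
          (continuous_const.mul hwic).intervalIntegrable _ _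
        rw [intervalIntegral.integral_add i1 i2, intervalIntegral.integral_const_mul,
          intervalIntegral.integral_const_mul]
        rfl
    _ ≤ (2 * η * δ)⁻¹ * (η ^ 2 * δ) + η * δ / 2 * δ⁻¹ := by
        apply add_le_add
        · exact mul_le_mul_of_nonneg_left hK (by positivity)
        · apply mul_le_mul_of_nonneg_left _ (by positivity)
          have h4 : ∫ t in (0 : ℝ)..ρ, (w t ^ 2)⁻¹ = ∫ t in (0 : ℝ)..ρ, ((1 - t + τ) ^ 2)⁻¹ := by
            apply intervalIntegral.integral_congr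
            intro t ht
            rw [uIcc_of_le hρ.le] at ht
            rw [hw]
            simp only
            rw [cl_eq ht.1 ht.2]
          have h5 : ∀ t ∈ uIcc 0 ρ, HasDerivAt (fun t : ℝ => (1 - t + τ)⁻¹) (((1 - t + τ) ^ 2)⁻¹) t := by
            intro t ht
            rw [uIcc_of_le hρ.le] at ht
            have h6 : HasDerivAt (fun t : ℝ => 1 - t + τ) (-1) t := by
              have := ((hasDerivAt_id t).const_sub 1).add_const τ
              simpa using this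
            have h7 : 1 - t + τ ≠ 0 := by
              have := ht.2
              have h8 : 0 < 1 - t + τ := by linarith
              exact h8.ne'
            have h9 := h6.fun_inv h7
            rw [neg_neg, one_div] at h9
            exact h9
          have h6 : IntervalIntegrable (fun t : ℝ => ((1 - t + τ) ^ 2)⁻¹) volume 0 ρ := by
            apply (hwic.intervalIntegrable 0 ρ).congr
            intro t ht
            rw [uIoc_of_le hρ.le] at ht
            rw [hw]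
            simp only
            rw [cl_eq ht.1.le ht.2]
          rw [h4, intervalIntegral.integral_eq_sub_of_hasDerivAt h5 h6, ← hδ]
          have h7 : 0 ≤ (1 - (0 : ℝ) + τ)⁻¹ := by
            have : 0 < 1 - (0 : ℝ) + τ := by linarith
            positivity
          linarith
    _ = η := by field_simp; ring

theorem weight_integral (l : ℕ) {ρ τ : ℝ} (hρ : 0 < ρ) (hρ1 : ρ < 1) (hτ : 0 ≤ τ) :
    ((l : ℝ) + 1) ^ 2 * ∫ t in (0 : ℝ)..ρ, t ^ (2 * l) * (1 - t + τ) ^ 2 ≤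
      1 / (2 * ((l : ℝ) + 1)) + τ + τ ^ 2 * (l + 1) := by
  have hc : Continuous fun t : ℝ => t ^ (2 * l) * (1 - t + τ) ^ 2 := by fun_prop
  have h1 : ∫ t in (0 : ℝ)..ρ, t ^ (2 * l) * (1 - t + τ) ^ 2 ≤
      ∫ t in (0 : ℝ)..1, t ^ (2 * l) * (1 - t + τ) ^ 2 := by
    apply intervalIntegral.integral_mono_interval le_rfl hρ.le hρ1.le
    · filter_upwards [ae_restrict_mem measurableSet_Ioc] with t ht
      have := ht.1
      simp only [Pi.zero_apply]
      positivity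
    · exact hc.intervalIntegrable _ _
  have h2 : ∫ t in (0 : ℝ)..1, t ^ (2 * l) * (1 - t + τ) ^ 2 =
      (1 + τ) ^ 2 * (1 / (2 * l + 1)) - 2 * (1 + τ) * (1 / (2 * l + 2)) + 1 / (2 * l + 3) := by
    have e1 : ∀ t : ℝ, t ^ (2 * l) * (1 - t + τ) ^ 2 =
        (1 + τ) ^ 2 * t ^ (2 * l) - 2 * (1 + τ) * t ^ (2 * l + 1) + t ^ (2 * l + 2) := by
      intro t; ring
    simp only [e1]
    rw [intervalIntegral.integral_add, intervalIntegral.integral_sub, intervalIntegral.integral_const_mul,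
      intervalIntegral.integral_const_mul, integral_pow, integral_pow, integral_pow]
    · push_cast
      simp
      ring
    all_goals
      apply Continuous.intervalIntegrable
      fun_prop
  rw [h2] at h1
  have hl : (0 : ℝ) ≤ l := Nat.cast_nonneg l
  refine (mul_le_mul_of_nonneg_left h1 (by positivity)).trans ?_
  have e2 : ((l : ℝ) + 1) ^ 2 * ((1 + τ) ^ 2 * (1 / (2 * l + 1)) - 2 * (1 + τ) * (1 / (2 * l + 2)) +
      1 / (2 * l + 3)) = ((l : ℝ) + 1) / ((2 * l + 1) * (2 * l + 3)) + τ * ((l + 1) / (2 * l + 1)) +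
      τ ^ 2 * ((l + 1) ^ 2 / (2 * l + 1)) := by
    field_simp
    ring
  rw [e2]
  apply add_le_add (add_le_add _ _) _
  · rw [div_le_div_iff₀ (by positivity) (by positivity)]
    nlinarith
  · have : ((l : ℝ) + 1) / (2 * l + 1) ≤ 1 := by
      rw [div_le_one (by positivity)]
      linarith
    nlinarith
  · apply mul_le_mul_of_nonneg_left _ (by positivity)
    rw [div_le_iff₀ (by positivity)]
    nlinarith

/-- the average of the radial energy -/
theorem Kr_av {F : ℂ → ℂ} (hF : DifferentiableOn ℂ F (ball 0 1)) {ρ : ℝ} (hρ : 0 < ρ) (hρ1 : ρ < 1)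
    {τ : ℝ} (hτ : 0 ≤ τ) {B : ℝ}
    (hB : ∀ L : ℕ, ∑ l ∈ Finset.range L, ‖tc F (l + 1)‖ ^ 2 *
      (1 / (2 * ((l : ℝ) + 1)) + τ + τ ^ 2 * (l + 1)) ≤ B) :
    (2 * π)⁻¹ * ∫ θ in (0 : ℝ)..2 * π, Kr F ρ τ θ ≤ B := by
  have hpi := Real.pi_pos
  have hFd : DifferentiableOn ℂ (deriv F) (ball 0 1) := hF.deriv isOpen_ball
  -- exchange the integrals
  have hswap : ∫ θ in (0 : ℝ)..2 * π, Kr F ρ τ θ =
      ∫ t in (0 : ℝ)..ρ, ∫ θ in (0 : ℝ)..2 * π, Ph F ρ τ t θ := by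
    unfold Kr
    rw [MeasureTheory.intervalIntegral_intervalIntegral_swap (F := fun θ t => Ph F ρ τ t θ)]
    have hcp : IntegrableOn (fun p : ℝ × ℝ => Ph F ρ τ p.2 p.1) (uIcc (0 : ℝ) (2 * π) ×ˢ uIcc (0 : ℝ) ρ) :=
      (Ph_cont' hF hρ hρ1 τ).continuousOn.integrableOn_compact (isCompact_uIcc.prod isCompact_uIcc)
    exact hcp.mono_set (prod_mono uIoc_subset_uIcc uIoc_subset_uIcc)
  obtain ⟨c, hc⟩ : ∃ c : ℕ → ℝ, c = fun l => ‖tc (deriv F) l‖ ^ 2 := ⟨_, rfl⟩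
  have hc0 : ∀ l, 0 ≤ c l := fun l => by rw [hc]; positivity
  have hA : ∀ t : ℝ, 0 < t → t ≤ ρ →
      HasSum (fun l => c l * t ^ (2 * l)) (circleAverage (fun x => ‖deriv F x‖ ^ 2) 0 t) := by
    intro t h0 h1
    rw [hc]
    exact hasSum_sq_tc h0 (h1.trans_lt hρ1) hFd
  obtain ⟨Aρ, hAρ⟩ : ∃ Aρ, Aρ = circleAverage (fun x => ‖deriv F x‖ ^ 2) 0 ρ := ⟨_, rfl⟩
  have hsρ := hA ρ hρ le_rfl
  rw [← hAρ] at hsρ
  obtain ⟨T, hT⟩ : ∃ T : ℕ → ℝ, T = fun L => Aρ - ∑ l ∈ Finset.range L, c l * ρ ^ (2 * l) := ⟨_, rfl⟩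
  have hTlim : Tendsto T atTop (𝓝 0) := by
    rw [hT]
    have := hsρ.tendsto_sum_nat.const_sub Aρ
    rwa [sub_self] at this
  have hT0 : ∀ L, 0 ≤ T L := by
    intro L
    rw [hT]
    have := sum_le_hasSum (Finset.range L) (fun l _ => mul_nonneg (hc0 l) (by positivity)) hsρ
    simp only
    linarith
  -- pointwise
  have hpt : ∀ L : ℕ, ∀ t ∈ Ioo (0 : ℝ) ρ, (2 * π)⁻¹ * ∫ θ in (0 : ℝ)..2 * π, Ph F ρ τ t θ ≤
      (∑ l ∈ Finset.range L, c l * (t ^ (2 * l) * (1 - t + τ) ^ 2)) + (1 + τ) ^ 2 * T L := by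
    intro L t ht
    have e1 : (2 * π)⁻¹ * ∫ θ in (0 : ℝ)..2 * π, Ph F ρ τ t θ =
        (1 - t + τ) ^ 2 * circleAverage (fun x => ‖deriv F x‖ ^ 2) 0 t := by
      unfold circleAverage Ph
      rw [cl_eq ht.1.le ht.2.le, intervalIntegral.integral_mul_const, smul_eq_mul]
      ring
    have e2 : circleAverage (fun x => ‖deriv F x‖ ^ 2) 0 t ≤
        (∑ l ∈ Finset.range L, c l * t ^ (2 * l)) + T L := by
      have s1 := (hasSum_nat_add_iff' L).2 (hA t ht.1 ht.2.le)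
      have s2 := (hasSum_nat_add_iff' L).2 hsρ
      have s3 := hasSum_le (fun l => mul_le_mul_of_nonneg_left
        (pow_le_pow_left₀ ht.1.le ht.2.le (2 * (l + L))) (hc0 (l + L))) s1 s2
      rw [hT]
      simp only
      linarith
    have e3 : (1 - t + τ) ^ 2 ≤ (1 + τ) ^ 2 := by
      apply pow_le_pow_left₀
      · have := ht.2; linarith
      · have := ht.1; linarith
    have e4 : 0 ≤ (1 - t + τ) ^ 2 := by positivity
    rw [e1]
    calc (1 - t + τ) ^ 2 * circleAverage (fun x => ‖deriv F x‖ ^ 2) 0 t ≤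
          (1 - t + τ) ^ 2 * ((∑ l ∈ Finset.range L, c l * t ^ (2 * l)) + T L) :=
          mul_le_mul_of_nonneg_left e2 e4
      _ = (∑ l ∈ Finset.range L, c l * (t ^ (2 * l) * (1 - t + τ) ^ 2)) + (1 - t + τ) ^ 2 * T L := by
          rw [mul_add, Finset.mul_sum]
          congr 1
          apply Finset.sum_congr rfl
          intro l _
          ring
      _ ≤ _ := by
          have := mul_le_mul_of_nonneg_right e3 (hT0 L)
          linarith
  have hmain : ∀ L : ℕ, (2 * π)⁻¹ * ∫ θ in (0 : ℝ)..2 * π, Kr F ρ τ θ ≤ B + (1 + τ) ^ 2 * T L := by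
    intro L
    rw [hswap, ← intervalIntegral.integral_const_mul]
    have c1 : Continuous fun t => (2 * π)⁻¹ * ∫ θ in (0 : ℝ)..2 * π, Ph F ρ τ t θ := by
      apply continuous_const.mul
      exact intervalIntegral.continuous_parametric_intervalIntegral_of_continuous'
        (f := fun t θ => Ph F ρ τ t θ) (Ph_cont hF hρ hρ1 τ) 0 (2 * π)
    have c2 : Continuous fun t : ℝ => (∑ l ∈ Finset.range L, c l * (t ^ (2 * l) * (1 - t + τ) ^ 2)) +
        (1 + τ) ^ 2 * T L := by fun_prop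
    have s1 := intervalIntegral.integral_mono_on_of_le_Ioo (μ := volume) hρ.le (c1.intervalIntegrable 0 ρ)
      (c2.intervalIntegrable 0 ρ) (hpt L)
    refine s1.trans ?_
    have i1 : IntervalIntegrable (fun t : ℝ => ∑ l ∈ Finset.range L, c l * (t ^ (2 * l) * (1 - t + τ) ^ 2))
        volume 0 ρ := by
      apply Continuous.intervalIntegrable
      fun_prop
    have i2 : IntervalIntegrable (fun _ : ℝ => (1 + τ) ^ 2 * T L) volume 0 ρ :=
      continuous_const.intervalIntegrable _ _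
    have i3 : ∀ l ∈ Finset.range L, IntervalIntegrable
        (fun t : ℝ => c l * (t ^ (2 * l) * (1 - t + τ) ^ 2)) volume 0 ρ := by
      intro l _
      apply Continuous.intervalIntegrable
      fun_prop
    rw [intervalIntegral.integral_add i1 i2, intervalIntegral.integral_finsetSum i3,
      intervalIntegral.integral_const]
    · apply add_le_add
      · refine le_trans ?_ (hB L)
        apply Finset.sum_le_sum
        intro l _
        rw [intervalIntegral.integral_const_mul, hc]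
        simp only
        rw [tc_deriv, norm_mul]
        have e1 : ‖((l : ℂ) + 1)‖ = (l : ℝ) + 1 := by
          have : ((l : ℂ) + 1) = (((l : ℝ) + 1 : ℝ) : ℂ) := by push_cast; rfl
          rw [this, Complex.norm_real, Real.norm_of_nonneg (by positivity)]
        rw [e1]
        have e2 := weight_integral l hρ hρ1 hτ
        calc (((l : ℝ) + 1) * ‖tc F (l + 1)‖) ^ 2 * ∫ t in (0 : ℝ)..ρ, t ^ (2 * l) * (1 - t + τ) ^ 2 =
              ‖tc F (l + 1)‖ ^ 2 * (((l : ℝ) + 1) ^ 2 * ∫ t in (0 : ℝ)..ρ, t ^ (2 * l) * (1 - t + τ) ^ 2) := by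
              ring
          _ ≤ _ := mul_le_mul_of_nonneg_left e2 (by positivity)
      · rw [sub_zero, smul_eq_mul]
        have := hT0 L
        have h1 : 0 ≤ (1 + τ) ^ 2 * T L := by positivity
        nlinarith
  have hlim : Tendsto (fun L => B + (1 + τ) ^ 2 * T L) atTop (𝓝 (B + (1 + τ) ^ 2 * 0)) :=
    (hTlim.const_mul _).const_add _
  rw [mul_zero, add_zero] at hlim
  exact ge_of_tendsto' hlim hmain

end Pool.Agent.TH653.MC
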