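import Mathlib

set_option autoImplicit false

/-! # Area with multiplicity -/

namespace Pool.Agent.TH653.MC

open Complex Set Topology Filter Metric MeasureTheory
open scoped ENNReal

theorem det_mul (c : ℂ) :
    ((ContinuousLinearMap.toSpanSingleton ℂ c).restrictScalars ℝ).det = ‖c‖ ^ 2 := by
  have : (((ContinuousLinearMap.toSpanSingleton ℂ c).restrictScalars ℝ : ℂ →L[ℝ] ℂ) : ℂ →ₗ[ℝ] ℂ) =
      ((LinearMap.toSpanSingleton ℂ ℂ c).restrictScalars ℝ) := by
    ext; simp
  rw [ContinuousLinearMap.det, this, LinearMap.det_restrictScalars]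
  simp [Algebra.norm_complex_apply, Complex.normSq_eq_norm_sq]

/-- change of variables for injective holomorphic maps -/
theorem cv {f : ℂ → ℂ} {s A : Set ℂ} (hs : IsOpen s) (hf : DifferentiableOn ℂ f s) (hi : InjOn f A)
    (hA : MeasurableSet A) (hAs : A ⊆ s) (g : ℂ → ENNReal) :
    ∫⁻ w in f '' A, g w = ∫⁻ z in A, ENNReal.ofReal (‖deriv f z‖ ^ 2) * g (f z) := by
  have h1 := MeasureTheory.lintegral_image_eq_lintegral_abs_det_fderiv_mul volume hA
    (f := f) (f' := fun z => (ContinuousLinearMap.toSpanSingleton ℂ (deriv f z)).restrictScalars ℝ)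
    (fun z hz => ((hf.differentiableAt (hs.mem_nhds (hAs hz))).hasDerivAt.hasFDerivAt.restrictScalars
      ℝ).hasFDerivWithinAt) hi g
  rw [h1]
  refine lintegral_congr fun z => ?_
  rw [det_mul, abs_of_nonneg (sq_nonneg _)]

/-- a map taking every value at most `N` times covers with multiplicity at most `N` -/
theorem area_mult {U : Set ℂ} (hU : IsOpen U) {G : ℂ → ℂ} (hG : DifferentiableOn ℂ G U) {N : ℕ}
    (hN : ∀ (y : ℂ) (S : Finset ℂ), (∀ x ∈ S, x ∈ U ∧ G x = y) → S.card ≤ N)
    {F : ℂ → ℝ≥0∞} (hF : Measurable F) :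
    ∫⁻ x in U, ENNReal.ofReal (‖deriv G x‖ ^ 2) * F (G x) ≤ N * ∫⁻ y, F y := by
  classical
  have hGd : ContinuousOn (deriv G) U := (hG.deriv hU).continuousOn
  obtain ⟨U', hU'⟩ : ∃ U' : Set ℂ, U' = {x ∈ U | deriv G x ≠ 0} := ⟨_, rfl⟩
  have hU'U : U' ⊆ U := by rw [hU']; exact fun x hx => hx.1
  have hU'o : IsOpen U' := by
    rw [hU']
    exact hGd.isOpen_inter_preimage hU isOpen_compl_singleton
  -- local injectivity
  have hloc : ∀ x ∈ U', ∃ O : Set ℂ, IsOpen O ∧ x ∈ O ∧ O ⊆ U' ∧ InjOn G O := by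
    intro x hx
    have hx1 : x ∈ U := hU'U hx
    have hx2 : deriv G x ≠ 0 := by rw [hU'] at hx; exact hx.2
    have han : AnalyticAt ℂ G x := hG.analyticAt (hU.mem_nhds hx1)
    have hst : HasStrictDerivAt G (deriv G x) x := han.hasStrictDerivAt
    have hst' := hst.hasStrictFDerivAt_equiv hx2
    obtain ⟨e, he1, he2⟩ : ∃ e : OpenPartialHomeomorph ℂ ℂ, x ∈ e.source ∧ (e : ℂ → ℂ) = G :=
      ⟨hst'.toOpenPartialHomeomorph G, hst'.mem_toOpenPartialHomeomorph_source,
        hst'.toOpenPartialHomeomorph_coe⟩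
    refine ⟨e.source ∩ U', e.open_source.inter hU'o, ⟨he1, hx⟩, inter_subset_right, ?_⟩
    have := e.injOn
    rw [he2] at this
    exact this.mono inter_subset_left
  choose! O hO1 hO2 hO3 hO4 using hloc
  obtain ⟨t, ht1, ht2, ht3⟩ := TopologicalSpace.countable_cover_nhdsWithin (s := U') (f := O)
    (fun x hx => mem_nhdsWithin_of_mem_nhds ((hO1 x hx).mem_nhds (hO2 x hx)))
  rcases t.eq_empty_or_nonempty with hte | hte
  · -- the derivative vanishes everywhere
    have hU'e : U' = ∅ := by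
      rw [hte] at ht3
      simpa using ht3
    have h0 : ∫⁻ x in U, ENNReal.ofReal (‖deriv G x‖ ^ 2) * F (G x) = 0 := by
      have h1 : ∫⁻ x in U, ENNReal.ofReal (‖deriv G x‖ ^ 2) * F (G x) = ∫⁻ x in U, 0 := by
        apply setLIntegral_congr_fun hU.measurableSet
        intro x hx
        have : deriv G x = 0 := by
          by_contra hne
          have : x ∈ U' := by rw [hU']; exact ⟨hx, hne⟩
          rw [hU'e] at this
          exact this
        simp [this]
      rw [h1]
      simp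
    rw [h0]
    exact zero_le
  obtain ⟨a, ha⟩ := ht2.exists_eq_range hte
  have hat : ∀ k, a k ∈ U' := fun k => ht1 (by rw [ha]; exact mem_range_self k)
  obtain ⟨A, hA⟩ : ∃ A : ℕ → Set ℂ, A = disjointed (fun k => O (a k)) := ⟨_, rfl⟩
  have hAm : ∀ k, MeasurableSet (A k) := by
    intro k
    rw [hA]
    exact MeasurableSet.disjointed (fun k => (hO1 _ (hat k)).measurableSet) k
  have hAsub : ∀ k, A k ⊆ O (a k) := by
    intro k
    rw [hA]
    exact disjointed_subset _ k
  have hAU : ∀ k, A k ⊆ U' := fun k => (hAsub k).trans (hO3 _ (hat k))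
  have hAd : Pairwise (Function.onFun Disjoint A) := by
    rw [hA]
    exact disjoint_disjointed _
  have hAun : (⋃ k, A k) = U' := by
    rw [hA, iUnion_disjointed]
    apply Subset.antisymm
    · exact iUnion_subset fun k => hO3 _ (hat k)
    · intro x hx
      obtain ⟨y, hy1, hy2⟩ := mem_iUnion₂.1 (ht3 hx)
      rw [ha] at hy1
      obtain ⟨k, rfl⟩ := hy1
      exact mem_iUnion.2 ⟨k, hy2⟩
  -- reduce to `U'`
  have hred : ∫⁻ x in U, ENNReal.ofReal (‖deriv G x‖ ^ 2) * F (G x) =
      ∫⁻ x in U', ENNReal.ofReal (‖deriv G x‖ ^ 2) * F (G x) := by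
    rw [← lintegral_indicator hU.measurableSet, ← lintegral_indicator hU'o.measurableSet]
    refine lintegral_congr fun x => ?_
    by_cases hx : x ∈ U'
    · rw [indicator_of_mem hx, indicator_of_mem (hU'U hx)]
    · rw [indicator_of_notMem hx]
      by_cases hxU : x ∈ U
      · rw [indicator_of_mem hxU]
        have : deriv G x = 0 := by
          by_contra hne
          exact hx (by rw [hU']; exact ⟨hxU, hne⟩)
        simp [this]
      · rw [indicator_of_notMem hxU]
  have himm : ∀ k, MeasurableSet (G '' A k) := by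
    intro k
    exact MeasureTheory.measurable_image_of_fderivWithin (hAm k)
      (f' := fun z => (ContinuousLinearMap.toSpanSingleton ℂ (deriv G z)).restrictScalars ℝ)
      (fun z hz => ((hG.differentiableAt (hU.mem_nhds (hU'U (hAU k hz)))).hasDerivAt.hasFDerivAt.restrictScalars
      ℝ).hasFDerivWithinAt) ((hO4 _ (hat k)).mono (hAsub k))
  rw [hred, ← hAun, lintegral_iUnion hAm hAd]
  have hterm : ∀ k, ∫⁻ x in A k, ENNReal.ofReal (‖deriv G x‖ ^ 2) * F (G x) =
      ∫⁻ y, (G '' A k).indicator F y := by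
    intro k
    rw [lintegral_indicator (himm k)]
    exact (cv hU hG ((hO4 _ (hat k)).mono (hAsub k)) (hAm k) ((hAU k).trans hU'U) F).symm
  simp only [hterm]
  rw [← lintegral_tsum (fun k => (hF.indicator (himm k)).aemeasurable), ← lintegral_const_mul _ hF]
  apply lintegral_mono
  intro y
  simp only
  rw [ENNReal.tsum_eq_iSup_sum]
  apply iSup_le
  intro s
  -- the finite sums
  obtain ⟨s', hs'⟩ : ∃ s' : Finset ℕ, s' = s.filter (fun k => y ∈ G '' A k) := ⟨_, rfl⟩
  have h1 : ∑ k ∈ s, (G '' A k).indicator F y = s'.card * F y := by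
    have h2 : ∀ k ∈ s, (G '' A k).indicator F y = if y ∈ G '' A k then F y else 0 := by
      intro k _
      rw [indicator_apply]
    rw [Finset.sum_congr rfl h2, ← Finset.sum_filter, ← hs', Finset.sum_const, nsmul_eq_mul]
  rw [h1]
  gcongr
  have h3 : ∀ k ∈ s', ∃ x, x ∈ A k ∧ G x = y := by
    intro k hk
    rw [hs', Finset.mem_filter] at hk
    exact hk.2
  choose! p hp1 hp2 using h3
  have hinj : Set.InjOn p (s' : Set ℕ) := by
    intro k hk l hl hkl
    by_contra hne
    have h4 := hp1 k hk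
    have h5 := hp1 l hl
    rw [← hkl] at h5
    exact (Set.disjoint_left.1 (hAd hne) h4) h5
  have h6 := hN y (s'.image p) (by
    intro x hx
    rw [Finset.mem_image] at hx
    obtain ⟨k, hk, rfl⟩ := hx
    exact ⟨hU'U (hAU k (hp1 k hk)), hp2 k hk⟩)
  rw [Finset.card_image_of_injOn hinj] at h6
  exact h6

end Pool.Agent.TH653.MC
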