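import Mathlib
import Pool.Agent.TH653.MB.A6
import Pool.Agent.TH653.MC.C1

set_option autoImplicit false

/-! # Good radii and Fourier coefficients of `log (|G|^2 + τ^2)` -/

namespace Pool.Agent.TH653.MC

open Complex Set Topology Filter Metric MeasureTheory N62a1eb23 Pool.Agent.H712R2 Pool.Agent.H713R2
open Pool.Agent.TH653.MB Real
open scoped ENNReal

theorem polar_lintegral {Φ : ℂ → ℝ≥0∞} (hΦ : Measurable Φ) :
    ∫⁻ x, Φ x = ∫⁻ r in Ioi (0 : ℝ), ∫⁻ θ in Ioo (-π) π,
      ENNReal.ofReal r * Φ (circleMap 0 r θ) := by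
  rw [← Complex.lintegral_comp_polarCoord_symm]
  have h1 : polarCoord.target = Ioi (0 : ℝ) ×ˢ Ioo (-π) π := rfl
  have h2 : Measurable fun p : ℝ × ℝ => ENNReal.ofReal p.1 * Φ (circleMap 0 p.1 p.2) := by
    apply Measurable.mul
    · exact ENNReal.measurable_ofReal.comp measurable_fst
    · apply hΦ.comp
      apply Continuous.measurable
      unfold circleMap
      fun_prop
  rw [h1, MeasureTheory.Measure.volume_eq_prod, ← MeasureTheory.Measure.prod_restrict]
  rw [← MeasureTheory.lintegral_prod _ h2.aemeasurable]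
  refine lintegral_congr fun p => ?_
  rw [smul_eq_mul]
  congr 2
  rw [Complex.polarCoord_symm_apply]
  unfold circleMap
  rw [Complex.exp_mul_I]
  push_cast
  ring

/-- the area integral of `1 / (|y|^2 + τ^2)` over a disc -/
theorem lintegral_disc {b τ : ℝ} (hb : 0 ≤ b) (hτ : 0 < τ) :
    ∫⁻ y : ℂ, (closedBall (0 : ℂ) b).indicator (fun y => ENNReal.ofReal (1 / (‖y‖ ^ 2 + τ ^ 2))) y ≤
      ENNReal.ofReal (π * Real.log (1 + b ^ 2 / τ ^ 2)) := by
  have hmeas : Measurable ((closedBall (0 : ℂ) b).indicator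
      (fun y : ℂ => ENNReal.ofReal (1 / (‖y‖ ^ 2 + τ ^ 2)))) := by
    apply Measurable.indicator _ isClosed_closedBall.measurableSet
    fun_prop
  rw [polar_lintegral hmeas]
  have h1 : ∀ r ∈ Ioi (0 : ℝ), ∫⁻ θ in Ioo (-π) π, ENNReal.ofReal r *
      (closedBall (0 : ℂ) b).indicator (fun y => ENNReal.ofReal (1 / (‖y‖ ^ 2 + τ ^ 2)))
        (circleMap 0 r θ) = (Ioc 0 b).indicator (fun r => ENNReal.ofReal (2 * π * (r / (r ^ 2 + τ ^ 2)))) r := by
    intro r hr
    rw [mem_Ioi] at hr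
    have hn : ∀ θ, ‖circleMap 0 r θ‖ = r := by
      intro θ
      rw [norm_circleMap_zero, abs_of_pos hr]
    by_cases hrb : r ≤ b
    · rw [indicator_of_mem (show r ∈ Ioc 0 b from ⟨hr, hrb⟩)]
      have h2 : ∀ θ : ℝ, ENNReal.ofReal r * (closedBall (0 : ℂ) b).indicator
          (fun y => ENNReal.ofReal (1 / (‖y‖ ^ 2 + τ ^ 2))) (circleMap 0 r θ) =
          ENNReal.ofReal (r / (r ^ 2 + τ ^ 2)) := by
        intro θ
        rw [indicator_of_mem (by rw [mem_closedBall_zero_iff, hn]; exact hrb), hn,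
          ← ENNReal.ofReal_mul hr.le]
        congr 1
        ring
      simp only [h2]
      rw [setLIntegral_const, Real.volume_Ioo, ← ENNReal.ofReal_mul (by positivity)]
      congr 1
      ring
    · rw [indicator_of_notMem (fun h => hrb h.2)]
      have h2 : ∀ θ : ℝ, ENNReal.ofReal r * (closedBall (0 : ℂ) b).indicator
          (fun y => ENNReal.ofReal (1 / (‖y‖ ^ 2 + τ ^ 2))) (circleMap 0 r θ) = 0 := by
        intro θ
        rw [indicator_of_notMem (by rw [mem_closedBall_zero_iff, hn]; exact hrb), mul_zero]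
      simp only [h2]
      simp
  rw [setLIntegral_congr_fun measurableSet_Ioi h1]
  rw [← lintegral_indicator measurableSet_Ioi]
  have h3 : ∀ r, (Ioi (0 : ℝ)).indicator ((Ioc 0 b).indicator
      (fun r => ENNReal.ofReal (2 * π * (r / (r ^ 2 + τ ^ 2))))) r =
      (Ioc 0 b).indicator (fun r => ENNReal.ofReal (2 * π * (r / (r ^ 2 + τ ^ 2)))) r := by
    intro r
    by_cases hr : r ∈ Ioc 0 b
    · rw [indicator_of_mem (show r ∈ Ioi (0 : ℝ) from hr.1)]
    · rw [indicator_of_notMem hr]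
      by_cases hr' : r ∈ Ioi (0 : ℝ)
      · rw [indicator_of_mem hr', indicator_of_notMem hr]
      · rw [indicator_of_notMem hr']
  simp only [h3]
  rw [lintegral_indicator measurableSet_Ioc]
  have hcont : Continuous fun r : ℝ => 2 * π * (r / (r ^ 2 + τ ^ 2)) := by
    have : ∀ r : ℝ, r ^ 2 + τ ^ 2 ≠ 0 := fun r => by positivity
    fun_prop (disch := assumption)
  rw [← ofReal_integral_eq_lintegral_ofReal (hcont.integrableOn_Ioc)]
  · apply ENNReal.ofReal_le_ofReal
    rw [← intervalIntegral.integral_of_le hb]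
    have h4 : ∀ r ∈ uIcc 0 b, HasDerivAt (fun r : ℝ => π * Real.log (r ^ 2 + τ ^ 2))
        (2 * π * (r / (r ^ 2 + τ ^ 2))) r := by
      intro r _
      have h5 : r ^ 2 + τ ^ 2 ≠ 0 := by positivity
      have h6 : HasDerivAt (fun r : ℝ => r ^ 2 + τ ^ 2) (2 * r) r := by
        have := (hasDerivAt_pow 2 r).add_const (τ ^ 2)
        simpa using this
      have h7 := (h6.log h5).const_mul π
      have h8 : 2 * π * (r / (r ^ 2 + τ ^ 2)) = π * (2 * r / (r ^ 2 + τ ^ 2)) := by ring
      rw [h8]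
      exact h7
    rw [intervalIntegral.integral_eq_sub_of_hasDerivAt h4 (hcont.intervalIntegrable _ _)]
    rw [← mul_sub, ← Real.log_div (by positivity) (by positivity)]
    apply le_of_eq
    congr 2
    field_simp
    try ring
  · filter_upwards [ae_restrict_mem measurableSet_Ioc] with r hr
    have := hr.1
    simp only [Pi.zero_apply]
    positivity

open Classical in
/-- a good radius -/
theorem good_radius {G : ℂ → ℂ} {r₁ r₂ τ b : ℝ} (hr₁ : 0 < r₁) (hr : r₁ < r₂) (hτ : 0 < τ)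
    (hb : 0 ≤ b) (hG : DifferentiableOn ℂ G {x | r₁ < ‖x‖ ∧ ‖x‖ < r₂}) {N : ℕ}
    (hN : ∀ (y : ℂ) (S : Finset ℂ), (∀ x ∈ S, x ∈ {x : ℂ | r₁ < ‖x‖ ∧ ‖x‖ < r₂} ∧ G x = y) → S.card ≤ N)
    (hGb : ∀ x ∈ {x : ℂ | r₁ < ‖x‖ ∧ ‖x‖ < r₂}, ‖G x‖ ≤ b) {T : Set ℝ} (hT : T.Finite) :
    ∃ r ∈ Ioo r₁ r₂, r ∉ T ∧ circleAverage (fun x => ‖deriv G x‖ ^ 2 / (‖G x‖ ^ 2 + τ ^ 2)) 0 r ≤
      N * Real.log (1 + b ^ 2 / τ ^ 2) / (2 * r₁ * (r₂ - r₁)) := by
  obtain ⟨U, hU⟩ : ∃ U : Set ℂ, U = {x : ℂ | r₁ < ‖x‖ ∧ ‖x‖ < r₂} := ⟨_, rfl⟩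
  rw [← hU] at hG hN hGb
  have hUo : IsOpen U := by
    rw [hU]
    exact (isOpen_lt continuous_const continuous_norm).inter (isOpen_lt continuous_norm continuous_const)
  have hGc : ContinuousOn G U := hG.continuousOn
  have hGdc : ContinuousOn (deriv G) U := (hG.deriv hUo).continuousOn
  obtain ⟨Φ, hΦ⟩ : ∃ Φ : ℂ → ℝ, Φ = fun x => ‖deriv G x‖ ^ 2 / (‖G x‖ ^ 2 + τ ^ 2) := ⟨_, rfl⟩
  have hΦc : ContinuousOn Φ U := by
    rw [hΦ]
    exact (hGdc.norm.pow 2).div ((hGc.norm.pow 2).add continuousOn_const) (fun x _ => by positivity)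
  have hΦ0 : ∀ x, 0 ≤ Φ x := fun x => by rw [hΦ]; positivity
  have hpi := Real.pi_pos
  have hL0 : 0 ≤ Real.log (1 + b ^ 2 / τ ^ 2) := Real.log_nonneg (by
    have : 0 ≤ b ^ 2 / τ ^ 2 := by positivity
    linarith)
  -- area
  have harea : ∫⁻ x in U, ENNReal.ofReal (Φ x) ≤
      ENNReal.ofReal (N * (π * Real.log (1 + b ^ 2 / τ ^ 2))) := by
    have hF : Measurable ((closedBall (0 : ℂ) b).indicator
        (fun y : ℂ => ENNReal.ofReal (1 / (‖y‖ ^ 2 + τ ^ 2)))) := by
      apply Measurable.indicator _ isClosed_closedBall.measurableSet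
      fun_prop
    have h1 := area_mult hUo hG hN hF
    have h2 : ∫⁻ x in U, ENNReal.ofReal (Φ x) = ∫⁻ x in U, ENNReal.ofReal (‖deriv G x‖ ^ 2) *
        (closedBall (0 : ℂ) b).indicator (fun y : ℂ => ENNReal.ofReal (1 / (‖y‖ ^ 2 + τ ^ 2))) (G x) := by
      apply setLIntegral_congr_fun hUo.measurableSet
      intro x hx
      simp only
      rw [indicator_of_mem (by rw [mem_closedBall_zero_iff]; exact hGb x hx),
        ← ENNReal.ofReal_mul (by positivity), hΦ]
      congr 1
      ring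
    rw [h2]
    refine h1.trans ?_
    rw [ENNReal.ofReal_mul (Nat.cast_nonneg N), ENNReal.ofReal_natCast]
    gcongr
    exact lintegral_disc hb hτ
  by_contra hcon
  push Not at hcon
  obtain ⟨B, hB⟩ : ∃ B, B = N * Real.log (1 + b ^ 2 / τ ^ 2) / (2 * r₁ * (r₂ - r₁)) := ⟨_, rfl⟩
  rw [← hB, ← hΦ] at hcon
  have hr12 : 0 < r₂ - r₁ := by linarith
  have hB0 : 0 ≤ B := by rw [hB]; positivity
  -- polar coordinates
  have hmeas : Measurable (U.indicator fun x => ENNReal.ofReal (Φ x)) := by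
    have h1 : ContinuousOn (fun x => ENNReal.ofReal (Φ x)) U :=
      ENNReal.continuous_ofReal.comp_continuousOn hΦc
    rw [← piecewise_eq_indicator]
    exact h1.measurable_piecewise continuousOn_const hUo.measurableSet
  have hpol := polar_lintegral hmeas
  rw [lintegral_indicator hUo.measurableSet] at hpol
  -- the inner integrals
  have hin : ∀ r ∈ Ioo r₁ r₂, ∫⁻ θ in Ioo (-π) π, ENNReal.ofReal r *
      (U.indicator fun x => ENNReal.ofReal (Φ x)) (circleMap 0 r θ) =
      ENNReal.ofReal (r * (2 * π * circleAverage Φ 0 r)) := by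
    intro r hr'
    have hr0 : 0 < r := hr₁.trans hr'.1
    have hmem : ∀ θ, circleMap 0 r θ ∈ U := by
      intro θ
      rw [hU]
      simp only [mem_ofPred_eq, norm_circleMap_zero, abs_of_pos hr0]
      exact hr'
    have h1 : ∀ θ, ENNReal.ofReal r * (U.indicator fun x => ENNReal.ofReal (Φ x)) (circleMap 0 r θ) =
        ENNReal.ofReal (r * Φ (circleMap 0 r θ)) := by
      intro θ
      rw [indicator_of_mem (hmem θ), ENNReal.ofReal_mul hr0.le]
    simp only [h1]
    have hc : Continuous fun θ => Φ (circleMap 0 r θ) :=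
      hΦc.comp_continuous (continuous_circleMap 0 r) hmem
    have hc' : Continuous fun θ => r * Φ (circleMap 0 r θ) := continuous_const.mul hc
    rw [setLIntegral_congr Ioo_ae_eq_Ioc, ← ofReal_integral_eq_lintegral_ofReal hc'.integrableOn_Ioc
      (Eventually.of_forall fun θ => mul_nonneg hr0.le (hΦ0 _)), ← intervalIntegral.integral_of_le (by linarith)]
    congr 1
    rw [intervalIntegral.integral_const_mul]
    congr 1
    unfold circleAverage
    rw [smul_eq_mul]
    have hper : Function.Periodic (fun θ => Φ (circleMap 0 r θ)) (2 * π) := by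
      intro θ
      simp only
      rw [(periodic_circleMap 0 r) θ]
    have h2 := hper.intervalIntegral_add_eq (-π) 0
    have e1 : -π + 2 * π = π := by ring
    rw [e1, zero_add] at h2
    rw [h2]
    field_simp
  -- lower bound
  have hlow : ENNReal.ofReal ((r₂ - r₁) * (r₁ * (2 * π * B))) < ∫⁻ x in U, ENNReal.ofReal (Φ x) := by
    rw [hpol]
    have hgm : Measurable fun r : ℝ => ∫⁻ θ in Ioo (-π) π, ENNReal.ofReal r *
        (U.indicator fun x => ENNReal.ofReal (Φ x)) (circleMap 0 r θ) := by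
      apply Measurable.lintegral_prod_right' (f := fun p : ℝ × ℝ => ENNReal.ofReal p.1 *
        (U.indicator fun x => ENNReal.ofReal (Φ x)) (circleMap 0 p.1 p.2))
      apply Measurable.mul
      · exact ENNReal.measurable_ofReal.comp measurable_fst
      · apply hmeas.comp
        apply Continuous.measurable
        unfold circleMap
        fun_prop
    refine lt_of_lt_of_le ?_ (lintegral_mono_set (show Ioo r₁ r₂ ⊆ Ioi (0 : ℝ) from
      fun r hr' => hr₁.trans hr'.1))
    have h2 : ENNReal.ofReal ((r₂ - r₁) * (r₁ * (2 * π * B))) =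
        ∫⁻ r in Ioo r₁ r₂, ENNReal.ofReal (r₁ * (2 * π * B)) := by
      rw [setLIntegral_const, Real.volume_Ioo, ← ENNReal.ofReal_mul (by positivity), mul_comm]
    rw [h2]
    apply setLIntegral_strict_mono measurableSet_Ioo _ hgm
    · rw [← h2]
      exact ENNReal.ofReal_ne_top
    · have hTae : ∀ᵐ r : ℝ, r ∉ T := compl_mem_ae_iff.2 (hT.measure_zero volume)
      filter_upwards [hTae] with r hrT hr'
      rw [hin r hr']
      have h3 := hcon r hr' hrT
      have hr0 : 0 < r := hr₁.trans hr'.1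
      rw [ENNReal.ofReal_lt_ofReal_iff_of_nonneg (by positivity)]
      have h4 : r₁ * (2 * π * B) ≤ r * (2 * π * B) :=
        mul_le_mul_of_nonneg_right hr'.1.le (by positivity)
      have h5 : r * (2 * π * B) < r * (2 * π * circleAverage Φ 0 r) :=
        mul_lt_mul_of_pos_left (mul_lt_mul_of_pos_left h3 (by positivity)) hr0
      exact h4.trans_lt h5
    · rw [Real.volume_Ioo]
      simp only [ne_eq, ENNReal.ofReal_eq_zero, not_le]
      exact hr12
  have hfin := hlow.trans_le harea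
  have : (r₂ - r₁) * (r₁ * (2 * π * B)) = N * (π * Real.log (1 + b ^ 2 / τ ^ 2)) := by
    rw [hB]
    field_simp
  rw [this] at hfin
  exact lt_irrefl _ hfin

end Pool.Agent.TH653.MC
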