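import Mathlib
import Pool.Agent.TH653.MC.C2

set_option autoImplicit false

/-! # Fourier coefficients through the derivative -/

namespace Pool.Agent.TH653.MC

open Complex Set Topology Filter Metric MeasureTheory N62a1eb23 Pool.Agent.H712R2 Pool.Agent.H713R2
open Pool.Agent.TH653.MB Real
open scoped ENNReal

/-- integration by parts on a circle -/
theorem fourier_parts {φ φ' : ℝ → ℝ} (h : ∀ θ, HasDerivAt φ (φ' θ) θ) (hc : Continuous φ')
    (hper : φ (2 * π) = φ 0) {m : ℕ} (hm : 1 ≤ m) :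
    m * ‖∫ θ in (0 : ℝ)..2 * π, (φ θ : ℂ) * Complex.exp (-(m * θ * I))‖ ≤
      ∫ θ in (0 : ℝ)..2 * π, |φ' θ| := by
  have hpi := Real.pi_pos
  have hmC : (m : ℂ) ≠ 0 := by
    have : m ≠ 0 := by omega
    exact_mod_cast this
  have hu : ∀ x ∈ uIcc (0 : ℝ) (2 * π), HasDerivAt (fun θ : ℝ => (φ θ : ℂ)) ((φ' x : ℝ) : ℂ) x :=
    fun x _ => (h x).ofReal_comp
  have hv : ∀ x ∈ uIcc (0 : ℝ) (2 * π), HasDerivAt
      (fun θ : ℝ => Complex.exp (-(m * θ * I)) / (-(m * I))) (Complex.exp (-(m * x * I))) x := by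
    intro x _
    have h1 : HasDerivAt (fun θ : ℝ => -(m * (θ : ℂ) * I)) (-(m * I)) x := by
      have h2 : HasDerivAt (fun θ : ℝ => (θ : ℂ)) 1 x := Complex.ofRealCLM.hasDerivAt
      have h3 := ((h2.const_mul (m : ℂ)).mul_const I).fun_neg
      rw [mul_one] at h3
      exact h3
    have h4 := (h1.cexp).div_const (-(m * I))
    have h5 : -(m * I) ≠ 0 := neg_ne_zero.2 (mul_ne_zero hmC I_ne_zero)
    rw [mul_div_cancel_right₀ _ h5] at h4
    exact h4
  have hparts := intervalIntegral.integral_mul_deriv_eq_deriv_mul hu hv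
    ((Complex.continuous_ofReal.comp hc).intervalIntegrable _ _)
    ((by fun_prop : Continuous fun x : ℝ => Complex.exp (-(m * x * I))).intervalIntegrable _ _)
  have hexp : Complex.exp (-(m * ((2 * π : ℝ) : ℂ) * I)) = 1 := by
    have h1 : -(m * ((2 * π : ℝ) : ℂ) * I) = ((-(m : ℤ) : ℤ) : ℂ) * (2 * π * I) := by
      push_cast; ring
    rw [h1]
    exact Complex.exp_int_mul_two_pi_mul_I _
  have hexp0 : Complex.exp (-(m * ((0 : ℝ) : ℂ) * I)) = 1 := by simp
  rw [hparts, hexp, hexp0, hper, sub_self, zero_sub, norm_neg]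
  have hn : ∀ θ : ℝ, ‖Complex.exp (-(m * θ * I))‖ = 1 := by
    intro θ
    have : -(m * (θ : ℂ) * I) = ((-(m * θ) : ℝ) : ℂ) * I := by push_cast; ring
    rw [this, Complex.norm_exp_ofReal_mul_I]
  have hm0 : (0 : ℝ) < m := by exact_mod_cast (show 0 < m by omega)
  have hle : ‖∫ θ in (0 : ℝ)..2 * π, ((φ' θ : ℝ) : ℂ) * (Complex.exp (-(m * θ * I)) / (-(m * I)))‖ ≤
      ∫ θ in (0 : ℝ)..2 * π, |φ' θ| / m := by
    refine (intervalIntegral.norm_integral_le_integral_norm (by positivity)).trans (le_of_eq ?_)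
    apply intervalIntegral.integral_congr
    intro θ _
    simp only
    rw [norm_mul, norm_div, hn, norm_neg, norm_mul, Complex.norm_I, Complex.norm_natCast, mul_one,
      Complex.norm_real, Real.norm_eq_abs]
    ring
  rw [intervalIntegral.integral_div] at hle
  calc m * ‖∫ θ in (0 : ℝ)..2 * π, ((φ' θ : ℝ) : ℂ) * (Complex.exp (-(m * θ * I)) / (-(m * I)))‖ ≤
      m * ((∫ θ in (0 : ℝ)..2 * π, |φ' θ|) / m) := mul_le_mul_of_nonneg_left hle hm0.le
    _ = ∫ θ in (0 : ℝ)..2 * π, |φ' θ| := by field_simp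

/-- the Fourier coefficient of a real function on a circle -/
noncomputable def fc (v : ℂ → ℝ) (r : ℝ) (m : ℕ) : ℂ :=
  circleAverage (fun x => (v x : ℂ) * (x ^ m)⁻¹) 0 r

theorem fc_eq {v : ℂ → ℝ} {r : ℝ} (hr : 0 < r) (m : ℕ) : fc v r m * (r : ℂ) ^ m =
    (2 * π : ℝ)⁻¹ • ∫ θ in (0 : ℝ)..2 * π, (v (circleMap 0 r θ) : ℂ) * Complex.exp (-(m * θ * I)) := by
  unfold fc circleAverage
  rw [smul_mul_assoc, ← intervalIntegral.integral_mul_const]
  congr 1
  apply intervalIntegral.integral_congr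
  intro θ _
  simp only
  have hrC : (r : ℂ) ^ m ≠ 0 := pow_ne_zero _ (by exact_mod_cast hr.ne')
  have h1 : circleMap 0 r θ ^ m = (r : ℂ) ^ m * Complex.exp (m * θ * I) := by
    unfold circleMap
    rw [zero_add, mul_pow, ← Complex.exp_nat_mul]
    ring_nf
  rw [h1, Complex.exp_neg, mul_inv]
  field_simp

theorem norm_fc_le {v : ℂ → ℝ} {r : ℝ} (hr : 0 < r) (m : ℕ) :
    ‖fc v r m‖ * r ^ m ≤ circleAverage (fun x => |v x|) 0 r := by
  have hpi := Real.pi_pos
  have h1 : ‖fc v r m‖ * r ^ m = ‖fc v r m * (r : ℂ) ^ m‖ := by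
    rw [norm_mul, norm_pow, Complex.norm_real, Real.norm_of_nonneg hr.le]
  rw [h1, fc_eq hr, norm_smul, Real.norm_of_nonneg (by positivity)]
  unfold circleAverage
  rw [smul_eq_mul]
  apply mul_le_mul_of_nonneg_left _ (by positivity)
  refine (intervalIntegral.norm_integral_le_integral_norm (by positivity)).trans (le_of_eq ?_)
  apply intervalIntegral.integral_congr
  intro θ _
  simp only
  have : -(m * (θ : ℂ) * I) = ((-(m * θ) : ℝ) : ℂ) * I := by push_cast; ring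
  rw [norm_mul, this, Complex.norm_exp_ofReal_mul_I, mul_one, Complex.norm_real, Real.norm_eq_abs]

theorem fc_const {c : ℝ} {r : ℝ} (hr : 0 < r) {m : ℕ} (hm : 1 ≤ m) : fc (fun _ => c) r m = 0 := by
  have h := fourier_parts (φ := fun _ => c) (φ' := fun _ => 0) (fun θ => hasDerivAt_const θ c)
    continuous_const rfl hm
  have hm0 : (0 : ℝ) < m := by exact_mod_cast (show 0 < m by omega)
  have h1 := fc_eq (v := fun _ => c) hr m
  have h2 : ‖∫ θ in (0 : ℝ)..2 * π, (c : ℂ) * Complex.exp (-(m * θ * I))‖ = 0 := by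
    simp only [abs_zero, intervalIntegral.integral_zero] at h
    have h3 := norm_nonneg (∫ θ in (0 : ℝ)..2 * π, (c : ℂ) * Complex.exp (-(m * θ * I)))
    nlinarith
  rw [norm_eq_zero] at h2
  rw [h2, smul_zero] at h1
  have hrC : (r : ℂ) ^ m ≠ 0 := pow_ne_zero _ (by exact_mod_cast hr.ne')
  exact (mul_eq_zero.1 h1).resolve_right hrC

theorem fc_add {v w : ℂ → ℝ} {r : ℝ} (hr : 0 < r) (m : ℕ)
    (hv : Continuous fun θ => v (circleMap 0 r θ)) (hw : Continuous fun θ => w (circleMap 0 r θ)) :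
    fc (fun x => v x + w x) r m = fc v r m + fc w r m := by
  have hrC : (r : ℂ) ^ m ≠ 0 := pow_ne_zero _ (by exact_mod_cast hr.ne')
  apply mul_right_cancel₀ hrC
  rw [add_mul, fc_eq hr, fc_eq hr, fc_eq hr, ← smul_add, ← intervalIntegral.integral_add]
  · congr 1
    apply intervalIntegral.integral_congr
    intro θ _
    simp only
    push_cast
    ring
  · apply Continuous.intervalIntegrable
    exact (Complex.continuous_ofReal.comp hv).mul (by fun_prop)
  · apply Continuous.intervalIntegrable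
    exact (Complex.continuous_ofReal.comp hw).mul (by fun_prop)

theorem fc_congr {v w : ℂ → ℝ} {r : ℝ} (m : ℕ) (h : ∀ θ, v (circleMap 0 r θ) = w (circleMap 0 r θ)) :
    fc v r m = fc w r m := by
  unfold fc circleAverage
  congr 1
  apply intervalIntegral.integral_congr
  intro θ _
  simp only
  rw [h θ]

/-- the Fourier coefficients of `log (|G|^2 + τ^2)` -/
theorem fc_log_sq {G : ℂ → ℂ} {r τ : ℝ} (hr : 0 < r) (hτ : 0 < τ) {U : Set ℂ} (hU : IsOpen U)
    (hG : DifferentiableOn ℂ G U) (hrU : ∀ θ, circleMap 0 r θ ∈ U) {m : ℕ} (hm : 1 ≤ m) :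
    m * (‖fc (fun x => 1 / 2 * Real.log (‖G x‖ ^ 2 + τ ^ 2)) r m‖ * r ^ m) ≤
      r * circleAverage (fun x => ‖deriv G x‖ / Real.sqrt (‖G x‖ ^ 2 + τ ^ 2)) 0 r := by
  have hpi := Real.pi_pos
  have hGc : Continuous fun θ => G (circleMap 0 r θ) :=
    hG.continuousOn.comp_continuous (continuous_circleMap 0 r) hrU
  have hGdc : Continuous fun θ => deriv G (circleMap 0 r θ) :=
    ((hG.deriv hU).continuousOn).comp_continuous (continuous_circleMap 0 r) hrU
  have hpos : ∀ x, 0 < ‖G x‖ ^ 2 + τ ^ 2 := fun x => by positivity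
  obtain ⟨φ', hφ'⟩ : ∃ φ' : ℝ → ℝ, φ' = fun θ => 1 / 2 * ((2 * inner ℝ (G (circleMap 0 r θ))
    (deriv G (circleMap 0 r θ) * (circleMap 0 r θ * I))) / (‖G (circleMap 0 r θ)‖ ^ 2 + τ ^ 2)) := ⟨_, rfl⟩
  have hd : ∀ θ, HasDerivAt (fun θ => 1 / 2 * Real.log (‖G (circleMap 0 r θ)‖ ^ 2 + τ ^ 2)) (φ' θ) θ := by
    intro θ
    have h1 : HasDerivAt (fun θ => G (circleMap 0 r θ))
        (deriv G (circleMap 0 r θ) * (circleMap 0 r θ * I)) θ := by
      have h2 := (hG.differentiableAt (hU.mem_nhds (hrU θ))).hasDerivAt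
      exact h2.comp θ (hasDerivAt_circleMap 0 r θ)
    have h3 := (h1.norm_sq.add_const (τ ^ 2)).log (hpos _).ne'
    rw [hφ']
    exact h3.const_mul _
  have hφc : Continuous φ' := by
    rw [hφ']
    apply continuous_const.mul
    apply Continuous.div
    · exact continuous_const.mul (hGc.inner (hGdc.mul ((continuous_circleMap 0 r).mul continuous_const)))
    · exact (hGc.norm.pow 2).add continuous_const
    · intro θ
      exact (hpos _).ne'
  have hper : (fun θ => 1 / 2 * Real.log (‖G (circleMap 0 r θ)‖ ^ 2 + τ ^ 2)) (2 * π) =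
      (fun θ => 1 / 2 * Real.log (‖G (circleMap 0 r θ)‖ ^ 2 + τ ^ 2)) 0 := by
    simp only
    have := (periodic_circleMap 0 r) 0
    rw [zero_add] at this
    rw [this]
  have hmain := fourier_parts hd hφc hper hm
  have h1 : ‖fc (fun x => 1 / 2 * Real.log (‖G x‖ ^ 2 + τ ^ 2)) r m‖ * r ^ m =
      ‖fc (fun x => 1 / 2 * Real.log (‖G x‖ ^ 2 + τ ^ 2)) r m * (r : ℂ) ^ m‖ := by
    rw [norm_mul, norm_pow, Complex.norm_real, Real.norm_of_nonneg hr.le]
  rw [h1, fc_eq hr, norm_smul, Real.norm_of_nonneg (by positivity)]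
  have h2 : ∫ θ in (0 : ℝ)..2 * π, |φ' θ| ≤ ∫ θ in (0 : ℝ)..2 * π,
      r * (‖deriv G (circleMap 0 r θ)‖ / Real.sqrt (‖G (circleMap 0 r θ)‖ ^ 2 + τ ^ 2)) := by
    apply intervalIntegral.integral_mono_on (by positivity) (hφc.abs.intervalIntegrable _ _)
    · apply Continuous.intervalIntegrable
      apply continuous_const.mul
      apply hGdc.norm.div
      · exact Real.continuous_sqrt.comp ((hGc.norm.pow 2).add continuous_const)
      · intro θ
        exact (Real.sqrt_pos.2 (hpos _)).ne'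
    · intro θ _
      rw [hφ']
      simp only
      set g := G (circleMap 0 r θ)
      set g' := deriv G (circleMap 0 r θ)
      have hs := Real.sqrt_pos.2 (hpos (circleMap 0 r θ))
      have hss := Real.mul_self_sqrt (hpos (circleMap 0 r θ)).le
      have e1 : |inner ℝ g (g' * (circleMap 0 r θ * I))| ≤ ‖g‖ * (‖g'‖ * r) := by
        refine (abs_real_inner_le_norm _ _).trans ?_
        rw [norm_mul, norm_mul, norm_circleMap_zero, abs_of_pos hr, Complex.norm_I, mul_one]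
      have e2 : ‖g‖ ≤ Real.sqrt (‖g‖ ^ 2 + τ ^ 2) := by
        apply Real.le_sqrt_of_sq_le
        have : 0 ≤ τ ^ 2 := by positivity
        linarith
      have e3 : 1 / 2 * (2 * inner ℝ g (g' * (circleMap 0 r θ * I)) / (‖g‖ ^ 2 + τ ^ 2)) =
          inner ℝ g (g' * (circleMap 0 r θ * I)) / (‖g‖ ^ 2 + τ ^ 2) := by ring
      rw [e3, abs_div, abs_of_pos (hpos _), div_le_iff₀ (hpos _)]
      refine e1.trans ?_
      have e4 : r * (‖g'‖ / Real.sqrt (‖g‖ ^ 2 + τ ^ 2)) * (‖g‖ ^ 2 + τ ^ 2) =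
          r * ‖g'‖ * Real.sqrt (‖g‖ ^ 2 + τ ^ 2) := by
        have e5 : ‖g‖ ^ 2 + τ ^ 2 = Real.sqrt (‖g‖ ^ 2 + τ ^ 2) * Real.sqrt (‖g‖ ^ 2 + τ ^ 2) := hss.symm
        rw [div_eq_mul_inv]
        nth_rewrite 2 [e5]
        field_simp
      rw [e4]
      have : 0 ≤ r * ‖g'‖ := by positivity
      nlinarith
  have h3 : r * circleAverage (fun x => ‖deriv G x‖ / Real.sqrt (‖G x‖ ^ 2 + τ ^ 2)) 0 r =
      (2 * π)⁻¹ * ∫ θ in (0 : ℝ)..2 * π,
      r * (‖deriv G (circleMap 0 r θ)‖ / Real.sqrt (‖G (circleMap 0 r θ)‖ ^ 2 + τ ^ 2)) := by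
    unfold circleAverage
    rw [intervalIntegral.integral_const_mul, smul_eq_mul]
    ring
  rw [h3]
  calc m * ((2 * π)⁻¹ * ‖∫ θ in (0 : ℝ)..2 * π,
        ((1 / 2 * Real.log (‖G (circleMap 0 r θ)‖ ^ 2 + τ ^ 2) : ℝ) : ℂ) * Complex.exp (-(m * θ * I))‖) =
      (2 * π)⁻¹ * (m * ‖∫ θ in (0 : ℝ)..2 * π,
        ((1 / 2 * Real.log (‖G (circleMap 0 r θ)‖ ^ 2 + τ ^ 2) : ℝ) : ℂ) * Complex.exp (-(m * θ * I))‖) := by
        ring
    _ ≤ (2 * π)⁻¹ * _ := mul_le_mul_of_nonneg_left (hmain.trans h2) (by positivity)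

end Pool.Agent.TH653.MC
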