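import Mathlib
import Pool.Agent.TH653.MC.C3

set_option autoImplicit false

/-! # Coefficients of the functions `log V_j` -/

namespace Pool.Agent.TH653.MC

open Complex Set Topology Filter Metric MeasureTheory N62a1eb23 Pool.Agent.H712R2 Pool.Agent.H713R2
open Pool.Agent.TH653.MB Real
open scoped ENNReal

variable {d : ℕ} {β : ℂ → ℂ}

theorem coef_area (hβ : IsBeta d β) {p : Polynomial ℂ} {N : ℕ} (hp1 : 1 ≤ p.natDegree)
    (hpN : p.natDegree ≤ N) {r₁ r₂ τ b : ℝ} (hr₁ : 0 < r₁) (hr : r₁ < r₂) (hr₂ : r₂ ≤ 1)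
    (hτ : 0 < τ) (hb0 : 0 ≤ b) (hb : ∀ x : ℂ, r₁ < ‖x‖ → ‖x‖ < r₂ → ‖p.eval (x⁻¹ * β x)‖ ≤ b)
    {T : Set ℝ} (hT : T.Finite) :
    ∃ r ∈ Ioo r₁ r₂, r ∉ T ∧ ∀ m : ℕ, 1 ≤ m → ∀ τ' : ℝ, τ ≤ τ' →
      m * (‖fc (fun x => 1 / 2 * Real.log (‖p.eval (x⁻¹ * β x)‖ ^ 2 + τ' ^ 2)) r m‖ * r ^ m) ≤
      Real.sqrt (N * Real.log (1 + b ^ 2 / τ ^ 2) / (2 * r₁ * (r₂ - r₁)) + 1) := by
  obtain ⟨U, hU⟩ : ∃ U : Set ℂ, U = {x : ℂ | r₁ < ‖x‖ ∧ ‖x‖ < r₂} := ⟨_, rfl⟩
  have hUo : IsOpen U := by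
    rw [hU]
    exact (isOpen_lt continuous_const continuous_norm).inter (isOpen_lt continuous_norm continuous_const)
  have hUb : ∀ x ∈ U, x ∈ ball (0 : ℂ) 1 ∧ x ≠ 0 := by
    intro x hx
    rw [hU] at hx
    refine ⟨by rw [mem_ball_zero_iff]; exact hx.2.trans_le hr₂, ?_⟩
    rintro rfl
    have := hx.1
    rw [norm_zero] at this
    linarith
  obtain ⟨G, hG⟩ : ∃ G : ℂ → ℂ, G = fun x => p.eval (x⁻¹ * β x) := ⟨_, rfl⟩
  have hGd : DifferentiableOn ℂ G U := by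
    rw [hG]
    intro x hx
    have h1 := psi_deriv hβ (hUb x hx).1 (hUb x hx).2
    have h2 := (p.hasDerivAt (x⁻¹ * β x)).comp x h1
    exact h2.differentiableAt.differentiableWithinAt
  have hmult : ∀ (y : ℂ) (S : Finset ℂ), (∀ x ∈ S, x ∈ U ∧ G x = y) → S.card ≤ N := by
    classical
    intro y S hS
    have hinj : Set.InjOn (fun x : ℂ => x⁻¹ * β x) (S : Set ℂ) := by
      intro x hx x' hx' h
      have h1 := hUb x (hS x hx).1
      have h2 := hUb x' (hS x' hx').1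
      exact hβ.inj x h1.1 x' h2.1 h1.2 h2.2 h
    have hne : p - Polynomial.C y ≠ 0 := by
      intro h0
      have : p = Polynomial.C y := sub_eq_zero.1 h0
      rw [this, Polynomial.natDegree_C] at hp1
      omega
    have hsub : S.image (fun x : ℂ => x⁻¹ * β x) ⊆ (p - Polynomial.C y).roots.toFinset := by
      intro c hc
      rw [Finset.mem_image] at hc
      obtain ⟨x, hx, rfl⟩ := hc
      rw [Multiset.mem_toFinset, Polynomial.mem_roots hne, Polynomial.IsRoot.def, Polynomial.eval_sub,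
        Polynomial.eval_C, sub_eq_zero]
      have := (hS x hx).2
      rw [hG] at this
      exact this
    calc S.card = (S.image (fun x : ℂ => x⁻¹ * β x)).card := (Finset.card_image_of_injOn hinj).symm
      _ ≤ (p - Polynomial.C y).roots.toFinset.card := Finset.card_le_card hsub
      _ ≤ Multiset.card (p - Polynomial.C y).roots := Multiset.toFinset_card_le _
      _ ≤ (p - Polynomial.C y).natDegree := Polynomial.card_roots' _
      _ ≤ N := by rw [Polynomial.natDegree_sub_C]; exact hpN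
  obtain ⟨r, hr', hrT, hav⟩ := good_radius (G := G) hr₁ hr hτ hb0 (by rw [← hU]; exact hGd)
    (by rw [← hU]; exact hmult) (by
      intro x hx
      rw [hG]
      exact hb x hx.1 hx.2) hT
  refine ⟨r, hr', hrT, fun m hm τ' hττ => ?_⟩
  have hr0 : 0 < r := hr₁.trans hr'.1
  have hr1 : r ≤ 1 := hr'.2.le.trans hr₂
  have hτ' : 0 < τ' := hτ.trans_le hττ
  have hrU : ∀ θ, circleMap 0 r θ ∈ U := by
    intro θ
    rw [hU]
    simp only [mem_ofPred_eq, norm_circleMap_zero, abs_of_pos hr0]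
    exact hr'
  have h1 := fc_log_sq hr0 hτ' hUo hGd hrU hm
  rw [hG] at h1 hav
  refine h1.trans ?_
  have hGc : ContinuousOn G U := hGd.continuousOn
  have hGdc : ContinuousOn (deriv G) U := (hGd.deriv hUo).continuousOn
  have hsph : sphere (0 : ℂ) |r| ⊆ U := by
    intro x hx
    rw [mem_sphere_zero_iff_norm, abs_of_pos hr0] at hx
    rw [hU]
    simp only [mem_ofPred_eq, hx]
    exact hr'
  have hpos : ∀ x, 0 < ‖G x‖ ^ 2 + τ' ^ 2 := fun x => by positivity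
  have hc1 : ContinuousOn (fun x => ‖deriv G x‖ / Real.sqrt (‖G x‖ ^ 2 + τ' ^ 2)) U := by
    apply hGdc.norm.div
    · exact Real.continuous_sqrt.comp_continuousOn ((hGc.norm.pow 2).add continuousOn_const)
    · intro x _
      exact (Real.sqrt_pos.2 (hpos x)).ne'
  have hc2 : ContinuousOn (fun x => ‖deriv G x‖ ^ 2 / (‖G x‖ ^ 2 + τ ^ 2)) U := by
    apply (hGdc.norm.pow 2).div ((hGc.norm.pow 2).add continuousOn_const)
    intro x _
    have h9 : 0 < ‖G x‖ ^ 2 + τ ^ 2 := by positivity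
    exact h9.ne'
  have hci1 : CircleIntegrable (fun x => ‖deriv G x‖ / Real.sqrt (‖G x‖ ^ 2 + τ' ^ 2)) 0 r :=
    (hc1.mono hsph).circleIntegrable'
  have hci1' : CircleIntegrable (fun x => (‖deriv G x‖ / Real.sqrt (‖G x‖ ^ 2 + τ' ^ 2)) ^ 2) 0 r :=
    ((hc1.pow 2).mono hsph).circleIntegrable'
  have hci2 : CircleIntegrable (fun x => ‖deriv G x‖ ^ 2 / (‖G x‖ ^ 2 + τ ^ 2)) 0 r :=
    (hc2.mono hsph).circleIntegrable'
  have hle : circleAverage (fun x => (‖deriv G x‖ / Real.sqrt (‖G x‖ ^ 2 + τ' ^ 2)) ^ 2) 0 r ≤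
      circleAverage (fun x => ‖deriv G x‖ ^ 2 / (‖G x‖ ^ 2 + τ ^ 2)) 0 r := by
    apply Real.circleAverage_mono hci1' hci2
    intro x _
    rw [div_pow, Real.sq_sqrt (hpos x).le]
    apply div_le_div_of_nonneg_left (by positivity) (by positivity)
    have : τ ^ 2 ≤ τ' ^ 2 := pow_le_pow_left₀ hτ.le hττ 2
    linarith
  rw [← hG] at hav
  obtain ⟨B, hB⟩ : ∃ B, B = N * Real.log (1 + b ^ 2 / τ ^ 2) / (2 * r₁ * (r₂ - r₁)) := ⟨_, rfl⟩
  rw [← hB] at hav ⊢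
  have hB0 : 0 ≤ B := by
    rw [hB]
    have hL0 : 0 ≤ Real.log (1 + b ^ 2 / τ ^ 2) := Real.log_nonneg (by
      have : 0 ≤ b ^ 2 / τ ^ 2 := by positivity
      linarith)
    have : 0 < r₂ - r₁ := by linarith
    positivity
  have h2 := av_le_sqrt (B := B + 1) (by linarith) hci1 hci1' (hle.trans (by linarith))
  rw [hG] at h2
  have h3 : 0 ≤ Real.sqrt (B + 1) := Real.sqrt_nonneg _
  calc r * circleAverage (fun x => ‖deriv (fun x => p.eval (x⁻¹ * β x)) x‖ /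
        Real.sqrt (‖p.eval (x⁻¹ * β x)‖ ^ 2 + τ' ^ 2)) 0 r ≤ r * Real.sqrt (B + 1) :=
        mul_le_mul_of_nonneg_left h2 hr0.le
    _ ≤ 1 * Real.sqrt (B + 1) := mul_le_mul_of_nonneg_right hr1 h3
    _ = Real.sqrt (B + 1) := one_mul _

theorem pow_diff_le {a b : ℂ} {M : ℝ} (ha : ‖a‖ ≤ M) (hb : ‖b‖ ≤ M) (k : ℕ) :
    ‖a ^ (k + 1) - b ^ (k + 1)‖ ≤ (k + 1) * M ^ k * ‖a - b‖ := by
  have hM : 0 ≤ M := (norm_nonneg _).trans ha
  induction k with
  | zero => simp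
  | succ k ih =>
    have h1 : a ^ (k + 1 + 1) - b ^ (k + 1 + 1) = a * (a ^ (k + 1) - b ^ (k + 1)) + (a - b) * b ^ (k + 1) := by
      ring
    rw [h1]
    refine (norm_add_le _ _).trans ?_
    rw [norm_mul, norm_mul, norm_pow]
    have h2 : ‖a‖ * ‖a ^ (k + 1) - b ^ (k + 1)‖ ≤ M * ((k + 1) * M ^ k * ‖a - b‖) :=
      mul_le_mul ha ih (norm_nonneg _) hM
    have h3 : ‖a - b‖ * ‖b‖ ^ (k + 1) ≤ ‖a - b‖ * M ^ (k + 1) :=
      mul_le_mul_of_nonneg_left (pow_le_pow_left₀ (norm_nonneg _) hb _) (norm_nonneg _)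
    push_cast
    calc ‖a‖ * ‖a ^ (k + 1) - b ^ (k + 1)‖ + ‖a - b‖ * ‖b‖ ^ (k + 1) ≤
        M * ((k + 1) * M ^ k * ‖a - b‖) + ‖a - b‖ * M ^ (k + 1) := add_le_add h2 h3
      _ = (k + 1 + 1) * M ^ (k + 1) * ‖a - b‖ := by ring

/-- the base of the exponential losses -/
noncomputable def Bd (d : ℕ) : ℝ := d * 2 ^ (d - 1)

theorem Bd_ge (hd : 2 ≤ d) : 4 ≤ Bd d := by
  unfold Bd
  have h1 : (2 : ℝ) ≤ d := by exact_mod_cast hd
  have h2 : (2 : ℝ) ^ 1 ≤ 2 ^ (d - 1) := pow_le_pow_right₀ (by norm_num) (by omega)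
  nlinarith

/-- a lower bound for the functions `V_i` -/
theorem BB_low (hd : 2 ≤ d) (hβ : IsBeta d β) {n i : ℕ} (hin : i ≤ n) {x : ℂ}
    (hx : x ∈ ball (0 : ℂ) 1) (hxn : ‖x‖ ^ (d ^ n) ≤ (R0 d)⁻¹) :
    3 / 8 ≤ Bd d ^ (n - i) * ‖BB d β i x‖ := by
  have hB := Bd_ge hd
  have hR := R0_ge d
  have hRi : (R0 d)⁻¹ ≤ 1 / 24 := by
    rw [one_div]
    exact inv_anti₀ (by norm_num) hR
  have hx1 : ‖x‖ ≤ 1 := by rw [mem_ball_zero_iff] at hx; exact hx.le
  have hxn0 : 0 ≤ ‖x‖ := norm_nonneg x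
  have hdn : 1 ≤ d ^ n := Nat.one_le_pow _ _ (by omega)
  -- the top function
  have htop : 7 / 8 ≤ ‖BB d β n x‖ := by
    have h1 := BB_sub_one_le hd hβ n hx
    have h2 : ‖x‖ ^ (d ^ (n + 1) - 1) ≤ ‖x‖ ^ (d ^ n) := by
      apply pow_le_pow_of_le_one hxn0 hx1
      have h3 : 2 * d ^ n ≤ d ^ (n + 1) := by
        rw [pow_succ, mul_comm]
        exact Nat.mul_le_mul_left _ hd
      omega
    have h4 : ‖(1 : ℂ)‖ ≤ ‖BB d β n x‖ + ‖BB d β n x - 1‖ := by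
      have := norm_sub_le (BB d β n x) (BB d β n x - 1)
      rwa [sub_sub_cancel] at this
    rw [norm_one] at h4
    linarith
  by_cases hx0 : x = 0
  · rw [hx0, BB_zero_val hd hβ, norm_one, mul_one]
    have : 1 ≤ Bd d ^ (n - i) := one_le_pow₀ (by linarith)
    linarith
  obtain ⟨L, hL⟩ : ∃ L, n = i + L := Nat.exists_eq_add_of_le hin
  rw [hL, Nat.add_sub_cancel_left]
  rcases Nat.eq_zero_or_pos L with hL0 | hL1
  · rw [hL0, pow_zero, one_mul]
    rw [hL0, add_zero] at hL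
    rw [← hL]
    linarith
  obtain ⟨c, hc⟩ : ∃ c, c = x⁻¹ * β x := ⟨_, rfl⟩
  obtain ⟨e, he⟩ : ∃ e, d = e + 1 := Nat.exists_eq_add_of_le' (by omega : 1 ≤ d)
  have hBdn : Bd d = (e + 1) * 2 ^ e := by
    unfold Bd
    rw [he]
    push_cast
    simp
  have hPB : ∀ l, ‖x ^ (d ^ l) * P d (l + 1) c‖ ≤ 2 := by
    intro l
    rw [hc, ← BB_eq hd β l x hx0]
    exact AR.BB_le_two hd hβ l hx
  -- the normalised differences
  have hstep : ∀ l, ‖x ^ (d ^ (i + l)) * (P d (i + 1 + l) c - P d l c)‖ ≤ Bd d ^ l * ‖BB d β i x‖ := by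
    intro l
    induction l with
    | zero =>
      rw [add_zero, add_zero, P_zero, sub_zero, pow_zero, one_mul, BB_eq hd β i x hx0, ← hc]
    | succ l ih =>
      have h1 : x ^ (d ^ (i + (l + 1))) * (P d (i + 1 + (l + 1)) c - P d (l + 1) c) =
          (x ^ (d ^ (i + l)) * P d (i + 1 + l) c) ^ (e + 1) - (x ^ (d ^ (i + l)) * P d l c) ^ (e + 1) := by
        rw [← add_assoc (i + 1), P_succ, P_succ, ← he, mul_pow, mul_pow, ← pow_mul, ← pow_succ,
          ← add_assoc]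
        ring
      have h2 : ‖x ^ (d ^ (i + l)) * P d (i + 1 + l) c‖ ≤ 2 := by
        have := hPB (i + l)
        rwa [show i + l + 1 = i + 1 + l by ring] at this
      have h3 : ‖x ^ (d ^ (i + l)) * P d l c‖ ≤ 2 := by
        rcases Nat.eq_zero_or_pos l with hl | hl
        · rw [hl, P_zero, mul_zero, norm_zero]
          norm_num
        · obtain ⟨l', rfl⟩ : ∃ l', l = l' + 1 := Nat.exists_eq_add_of_le' hl
          refine le_trans ?_ (hPB l')
          rw [norm_mul, norm_mul]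
          apply mul_le_mul_of_nonneg_right _ (norm_nonneg _)
          rw [norm_pow, norm_pow]
          apply pow_le_pow_of_le_one hxn0 hx1
          exact Nat.pow_le_pow_right (by omega) (by omega)
      rw [h1]
      refine (pow_diff_le h2 h3 e).trans ?_
      rw [← mul_sub, pow_succ, hBdn] at *
      calc ((e : ℝ) + 1) * 2 ^ e * ‖x ^ (d ^ (i + l)) * (P d (i + 1 + l) c - P d l c)‖ ≤
          ((e : ℝ) + 1) * 2 ^ e * ((((e : ℝ) + 1) * 2 ^ e) ^ l * ‖BB d β i x‖) :=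
          mul_le_mul_of_nonneg_left ih (by positivity)
        _ = (((e : ℝ) + 1) * 2 ^ e) ^ l * (((e : ℝ) + 1) * 2 ^ e) * ‖BB d β i x‖ := by ring
  refine le_trans ?_ (hstep L)
  obtain ⟨L', rfl⟩ : ∃ L', L = L' + 1 := Nat.exists_eq_add_of_le' hL1
  have h5 : ‖x ^ (d ^ (i + (L' + 1))) * P d (i + 1 + (L' + 1)) c‖ = ‖BB d β n x‖ := by
    rw [BB_eq hd β n x hx0, ← hc, hL]
    congr 3
    ring
  have h6 : ‖x ^ (d ^ (i + (L' + 1))) * P d (L' + 1) c‖ ≤ 2 * (1 / 4) := by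
    have e1 : d ^ (i + (L' + 1)) = (d ^ (i + (L' + 1)) - d ^ L') + d ^ L' := by
      have : d ^ L' ≤ d ^ (i + (L' + 1)) := Nat.pow_le_pow_right (by omega) (by omega)
      omega
    rw [e1, pow_add, mul_assoc, norm_mul, mul_comm]
    apply mul_le_mul (hPB L') _ (norm_nonneg _) (by norm_num)
    rw [norm_pow]
    have e2 : (‖x‖ ^ (d ^ (i + (L' + 1)) - d ^ L')) ^ 2 ≤ (1 / 4) ^ 2 := by
      rw [← pow_mul]
      calc ‖x‖ ^ ((d ^ (i + (L' + 1)) - d ^ L') * 2) ≤ ‖x‖ ^ (d ^ n) := by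
            apply pow_le_pow_of_le_one hxn0 hx1
            rw [hL]
            have e3 : 2 * d ^ L' ≤ d ^ (i + (L' + 1)) := by
              calc 2 * d ^ L' ≤ d * d ^ L' := Nat.mul_le_mul_right _ hd
                _ = d ^ (L' + 1) := by rw [pow_succ, mul_comm]
                _ ≤ d ^ (i + (L' + 1)) := Nat.pow_le_pow_right (by omega) (by omega)
            omega
        _ ≤ (1 / 4) ^ 2 := by
            refine hxn.trans (hRi.trans ?_)
            norm_num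
    exact le_of_sq_le_sq e2 (by norm_num)
  have h7 : ‖BB d β n x‖ ≤ ‖x ^ (d ^ (i + (L' + 1))) * (P d (i + 1 + (L' + 1)) c - P d (L' + 1) c)‖ +
      ‖x ^ (d ^ (i + (L' + 1))) * P d (L' + 1) c‖ := by
    rw [← h5]
    refine le_trans (le_of_eq ?_) (norm_add_le _ _)
    congr 1
    ring
  linarith

end Pool.Agent.TH653.MC
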