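import Mathlib
import Pool.Agent.TH653.MC.C4

set_option autoImplicit false

/-! # Crude bounds -/

namespace Pool.Agent.TH653.MC

open Complex Set Topology Filter Metric MeasureTheory N62a1eb23 Pool.Agent.H712R2 Pool.Agent.H713R2
open Pool.Agent.TH653.MB Real
open scoped ENNReal

variable {d : ℕ} {β : ℂ → ℂ}

/-- the Fourier coefficients of `log |f|` -/
theorem fc_log {f : ℂ → ℂ} {ρ σ : ℝ} (hρ : 0 < ρ) (hσ : ρ < σ) (hf : DifferentiableOn ℂ f (ball 0 σ))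
    (h0 : ∀ x ∈ ball (0 : ℂ) σ, f x ≠ 0) {m : ℕ} (hm : 1 ≤ m) :
    2 * fc (fun x => Real.log ‖f x‖) ρ m = tc (logDeriv f) (m - 1) / m := by
  have hσ0 : 0 < σ := hρ.trans hσ
  obtain ⟨g, hg, hge, hgd⟩ := exists_log_ball hσ0 hf h0
  have hmC : (m : ℂ) ≠ 0 := by
    have : m ≠ 0 := by omega
    exact_mod_cast this
  -- the coefficient of `g`
  have h1 : tc (logDeriv f) (m - 1) = m * tc g m := by
    have h2 : tc (logDeriv f) (m - 1) = tc (deriv g) (m - 1) := by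
      apply tc_congr
      filter_upwards [isOpen_ball.mem_nhds (mem_ball_self hσ0)] with x hx
      exact (hgd x hx).symm
    rw [h2, tc_deriv]
    obtain ⟨k, rfl⟩ : ∃ k, m = k + 1 := Nat.exists_eq_add_of_le' hm
    simp
  rw [h1, mul_div_cancel_left₀ _ hmC]
  have hsph : ∀ θ, circleMap 0 ρ θ ∈ ball (0 : ℂ) σ := by
    intro θ
    rw [mem_ball_zero_iff, norm_circleMap_zero, abs_of_pos hρ]
    exact hσ
  have h3 : fc (fun x => Real.log ‖f x‖) ρ m = fc (fun x => (g x).re) ρ m := by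
    apply fc_congr
    intro θ
    exact log_norm_of_exp (hge _ (hsph θ))
  rw [h3]
  have hgc := hg.continuousOn
  -- split into `g` and its conjugate
  have hρC : (ρ : ℂ) ≠ 0 := by exact_mod_cast hρ.ne'
  have e1 := av_div_pow hρ hσ hg m
  have e2 := av_mul_pow hρ hσ hg hm
  have hc1 : ContinuousOn (fun x : ℂ => x ^ m * g x) (ball 0 σ) := by fun_prop
  have e3 : circleAverage (fun x => (starRingEnd ℂ) (x ^ m * g x)) 0 ρ = 0 := by
    have h := (Complex.conjCLE : ℂ →L[ℝ] ℂ).circleAverage_comp_comm (f := fun x => x ^ m * g x)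
      (c := 0) (R := ρ) (ci_of_diff hρ hσ hc1)
    rw [e2, map_zero] at h
    exact h
  have e4 : 2 * fc (fun x => (g x).re) ρ m = circleAverage (fun x => g x / x ^ m) 0 ρ +
      ((ρ : ℂ) ^ (2 * m))⁻¹ * circleAverage (fun x => (starRingEnd ℂ) (x ^ m * g x)) 0 ρ := by
    unfold fc circleAverage
    rw [mul_smul_comm, mul_smul_comm, ← smul_add, ← intervalIntegral.integral_const_mul,
      ← intervalIntegral.integral_const_mul, ← intervalIntegral.integral_add]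
    · congr 1
      apply intervalIntegral.integral_congr
      intro θ _
      simp only
      obtain ⟨x, hx⟩ : ∃ x, x = circleMap 0 ρ θ := ⟨_, rfl⟩
      rw [← hx]
      have hxn : ‖x‖ = ρ := by rw [hx, norm_circleMap_zero, abs_of_pos hρ]
      have hx0 : x ≠ 0 := by
        intro h
        rw [h, norm_zero] at hxn
        linarith
      have hxx : x * (starRingEnd ℂ) x = (ρ : ℂ) ^ 2 := by
        rw [Complex.mul_conj, Complex.normSq_eq_norm_sq, hxn]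
        push_cast
        ring
      have hre : ((g x).re : ℂ) = (g x + (starRingEnd ℂ) (g x)) / 2 := by
        rw [Complex.add_conj]
        push_cast
        ring
      have hcx : (starRingEnd ℂ) x ^ m * x ^ m = (ρ : ℂ) ^ (2 * m) := by
        rw [← mul_pow, mul_comm ((starRingEnd ℂ) x), hxx, ← pow_mul]
      rw [hre, map_mul, map_pow]
      have hxm : x ^ m ≠ 0 := pow_ne_zero _ hx0
      have hρm : (ρ : ℂ) ^ (2 * m) ≠ 0 := pow_ne_zero _ hρC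
      field_simp
      rw [← hcx]
      ring
    · apply Continuous.intervalIntegrable
      have hc2 : ContinuousOn (fun x : ℂ => g x / x ^ m) (ball 0 σ \ {0}) := by
        apply (hgc.mono sdiff_subset).div (by fun_prop)
        intro x hx
        exact pow_ne_zero _ (fun h => hx.2 h)
      apply hc2.comp_continuous (continuous_circleMap 0 ρ)
      intro θ
      refine ⟨hsph θ, ?_⟩
      intro h
      have h' : ‖circleMap 0 ρ θ‖ = 0 := by rw [mem_singleton_iff.1 h, norm_zero]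
      rw [norm_circleMap_zero, abs_of_pos hρ] at h'
      linarith
    · apply Continuous.intervalIntegrable
      apply continuous_const.mul
      exact Complex.continuous_conj.comp (hc1.comp_continuous (continuous_circleMap 0 ρ) hsph)
  rw [e4, e3, mul_zero, add_zero, e1]

/-- the radii at level `n` -/
theorem radii (hd : 2 ≤ d) (n : ℕ) : ∃ r₁ r₂ : ℝ, 0 < r₁ ∧ r₁ < r₂ ∧ r₂ < 1 ∧
    (∀ r ∈ Ioo r₁ r₂, (2 * R0 d)⁻¹ ≤ r ^ (d ^ n) ∧ r ^ (d ^ n) ≤ (R0 d)⁻¹) ∧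
    1 / (2 * r₁ * (r₂ - r₁)) ≤ 4 * R0 d ^ 2 * d ^ n := by
  obtain ⟨N, hN⟩ : ∃ N, N = d ^ n := ⟨_, rfl⟩
  have hN1 : 1 ≤ N := by rw [hN]; exact Nat.one_le_pow _ _ (by omega)
  have hN0' : (0 : ℝ) < N := by exact_mod_cast (show 0 < N by omega)
  have hN1' : (1 : ℝ) ≤ N := by exact_mod_cast hN1
  have hR := R0_ge d
  have hR0 : 0 < R0 d := by linarith
  have hpw : ∀ R : ℝ, 0 < R → Real.exp (-(Real.log R / N)) ^ N = R⁻¹ := by
    intro R hR
    rw [← Real.exp_nat_mul]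
    have : (N : ℝ) * (-(Real.log R / N)) = -Real.log R := by field_simp
    rw [this, Real.exp_neg, Real.exp_log hR]
  have hlog2 : (1 : ℝ) / 2 ≤ Real.log 2 := by
    have := Real.log_two_gt_d9
    linarith
  have hlogm : Real.log (2 * R0 d) = Real.log 2 + Real.log (R0 d) :=
    Real.log_mul (by norm_num) hR0.ne'
  obtain ⟨r₁, hr₁⟩ : ∃ r₁, r₁ = Real.exp (-(Real.log (2 * R0 d) / N)) := ⟨_, rfl⟩
  obtain ⟨r₂, hr₂⟩ : ∃ r₂, r₂ = Real.exp (-(Real.log (R0 d) / N)) := ⟨_, rfl⟩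
  have h1 : 0 < r₁ := by rw [hr₁]; exact Real.exp_pos _
  have hrr : r₂ = r₁ * Real.exp (Real.log 2 / N) := by
    rw [hr₁, hr₂, ← Real.exp_add]
    congr 1
    rw [hlogm]
    ring
  have hdiff : r₁ * (1 / 2 / N) ≤ r₂ - r₁ := by
    have h2 := Real.add_one_le_exp (Real.log 2 / N)
    have h3 : 1 / 2 / (N : ℝ) ≤ Real.log 2 / N := div_le_div_of_nonneg_right hlog2 hN0'.le
    rw [hrr]
    nlinarith
  have h2 : r₁ < r₂ := by
    have : 0 < r₁ * (1 / 2 / N) := by positivity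
    linarith
  have h3 : r₂ < 1 := by
    rw [hr₂, Real.exp_lt_one_iff]
    have : 0 < Real.log (R0 d) / N := div_pos (Real.log_pos (by linarith)) hN0'
    linarith
  have hr1low : (2 * R0 d)⁻¹ ≤ r₁ := by
    rw [← hpw (2 * R0 d) (by linarith), ← hr₁]
    have h4 : r₁ ^ N ≤ r₁ ^ 1 := pow_le_pow_of_le_one h1.le (h2.le.trans h3.le) hN1
    rwa [pow_one] at h4
  refine ⟨r₁, r₂, h1, h2, h3, fun r hr => ⟨?_, ?_⟩, ?_⟩
  · rw [← hpw (2 * R0 d) (by linarith), ← hr₁, ← hN]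
    exact pow_le_pow_left₀ h1.le hr.1.le N
  · rw [← hpw (R0 d) hR0, ← hr₂, ← hN]
    exact pow_le_pow_left₀ (h1.le.trans hr.1.le) hr.2.le N
  · have hNe : ((d : ℝ)) ^ n = N := by rw [hN]; push_cast; rfl
    rw [hNe]
    have h5 : (2 * R0 d)⁻¹ ^ 2 ≤ r₁ ^ 2 := pow_le_pow_left₀ (by positivity) hr1low 2
    have h6 : (4 * R0 d ^ 2 * N)⁻¹ ≤ 2 * r₁ * (r₂ - r₁) := by
      have e1 : (4 * R0 d ^ 2 * (N : ℝ))⁻¹ = (2 * R0 d)⁻¹ ^ 2 / N := by
        rw [inv_pow, mul_pow]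
        field_simp
        norm_num
      rw [e1]
      calc (2 * R0 d)⁻¹ ^ 2 / N ≤ r₁ ^ 2 / N := div_le_div_of_nonneg_right h5 hN0'.le
        _ = 2 * r₁ * (r₁ * (1 / 2 / N)) := by field_simp
        _ ≤ 2 * r₁ * (r₂ - r₁) := mul_le_mul_of_nonneg_left hdiff (by positivity)
    rw [one_div]
    exact inv_le_of_inv_le₀ (by positivity) h6

/-- the coefficients of `log V_i` -/
noncomputable def tV (d : ℕ) (β : ℂ → ℂ) (i m : ℕ) : ℂ := tc (logDeriv (BB d β i)) (m - 1) / m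

theorem tV_eq (hd : 2 ≤ d) (hβ : IsBeta d β) (i : ℕ) {m : ℕ} (hm : 1 ≤ m) {r : ℝ} (hr : 0 < r)
    (hr1 : r < 1) : 2 * fc (fun x => Real.log ‖BB d β i x‖) r m = tV d β i m :=
  fc_log hr hr1 (BB_diff hβ.diff i) (fun x hx => Pool.Agent.W677.MB.BB_ne hd hβ i hx) hm

theorem crude (hd : 2 ≤ d) (hβ : IsBeta d β) : ∃ C : ℝ, 0 < C ∧ ∀ n i m : ℕ, i ≤ n → 1 ≤ m →
    d ^ n ≤ 2 * m → m ≤ d ^ (n + 1) →
    ‖tV d β i m‖ ≤ C * ((n - i : ℕ) + 1) * (Real.sqrt d)⁻¹ ^ (n - i) := by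
  have hR := R0_ge d
  have hR0 : 0 < R0 d := by linarith
  have hBd := Bd_ge hd
  have hd1 : (1 : ℝ) ≤ d := by exact_mod_cast (show 1 ≤ d by omega)
  have hd0 : (0 : ℝ) < d := by linarith
  obtain ⟨K, hK⟩ : ∃ K, K = Bd d * d := ⟨_, rfl⟩
  have hK1 : 1 ≤ K := by rw [hK]; nlinarith
  obtain ⟨CL, hCL⟩ : ∃ CL, CL = Real.log (1 + 16 * R0 d ^ 2) + 2 * Real.log K := ⟨_, rfl⟩
  have hlogK : 0 ≤ Real.log K := Real.log_nonneg hK1
  have hlogR : 0 ≤ Real.log (1 + 16 * R0 d ^ 2) := Real.log_nonneg (by nlinarith)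
  have hCL0 : 0 ≤ CL := by rw [hCL]; positivity
  obtain ⟨C1, hC1⟩ : ∃ C1, C1 = 4 * R0 d ^ 2 * CL + 1 := ⟨_, rfl⟩
  have hC1' : 1 ≤ C1 := by
    rw [hC1]
    have : 0 ≤ 4 * R0 d ^ 2 * CL := by positivity
    linarith
  refine ⟨2 * (2 * R0 d) ^ d * (2 * Real.sqrt C1 + 8), by positivity, ?_⟩
  intro n i m hin hm hm1 hm2
  obtain ⟨j, hj⟩ : ∃ j, j = n - i := ⟨_, rfl⟩
  rw [← hj]
  obtain ⟨r₁, r₂, h1, h2, h3, h4, h5⟩ := radii hd n
  obtain ⟨τ, hτ⟩ : ∃ τ, τ = (K ^ j)⁻¹ := ⟨_, rfl⟩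
  have hτ0 : 0 < τ := by rw [hτ]; positivity
  have hGB : ∀ x : ℂ, x ≠ 0 → (PP d (i + 1)).eval (x⁻¹ * β x) = BB d β i x / x ^ (d ^ i) := by
    intro x hx
    rw [BB_eq hd β i x hx, eval_PP]
    field_simp
  have hdeg : (PP d (i + 1)).natDegree = d ^ i := natDegree_PP hd i
  have hdi : 1 ≤ d ^ i := Nat.one_le_pow _ _ (by omega)
  have hdin : d ^ i ≤ d ^ n := Nat.pow_le_pow_right (by omega) hin
  obtain ⟨r, hr, -, hbd⟩ := coef_area hβ (p := PP d (i + 1)) (N := d ^ i) (by rw [hdeg]; exact hdi)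
    hdeg.le h1 h2 h3.le hτ0 (b := 4 * R0 d) (by positivity) (by
      intro x hx1 hx2
      have hx0 : x ≠ 0 := by
        rintro rfl
        rw [norm_zero] at hx1
        linarith
      have hxb : x ∈ ball (0 : ℂ) 1 := by rw [mem_ball_zero_iff]; exact hx2.trans h3
      rw [hGB x hx0, norm_div, norm_pow]
      have e1 := AR.BB_le_two hd hβ i hxb
      have e2 := (h4 ‖x‖ ⟨hx1, hx2⟩).1
      have e3 : ‖x‖ ^ (d ^ n) ≤ ‖x‖ ^ (d ^ i) :=
        pow_le_pow_of_le_one (norm_nonneg _) (hx2.trans h3).le hdin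
      have e4 : 0 < ‖x‖ ^ (d ^ i) := by
        have := norm_pos_iff.2 hx0
        positivity
      rw [div_le_iff₀ e4]
      have e5 : 2 ≤ 4 * R0 d * (2 * R0 d)⁻¹ := by
        have : 4 * R0 d * (2 * R0 d)⁻¹ = 2 := by field_simp; norm_num
        linarith
      nlinarith) (T := ∅) Set.finite_empty
  have hr0 : 0 < r := h1.trans hr.1
  have hr1 : r < 1 := hr.2.trans h3
  have hrn := h4 r hr
  have hnorm : ∀ θ, ‖circleMap 0 r θ‖ = r := fun θ => by rw [norm_circleMap_zero, abs_of_pos hr0]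
  have hmemb : ∀ θ, circleMap 0 r θ ∈ ball (0 : ℂ) 1 := fun θ => by
    rw [mem_ball_zero_iff, hnorm]; exact hr1
  have hne0 : ∀ θ, circleMap 0 r θ ≠ 0 := fun θ h => by
    have := hnorm θ
    rw [h, norm_zero] at this
    linarith
  obtain ⟨G, hG⟩ : ∃ G : ℂ → ℂ, G = fun x => (PP d (i + 1)).eval (x⁻¹ * β x) := ⟨_, rfl⟩
  have hGn : ∀ θ, ‖G (circleMap 0 r θ)‖ = ‖BB d β i (circleMap 0 r θ)‖ / r ^ (d ^ i) := by
    intro θ
    rw [hG]
    simp only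
    rw [hGB _ (hne0 θ), norm_div, norm_pow, hnorm]
  have hri0 : 0 < r ^ (d ^ i) := by positivity
  have hri1 : r ^ (d ^ i) ≤ 1 := pow_le_one₀ hr0.le hr1.le
  have hBlow : ∀ θ, 3 / 8 ≤ Bd d ^ j * ‖BB d β i (circleMap 0 r θ)‖ := by
    intro θ
    rw [hj]
    apply BB_low hd hβ hin (hmemb θ)
    rw [hnorm]
    exact hrn.2
  have hBpos : ∀ θ, 0 < ‖BB d β i (circleMap 0 r θ)‖ := fun θ =>
    norm_pos_iff.2 (Pool.Agent.W677.MB.BB_ne hd hβ i (hmemb θ))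
  have hGpos : ∀ θ, 0 < ‖G (circleMap 0 r θ)‖ := fun θ => by
    rw [hGn]
    exact div_pos (hBpos θ) hri0
  have hGlow : ∀ θ, ‖BB d β i (circleMap 0 r θ)‖ ≤ ‖G (circleMap 0 r θ)‖ := by
    intro θ
    rw [hGn, le_div_iff₀ hri0]
    exact mul_le_of_le_one_right (norm_nonneg _) hri1
  -- continuity
  have hBc : Continuous fun θ => ‖BB d β i (circleMap 0 r θ)‖ :=
    ((BB_diff hβ.diff i).continuousOn.norm).comp_continuous (continuous_circleMap 0 r) hmemb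
  have hGc : Continuous fun θ => ‖G (circleMap 0 r θ)‖ := by
    have : (fun θ => ‖G (circleMap 0 r θ)‖) = fun θ => ‖BB d β i (circleMap 0 r θ)‖ / r ^ (d ^ i) :=
      funext hGn
    rw [this]
    exact hBc.div_const _
  -- the decomposition
  obtain ⟨v, hv⟩ : ∃ v : ℂ → ℝ, v = fun x => 1 / 2 * Real.log (‖G x‖ ^ 2 + τ ^ 2) := ⟨_, rfl⟩
  obtain ⟨e, he⟩ : ∃ e : ℂ → ℝ, e = fun x => Real.log ‖G x‖ - v x := ⟨_, rfl⟩
  have hvc : Continuous fun θ => v (circleMap 0 r θ) := by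
    rw [hv]
    apply continuous_const.mul
    apply Continuous.log ((hGc.pow 2).add continuous_const)
    intro θ
    have h9 : 0 < ‖G (circleMap 0 r θ)‖ ^ 2 + τ ^ 2 := by positivity
    exact h9.ne'
  have hec : Continuous fun θ => e (circleMap 0 r θ) := by
    rw [he]
    exact (Continuous.log hGc (fun θ => (hGpos θ).ne')).sub hvc
  have hdec : fc (fun x => Real.log ‖BB d β i x‖) r m = fc v r m + fc e r m := by
    have s1 : fc (fun x => Real.log ‖BB d β i x‖) r m =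
        fc (fun x => (v x + e x) + Real.log (r ^ (d ^ i))) r m := by
      apply fc_congr
      intro θ
      rw [he]
      simp only
      have := hGn θ
      rw [this, Real.log_div (hBpos θ).ne' hri0.ne']
      ring
    rw [s1, fc_add hr0 m (hvc.add hec) continuous_const, fc_add hr0 m hvc hec, fc_const hr0 hm, add_zero]
  -- the error
  have hee : ∀ θ, |e (circleMap 0 r θ)| ≤ 4 * ((d : ℝ)⁻¹ ^ j) := by
    intro θ
    have g0 := hGpos θ
    have g1 : e (circleMap 0 r θ) = - (1 / 2 * Real.log (1 + τ ^ 2 / ‖G (circleMap 0 r θ)‖ ^ 2)) := by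
      rw [he, hv]
      simp only
      have g2 : ‖G (circleMap 0 r θ)‖ ^ 2 + τ ^ 2 =
          ‖G (circleMap 0 r θ)‖ ^ 2 * (1 + τ ^ 2 / ‖G (circleMap 0 r θ)‖ ^ 2) := by
        field_simp
      rw [g2, Real.log_mul (by positivity) (by positivity), Real.log_pow]
      push_cast
      ring
    have g3 : 0 ≤ τ ^ 2 / ‖G (circleMap 0 r θ)‖ ^ 2 := by positivity
    have g4 : 0 ≤ Real.log (1 + τ ^ 2 / ‖G (circleMap 0 r θ)‖ ^ 2) := Real.log_nonneg (by linarith)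
    have g5 : Real.log (1 + τ ^ 2 / ‖G (circleMap 0 r θ)‖ ^ 2) ≤ τ ^ 2 / ‖G (circleMap 0 r θ)‖ ^ 2 := by
      have := Real.log_le_sub_one_of_pos (show 0 < 1 + τ ^ 2 / ‖G (circleMap 0 r θ)‖ ^ 2 by linarith)
      linarith
    rw [g1, abs_neg, abs_of_nonneg (by positivity)]
    have g6 : τ ^ 2 / ‖G (circleMap 0 r θ)‖ ^ 2 ≤ 8 * (d : ℝ)⁻¹ ^ j := by
      rw [div_le_iff₀ (by positivity)]
      have g7 : τ = (Bd d ^ j)⁻¹ * (d : ℝ)⁻¹ ^ j := by
        rw [hτ, hK, mul_pow, mul_inv, inv_pow]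
      have g8 : 3 / 8 * (Bd d ^ j)⁻¹ ≤ ‖G (circleMap 0 r θ)‖ := by
        refine le_trans ?_ (hGlow θ)
        have := hBlow θ
        have hB0 : 0 < Bd d ^ j := by positivity
        rw [← div_eq_mul_inv, div_le_iff₀ hB0]
        linarith
      have g9 : (3 / 8 * (Bd d ^ j)⁻¹) ^ 2 ≤ ‖G (circleMap 0 r θ)‖ ^ 2 :=
        pow_le_pow_left₀ (by positivity) g8 2
      have g10 : (d : ℝ)⁻¹ ^ j ≤ 1 := pow_le_one₀ (by positivity) (inv_le_one_of_one_le₀ hd1)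
      have g11 : 0 < (d : ℝ)⁻¹ ^ j := by positivity
      calc τ ^ 2 = (Bd d ^ j)⁻¹ ^ 2 * (d : ℝ)⁻¹ ^ j * (d : ℝ)⁻¹ ^ j := by rw [g7]; ring
        _ ≤ (Bd d ^ j)⁻¹ ^ 2 * (d : ℝ)⁻¹ ^ j * 1 := mul_le_mul_of_nonneg_left g10 (by positivity)
        _ ≤ 8 * (d : ℝ)⁻¹ ^ j * (3 / 8 * (Bd d ^ j)⁻¹) ^ 2 := by
            have : 0 ≤ (Bd d ^ j)⁻¹ ^ 2 * (d : ℝ)⁻¹ ^ j := by positivity
            nlinarith
        _ ≤ 8 * (d : ℝ)⁻¹ ^ j * ‖G (circleMap 0 r θ)‖ ^ 2 :=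
            mul_le_mul_of_nonneg_left g9 (by positivity)
    linarith
  have hfe : ‖fc e r m‖ * r ^ m ≤ 4 * ((d : ℝ)⁻¹ ^ j) := by
    refine (norm_fc_le hr0 m).trans ?_
    have hci : CircleIntegrable (fun x => |e x|) 0 r := by
      have : Continuous fun θ => |e (circleMap 0 r θ)| := hec.abs
      exact this.intervalIntegrable _ _
    apply Real.circleAverage_mono_on_of_le_circle hci
    intro x hx
    rw [mem_sphere_zero_iff_norm, abs_of_pos hr0] at hx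
    obtain ⟨θ, rfl⟩ : ∃ θ, circleMap 0 r θ = x := by
      have : x ∈ sphere (0 : ℂ) |r| := by rw [mem_sphere_zero_iff_norm, hx, abs_of_pos hr0]
      rw [← range_circleMap] at this
      exact this
    exact hee θ
  -- the main part
  have hNn0 : (0 : ℝ) < (d : ℝ) ^ n := by positivity
  have hm0 : (0 : ℝ) < m := by exact_mod_cast (show 0 < m by omega)
  have hmn : (d : ℝ) ^ n ≤ 2 * m := by exact_mod_cast hm1
  have hfv : ‖fc v r m‖ * r ^ m ≤ 2 * Real.sqrt C1 * (((j : ℝ) + 1) * (Real.sqrt d)⁻¹ ^ j) := by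
    have s1 := hbd m hm τ le_rfl
    have s2 : fc (fun x => 1 / 2 * Real.log (‖(PP d (i + 1)).eval (x⁻¹ * β x)‖ ^ 2 + τ ^ 2)) r m =
        fc v r m := by rw [hv, hG]
    rw [s2] at s1
    have s3 : Real.log (1 + (4 * R0 d) ^ 2 / τ ^ 2) ≤ CL * (j + 1) := by
      have s4 : 1 + (4 * R0 d) ^ 2 / τ ^ 2 ≤ (1 + 16 * R0 d ^ 2) * K ^ (2 * j) := by
        have s5 : (4 * R0 d) ^ 2 / τ ^ 2 = 16 * R0 d ^ 2 * K ^ (2 * j) := by
          rw [hτ, inv_pow, div_inv_eq_mul, ← pow_mul, mul_comm j 2]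
          ring
        have s6 : 1 ≤ K ^ (2 * j) := one_le_pow₀ hK1
        rw [s5]
        linarith
      have s7 : 0 < 1 + (4 * R0 d) ^ 2 / τ ^ 2 := by positivity
      refine (Real.log_le_log s7 s4).trans ?_
      rw [Real.log_mul (by positivity) (by positivity), Real.log_pow, hCL]
      push_cast
      have : (0 : ℝ) ≤ j := Nat.cast_nonneg j
      nlinarith
    have s8 : ((d ^ i : ℕ) : ℝ) * Real.log (1 + (4 * R0 d) ^ 2 / τ ^ 2) / (2 * r₁ * (r₂ - r₁)) + 1 ≤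
        C1 * ((j : ℝ) + 1) * (d : ℝ) ^ i * (d : ℝ) ^ n := by
      have s9 : ((d ^ i : ℕ) : ℝ) * Real.log (1 + (4 * R0 d) ^ 2 / τ ^ 2) / (2 * r₁ * (r₂ - r₁)) ≤
          (d : ℝ) ^ i * (CL * (j + 1)) * (4 * R0 d ^ 2 * d ^ n) := by
        rw [div_eq_mul_one_div]
        push_cast
        have hL0 : 0 ≤ Real.log (1 + (4 * R0 d) ^ 2 / τ ^ 2) := Real.log_nonneg (by
          have : 0 ≤ (4 * R0 d) ^ 2 / τ ^ 2 := by positivity
          linarith)
        have hpos : 0 < 2 * r₁ * (r₂ - r₁) := by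
          have : 0 < r₂ - r₁ := by linarith
          positivity
        exact mul_le_mul (mul_le_mul_of_nonneg_left s3 (by positivity)) h5 (by positivity) (by positivity)
      have s10 : (1 : ℝ) ≤ ((j : ℝ) + 1) * (d : ℝ) ^ i * (d : ℝ) ^ n := by
        have a1 : (1 : ℝ) ≤ (d : ℝ) ^ i := one_le_pow₀ hd1
        have a2 : (1 : ℝ) ≤ (d : ℝ) ^ n := one_le_pow₀ hd1
        have a3 : (1 : ℝ) ≤ (j : ℝ) + 1 := by
          have : (0 : ℝ) ≤ j := Nat.cast_nonneg j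
          linarith
        exact one_le_mul_of_one_le_of_one_le (one_le_mul_of_one_le_of_one_le a3 a1) a2
      calc _ ≤ (d : ℝ) ^ i * (CL * (j + 1)) * (4 * R0 d ^ 2 * d ^ n) +
            ((j : ℝ) + 1) * (d : ℝ) ^ i * (d : ℝ) ^ n := add_le_add s9 s10
        _ = C1 * ((j : ℝ) + 1) * (d : ℝ) ^ i * (d : ℝ) ^ n := by rw [hC1]; ring
    have s11 := s1.trans (Real.sqrt_le_sqrt s8)
    have s12 : Real.sqrt (C1 * ((j : ℝ) + 1) * (d : ℝ) ^ i * (d : ℝ) ^ n) ≤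
        Real.sqrt C1 * (((j : ℝ) + 1) * (Real.sqrt d)⁻¹ ^ j) * (d : ℝ) ^ n := by
      apply Real.sqrt_le_iff.2
      constructor
      · positivity
      · have t1 : Real.sqrt C1 ^ 2 = C1 := Real.sq_sqrt (by linarith)
        have t2 : ((Real.sqrt d)⁻¹ ^ j) ^ 2 = ((d : ℝ) ^ j)⁻¹ := by
          rw [← pow_mul, mul_comm, pow_mul, inv_pow, Real.sq_sqrt hd0.le, inv_pow]
        have t3 : (d : ℝ) ^ n = (d : ℝ) ^ i * (d : ℝ) ^ j := by
          rw [← pow_add]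
          congr 1
          omega
        have t4 : (1 : ℝ) ≤ (j : ℝ) + 1 := by
          have : (0 : ℝ) ≤ j := Nat.cast_nonneg j
          linarith
        calc C1 * ((j : ℝ) + 1) * (d : ℝ) ^ i * (d : ℝ) ^ n ≤
              C1 * (((j : ℝ) + 1) * ((j : ℝ) + 1)) * (d : ℝ) ^ i * (d : ℝ) ^ n := by
              apply mul_le_mul_of_nonneg_right _ hNn0.le
              apply mul_le_mul_of_nonneg_right _ (by positivity)
              apply mul_le_mul_of_nonneg_left _ (by linarith)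
              nlinarith
          _ = C1 * (((j : ℝ) + 1) ^ 2 * ((d : ℝ) ^ j)⁻¹) * ((d : ℝ) ^ n) ^ 2 := by
              rw [t3]
              field_simp
          _ = (Real.sqrt C1 * (((j : ℝ) + 1) * (Real.sqrt d)⁻¹ ^ j) * (d : ℝ) ^ n) ^ 2 := by
              rw [mul_pow, mul_pow, mul_pow, t1, t2]
    have s13 := s11.trans s12
    have s14 : (m : ℝ) * (‖fc v r m‖ * r ^ m) ≤
        m * (2 * Real.sqrt C1 * (((j : ℝ) + 1) * (Real.sqrt d)⁻¹ ^ j)) := by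
      refine s13.trans ?_
      have : 0 ≤ Real.sqrt C1 * (((j : ℝ) + 1) * (Real.sqrt d)⁻¹ ^ j) := by positivity
      nlinarith
    exact le_of_mul_le_mul_left s14 hm0
  -- conclusion
  have hdj : (d : ℝ)⁻¹ ^ j ≤ ((j : ℝ) + 1) * (Real.sqrt d)⁻¹ ^ j := by
    have a1 : (d : ℝ)⁻¹ ≤ (Real.sqrt d)⁻¹ := by
      apply inv_anti₀ (Real.sqrt_pos.2 hd0)
      rw [Real.sqrt_le_left hd0.le]
      nlinarith
    have a2 : (d : ℝ)⁻¹ ^ j ≤ (Real.sqrt d)⁻¹ ^ j := pow_le_pow_left₀ (by positivity) a1 j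
    have a3 : 0 ≤ (Real.sqrt d)⁻¹ ^ j := by positivity
    have a4 : (0 : ℝ) ≤ j := Nat.cast_nonneg j
    nlinarith
  have hrm : ((2 * R0 d) ^ d)⁻¹ ≤ r ^ m := by
    calc ((2 * R0 d) ^ d)⁻¹ = ((2 * R0 d)⁻¹) ^ d := (inv_pow _ _).symm
      _ ≤ (r ^ (d ^ n)) ^ d := pow_le_pow_left₀ (by positivity) hrn.1 d
      _ = r ^ (d ^ (n + 1)) := by rw [← pow_mul, pow_succ]
      _ ≤ r ^ m := pow_le_pow_of_le_one hr0.le hr1.le hm2
  rw [← tV_eq hd hβ i hm hr0 hr1, hdec, norm_mul, Complex.norm_two]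
  have hsum : ‖fc v r m + fc e r m‖ * r ^ m ≤
      (2 * Real.sqrt C1 + 4) * (((j : ℝ) + 1) * (Real.sqrt d)⁻¹ ^ j) := by
    calc ‖fc v r m + fc e r m‖ * r ^ m ≤ (‖fc v r m‖ + ‖fc e r m‖) * r ^ m :=
          mul_le_mul_of_nonneg_right (norm_add_le _ _) (by positivity)
      _ = ‖fc v r m‖ * r ^ m + ‖fc e r m‖ * r ^ m := by ring
      _ ≤ 2 * Real.sqrt C1 * (((j : ℝ) + 1) * (Real.sqrt d)⁻¹ ^ j) + 4 * ((d : ℝ)⁻¹ ^ j) :=
          add_le_add hfv hfe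
      _ ≤ (2 * Real.sqrt C1 + 4) * (((j : ℝ) + 1) * (Real.sqrt d)⁻¹ ^ j) := by nlinarith
  have hRd : 0 < (2 * R0 d) ^ d := by positivity
  have hfin : ‖fc v r m + fc e r m‖ ≤ (2 * R0 d) ^ d *
      ((2 * Real.sqrt C1 + 4) * (((j : ℝ) + 1) * (Real.sqrt d)⁻¹ ^ j)) := by
    have b1 : ‖fc v r m + fc e r m‖ * ((2 * R0 d) ^ d)⁻¹ ≤ ‖fc v r m + fc e r m‖ * r ^ m :=
      mul_le_mul_of_nonneg_left hrm (norm_nonneg _)
    have b2 := b1.trans hsum
    rw [← div_eq_mul_inv, div_le_iff₀ hRd] at b2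
    linarith
  have hq0 : 0 ≤ ((j : ℝ) + 1) * (Real.sqrt d)⁻¹ ^ j := by positivity
  have hsq : 0 ≤ Real.sqrt C1 := Real.sqrt_nonneg _
  calc 2 * ‖fc v r m + fc e r m‖ ≤ 2 * ((2 * R0 d) ^ d *
      ((2 * Real.sqrt C1 + 4) * (((j : ℝ) + 1) * (Real.sqrt d)⁻¹ ^ j))) := by linarith
    _ ≤ 2 * ((2 * R0 d) ^ d *
      ((2 * Real.sqrt C1 + 8) * (((j : ℝ) + 1) * (Real.sqrt d)⁻¹ ^ j))) := by
        apply mul_le_mul_of_nonneg_left _ (by norm_num)
        apply mul_le_mul_of_nonneg_left _ hRd.le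
        apply mul_le_mul_of_nonneg_right _ hq0
        linarith
    _ = 2 * (2 * R0 d) ^ d * (2 * Real.sqrt C1 + 8) * ((j : ℝ) + 1) * (Real.sqrt d)⁻¹ ^ j := by ring

end Pool.Agent.TH653.MC
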