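import Mathlib
import Pool.Agent.TH653.MB.A7
import Pool.Agent.TH653.MC.C5

set_option autoImplicit false

/-! # Reduction to the functions `V_i` -/

namespace Pool.Agent.TH653.MC

open Complex Set Topology Filter Metric MeasureTheory N62a1eb23 Pool.Agent.H712R2 Pool.Agent.H713R2
open Pool.Agent.TH653.MB Real
open scoped ENNReal

variable {d : ℕ} {β : ℂ → ℂ}

/-- Jensen's inequality -/
theorem jensen {f : ℂ → ℂ} {r : ℝ} (hr : 0 < r) (hf : AnalyticOnNhd ℂ f (closedBall 0 |r|))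
    (h0 : f 0 ≠ 0) : Real.log ‖f 0‖ ≤ circleAverage (Real.log ‖f ·‖) 0 r := by
  rw [hf.circleAverage_log_norm hr.ne' h0]
  have h1 : 0 ≤ ∑ᶠ u, (MeromorphicOn.divisor f (closedBall 0 |r|) u : ℝ) *
      Real.log (r * ‖(0 : ℂ) - u‖⁻¹) := by
    apply finsum_nonneg
    intro u
    by_cases hu : u ∈ closedBall (0 : ℂ) |r|
    · apply mul_nonneg
      · exact_mod_cast MeromorphicOn.AnalyticOnNhd.divisor_nonneg hf u
      · rw [zero_sub, norm_neg]
        rw [mem_closedBall_zero_iff, abs_of_pos hr] at hu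
        by_cases hu0 : ‖u‖ = 0
        · rw [hu0]
          simp
        · apply Real.log_nonneg
          have : 0 < ‖u‖ := lt_of_le_of_ne (norm_nonneg _) (Ne.symm hu0)
          rw [← div_eq_mul_inv, one_le_div this]
          exact hu
    · rw [Function.locallyFinsuppWithin.apply_eq_zero_of_notMem _ hu]
      simp
  linarith

theorem av_log {f : ℂ → ℂ} {ρ σ : ℝ} (hρ : 0 < ρ) (hσ : ρ < σ) (hf : DifferentiableOn ℂ f (ball 0 σ))
    (h0 : ∀ x ∈ ball (0 : ℂ) σ, f x ≠ 0) (hf0 : f 0 = 1) :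
    circleAverage (fun x => Real.log ‖f x‖) 0 ρ = 0 := by
  have hσ0 : 0 < σ := hρ.trans hσ
  obtain ⟨g, hg, hge, hgd⟩ := exists_log_ball hσ0 hf h0
  have h1 := av_re hρ hσ hg
  have h2 := log_norm_of_exp (hge 0 (mem_ball_self hσ0))
  rw [hf0, norm_one, Real.log_one] at h2
  rw [← h2] at h1
  rw [← h1]
  apply circleAverage_congr_sphere
  intro x hx
  rw [mem_sphere_zero_iff_norm, abs_of_pos hρ] at hx
  exact log_norm_of_exp (hge x (by rw [mem_ball_zero_iff, hx]; exact hσ))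

theorem VP_diff (hβ : IsBeta d β) (k n : ℕ) : DifferentiableOn ℂ (VP d β k n) (ball 0 1) := by
  unfold VP
  exact DifferentiableOn.fun_finsetProd fun i _ => (BB_diff hβ.diff i).pow _

theorem VP_ne (hd : 2 ≤ d) (hβ : IsBeta d β) (k n : ℕ) {x : ℂ} (hx : x ∈ ball (0 : ℂ) 1) :
    VP d β k n x ≠ 0 := by
  unfold VP
  exact Finset.prod_ne_zero_iff.2 fun i _ => pow_ne_zero _ (Pool.Agent.W677.MB.BB_ne hd hβ i hx)

theorem VP_zero_val (hd : 2 ≤ d) (hβ : IsBeta d β) (k n : ℕ) : VP d β k n 0 = 1 := by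
  unfold VP
  exact Finset.prod_eq_one fun i _ => by rw [BB_zero_val hd hβ, one_pow]

theorem VP_le (hd : 2 ≤ d) (hβ : IsBeta d β) (k n : ℕ) {x : ℂ} (hx : x ∈ ball (0 : ℂ) 1) :
    ‖VP d β k n x‖ ≤ (2 ^ (d - 1)) ^ (n - k) := by
  unfold VP
  rw [norm_prod]
  calc ∏ i ∈ Finset.Ico k n, ‖BB d β i x ^ (d - 1)‖ ≤ ∏ i ∈ Finset.Ico k n, (2 : ℝ) ^ (d - 1) := by
        apply Finset.prod_le_prod (fun i _ => norm_nonneg _)
        intro i _
        rw [norm_pow]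
        exact pow_le_pow_left₀ (norm_nonneg _) (AR.BB_le_two hd hβ i hx) _
    _ = (2 ^ (d - 1)) ^ (n - k) := by rw [Finset.prod_const, Nat.card_Ico]

theorem tc_VP (hd : 2 ≤ d) (hβ : IsBeta d β) (k n m : ℕ) :
    tc (logDeriv (VP d β k n)) (m - 1) / m = ((d - 1 : ℕ) : ℂ) * ∑ i ∈ Finset.Ico k n, tV d β i m := by
  unfold VP
  rw [tc_logDeriv_finset_prod (Finset.Ico k n) (f := fun i x => BB d β i x ^ (d - 1))
    (fun i _ => by have := BB_analyticAt (d := d) hβ i; fun_prop)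
    (fun i _ => pow_ne_zero _ (by rw [BB_zero_val hd hβ]; exact one_ne_zero))]
  rw [Finset.sum_div, Finset.mul_sum]
  apply Finset.sum_congr rfl
  intro i _
  rw [tc_logDeriv_pow (BB_analyticAt hβ i) (by rw [BB_zero_val hd hβ]; exact one_ne_zero)]
  unfold tV
  ring

theorem AA'_le (hd : 2 ≤ d) (j : ℕ) : MB.AA' d j ≤ 2 * (2 ^ (d - 1)) ^ j := by
  have hM : (2 : ℝ) ≤ 2 ^ (d - 1) := by
    calc (2 : ℝ) = 2 ^ 1 := (pow_one _).symm
      _ ≤ 2 ^ (d - 1) := pow_le_pow_right₀ (by norm_num) (by omega)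
  have h : MB.AA' d j ≤ 2 * (2 ^ (d - 1)) ^ j - 1 := by
    induction j with
    | zero => norm_num [MB.AA']
    | succ j ih =>
      simp only [MB.AA']
      have h1 : (2 : ℝ) ^ (d - 1) * MB.AA' d j ≤ 2 ^ (d - 1) * (2 * (2 ^ (d - 1)) ^ j - 1) :=
        mul_le_mul_of_nonneg_left ih (by positivity)
      have h2 : (2 : ℝ) ^ (d - 1) * (2 * (2 ^ (d - 1)) ^ j - 1) =
          2 * (2 ^ (d - 1)) ^ (j + 1) - 2 ^ (d - 1) := by ring
      linarith
  linarith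

theorem YY_le (hd : 2 ≤ d) (hβ : IsBeta d β) (k : ℕ) {x : ℂ} (hx : x ∈ ball (0 : ℂ) 1) :
    ‖YY d β k x‖ ≤ 2 * (2 ^ (d - 1)) ^ k := by
  have hM : (2 : ℝ) ≤ 2 ^ (d - 1) := by
    calc (2 : ℝ) = 2 ^ 1 := (pow_one _).symm
      _ ≤ 2 ^ (d - 1) := pow_le_pow_right₀ (by norm_num) (by omega)
  have hx1 : ‖x‖ ≤ 1 := by rw [mem_ball_zero_iff] at hx; exact hx.le
  have hd1 : (1 : ℝ) ≤ d := by exact_mod_cast (show 1 ≤ d by omega)
  have h : ‖YY d β k x‖ ≤ 2 * (2 ^ (d - 1)) ^ k - 1 := by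
    induction k with
    | zero =>
      have : YY d β 0 x = 1 := rfl
      rw [this, norm_one, pow_zero]
      norm_num
    | succ k ih =>
      rw [YY_succ]
      refine (norm_add_le _ _).trans ?_
      rw [norm_mul, norm_pow, norm_div, norm_pow, norm_pow, Complex.norm_natCast]
      have h1 : ‖BB d β k x‖ ^ (d - 1) * ‖YY d β k x‖ ≤ 2 ^ (d - 1) * (2 * (2 ^ (d - 1)) ^ k - 1) :=
        mul_le_mul (pow_le_pow_left₀ (norm_nonneg _) (AR.BB_le_two hd hβ k hx) _) ih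
          (norm_nonneg _) (by positivity)
      have h3 : ‖x‖ ^ (d ^ (k + 1) - 1) / (d : ℝ) ^ (k + 1) ≤ 1 := by
        rw [div_le_one (by positivity)]
        exact (pow_le_one₀ (norm_nonneg _) hx1).trans (one_le_pow₀ hd1)
      have h2 : (2 : ℝ) ^ (d - 1) * (2 * (2 ^ (d - 1)) ^ k - 1) =
          2 * (2 ^ (d - 1)) ^ (k + 1) - 2 ^ (d - 1) := by ring
      linarith
  linarith

theorem sqrt_pack (hd : 2 ≤ d) {C t : ℝ} (hC : 0 ≤ C) (ht : 1 ≤ t) {i n : ℕ} (hin : i ≤ n) :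
    Real.sqrt (C * t * (d : ℝ) ^ i * (d : ℝ) ^ n) ≤
      Real.sqrt C * (t * (Real.sqrt d)⁻¹ ^ (n - i)) * (d : ℝ) ^ n := by
  have hd0 : (0 : ℝ) < d := by exact_mod_cast (show 0 < d by omega)
  obtain ⟨j, hj⟩ : ∃ j, j = n - i := ⟨_, rfl⟩
  rw [← hj]
  apply Real.sqrt_le_iff.2
  constructor
  · positivity
  · have t1 : Real.sqrt C ^ 2 = C := Real.sq_sqrt hC
    have t2 : ((Real.sqrt d)⁻¹ ^ j) ^ 2 = ((d : ℝ) ^ j)⁻¹ := by
      rw [← pow_mul, mul_comm, pow_mul, inv_pow, Real.sq_sqrt hd0.le, inv_pow]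
    have t3 : (d : ℝ) ^ n = (d : ℝ) ^ i * (d : ℝ) ^ j := by
      rw [← pow_add]
      congr 1
      omega
    calc C * t * (d : ℝ) ^ i * (d : ℝ) ^ n ≤ C * (t * t) * (d : ℝ) ^ i * (d : ℝ) ^ n := by
          apply mul_le_mul_of_nonneg_right _ (by positivity)
          apply mul_le_mul_of_nonneg_right _ (by positivity)
          apply mul_le_mul_of_nonneg_left _ hC
          nlinarith
      _ = C * (t ^ 2 * ((d : ℝ) ^ j)⁻¹) * ((d : ℝ) ^ n) ^ 2 := by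
          rw [t3]
          field_simp
      _ = (Real.sqrt C * (t * (Real.sqrt d)⁻¹ ^ j) * (d : ℝ) ^ n) ^ 2 := by
          rw [mul_pow, mul_pow, mul_pow, t1, t2]

/-- the function `log |Y_k|`, smoothed -/
noncomputable def vY (d : ℕ) (β : ℂ → ℂ) (k : ℕ) : ℂ → ℝ := fun x =>
  1 / 2 * Real.log (‖YY d β k x‖ ^ 2 + (((d : ℝ) ^ k)⁻¹) ^ 2)

theorem red_v (hd : 2 ≤ d) (hβ : IsBeta d β) : ∃ C1 : ℝ, 1 ≤ C1 ∧ ∀ n k : ℕ, 1 ≤ k → k ≤ n →
    ∃ r σ : ℝ, 0 < r ∧ r < σ ∧ σ < 1 ∧ σ ^ (d ^ n) ≤ (R0 d)⁻¹ ∧ (2 * R0 d)⁻¹ ≤ r ^ (d ^ n) ∧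
    (∀ x, ‖x‖ = r → YY d β k x ≠ 0) ∧ ∀ m : ℕ, 1 ≤ m → d ^ n ≤ 2 * m →
    ‖fc (vY d β k) r m‖ * r ^ m ≤ 2 * Real.sqrt C1 * (((k : ℝ) + 1) * (Real.sqrt d)⁻¹ ^ (n - k)) := by
  have hR := R0_ge d
  have hR0 : 0 < R0 d := by linarith
  have hBd := Bd_ge hd
  have hd1 : (1 : ℝ) ≤ d := by exact_mod_cast (show 1 ≤ d by omega)
  have hd0 : (0 : ℝ) < d := by linarith
  obtain ⟨K, hK⟩ : ∃ K, K = Bd d * d := ⟨_, rfl⟩
  have hK1 : 1 ≤ K := by rw [hK]; nlinarith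
  obtain ⟨CL, hCL⟩ : ∃ CL, CL = Real.log (1 + 16 * R0 d ^ 2) + 2 * Real.log K := ⟨_, rfl⟩
  have hlogK : 0 ≤ Real.log K := Real.log_nonneg hK1
  have hlogR : 0 ≤ Real.log (1 + 16 * R0 d ^ 2) := Real.log_nonneg (by nlinarith)
  have hCL0 : 0 ≤ CL := by rw [hCL]; positivity
  obtain ⟨C1, hC1⟩ : ∃ C1, C1 = 4 * R0 d ^ 2 * CL + 1 := ⟨_, rfl⟩
  have hC1' : 1 ≤ C1 := by
    rw [hC1]
    have : 0 ≤ 4 * R0 d ^ 2 * CL := by positivity
    linarith
  refine ⟨C1, hC1', ?_⟩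
  intro n k hk1 hkn
  obtain ⟨r₁, r₂, h1, h2, h3, h4, h5⟩ := radii hd n
  obtain ⟨N, hN⟩ : ∃ N, N = d ^ k := ⟨_, rfl⟩
  have hN2 : 2 ≤ N := by rw [hN]; exact two_le_pow hd hk1
  obtain ⟨τ, hτ⟩ : ∃ τ : ℝ, τ = ((d : ℝ) ^ k)⁻¹ := ⟨_, rfl⟩
  have hτ0 : 0 < τ := by rw [hτ]; positivity
  obtain ⟨p, hp⟩ : ∃ p, p = Polynomial.derivative (PP d (k + 1)) := ⟨_, rfl⟩
  have hpdeg : p.natDegree = N - 1 := by rw [hp, natDegree_dPP hd, hN]
  have hGY : ∀ x : ℂ, x ≠ 0 → (d : ℂ) ^ k * YY d β k x = x ^ (N - 1) * p.eval (x⁻¹ * β x) := by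
    intro x hx
    rw [hp, hN]
    exact YY_eq hd β k hx
  have hdk0 : (0 : ℝ) < (d : ℝ) ^ k := by positivity
  have hkn' : d ^ k ≤ d ^ n := Nat.pow_le_pow_right (by omega) hkn
  have hnormG : ∀ x : ℂ, x ≠ 0 → ‖p.eval (x⁻¹ * β x)‖ * ‖x‖ ^ (N - 1) = (d : ℝ) ^ k * ‖YY d β k x‖ := by
    intro x hx
    have := congrArg norm (hGY x hx)
    rw [norm_mul, norm_mul, norm_pow, norm_pow, Complex.norm_natCast] at this
    linarith
  obtain ⟨r, hr, hrT, hbd⟩ := coef_area hβ (p := p) (N := d ^ k) (by rw [hpdeg]; omega)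
    (by rw [hpdeg, hN]; exact Nat.sub_le _ _) h1 h2 h3.le hτ0 (b := 4 * R0 d * Bd d ^ k) (by positivity) (by
      intro x hx1 hx2
      have hx0 : x ≠ 0 := by
        rintro rfl
        rw [norm_zero] at hx1
        linarith
      have hxb : x ∈ ball (0 : ℂ) 1 := by rw [mem_ball_zero_iff]; exact hx2.trans h3
      have e0 := hnormG x hx0
      have e1 := YY_le hd hβ k hxb
      have e2 := (h4 ‖x‖ ⟨hx1, hx2⟩).1
      have e3 : ‖x‖ ^ (d ^ n) ≤ ‖x‖ ^ (N - 1) :=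
        pow_le_pow_of_le_one (norm_nonneg _) (hx2.trans h3).le (by omega)
      have e6 : (d : ℝ) ^ k * ‖YY d β k x‖ ≤ 2 * Bd d ^ k := by
        unfold Bd
        rw [mul_pow]
        calc (d : ℝ) ^ k * ‖YY d β k x‖ ≤ (d : ℝ) ^ k * (2 * (2 ^ (d - 1)) ^ k) :=
              mul_le_mul_of_nonneg_left e1 hdk0.le
          _ = 2 * ((d : ℝ) ^ k * (2 ^ (d - 1)) ^ k) := by ring
      have e7 : ‖p.eval (x⁻¹ * β x)‖ * (2 * R0 d)⁻¹ ≤ 2 * Bd d ^ k := by
        calc ‖p.eval (x⁻¹ * β x)‖ * (2 * R0 d)⁻¹ ≤ ‖p.eval (x⁻¹ * β x)‖ * ‖x‖ ^ (N - 1) :=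
              mul_le_mul_of_nonneg_left (e2.trans e3) (norm_nonneg _)
          _ ≤ 2 * Bd d ^ k := by rw [e0]; exact e6
      rw [← div_eq_mul_inv, div_le_iff₀ (by positivity)] at e7
      calc ‖p.eval (x⁻¹ * β x)‖ ≤ 2 * Bd d ^ k * (2 * R0 d) := e7
        _ = 4 * R0 d * Bd d ^ k := by ring) (zeros_finite hβ (crit d k))
  obtain ⟨σ, hσ⟩ : ∃ σ, σ = (r + r₂) / 2 := ⟨_, rfl⟩
  have hrσ : r < σ := by rw [hσ]; linarith [hr.2]
  have hσr₂ : σ < r₂ := by rw [hσ]; linarith [hr.2]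
  have hσI : σ ∈ Ioo r₁ r₂ := ⟨hr.1.trans hrσ, hσr₂⟩
  have hσ1 : σ < 1 := hσr₂.trans h3
  have hr0 : 0 < r := h1.trans hr.1
  have hr1 : r < 1 := hr.2.trans h3
  have hσ0 : 0 < σ := hr0.trans hrσ
  have hrn := h4 r hr
  have hsub : ball (0 : ℂ) σ ⊆ ball 0 1 := ball_subset_ball hσ1.le
  have hnorm : ∀ θ, ‖circleMap 0 r θ‖ = r := fun θ => by rw [norm_circleMap_zero, abs_of_pos hr0]
  have hmemb : ∀ θ, circleMap 0 r θ ∈ ball (0 : ℂ) 1 := fun θ => by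
    rw [mem_ball_zero_iff, hnorm]; exact hr1
  have hne0 : ∀ θ, circleMap 0 r θ ≠ 0 := fun θ h => by
    have := hnorm θ
    rw [h, norm_zero] at this
    linarith
  refine ⟨r, σ, hr0, hrσ, hσ1, (h4 σ hσI).2, hrn.1, ?_, ?_⟩
  · intro x hx hz
    apply hrT
    rw [YY_prod hd hβ k x, Multiset.prod_eq_zero_iff, Multiset.mem_map] at hz
    obtain ⟨w, hw, hwx⟩ := hz
    exact ⟨w, hw, x, by rw [mem_ball_zero_iff, hx]; exact hr1, hwx, hx⟩
  intro m hm hm1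
  obtain ⟨v, hv⟩ : ∃ v : ℂ → ℝ, v = fun x => 1 / 2 * Real.log (‖YY d β k x‖ ^ 2 + τ ^ 2) := ⟨_, rfl⟩
  have hvY : vY d β k = v := by rw [hv, hτ]; rfl
  rw [hvY]
  have hNn0 : (0 : ℝ) < (d : ℝ) ^ n := by positivity
  have hm0 : (0 : ℝ) < m := by exact_mod_cast (show 0 < m by omega)
  have hmn : (d : ℝ) ^ n ≤ 2 * m := by exact_mod_cast hm1
  have hk0 : (0 : ℝ) ≤ k := Nat.cast_nonneg k
  obtain ⟨τ', hτ'⟩ : ∃ τ' : ℝ, τ' = τ * (d : ℝ) ^ k / r ^ (N - 1) := ⟨_, rfl⟩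
  have hrN0 : 0 < r ^ (N - 1) := by positivity
  have hττ : τ ≤ τ' := by
    rw [hτ', le_div_iff₀ hrN0]
    have a1 : r ^ (N - 1) ≤ 1 := pow_le_one₀ hr0.le hr1.le
    have a2 : (1 : ℝ) ≤ (d : ℝ) ^ k := one_le_pow₀ hd1
    calc τ * r ^ (N - 1) ≤ τ * 1 := mul_le_mul_of_nonneg_left a1 hτ0.le
      _ ≤ τ * (d : ℝ) ^ k := mul_le_mul_of_nonneg_left a2 hτ0.le
  have s1 := hbd m hm τ' hττ
  have s2 : fc v r m = fc (fun x => 1 / 2 * Real.log (‖p.eval (x⁻¹ * β x)‖ ^ 2 + τ' ^ 2)) r m := by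
    have e1 : fc v r m = fc (fun x => 1 / 2 * Real.log (‖p.eval (x⁻¹ * β x)‖ ^ 2 + τ' ^ 2) +
        Real.log (r ^ (N - 1) / (d : ℝ) ^ k)) r m := by
      apply fc_congr
      intro θ
      rw [hv]
      simp only
      have e2 := hnormG _ (hne0 θ)
      rw [hnorm θ] at e2
      have e3 : ‖YY d β k (circleMap 0 r θ)‖ ^ 2 + τ ^ 2 = (r ^ (N - 1) / (d : ℝ) ^ k) ^ 2 *
          (‖p.eval ((circleMap 0 r θ)⁻¹ * β (circleMap 0 r θ))‖ ^ 2 + τ' ^ 2) := by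
        have e4 : ‖YY d β k (circleMap 0 r θ)‖ =
            ‖p.eval ((circleMap 0 r θ)⁻¹ * β (circleMap 0 r θ))‖ * r ^ (N - 1) / (d : ℝ) ^ k := by
          rw [e2]; field_simp
        have e5 : τ = τ' * (r ^ (N - 1) / (d : ℝ) ^ k) := by
          rw [hτ']; field_simp
        rw [e4]
        nth_rewrite 1 [e5]
        ring
      have e6 : 0 < ‖p.eval ((circleMap 0 r θ)⁻¹ * β (circleMap 0 r θ))‖ ^ 2 + τ' ^ 2 := by
        have : 0 < τ' := hτ0.trans_le hττ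
        positivity
      rw [e3, Real.log_mul (by positivity) e6.ne', Real.log_pow]
      push_cast
      ring
    have hτ'0 : 0 < τ' := hτ0.trans_le hττ
    have hGcont : Continuous fun θ => ‖p.eval ((circleMap 0 r θ)⁻¹ * β (circleMap 0 r θ))‖ := by
      apply Continuous.norm
      apply p.continuous.comp
      apply Continuous.mul
      · exact (continuous_circleMap 0 r).inv₀ hne0
      · exact hβ.diff.continuousOn.comp_continuous (continuous_circleMap 0 r) hmemb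
    have hcc : Continuous fun θ =>
        1 / 2 * Real.log (‖p.eval ((circleMap 0 r θ)⁻¹ * β (circleMap 0 r θ))‖ ^ 2 + τ' ^ 2) := by
      apply continuous_const.mul
      apply Continuous.log ((hGcont.pow 2).add continuous_const)
      intro θ
      have h9 : 0 < ‖p.eval ((circleMap 0 r θ)⁻¹ * β (circleMap 0 r θ))‖ ^ 2 + τ' ^ 2 := by positivity
      exact h9.ne'
    rw [e1, fc_add hr0 m hcc continuous_const, fc_const hr0 hm, add_zero]
  rw [← s2] at s1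
  have s3 : Real.log (1 + (4 * R0 d * Bd d ^ k) ^ 2 / τ ^ 2) ≤ CL * (k + 1) := by
    have s4 : 1 + (4 * R0 d * Bd d ^ k) ^ 2 / τ ^ 2 ≤ (1 + 16 * R0 d ^ 2) * K ^ (2 * k) := by
      have s5 : (4 * R0 d * Bd d ^ k) ^ 2 / τ ^ 2 = 16 * R0 d ^ 2 * K ^ (2 * k) := by
        rw [hτ, inv_pow, div_inv_eq_mul, hK, mul_comm 2 k, pow_mul, mul_pow (Bd d) (d : ℝ) k]
        ring
      have s6 : 1 ≤ K ^ (2 * k) := one_le_pow₀ hK1
      rw [s5]
      linarith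
    have s7 : 0 < 1 + (4 * R0 d * Bd d ^ k) ^ 2 / τ ^ 2 := by positivity
    refine (Real.log_le_log s7 s4).trans ?_
    rw [Real.log_mul (by positivity) (by positivity), Real.log_pow, hCL]
    push_cast
    nlinarith
  have s8 : ((d ^ k : ℕ) : ℝ) * Real.log (1 + (4 * R0 d * Bd d ^ k) ^ 2 / τ ^ 2) / (2 * r₁ * (r₂ - r₁)) + 1 ≤
      C1 * ((k : ℝ) + 1) * (d : ℝ) ^ k * (d : ℝ) ^ n := by
    have s9 : ((d ^ k : ℕ) : ℝ) * Real.log (1 + (4 * R0 d * Bd d ^ k) ^ 2 / τ ^ 2) / (2 * r₁ * (r₂ - r₁)) ≤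
        (d : ℝ) ^ k * (CL * (k + 1)) * (4 * R0 d ^ 2 * d ^ n) := by
      rw [div_eq_mul_one_div]
      push_cast
      have hpos : 0 < 2 * r₁ * (r₂ - r₁) := by
        have : 0 < r₂ - r₁ := by linarith
        positivity
      exact mul_le_mul (mul_le_mul_of_nonneg_left s3 (by positivity)) h5 (by positivity) (by positivity)
    have s10 : (1 : ℝ) ≤ ((k : ℝ) + 1) * (d : ℝ) ^ k * (d : ℝ) ^ n := by
      have a1 : (1 : ℝ) ≤ (d : ℝ) ^ k := one_le_pow₀ hd1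
      have a2 : (1 : ℝ) ≤ (d : ℝ) ^ n := one_le_pow₀ hd1
      have a3 : (1 : ℝ) ≤ (k : ℝ) + 1 := by linarith
      exact one_le_mul_of_one_le_of_one_le (one_le_mul_of_one_le_of_one_le a3 a1) a2
    calc _ ≤ (d : ℝ) ^ k * (CL * (k + 1)) * (4 * R0 d ^ 2 * d ^ n) +
          ((k : ℝ) + 1) * (d : ℝ) ^ k * (d : ℝ) ^ n := add_le_add s9 s10
      _ = C1 * ((k : ℝ) + 1) * (d : ℝ) ^ k * (d : ℝ) ^ n := by rw [hC1]; ring
  have s11 := s1.trans (Real.sqrt_le_sqrt s8)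
  have s12 := sqrt_pack hd (C := C1) (t := (k : ℝ) + 1) (by linarith) (by linarith) hkn
  have s13 := s11.trans s12
  have s14 : (m : ℝ) * (‖fc v r m‖ * r ^ m) ≤
      m * (2 * Real.sqrt C1 * (((k : ℝ) + 1) * (Real.sqrt d)⁻¹ ^ (n - k))) := by
    refine s13.trans ?_
    have : 0 ≤ Real.sqrt C1 * (((k : ℝ) + 1) * (Real.sqrt d)⁻¹ ^ (n - k)) := by positivity
    nlinarith
  exact le_of_mul_le_mul_left s14 hm0

theorem red_g (hd : 2 ≤ d) (hβ : IsBeta d β) {n k : ℕ} (hkn : k ≤ n) {r σ : ℝ} (hr0 : 0 < r)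
    (hrσ : r < σ) (hσ1 : σ < 1) (hσn : σ ^ (d ^ n) ≤ (R0 d)⁻¹) (hYk : ∀ x, ‖x‖ = r → YY d β k x ≠ 0)
    (m : ℕ) (hm : 1 ≤ m) (hm2 : m < d ^ (n + 1) - 1) :
    ∃ G : ℂ, tc (logDeriv (qq β)) (m - 1) / m + ((d - 1 : ℕ) : ℂ) * ∑ i ∈ Finset.Ico k n, tV d β i m =
      2 * (G - fc (vY d β k) r m) ∧ ‖G‖ * r ^ m ≤ 12 * Real.sqrt (1 + EE β) *
        ((2 ^ (d - 1)) ^ (n - k) / (d : ℝ) ^ k * Real.sqrt ((d : ℝ) ^ n)) := by
  have hR := R0_ge d
  have hR0 : 0 < R0 d := by linarith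
  have hd1 : (1 : ℝ) ≤ d := by exact_mod_cast (show 1 ≤ d by omega)
  have hd0 : (0 : ℝ) < d := by linarith
  have hEE := EE_nonneg β
  obtain ⟨j, hj⟩ : ∃ j, j = n - k := ⟨_, rfl⟩
  have hnkj : n = k + j := by omega
  obtain ⟨τ, hτ⟩ : ∃ τ : ℝ, τ = ((d : ℝ) ^ k)⁻¹ := ⟨_, rfl⟩
  have hτ0 : 0 < τ := by rw [hτ]; positivity
  have hdk0 : (0 : ℝ) < (d : ℝ) ^ k := by positivity
  have hr1 : r < 1 := hrσ.trans hσ1
  have hσ0 : 0 < σ := hr0.trans hrσ
  have hrn2 : r ^ (d ^ n) ≤ (R0 d)⁻¹ := (pow_le_pow_left₀ hr0.le hrσ.le _).trans hσn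
  have hsub : ball (0 : ℂ) σ ⊆ ball 0 1 := ball_subset_ball hσ1.le
  have hYne : ∀ x ∈ ball (0 : ℂ) σ, YY d β n x ≠ 0 := by
    intro x hx
    apply YY_ne hd hβ n (hsub hx)
    rw [mem_ball_zero_iff] at hx
    exact (pow_le_pow_left₀ (norm_nonneg _) hx.le _).trans hσn
  have hYnd : DifferentiableOn ℂ (YY d β n) (ball 0 σ) := (YY_diff hβ n).mono hsub
  have hnorm : ∀ θ, ‖circleMap 0 r θ‖ = r := fun θ => by rw [norm_circleMap_zero, abs_of_pos hr0]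
  have hmemσ : ∀ θ, circleMap 0 r θ ∈ ball (0 : ℂ) σ := fun θ => by
    rw [mem_ball_zero_iff, hnorm]; exact hrσ
  have hmemb : ∀ θ, circleMap 0 r θ ∈ ball (0 : ℂ) 1 := fun θ => hsub (hmemσ θ)
  have hne0 : ∀ θ, circleMap 0 r θ ≠ 0 := fun θ h => by
    have := hnorm θ
    rw [h, norm_zero] at this
    linarith
  -- the functions
  obtain ⟨v, hv⟩ : ∃ v : ℂ → ℝ, v = fun x => 1 / 2 * Real.log (‖YY d β k x‖ ^ 2 + τ ^ 2) := ⟨_, rfl⟩
  have hvY : vY d β k = v := by rw [hv, hτ]; rfl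
  rw [hvY]
  obtain ⟨g, hg⟩ : ∃ g : ℂ → ℝ, g = fun x => Real.log ‖VP d β k n x‖ + v x - Real.log ‖YY d β n x‖ :=
    ⟨_, rfl⟩
  have hYkc : Continuous fun θ => ‖YY d β k (circleMap 0 r θ)‖ :=
    ((YY_diff hβ k).continuousOn.norm).comp_continuous (continuous_circleMap 0 r) hmemb
  have hYnc : Continuous fun θ => ‖YY d β n (circleMap 0 r θ)‖ :=
    ((YY_diff hβ n).continuousOn.norm).comp_continuous (continuous_circleMap 0 r) hmemb
  have hVPc : Continuous fun θ => ‖VP d β k n (circleMap 0 r θ)‖ :=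
    ((VP_diff hβ k n).continuousOn.norm).comp_continuous (continuous_circleMap 0 r) hmemb
  have hqc : Continuous fun θ => ‖qq β (circleMap 0 r θ)‖ :=
    ((qq_diff hβ).continuousOn.norm).comp_continuous (continuous_circleMap 0 r) hmemb
  have hvc : Continuous fun θ => v (circleMap 0 r θ) := by
    rw [hv]
    apply continuous_const.mul
    apply Continuous.log ((hYkc.pow 2).add continuous_const)
    intro θ
    have h9 : 0 < ‖YY d β k (circleMap 0 r θ)‖ ^ 2 + τ ^ 2 := by positivity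
    exact h9.ne'
  have hlYc : Continuous fun θ => Real.log ‖YY d β n (circleMap 0 r θ)‖ :=
    Continuous.log hYnc (fun θ => (norm_pos_iff.2 (hYne _ (hmemσ θ))).ne')
  have hlVc : Continuous fun θ => Real.log ‖VP d β k n (circleMap 0 r θ)‖ :=
    Continuous.log hVPc (fun θ => (norm_pos_iff.2 (VP_ne hd hβ k n (hmemb θ))).ne')
  have hgc : Continuous fun θ => g (circleMap 0 r θ) := by
    rw [hg]
    exact (hlVc.add hvc).sub hlYc
  -- Fourier coefficients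
  have hmC : (m : ℂ) ≠ 0 := by
    have : m ≠ 0 := by omega
    exact_mod_cast this
  have hfY : 2 * fc (fun x => Real.log ‖YY d β n x‖) r m = - (tc (logDeriv (qq β)) (m - 1) / m) := by
    rw [fc_log hr0 hrσ hYnd hYne hm, tc_qq hd hβ n (by omega)]
    ring
  have hfV : 2 * fc (fun x => Real.log ‖VP d β k n x‖) r m =
      ((d - 1 : ℕ) : ℂ) * ∑ i ∈ Finset.Ico k n, tV d β i m := by
    rw [fc_log hr0 hr1 (VP_diff hβ k n) (fun x hx => VP_ne hd hβ k n hx) hm, tc_VP hd hβ]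
  have hsplit : fc (fun x => Real.log ‖VP d β k n x‖) r m + fc v r m =
      fc g r m + fc (fun x => Real.log ‖YY d β n x‖) r m := by
    rw [← fc_add hr0 m hlVc hvc, ← fc_add hr0 m hgc hlYc]
    apply fc_congr
    intro θ
    rw [hg]
    simp only
    ring
  have hkey : tc (logDeriv (qq β)) (m - 1) / m + ((d - 1 : ℕ) : ℂ) * ∑ i ∈ Finset.Ico k n, tV d β i m =
      2 * (fc g r m - fc v r m) := by
    rw [← hfV]
    have e1 : tc (logDeriv (qq β)) (m - 1) / m = - (2 * fc (fun x => Real.log ‖YY d β n x‖) r m) := by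
      rw [hfY]; ring
    rw [e1]
    linear_combination 2 * hsplit
  -- the error
  obtain ⟨M, hM⟩ : ∃ M : ℝ, M = (2 ^ (d - 1)) ^ (n - k) := ⟨_, rfl⟩
  have hM0 : 0 < M := by rw [hM]; positivity
  obtain ⟨A, hA⟩ : ∃ A : ℝ, A = 3 * M / (d : ℝ) ^ k := ⟨_, rfl⟩
  have hA0 : 0 < A := by rw [hA]; positivity
  obtain ⟨e, he⟩ : ∃ e : ℂ → ℝ, e = fun x => 2 * A * ‖qq β x‖ := ⟨_, rfl⟩
  have hec : Continuous fun θ => e (circleMap 0 r θ) := by
    rw [he]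
    exact continuous_const.mul hqc
  have hge : ∀ θ, g (circleMap 0 r θ) ≤ e (circleMap 0 r θ) := by
    intro θ
    obtain ⟨x, hx⟩ : ∃ x, x = circleMap 0 r θ := ⟨_, rfl⟩
    rw [← hx]
    have hx1 : x ∈ ball (0 : ℂ) 1 := by rw [hx]; exact hmemb θ
    have hxσ : x ∈ ball (0 : ℂ) σ := by rw [hx]; exact hmemσ θ
    have hxn : ‖x‖ = r := by rw [hx]; exact hnorm θ
    have hYq := half_le_YY hd hβ n hx1 (by rw [hxn]; exact hrn2)
    have hS := S_bound hd hβ k j hx1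
    rw [← hnkj] at hS
    have hYpos : 0 < ‖YY d β n x‖ := norm_pos_iff.2 (hYne x hxσ)
    have hVpos : 0 < ‖VP d β k n x‖ := norm_pos_iff.2 (VP_ne hd hβ k n hx1)
    have hVle := VP_le hd hβ k n hx1
    rw [← hM] at hVle
    have hAAle := AA'_le hd j
    rw [hj, ← hM] at hAAle
    have hS' : ‖YY d β n x - VP d β k n x * YY d β k x‖ ≤ 2 * M / (d : ℝ) ^ k := by
      refine hS.trans ?_
      apply div_le_div_of_nonneg_right _ hdk0.le
      rw [hj]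
      exact hAAle
    obtain ⟨s, hs⟩ : ∃ s, s = Real.sqrt (‖YY d β k x‖ ^ 2 + τ ^ 2) := ⟨_, rfl⟩
    have hpos : 0 < ‖YY d β k x‖ ^ 2 + τ ^ 2 := by positivity
    have hs0 : 0 < s := by rw [hs]; exact Real.sqrt_pos.2 hpos
    have hsle : s ≤ ‖YY d β k x‖ + τ := by
      rw [hs, Real.sqrt_le_left (by positivity)]
      have : 0 ≤ ‖YY d β k x‖ * τ := by positivity
      nlinarith
    have hvs : v x = Real.log s := by
      rw [hv, hs, Real.log_sqrt hpos.le]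
      simp only
      ring
    have hgx : g x = Real.log (‖VP d β k n x‖ * s / ‖YY d β n x‖) := by
      rw [hg]
      simp only
      rw [hvs, Real.log_div (by positivity) hYpos.ne', Real.log_mul hVpos.ne' hs0.ne']
    have hD : ‖VP d β k n x‖ * s ≤ ‖YY d β n x‖ + A := by
      have e2 := norm_sub_norm_le (VP d β k n x * YY d β k x) (YY d β n x)
      rw [norm_sub_rev, norm_mul] at e2
      have e3 : ‖VP d β k n x‖ * τ ≤ M / (d : ℝ) ^ k := by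
        rw [hτ, ← div_eq_mul_inv]
        exact div_le_div_of_nonneg_right hVle hdk0.le
      have e4 : ‖VP d β k n x‖ * s ≤ ‖VP d β k n x‖ * (‖YY d β k x‖ + τ) :=
        mul_le_mul_of_nonneg_left hsle hVpos.le
      have e5 : A = 2 * M / (d : ℝ) ^ k + M / (d : ℝ) ^ k := by rw [hA]; ring
      rw [e5]
      linarith
    have hle1 : ‖VP d β k n x‖ * s / ‖YY d β n x‖ ≤ 1 + 2 * A * ‖qq β x‖ := by
      rw [div_le_iff₀ hYpos]
      nlinarith
    rw [hgx, he]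
    refine (Real.log_le_sub_one_of_pos (by positivity)).trans ?_
    simp only
    linarith
  have hci : ∀ {u : ℂ → ℝ}, (Continuous fun θ => u (circleMap 0 r θ)) → CircleIntegrable u 0 r :=
    fun h => h.intervalIntegrable _ _
  -- the averages
  have havV : circleAverage (fun x => Real.log ‖VP d β k n x‖) 0 r = 0 :=
    av_log hr0 hr1 (VP_diff hβ k n) (fun x hx => VP_ne hd hβ k n hx) (VP_zero_val hd hβ k n)
  have havY : circleAverage (fun x => Real.log ‖YY d β n x‖) 0 r = 0 :=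
    av_log hr0 hrσ hYnd hYne (YY_zero_val hd hβ n)
  have hYkan : AnalyticOnNhd ℂ (YY d β k) (closedBall 0 |r|) := by
    intro x hx
    apply (YY_diff hβ k).analyticAt (isOpen_ball.mem_nhds _)
    rw [mem_closedBall_zero_iff, abs_of_pos hr0] at hx
    rw [mem_ball_zero_iff]
    linarith
  have havv : 0 ≤ circleAverage v 0 r := by
    have hj1 := jensen hr0 hYkan (by rw [YY_zero_val hd hβ]; exact one_ne_zero)
    rw [YY_zero_val hd hβ, norm_one, Real.log_one] at hj1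
    refine hj1.trans ?_
    apply circleAverage_mono
    · exact (hYkan.mono sphere_subset_closedBall).meromorphicOn.circleIntegrable_log_norm
    · exact hci hvc
    · intro x hx
      rw [hv]
      simp only
      have hz' : 0 < ‖YY d β k x‖ := by
        rw [mem_sphere_zero_iff_norm, abs_of_pos hr0] at hx
        exact norm_pos_iff.2 (hYk x hx)
      have e1 : Real.log ‖YY d β k x‖ = 1 / 2 * Real.log (‖YY d β k x‖ ^ 2) := by
        rw [Real.log_pow]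
        push_cast
        ring
      rw [e1]
      apply mul_le_mul_of_nonneg_left _ (by norm_num)
      apply Real.log_le_log (by positivity)
      have : 0 < τ ^ 2 := by positivity
      linarith
  have havg : 0 ≤ circleAverage g 0 r := by
    have e1 : circleAverage g 0 r = circleAverage (fun x => Real.log ‖VP d β k n x‖) 0 r +
        circleAverage v 0 r - circleAverage (fun x => Real.log ‖YY d β n x‖) 0 r := by
      rw [hg]
      have i1 := hci (u := fun x => Real.log ‖VP d β k n x‖) hlVc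
      have i2 := hci (u := v) hvc
      have i3 := hci (u := fun x => Real.log ‖YY d β n x‖) hlYc
      have e2 : circleAverage (fun x => Real.log ‖VP d β k n x‖ + v x - Real.log ‖YY d β n x‖) 0 r =
          circleAverage (fun x => Real.log ‖VP d β k n x‖ + v x) 0 r -
            circleAverage (fun x => Real.log ‖YY d β n x‖) 0 r :=
        circleAverage_fun_sub (i1.add i2) i3
      rw [e2, circleAverage_fun_add i1 i2]
    rw [e1, havV, havY]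
    linarith
  have hfg : ‖fc g r m‖ * r ^ m ≤ 2 * circleAverage e 0 r := by
    refine (norm_fc_le hr0 m).trans ?_
    have i1 : CircleIntegrable (fun x => |g x|) 0 r := hci hgc.abs
    have i2 : CircleIntegrable (fun x => 2 * e x) 0 r := hci (continuous_const.mul hec)
    have i3 : CircleIntegrable (fun x => 2 * e x - g x) 0 r := hci ((continuous_const.mul hec).sub hgc)
    have e1 : circleAverage (fun x => |g x|) 0 r ≤ circleAverage (fun x => 2 * e x - g x) 0 r := by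
      apply circleAverage_mono i1 i3
      intro x hx
      obtain ⟨θ, rfl⟩ : ∃ θ, circleMap 0 r θ = x := by
        rw [← range_circleMap] at hx
        exact hx
      have e2 := hge θ
      have e3 : 0 ≤ e (circleMap 0 r θ) := by rw [he]; positivity
      rcases abs_cases (g (circleMap 0 r θ)) with ⟨e4, _⟩ | ⟨e4, _⟩ <;> rw [e4] <;> linarith
    have e5 : circleAverage (fun x => 2 * e x - g x) 0 r = 2 * circleAverage e 0 r - circleAverage g 0 r := by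
      rw [circleAverage_fun_sub i2 (hci hgc)]
      congr 1
      exact Real.circleAverage_fun_smul (a := (2 : ℝ)) (f := e)
    rw [e5] at e1
    linarith
  have have' : circleAverage e 0 r ≤ 2 * A * Real.sqrt ((1 + EE β) * (d : ℝ) ^ n) := by
    have e1 : circleAverage e 0 r = 2 * A * circleAverage (fun x => ‖qq β x‖) 0 r := by
      rw [he]
      exact Real.circleAverage_fun_smul (a := 2 * A) (f := fun x => ‖qq β x‖)
    rw [e1]
    apply mul_le_mul_of_nonneg_left _ (by positivity)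
    have e2 := av_qq hβ (N := d ^ n) (Nat.one_le_pow _ _ (by omega)) hr0 hr1
      (hrn2.trans (inv_le_exp (by linarith)))
    have e3 : ((d ^ n : ℕ) : ℝ) = (d : ℝ) ^ n := by push_cast; rfl
    rwa [e3] at e2
  refine ⟨fc g r m, hkey, ?_⟩
  rw [← hM]
  refine hfg.trans ?_
  have e1 : 2 * (2 * A * Real.sqrt ((1 + EE β) * (d : ℝ) ^ n)) =
      12 * Real.sqrt (1 + EE β) * (M / (d : ℝ) ^ k * Real.sqrt ((d : ℝ) ^ n)) := by
    rw [Real.sqrt_mul (by linarith), hA]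
    ring
  linarith

theorem reduction (hd : 2 ≤ d) (hβ : IsBeta d β) : ∃ C : ℝ, 0 < C ∧ ∀ n k m : ℕ, 1 ≤ k → k ≤ n →
    1 ≤ m → d ^ n ≤ 2 * m → m < d ^ (n + 1) - 1 →
    ‖tc (logDeriv (qq β)) (m - 1) / m + ((d - 1 : ℕ) : ℂ) * ∑ i ∈ Finset.Ico k n, tV d β i m‖ ≤
      C * (((k : ℝ) + 1) * (Real.sqrt d)⁻¹ ^ (n - k) +
        (2 ^ (d - 1)) ^ (n - k) / (d : ℝ) ^ k * Real.sqrt ((d : ℝ) ^ n)) := by
  have hR := R0_ge d
  have hR0 : 0 < R0 d := by linarith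
  have hEE := EE_nonneg β
  obtain ⟨C1, hC1', hred⟩ := red_v hd hβ
  refine ⟨2 * (2 * R0 d) ^ d * (2 * Real.sqrt C1 + 12 * Real.sqrt (1 + EE β)), by positivity, ?_⟩
  intro n k m hk1 hkn hm hm1 hm2
  obtain ⟨r, σ, hr0, hrσ, hσ1, hσn, hrn1, hYk, hfv⟩ := hred n k hk1 hkn
  have hfv := hfv m hm hm1
  have hr1 : r < 1 := hrσ.trans hσ1
  obtain ⟨G, hkey, hG⟩ := red_g hd hβ hkn hr0 hrσ hσ1 hσn hYk m hm hm2
  have hrm : ((2 * R0 d) ^ d)⁻¹ ≤ r ^ m := by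
    calc ((2 * R0 d) ^ d)⁻¹ = ((2 * R0 d)⁻¹) ^ d := (inv_pow _ _).symm
      _ ≤ (r ^ (d ^ n)) ^ d := pow_le_pow_left₀ (by positivity) hrn1 d
      _ = r ^ (d ^ (n + 1)) := by rw [← pow_mul, pow_succ]
      _ ≤ r ^ m := pow_le_pow_of_le_one hr0.le hr1.le (by omega)
  have hRd : 0 < (2 * R0 d) ^ d := by positivity
  rw [hkey, norm_mul, Complex.norm_two]
  obtain ⟨X, hX⟩ : ∃ X : ℝ, X = ((k : ℝ) + 1) * (Real.sqrt d)⁻¹ ^ (n - k) := ⟨_, rfl⟩
  obtain ⟨Y, hY⟩ : ∃ Y : ℝ, Y = (2 ^ (d - 1)) ^ (n - k) / (d : ℝ) ^ k * Real.sqrt ((d : ℝ) ^ n) := ⟨_, rfl⟩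
  rw [← hX] at hfv
  rw [← hY] at hG
  rw [← hX, ← hY]
  have hX0 : 0 ≤ X := by rw [hX]; positivity
  have hY0 : 0 ≤ Y := by rw [hY]; positivity
  obtain ⟨V, hV⟩ : ∃ V, V = fc (vY d β k) r m := ⟨_, rfl⟩
  rw [← hV] at hfv ⊢
  have hsum : ‖G - V‖ * r ^ m ≤ 2 * Real.sqrt C1 * X + 12 * Real.sqrt (1 + EE β) * Y := by
    calc ‖G - V‖ * r ^ m ≤ (‖G‖ + ‖V‖) * r ^ m :=
          mul_le_mul_of_nonneg_right (norm_sub_le _ _) (by positivity)
      _ = ‖V‖ * r ^ m + ‖G‖ * r ^ m := by ring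
      _ ≤ _ := add_le_add hfv hG
  have hfin : ‖G - V‖ ≤ (2 * R0 d) ^ d *
      (2 * Real.sqrt C1 * X + 12 * Real.sqrt (1 + EE β) * Y) := by
    have b1 : ‖G - V‖ * ((2 * R0 d) ^ d)⁻¹ ≤ ‖G - V‖ * r ^ m :=
      mul_le_mul_of_nonneg_left hrm (norm_nonneg _)
    have b2 := b1.trans hsum
    rw [← div_eq_mul_inv, div_le_iff₀ hRd] at b2
    linarith
  have hs1 := Real.sqrt_nonneg C1
  have hs2 := Real.sqrt_nonneg (1 + EE β)
  have hfin2 : 2 * Real.sqrt C1 * X + 12 * Real.sqrt (1 + EE β) * Y ≤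
      (2 * Real.sqrt C1 + 12 * Real.sqrt (1 + EE β)) * (X + Y) := by
    have p1 : 0 ≤ Real.sqrt C1 * Y := by positivity
    have p2 : 0 ≤ Real.sqrt (1 + EE β) * X := by positivity
    nlinarith
  calc 2 * ‖G - V‖ ≤ 2 * ((2 * R0 d) ^ d *
      (2 * Real.sqrt C1 * X + 12 * Real.sqrt (1 + EE β) * Y)) := by linarith
    _ ≤ 2 * ((2 * R0 d) ^ d * ((2 * Real.sqrt C1 + 12 * Real.sqrt (1 + EE β)) * (X + Y))) := by
        apply mul_le_mul_of_nonneg_left _ (by norm_num)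
        exact mul_le_mul_of_nonneg_left hfin2 hRd.le
    _ = 2 * (2 * R0 d) ^ d * (2 * Real.sqrt C1 + 12 * Real.sqrt (1 + EE β)) * (X + Y) := by ring

end Pool.Agent.TH653.MC
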