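import Mathlib
import Pool.Agent.TH653.MC.C6

set_option autoImplicit false

/-! # Comparison of the functions `V_j` at rotated points -/

namespace Pool.Agent.TH653.MC

open Complex Set Topology Filter Metric MeasureTheory N62a1eb23 Pool.Agent.H712R2 Pool.Agent.H713R2
open Pool.Agent.TH653.MB Real

variable {d : ℕ} {β : ℂ → ℂ}

/-- near `1` the map `u ↦ u ^ d` expands -/
theorem pow_expand (hd : 2 ≤ d) {u : ℂ} (hu : ‖u - 1‖ ≤ 1 / (4 * d)) : ‖u - 1‖ ≤ ‖u ^ d - 1‖ := by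
  have hd2 : (2 : ℝ) ≤ d := by exact_mod_cast hd
  have hd0 : (0 : ℝ) < d := by linarith
  obtain ⟨μ, hμ⟩ : ∃ μ : ℝ, μ = 1 / (4 * d) := ⟨_, rfl⟩
  rw [← hμ] at hu
  have hμ0 : 0 < μ := by rw [hμ]; positivity
  have hun : ‖u‖ ≤ 1 + μ := by
    have := norm_add_le (u - 1) 1
    rw [sub_add_cancel, norm_one] at this
    linarith
  have hpw : (1 + μ) ^ d ≤ 3 / 2 := by
    have h1 : 1 + μ ≤ Real.exp μ := by
      have := Real.add_one_le_exp μ
      linarith
    have h2 : (1 + μ) ^ d ≤ Real.exp μ ^ d := pow_le_pow_left₀ (by linarith) h1 d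
    rw [← Real.exp_nat_mul] at h2
    have h3 : (d : ℝ) * μ = 1 / 4 := by rw [hμ]; field_simp
    rw [h3] at h2
    have h4 : Real.exp (1 / 4) ≤ 3 / 2 := by
      have h5 : Real.exp (1 / 4) ^ 4 = Real.exp 1 := by
        rw [← Real.exp_nat_mul]
        norm_num
      have h6 : Real.exp (1 / 4) ^ 4 ≤ (3 / 2) ^ 4 := by
        rw [h5]
        have := Real.exp_one_lt_d9
        norm_num
        linarith
      exact le_of_pow_le_pow_left₀ (by norm_num) (by norm_num) h6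
    exact h2.trans h4
  -- the bound for the powers
  have hi : ∀ i : ℕ, i ≤ d → ‖u ^ i - 1‖ ≤ 1 / 2 := by
    intro i hid
    have h1 : ‖u ^ i - 1‖ ≤ (1 + μ) ^ i - 1 := by
      induction i with
      | zero => simp
      | succ i ih =>
        have h2 : u ^ (i + 1) - 1 = u * (u ^ i - 1) + (u - 1) := by ring
        rw [h2]
        refine (norm_add_le _ _).trans ?_
        rw [norm_mul]
        have h3 : ‖u‖ * ‖u ^ i - 1‖ ≤ (1 + μ) * ((1 + μ) ^ i - 1) :=
          mul_le_mul hun (ih (by omega)) (norm_nonneg _) (by linarith)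
        have h4 : (1 + μ) * ((1 + μ) ^ i - 1) = (1 + μ) ^ (i + 1) - 1 - μ := by ring
        linarith
    have h2 : (1 + μ) ^ i ≤ (1 + μ) ^ d := pow_le_pow_right₀ (by linarith) hid
    linarith
  -- factor
  have hfac : u ^ d - 1 = (∑ i ∈ Finset.range d, u ^ i) * (u - 1) := (geom_sum_mul u d).symm
  have hsum : 1 ≤ ‖∑ i ∈ Finset.range d, u ^ i‖ := by
    have h1 : ∑ i ∈ Finset.range d, u ^ i = d + ∑ i ∈ Finset.range d, (u ^ i - 1) := by
      rw [Finset.sum_sub_distrib]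
      simp
    have h2 : ‖∑ i ∈ Finset.range d, (u ^ i - 1)‖ ≤ d * (1 / 2) := by
      refine (norm_sum_le _ _).trans ?_
      calc ∑ i ∈ Finset.range d, ‖u ^ i - 1‖ ≤ ∑ i ∈ Finset.range d, (1 / 2 : ℝ) := by
            apply Finset.sum_le_sum
            intro i hi'
            rw [Finset.mem_range] at hi'
            exact hi i hi'.le
        _ = d * (1 / 2) := by rw [Finset.sum_const, Finset.card_range, nsmul_eq_mul]
    rw [h1]
    have h3 := norm_sub_le ((d : ℂ) + ∑ i ∈ Finset.range d, (u ^ i - 1)) (∑ i ∈ Finset.range d, (u ^ i - 1))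
    rw [add_sub_cancel_right, Complex.norm_natCast] at h3
    linarith
  rw [hfac, norm_mul]
  have := norm_nonneg (u - 1)
  nlinarith

/-- following a branch along a segment -/
theorem branch (hd : 2 ≤ d) {A B : ℝ → ℂ} {ρ : ℝ} (hA : ContinuousOn A (Icc 0 ρ))
    (hB : ContinuousOn B (Icc 0 ρ)) (hA0 : ∀ s ∈ Icc 0 ρ, A s ≠ 0) (h0 : A 0 = B 0) {ξ : ℝ → ℝ}
    (hξ : ∀ s ∈ Icc 0 ρ, ‖B s ^ d - A s ^ d‖ ≤ ξ s)
    (hsm : ∀ s ∈ Icc 0 ρ, ξ s < 1 / (4 * d) * ‖A s‖ ^ d) :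
    ∀ s ∈ Icc 0 ρ, ‖B s - A s‖ * ‖A s‖ ^ (d - 1) ≤ ξ s := by
  have hd2 : (2 : ℝ) ≤ d := by exact_mod_cast hd
  have hμ0 : (0 : ℝ) < 1 / (4 * d) := by positivity
  obtain ⟨φ, hφ⟩ : ∃ φ : ℝ → ℝ, φ = fun s => ‖B s / A s - 1‖ := ⟨_, rfl⟩
  have hφc : ContinuousOn φ (Icc 0 ρ) := by
    rw [hφ]
    exact ((hB.div hA hA0).sub continuousOn_const).norm
  obtain ⟨e, he⟩ : ∃ e, d = e + 1 := Nat.exists_eq_add_of_le' (by omega : 1 ≤ d)
  have hkey : ∀ s ∈ Icc 0 ρ, φ s ≤ 1 / (4 * d) → ‖B s - A s‖ * ‖A s‖ ^ (d - 1) ≤ ‖B s ^ d - A s ^ d‖ := by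
    intro s hs hle
    have hAs := hA0 s hs
    have hAn : 0 < ‖A s‖ := norm_pos_iff.2 hAs
    have h1 := pow_expand hd (u := B s / A s) (by rw [hφ] at hle; exact hle)
    have h2 : B s - A s = (B s / A s - 1) * A s := by field_simp
    have h3 : B s ^ d - A s ^ d = ((B s / A s) ^ d - 1) * A s ^ d := by
      rw [div_pow]
      field_simp
    rw [h2, h3, norm_mul, norm_mul, norm_pow, mul_assoc]
    have h4 : ‖A s‖ * ‖A s‖ ^ (d - 1) = ‖A s‖ ^ d := by
      rw [he, Nat.add_sub_cancel, pow_succ, mul_comm]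
    rw [h4]
    exact mul_le_mul_of_nonneg_right h1 (by positivity)
  have hlt : ∀ s ∈ Icc 0 ρ, φ s ≤ 1 / (4 * d) := by
    intro s hs
    by_contra hcon
    push Not at hcon
    have h1 : φ 0 = 0 := by
      rw [hφ]
      simp only
      rw [← h0, div_self (hA0 0 ⟨le_rfl, hs.1.trans hs.2⟩), sub_self, norm_zero]
    have hsub : Icc 0 s ⊆ Icc 0 ρ := Icc_subset_Icc le_rfl hs.2
    have h2 := intermediate_value_Icc hs.1 (hφc.mono hsub)
    obtain ⟨t, ht1, ht2⟩ := h2 ⟨by rw [h1]; exact hμ0.le, hcon.le⟩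
    have ht := hsub ht1
    have hAs := hA0 t ht
    have hAn : 0 < ‖A t‖ := norm_pos_iff.2 hAs
    have h3 := hkey t ht ht2.le
    have h4 : ‖B t - A t‖ = 1 / (4 * d) * ‖A t‖ := by
      have h2 : B t - A t = (B t / A t - 1) * A t := by field_simp
      rw [h2, norm_mul]
      rw [hφ] at ht2
      simp only at ht2
      rw [ht2]
    rw [h4, mul_assoc] at h3
    have h5 : ‖A t‖ * ‖A t‖ ^ (d - 1) = ‖A t‖ ^ d := by
      rw [he, Nat.add_sub_cancel, pow_succ, mul_comm]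
    rw [h5] at h3
    have h6 := hξ t ht
    have h7 := hsm t ht
    linarith
  intro s hs
  exact (hkey s hs (hlt s hs)).trans (hξ s hs)

theorem VP_split (k l n : ℕ) (hkl : k ≤ l) (hln : l ≤ n) (x : ℂ) :
    VP d β k n x = VP d β k l x * VP d β l n x := by
  unfold VP
  rw [Finset.prod_Ico_consecutive _ hkl hln]

/-- the comparison along a radius -/
theorem chain (hd : 2 ≤ d) (hβ : IsBeta d β) {j J : ℕ} (hjJ : j ≤ J) {ω ζ : ℂ} (hω : ‖ω‖ = 1)
    (hωj : ω ^ (d ^ (j + 1)) = 1) (hζ : ‖ζ‖ = 1) {ρ : ℝ} (hρ1 : ρ < 1) {η κ P : ℝ}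
    (hη : 0 < η) (hκ : 0 < κ) (hP : P = (2 ^ (d - 1)) ^ (J - j))
    (hh : ∀ s ∈ Icc 0 ρ, ‖ω⁻¹ * β (ω * ((s : ℂ) * ζ)) - β ((s : ℂ) * ζ)‖ ≤ η)
    (htop : ∀ s ∈ Icc 0 ρ, ‖BB d β J (ω * ((s : ℂ) * ζ)) - BB d β J ((s : ℂ) * ζ)‖ ≤ η)
    (hprod : ∀ s ∈ Icc 0 ρ, κ ≤ ‖VP d β j J ((s : ℂ) * ζ)‖)
    (hsm : ((J : ℝ) - j + 1) * η * P ^ 4 < 1 / (4 * d) * κ ^ 3) :
    ∀ s ∈ Icc 0 ρ, ‖BB d β j (ω * ((s : ℂ) * ζ)) - BB d β j ((s : ℂ) * ζ)‖ ≤
      ((J : ℝ) - j + 1) * η * P / κ := by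
  have hd2 : (2 : ℝ) ≤ d := by exact_mod_cast hd
  have hM : (1 : ℝ) ≤ 2 ^ (d - 1) := one_le_pow₀ (by norm_num)
  have hP1 : 1 ≤ P := by rw [hP]; exact one_le_pow₀ hM
  have hP0 : 0 < P := by linarith
  have hjJ' : (j : ℝ) ≤ J := by exact_mod_cast hjJ
  have hmem : ∀ s ∈ Icc 0 ρ, (s : ℂ) * ζ ∈ ball (0 : ℂ) 1 := by
    intro s hs
    rw [mem_ball_zero_iff, norm_mul, hζ, mul_one, Complex.norm_real, Real.norm_of_nonneg hs.1]
    exact hs.2.trans_lt hρ1
  have hmemω : ∀ s ∈ Icc 0 ρ, ω * ((s : ℂ) * ζ) ∈ ball (0 : ℂ) 1 := by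
    intro s hs
    have := hmem s hs
    rw [mem_ball_zero_iff] at this ⊢
    rw [norm_mul, hω, one_mul]
    exact this
  have hω0 : ω ≠ 0 := by
    intro h
    rw [h, norm_zero] at hω
    exact zero_ne_one hω
  have hVPle : ∀ k l : ℕ, j ≤ k → l ≤ J → ∀ s ∈ Icc 0 ρ, ‖VP d β k l ((s : ℂ) * ζ)‖ ≤ P := by
    intro k l hk hl s hs
    refine (VP_le hd hβ k l (hmem s hs)).trans ?_
    rw [hP]
    exact pow_le_pow_right₀ hM (by omega)
  -- lower bounds
  have hlowVP : ∀ l : ℕ, j ≤ l → l ≤ J → ∀ s ∈ Icc 0 ρ, κ / P ≤ ‖VP d β l J ((s : ℂ) * ζ)‖ := by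
    intro l h1 h2 s hs
    rw [div_le_iff₀ hP0]
    refine (hprod s hs).trans ?_
    rw [VP_split j l J h1 h2, norm_mul, mul_comm]
    exact mul_le_mul_of_nonneg_left (hVPle j l le_rfl h2 s hs) (norm_nonneg _)
  have hlowV : ∀ l : ℕ, j ≤ l → l < J → ∀ s ∈ Icc 0 ρ,
      κ / P ≤ ‖BB d β l ((s : ℂ) * ζ)‖ ^ (d - 1) := by
    intro l h1 h2 s hs
    rw [div_le_iff₀ hP0]
    refine (hprod s hs).trans ?_
    rw [VP_split j l J h1 h2.le, VP_split l (l + 1) J (by omega) (by omega)]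
    have h3 : VP d β l (l + 1) ((s : ℂ) * ζ) = BB d β l ((s : ℂ) * ζ) ^ (d - 1) := by
      unfold VP
      simp
    rw [h3, norm_mul, norm_mul, norm_pow]
    have h4 : ‖VP d β j l ((s : ℂ) * ζ)‖ * ‖VP d β (l + 1) J ((s : ℂ) * ζ)‖ ≤ P := by
      have a1 := VP_le hd hβ j l (hmem s hs)
      have a2 := VP_le hd hβ (l + 1) J (hmem s hs)
      calc ‖VP d β j l ((s : ℂ) * ζ)‖ * ‖VP d β (l + 1) J ((s : ℂ) * ζ)‖ ≤
            (2 ^ (d - 1)) ^ (l - j) * (2 ^ (d - 1)) ^ (J - (l + 1)) :=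
            mul_le_mul a1 a2 (norm_nonneg _) (by positivity)
        _ = (2 ^ (d - 1)) ^ (l - j + (J - (l + 1))) := by rw [← pow_add]
        _ ≤ P := by
            rw [hP]
            exact pow_le_pow_right₀ hM (by omega)
    calc ‖VP d β j l ((s : ℂ) * ζ)‖ * (‖BB d β l ((s : ℂ) * ζ)‖ ^ (d - 1) *
          ‖VP d β (l + 1) J ((s : ℂ) * ζ)‖) = ‖BB d β l ((s : ℂ) * ζ)‖ ^ (d - 1) *
          (‖VP d β j l ((s : ℂ) * ζ)‖ * ‖VP d β (l + 1) J ((s : ℂ) * ζ)‖) := by ring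
      _ ≤ _ := mul_le_mul_of_nonneg_left h4 (by positivity)
  -- the small quantity
  obtain ⟨δ, hδ⟩ : ∃ δ, δ = κ / P := ⟨_, rfl⟩
  have hδ0 : 0 < δ := by rw [hδ]; positivity
  rw [← hδ] at hlowVP
  simp only [← hδ] at hlowV
  have hκP : ∀ s ∈ Icc 0 ρ, κ ≤ P := fun s hs => (hprod s hs).trans (hVPle j J le_rfl le_rfl s hs)
  have hδ1 : ∀ s ∈ Icc 0 ρ, δ ≤ 1 := fun s hs => by
    rw [hδ, div_le_one hP0]
    exact hκP s hs
  -- the induction
  have hind : ∀ i : ℕ, i ≤ J - j → ∀ s ∈ Icc 0 ρ,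
      ‖BB d β (J - i) (ω * ((s : ℂ) * ζ)) - BB d β (J - i) ((s : ℂ) * ζ)‖ *
        ‖VP d β (J - i) J ((s : ℂ) * ζ)‖ ≤ (i + 1) * η * P := by
    intro i
    induction i with
    | zero =>
      intro _ s hs
      rw [Nat.sub_zero]
      have h1 : VP d β J J ((s : ℂ) * ζ) = 1 := by unfold VP; simp
      rw [h1, norm_one, mul_one]
      push_cast
      have := htop s hs
      nlinarith
    | succ i ih =>
      intro hi s hs
      have hi' : i ≤ J - j := by omega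
      have ih := ih hi'
      obtain ⟨l, hl⟩ : ∃ l, l = J - (i + 1) := ⟨_, rfl⟩
      have hl1 : J - i = l + 1 := by omega
      have hjl : j ≤ l := by omega
      have hlJ : l < J := by omega
      rw [hl1] at ih
      rw [← hl]
      have hiJ : (i : ℝ) + 2 ≤ (J : ℝ) - j + 1 := by
        have : i + 1 + j ≤ J := by omega
        have h2 : ((i + 1 + j : ℕ) : ℝ) ≤ J := by exact_mod_cast this
        push_cast at h2
        linarith
      obtain ⟨ξ, hξ⟩ : ∃ ξ : ℝ → ℝ, ξ = fun s : ℝ =>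
        ‖BB d β (l + 1) (ω * ((s : ℂ) * ζ)) - BB d β (l + 1) ((s : ℂ) * ζ)‖ + η := ⟨_, rfl⟩
      have hωl : ω ^ (d ^ (l + 1)) = 1 := by
        obtain ⟨c, hc⟩ : d ^ (j + 1) ∣ d ^ (l + 1) := pow_dvd_pow d (by omega)
        rw [hc, pow_mul, hωj, one_pow]
      have hbr := branch hd (A := fun s : ℝ => BB d β l ((s : ℂ) * ζ))
        (B := fun s : ℝ => BB d β l (ω * ((s : ℂ) * ζ))) (ρ := ρ) (ξ := ξ) (by
          apply (BB_diff hβ.diff l).continuousOn.comp (by fun_prop)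
          intro s hs
          exact hmem s hs) (by
          apply (BB_diff hβ.diff l).continuousOn.comp (by fun_prop)
          intro s hs
          exact hmemω s hs) (fun s hs => Pool.Agent.W677.MB.BB_ne hd hβ l (hmem s hs)) (by simp) (by
          intro s hs
          obtain ⟨x, hx⟩ : ∃ x, x = (s : ℂ) * ζ := ⟨_, rfl⟩
          have hhs := hh s hs
          have hms := hmem s hs
          rw [← hx] at hhs hms
          rw [hξ]
          simp only
          rw [← hx]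
          have e1 : BB d β l (ω * x) ^ d - BB d β l x ^ d =
              (BB d β (l + 1) (ω * x) - BB d β (l + 1) x) -
              x ^ (d ^ (l + 1) - 1) * (ω⁻¹ * β (ω * x) - β x) := by
            rw [BB_succ, BB_succ]
            have e2 : (ω * x) ^ (d ^ (l + 1) - 1) = ω⁻¹ * x ^ (d ^ (l + 1) - 1) := by
              rw [mul_pow]
              congr 1
              have e3 : ω ^ (d ^ (l + 1) - 1) * ω = 1 := by
                rw [← pow_succ, Nat.sub_add_cancel (Nat.one_le_pow _ _ (by omega)), hωl]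
              exact eq_inv_of_mul_eq_one_left e3
            rw [e2]
            ring
          rw [e1]
          refine (norm_sub_le _ _).trans ?_
          have e4 : ‖x ^ (d ^ (l + 1) - 1) * (ω⁻¹ * β (ω * x) - β x)‖ ≤ η := by
            rw [norm_mul, norm_pow]
            rw [mem_ball_zero_iff] at hms
            have e5 : ‖x‖ ^ (d ^ (l + 1) - 1) ≤ 1 := pow_le_one₀ (norm_nonneg _) hms.le
            have := norm_nonneg (ω⁻¹ * β (ω * x) - β x)
            nlinarith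
          linarith) (by
          intro s hs
          rw [hξ]
          simp only
          obtain ⟨D, hD⟩ : ∃ D, D = ‖BB d β (l + 1) (ω * ((s : ℂ) * ζ)) - BB d β (l + 1) ((s : ℂ) * ζ)‖ :=
            ⟨_, rfl⟩
          have hihs := ih s hs
          rw [← hD] at hihs ⊢
          have hD0 : 0 ≤ D := by rw [hD]; exact norm_nonneg _
          have g1 := hlowVP (l + 1) (by omega) (by omega) s hs
          have g2 : D * δ ≤ (i + 1) * η * P :=
            (mul_le_mul_of_nonneg_left g1 hD0).trans hihs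
          have g3 : (D + η) * δ ≤ ((J : ℝ) - j + 1) * η * P := by
            have a1 : η * δ ≤ η * P := mul_le_mul_of_nonneg_left ((hδ1 s hs).trans hP1) hη.le
            have a2 : ((i : ℝ) + 2) * (η * P) ≤ ((J : ℝ) - j + 1) * (η * P) :=
              mul_le_mul_of_nonneg_right hiJ (by positivity)
            nlinarith
          -- lower bound for `‖V_l‖ ^ d`
          have g4 := hlowV l hjl hlJ s hs
          have g5 : δ ≤ ‖BB d β l ((s : ℂ) * ζ)‖ := by
            rcases le_or_gt ‖BB d β l ((s : ℂ) * ζ)‖ 1 with h | h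
            · refine g4.trans ?_
              calc ‖BB d β l ((s : ℂ) * ζ)‖ ^ (d - 1) ≤ ‖BB d β l ((s : ℂ) * ζ)‖ ^ 1 :=
                    pow_le_pow_of_le_one (norm_nonneg _) h (by omega)
                _ = _ := pow_one _
            · exact (hδ1 s hs).trans h.le
          have g6 : δ ^ 2 ≤ ‖BB d β l ((s : ℂ) * ζ)‖ ^ d := by
            have : ‖BB d β l ((s : ℂ) * ζ)‖ ^ d =
                ‖BB d β l ((s : ℂ) * ζ)‖ ^ (d - 1) * ‖BB d β l ((s : ℂ) * ζ)‖ := by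
              rw [← pow_succ, Nat.sub_add_cancel (by omega)]
            rw [this, sq]
            exact mul_le_mul g4 g5 hδ0.le (by positivity)
          have g7 : ((J : ℝ) - j + 1) * η * P < 1 / (4 * d) * δ ^ 3 := by
            rw [hδ, div_pow]
            rw [← mul_div_assoc, lt_div_iff₀ (by positivity)]
            calc ((J : ℝ) - j + 1) * η * P * P ^ 3 = ((J : ℝ) - j + 1) * η * P ^ 4 := by ring
              _ < _ := hsm
          have g8 : (D + η) * δ < 1 / (4 * d) * δ ^ 2 * δ := by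
            calc (D + η) * δ ≤ ((J : ℝ) - j + 1) * η * P := g3
              _ < 1 / (4 * d) * δ ^ 3 := g7
              _ = 1 / (4 * d) * δ ^ 2 * δ := by ring
          have g9 : D + η < 1 / (4 * d) * δ ^ 2 := lt_of_mul_lt_mul_right g8 hδ0.le
          refine g9.trans_le ?_
          exact mul_le_mul_of_nonneg_left g6 (by positivity))
      have hs' := hbr s hs
      rw [hξ] at hs'
      simp only at hs'
      have hsplit : VP d β l J ((s : ℂ) * ζ) =
          BB d β l ((s : ℂ) * ζ) ^ (d - 1) * VP d β (l + 1) J ((s : ℂ) * ζ) := by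
        rw [VP_split l (l + 1) J (by omega) (by omega)]
        congr 1
        unfold VP
        simp
      have hi3 := hVPle (l + 1) J (by omega) le_rfl s hs
      rw [hsplit, norm_mul, norm_pow, ← mul_assoc]
      have hv0 := norm_nonneg (VP d β (l + 1) J ((s : ℂ) * ζ))
      have hihs := ih s hs
      push_cast
      calc _ ≤ (‖BB d β (l + 1) (ω * ((s : ℂ) * ζ)) - BB d β (l + 1) ((s : ℂ) * ζ)‖ + η) *
            ‖VP d β (l + 1) J ((s : ℂ) * ζ)‖ := mul_le_mul_of_nonneg_right hs' hv0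
        _ = ‖BB d β (l + 1) (ω * ((s : ℂ) * ζ)) - BB d β (l + 1) ((s : ℂ) * ζ)‖ *
            ‖VP d β (l + 1) J ((s : ℂ) * ζ)‖ + η * ‖VP d β (l + 1) J ((s : ℂ) * ζ)‖ := by ring
        _ ≤ (i + 1) * η * P + η * P := add_le_add hihs (mul_le_mul_of_nonneg_left hi3 hη.le)
        _ = ((i : ℝ) + 1 + 1) * η * P := by ring
  intro s hs
  have hfin := hind (J - j) le_rfl s hs
  have hJj : J - (J - j) = j := by omega
  rw [hJj] at hfin
  have hcast : ((J - j : ℕ) : ℝ) = (J : ℝ) - j := by rw [Nat.cast_sub hjJ]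
  rw [hcast] at hfin
  rw [le_div_iff₀ hκ]
  exact (mul_le_mul_of_nonneg_left (hprod s hs) (norm_nonneg _)).trans hfin

/-- the lower bound for the products -/
theorem prod_low (hd : 2 ≤ d) (hβ : IsBeta d β) {j n J : ℕ} (hjn : j ≤ n) (hnJ : n ≤ J) {x : ℂ}
    (hx : x ∈ ball (0 : ℂ) 1) (hxn : ‖x‖ ^ (d ^ n) ≤ (R0 d)⁻¹)
    (hq : ‖qq β x‖ * (8 * (2 ^ (d - 1)) ^ (J - j)) ≤ (d : ℝ) ^ j) :
    1 / (40 * (d : ℝ) ^ (n - j)) ≤ ‖VP d β j J x‖ := by
  have hR := R0_ge d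
  have hd1 : (1 : ℝ) ≤ d := by exact_mod_cast (show 1 ≤ d by omega)
  have hd0 : (0 : ℝ) < d := by linarith
  obtain ⟨P, hP⟩ : ∃ P : ℝ, P = (2 ^ (d - 1)) ^ (J - j) := ⟨_, rfl⟩
  have hP0 : 0 < P := by rw [hP]; positivity
  rw [← hP] at hq
  have hx1 : ‖x‖ < 1 := by rwa [mem_ball_zero_iff] at hx
  have hdj : (0 : ℝ) < (d : ℝ) ^ j := by positivity
  -- the top
  have h1 := half_le_YY hd hβ J hx ((pow_le_pow_of_le_one (norm_nonneg _) hx1.le
    (Nat.pow_le_pow_right (by omega) hnJ)).trans hxn)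
  obtain ⟨t, ht⟩ : ∃ t, J = j + t := Nat.exists_eq_add_of_le (hjn.trans hnJ)
  have h2 := S_bound hd hβ j t hx
  rw [← ht] at h2
  have h3 := AA'_le hd t
  have htJ : t = J - j := by omega
  rw [htJ, ← hP] at h3
  rw [htJ] at h2
  have h4 : ‖YY d β J x - VP d β j J x * YY d β j x‖ ≤ 2 * P / (d : ℝ) ^ j :=
    h2.trans (div_le_div_of_nonneg_right h3 hdj.le)
  have h5 : ‖YY d β J x‖ ≤ ‖VP d β j J x‖ * ‖YY d β j x‖ + 2 * P / (d : ℝ) ^ j := by
    have e1 := norm_sub_norm_le (YY d β J x) (VP d β j J x * YY d β j x)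
    rw [norm_mul] at e1
    linarith
  have hq0 := norm_nonneg (qq β x)
  have h6 : 2 * P / (d : ℝ) ^ j * ‖qq β x‖ ≤ 1 / 4 := by
    rw [div_mul_eq_mul_div, div_le_iff₀ hdj]
    linarith
  have h7 : 1 / 4 ≤ ‖VP d β j J x‖ * (‖YY d β j x‖ * ‖qq β x‖) := by
    have := mul_le_mul_of_nonneg_right h5 hq0
    nlinarith
  -- the upper bound for `Y_j q`
  have h8 : ‖YY d β j x‖ * ‖qq β x‖ ≤ 10 * (d : ℝ) ^ (n - j) := by
    rw [← norm_mul, ← YY_mul_qq hd hβ j hx]
    obtain ⟨δ, hδ⟩ : ∃ δ, δ = (1 - ‖x‖) / 2 := ⟨_, rfl⟩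
    have hδ0 : 0 < δ := by rw [hδ]; linarith
    have e1 : ‖deriv (BB d β j) x‖ ≤ 2 / δ := by
      have hsub : closedBall x δ ⊆ ball (0 : ℂ) 1 := by
        intro y hy
        rw [mem_closedBall, dist_eq_norm] at hy
        rw [mem_ball_zero_iff]
        have e2 := norm_add_le (y - x) x
        rw [sub_add_cancel] at e2
        rw [hδ] at hy
        linarith
      apply Complex.norm_deriv_le_of_forall_mem_sphere_norm_le hδ0
      · apply DifferentiableOn.diffContOnCl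
        rw [closure_ball x hδ0.ne']
        exact (BB_diff hβ.diff j).mono hsub
      · intro y hy
        exact AR.BB_le_two hd hβ j (hsub (sphere_subset_closedBall hy))
    have e3 := one_sub_ge (N := d ^ n) (Nat.one_le_pow _ _ (by omega)) (norm_nonneg x)
      (hxn.trans (inv_le_exp (by linarith)))
    have hdn1 : (1 : ℝ) ≤ (d : ℝ) ^ n := one_le_pow₀ hd1
    push_cast at e3
    have e4 : 2 / δ ≤ 8 * (d : ℝ) ^ n := by
      rw [div_le_iff₀ hδ0, hδ]
      nlinarith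
    have e5 : (d : ℝ) ^ n = (d : ℝ) ^ j * (d : ℝ) ^ (n - j) := by
      rw [← pow_add]
      congr 1
      omega
    have e6 : ‖x * deriv (BB d β j) x / (d : ℂ) ^ j‖ ≤ 8 * (d : ℝ) ^ (n - j) := by
      rw [norm_div, norm_mul, norm_pow, Complex.norm_natCast, div_le_iff₀ hdj]
      calc ‖x‖ * ‖deriv (BB d β j) x‖ ≤ 1 * (8 * (d : ℝ) ^ n) :=
            mul_le_mul hx1.le (e1.trans e4) (norm_nonneg _) (by norm_num)
        _ = 8 * (d : ℝ) ^ (n - j) * (d : ℝ) ^ j := by rw [e5]; ring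
    have e7 := AR.BB_le_two hd hβ j hx
    have e8 : (1 : ℝ) ≤ (d : ℝ) ^ (n - j) := one_le_pow₀ hd1
    have e9 := norm_sub_le (BB d β j x) (x * deriv (BB d β j) x / (d : ℂ) ^ j)
    linarith
  rw [div_le_iff₀ (by positivity)]
  have h9 := mul_le_mul_of_nonneg_left h8 (norm_nonneg (VP d β j J x))
  nlinarith

end Pool.Agent.TH653.MC
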