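import Mathlib
import Pool.Agent.TH653.MC.C7
import Pool.Agent.TH653.MC.C8

set_option autoImplicit false

/-! # Rotations -/

namespace Pool.Agent.TH653.MC

open Complex Set Topology Filter Metric MeasureTheory N62a1eb23 Pool.Agent.H712R2 Pool.Agent.H713R2
open Pool.Agent.TH653.MB Real

variable {d : ℕ} {β : ℂ → ℂ}

/-- the distance to the multiples of `N` -/
def dst (N m : ℕ) : ℕ := min (m % N) (N - m % N)

/-- a rotation of order `N` separating the frequency `m` -/
theorem exists_rot {N m : ℕ} (hN : 1 ≤ N) (hD : 1 ≤ dst N m) :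
    ∃ ω : ℂ, ‖ω‖ = 1 ∧ ω ^ N = 1 ∧ 1 ≤ ‖ω ^ m - 1‖ ∧ ‖ω - 1‖ ≤ 5 / (dst N m : ℝ) := by
  obtain ⟨D, hDd⟩ : ∃ D, D = dst N m := ⟨_, rfl⟩
  obtain ⟨e, he⟩ : ∃ e, e = m % N := ⟨_, rfl⟩
  have heN : e < N := by rw [he]; exact Nat.mod_lt _ (by omega)
  have hDe : D = min e (N - e) := by rw [hDd, he]; rfl
  rw [← hDd] at hD ⊢
  have hD2 : 2 * D ≤ N := by omega
  obtain ⟨a, ha⟩ : ∃ a, a = (N + 4 * D - 1) / (4 * D) := ⟨_, rfl⟩
  have ha1 : N ≤ 4 * (a * D) := by
    have h1 : N + 4 * D - 1 < (a + 1) * (4 * D) := by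
      have e1 := Nat.div_add_mod (N + 4 * D - 1) (4 * D)
      have e2 := Nat.mod_lt (N + 4 * D - 1) (show 4 * D > 0 by omega)
      rw [← ha] at e1
      have e3 : (a + 1) * (4 * D) = 4 * D * a + 4 * D := by ring
      omega
    have h2 : (a + 1) * (4 * D) = 4 * (a * D) + 4 * D := by ring
    omega
  have ha2 : 4 * (a * D) ≤ N + 4 * D - 1 := by
    have h1 : a * (4 * D) ≤ N + 4 * D - 1 := by
      rw [ha]
      exact Nat.div_mul_le_self _ _
    have h2 : a * (4 * D) = 4 * (a * D) := by ring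
    omega
  have ha3 : 2 * (a * D) ≤ N := by
    rcases le_or_gt (4 * D) N with h | h
    · omega
    · have : a = 1 := by
        rw [ha]
        apply Nat.div_eq_of_lt_le
        · omega
        · omega
      rw [this]
      omega
  have hNr : (0 : ℝ) < N := by exact_mod_cast (show 0 < N by omega)
  have hDr : (0 : ℝ) < D := by exact_mod_cast (show 0 < D by omega)
  have hpi := Real.pi_pos
  have r1 : (N : ℝ) ≤ 4 * (a * D) := by exact_mod_cast ha1
  have r3 : 2 * ((a : ℝ) * D) ≤ N := by exact_mod_cast ha3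
  have r2 : 4 * ((a : ℝ) * D) ≤ N + 4 * D := by
    have : 4 * (a * D) ≤ N + 4 * D := by omega
    exact_mod_cast this
  have r4 : 2 * (D : ℝ) ≤ N := by exact_mod_cast hD2
  obtain ⟨φ, hφ⟩ : ∃ φ : ℝ, φ = 2 * π * a / N := ⟨_, rfl⟩
  have hpow : ∀ k : ℕ, Complex.exp (φ * I) ^ k = Complex.exp (((k * φ : ℝ) : ℂ) * I) := by
    intro k
    rw [← Complex.exp_nat_mul]
    congr 1
    push_cast
    ring
  have hsq : ∀ t : ℝ, ‖Complex.exp (t * I) - 1‖ ^ 2 = 2 - 2 * Real.cos t := by
    intro t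
    rw [Complex.exp_mul_I, ← Complex.normSq_eq_norm_sq, Complex.normSq_apply]
    have e1 : (Complex.cos t + Complex.sin t * I - 1).re = Real.cos t - 1 := by
      simp [← Complex.ofReal_cos, ← Complex.ofReal_sin]
    have e2 : (Complex.cos t + Complex.sin t * I - 1).im = Real.sin t := by
      simp [← Complex.ofReal_cos, ← Complex.ofReal_sin]
    rw [e1, e2]
    have := Real.sin_sq_add_cos_sq t
    nlinarith
  refine ⟨Complex.exp (φ * I), Complex.norm_exp_ofReal_mul_I φ, ?_, ?_, ?_⟩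
  · rw [hpow, hφ]
    have : ((((N : ℕ) : ℝ) * (2 * π * a / N) : ℝ) : ℂ) * I = ((a : ℤ) : ℂ) * (2 * π * I) := by
      have hNC : (N : ℂ) ≠ 0 := by exact_mod_cast hNr.ne'
      push_cast
      field_simp
    rw [this]
    exact Complex.exp_int_mul_two_pi_mul_I _
  · rw [hpow]
    have hcos : Real.cos (m * φ) ≤ 0 := by
      obtain ⟨q, hq⟩ : ∃ q, q = m / N := ⟨_, rfl⟩
      have hm : m = N * q + e := by rw [hq, he]; exact (Nat.div_add_mod m N).symm
      have hmr : (m : ℝ) = N * q + e := by exact_mod_cast hm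
      have e1 : (m : ℝ) * φ = 2 * π * a * e / N + ((a * q : ℕ) : ℤ) * (2 * π) := by
        rw [hmr, hφ]
        push_cast
        field_simp
        ring
      rw [e1, Real.cos_add_int_mul_two_pi]
      have hang : Real.cos (2 * π * a * D / N) ≤ 0 := by
        apply Real.cos_nonpos_of_pi_div_two_le_of_le
        · rw [le_div_iff₀ hNr]
          nlinarith
        · have : 2 * π * a * D / N ≤ π := by
            rw [div_le_iff₀ hNr]
            nlinarith
          linarith
      rcases le_total e (N - e) with h | h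
      · have : D = e := by omega
        rw [← this]
        exact hang
      · have hDe' : D = N - e := by omega
        have hee : (e : ℝ) = N - D := by
          have : e + D = N := by omega
          have h2 : (e : ℝ) + D = N := by exact_mod_cast this
          linarith
        have e2 : 2 * π * a * e / N = ((a : ℕ) : ℤ) * (2 * π) - 2 * π * a * D / N := by
          rw [hee]
          push_cast
          field_simp
        rw [e2, Real.cos_int_mul_two_pi_sub]
        exact hang
    have h1 := hsq (m * φ)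
    have h2 := norm_nonneg (Complex.exp (((m * φ : ℝ) : ℂ) * I) - 1)
    nlinarith
  · have h1 : ‖Complex.exp (φ * I) - 1‖ ≤ φ := by
      rw [mul_comm]
      have := Real.norm_exp_I_mul_ofReal_sub_one_le (x := φ)
      rwa [Real.norm_of_nonneg (by rw [hφ]; positivity)] at this
    refine h1.trans ?_
    rw [hφ, div_le_div_iff₀ hNr hDr]
    have hpi4 : π ≤ 10 / 3 := by have := Real.pi_lt_d2; linarith
    have : 2 * π * (a * D) ≤ 5 * N := by
      have h3 : (a : ℝ) * D ≤ 3 / 4 * N := by linarith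
      nlinarith
    linarith

theorem tc_rot {F : ℂ → ℂ} (hF : DifferentiableOn ℂ F (ball 0 1)) {ω : ℂ} (hω : ‖ω‖ = 1) (k : ℕ) :
    tc (fun x => F (ω * x)) k = ω ^ k * tc F k := by
  have hmem : ∀ x ∈ ball (0 : ℂ) 1, ω * x ∈ ball (0 : ℂ) 1 := by
    intro x hx
    rw [mem_ball_zero_iff] at hx ⊢
    rwa [norm_mul, hω, one_mul]
  have hd : DifferentiableOn ℂ (fun x => F (ω * x)) (ball 0 1) :=
    hF.comp (by fun_prop) hmem
  have h := tc_unique (a := fun k => ω ^ k * tc F k) one_pos hd (by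
    filter_upwards [ball_mem_nhds (0 : ℂ) one_pos] with x hx
    have h1 := hasSum_tc hF (hmem x hx)
    convert h1 using 1
    funext k
    rw [mul_pow]
    ring)
  exact (congrFun h k).symm

/-- the coefficients of `log V_j (ω x)` -/
theorem fc_rot (hd : 2 ≤ d) (hβ : IsBeta d β) (j : ℕ) {ω : ℂ} (hω : ‖ω‖ = 1) {m : ℕ} (hm : 1 ≤ m)
    {r : ℝ} (hr : 0 < r) (hr1 : r < 1) :
    2 * fc (fun x => Real.log ‖BB d β j (ω * x)‖) r m = ω ^ m * tV d β j m := by
  have hmem : ∀ x ∈ ball (0 : ℂ) 1, ω * x ∈ ball (0 : ℂ) 1 := by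
    intro x hx
    rw [mem_ball_zero_iff] at hx ⊢
    rwa [norm_mul, hω, one_mul]
  have hVd := BB_diff (d := d) hβ.diff j
  have hd' : DifferentiableOn ℂ (fun x => BB d β j (ω * x)) (ball 0 1) :=
    hVd.comp (by fun_prop) hmem
  have hne : ∀ x ∈ ball (0 : ℂ) 1, BB d β j x ≠ 0 := fun x hx => Pool.Agent.W677.MB.BB_ne hd hβ j hx
  rw [fc_log hr hr1 hd' (fun x hx => hne _ (hmem x hx)) hm]
  have hLd : DifferentiableOn ℂ (logDeriv (BB d β j)) (ball 0 1) :=
    (hVd.deriv isOpen_ball).div hVd hne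
  have h1 : tc (logDeriv (fun x => BB d β j (ω * x))) (m - 1) =
      tc (fun x => ω * logDeriv (BB d β j) (ω * x)) (m - 1) := by
    apply tc_congr
    filter_upwards [isOpen_ball.mem_nhds (mem_ball_self one_pos)] with x hx
    have h2 := (hVd.differentiableAt (isOpen_ball.mem_nhds (hmem x hx))).hasDerivAt
    have h3 : HasDerivAt (fun x => ω * x) ω x := by
      simpa using (hasDerivAt_id x).const_mul ω
    have h4 := h2.comp x h3
    have h5 : deriv (fun x => BB d β j (ω * x)) x = deriv (BB d β j) (ω * x) * ω := h4.deriv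
    rw [logDeriv_apply, logDeriv_apply, h5]
    ring
  have h2 : tc (fun x => ω * logDeriv (BB d β j) (ω * x)) (m - 1) =
      ω * (ω ^ (m - 1) * tc (logDeriv (BB d β j)) (m - 1)) := by
    rw [← tc_rot hLd hω]
    unfold tc
    rw [iteratedDeriv_const_mul_field]
    ring
  rw [h1, h2]
  unfold tV
  obtain ⟨k, rfl⟩ : ∃ k, m = k + 1 := Nat.exists_eq_add_of_le' hm
  rw [Nat.add_sub_cancel]
  ring

end Pool.Agent.TH653.MC
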