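import Mathlib
import Pool.Agent.TH653.MC.C9

set_option autoImplicit false

/-! # The pointwise comparison -/

namespace Pool.Agent.TH653.MC

open Complex Set Topology Filter Metric MeasureTheory N62a1eb23 Pool.Agent.H712R2 Pool.Agent.H713R2
open Pool.Agent.TH653.MB Real

variable {d : ℕ} {β : ℂ → ℂ}

/-- the difference of the rotated exterior maps -/
noncomputable def hr (β : ℂ → ℂ) (ω : ℂ) : ℂ → ℂ := fun x => ω⁻¹ * β (ω * x) - β x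

theorem mem_rot {ω x : ℂ} (hω : ‖ω‖ = 1) (hx : x ∈ ball (0 : ℂ) 1) : ω * x ∈ ball (0 : ℂ) 1 := by
  rw [mem_ball_zero_iff] at hx ⊢
  rwa [norm_mul, hω, one_mul]

theorem hr_diff (hβ : IsBeta d β) {ω : ℂ} (hω : ‖ω‖ = 1) : DifferentiableOn ℂ (hr β ω) (ball 0 1) := by
  have h1 : DifferentiableOn ℂ (fun x => β (ω * x)) (ball 0 1) :=
    hβ.diff.comp (by fun_prop) (fun x hx => mem_rot hω hx)
  exact (h1.const_mul ω⁻¹).sub hβ.diff

theorem norm_pow_sub_one_le {ω : ℂ} (hω : ‖ω‖ = 1) (l : ℕ) : ‖ω ^ l - 1‖ ≤ l * ‖ω - 1‖ := by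
  induction l with
  | zero => simp
  | succ l ih =>
    have h1 : ω ^ (l + 1) - 1 = ω * (ω ^ l - 1) + (ω - 1) := by ring
    rw [h1]
    refine (norm_add_le _ _).trans ?_
    rw [norm_mul, hω, one_mul]
    push_cast
    linarith

theorem tc_hr (hβ : IsBeta d β) {ω : ℂ} (hω : ‖ω‖ = 1) (l : ℕ) :
    tc (hr β ω) (l + 1) = (ω ^ l - 1) * tc β (l + 1) := by
  have hω0 : ω ≠ 0 := by
    intro h
    rw [h, norm_zero] at hω
    exact zero_ne_one hω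
  have h1 : DifferentiableOn ℂ (fun x => β (ω * x)) (ball 0 1) :=
    hβ.diff.comp (by fun_prop) (fun x hx => mem_rot hω hx)
  have h2 : tc (hr β ω) (l + 1) = tc (fun x => ω⁻¹ * β (ω * x)) (l + 1) - tc β (l + 1) :=
    tc_sub one_pos (h1.const_mul ω⁻¹) hβ.diff (l + 1)
  have h3 : tc (fun x => ω⁻¹ * β (ω * x)) (l + 1) = ω⁻¹ * tc (fun x => β (ω * x)) (l + 1) := by
    unfold tc
    rw [iteratedDeriv_const_mul_field]
    ring
  rw [h2, h3, tc_rot hβ.diff hω]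
  field_simp
  ring

theorem EE_partial (hβ : IsBeta d β) (L : ℕ) :
    ∑ l ∈ Finset.range L, ((l : ℝ) + 1) * ‖tc β (l + 1)‖ ^ 2 ≤ EE β := by
  have hs := dirichlet_beta hβ
  have h1 := hs.sum_le_tsum (Finset.range (L + 1)) (fun l _ => by positivity)
  rw [Finset.sum_range_succ'] at h1
  push_cast at h1
  unfold EE
  have h2 : (0 : ℝ) * ‖tc β 0‖ ^ 2 = 0 := zero_mul _
  linarith

theorem Kh_av (hβ : IsBeta d β) {ω : ℂ} (hω : ‖ω‖ = 1) {D : ℝ} (hD : 1 ≤ D)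
    (hωD : ‖ω - 1‖ ≤ 5 / D) {ρ : ℝ} (hρ : 0 < ρ) (hρ1 : ρ < 1) :
    (2 * π)⁻¹ * ∫ θ in (0 : ℝ)..2 * π, Kr (hr β ω) ρ (1 / D) θ ≤ 27 * EE β / D ^ 2 := by
  have hD0 : 0 < D := by linarith
  apply Kr_av (hr_diff hβ hω) hρ hρ1 (by positivity)
  intro L
  have h1 : ∑ l ∈ Finset.range L, ‖tc (hr β ω) (l + 1)‖ ^ 2 *
      (1 / (2 * ((l : ℝ) + 1)) + 1 / D + (1 / D) ^ 2 * (l + 1)) ≤
      ∑ l ∈ Finset.range L, 27 / D ^ 2 * (((l : ℝ) + 1) * ‖tc β (l + 1)‖ ^ 2) := by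
    apply Finset.sum_le_sum
    intro l _
    rw [tc_hr hβ hω, norm_mul, mul_pow]
    obtain ⟨y, hy⟩ : ∃ y, y = ‖ω ^ l - 1‖ := ⟨_, rfl⟩
    obtain ⟨L', hL'⟩ : ∃ L' : ℝ, L' = (l : ℝ) + 1 := ⟨_, rfl⟩
    have hl0 : (0 : ℝ) ≤ l := Nat.cast_nonneg l
    have hL1 : 1 ≤ L' := by rw [hL']; linarith
    rw [← hy, ← hL']
    have hy0 : 0 ≤ y := by rw [hy]; exact norm_nonneg _
    have hy2 : y ≤ 2 := by
      rw [hy]
      refine (norm_sub_le _ _).trans ?_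
      rw [norm_pow, hω, one_pow, norm_one]
      norm_num
    have hyD : y * D ≤ 5 * L' := by
      have h2 := norm_pow_sub_one_le hω l
      rw [← hy] at h2
      have h3 : (l : ℝ) * ‖ω - 1‖ ≤ L' * (5 / D) := by
        apply mul_le_mul _ hωD (norm_nonneg _) (by linarith)
        rw [hL']; linarith
      have h4 : y ≤ L' * (5 / D) := h2.trans h3
      calc y * D ≤ L' * (5 / D) * D := mul_le_mul_of_nonneg_right h4 hD0.le
        _ = 5 * L' := by field_simp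
    have hkey : y ^ 2 * (1 / (2 * L') + 1 / D + (1 / D) ^ 2 * L') ≤ 27 / D ^ 2 * L' := by
      rw [div_mul_eq_mul_div, le_div_iff₀ (by positivity)]
      have e1 : y ^ 2 * (1 / (2 * L') + 1 / D + (1 / D) ^ 2 * L') * D ^ 2 =
          (y * D) ^ 2 / (2 * L') + y * (y * D) + y ^ 2 * L' := by
        field_simp
      rw [e1]
      have e2 : (y * D) ^ 2 / (2 * L') ≤ 25 / 2 * L' := by
        rw [div_le_iff₀ (by positivity)]
        have : 0 ≤ y * D := by positivity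
        nlinarith
      have e3 : y * (y * D) ≤ 2 * (5 * L') := mul_le_mul hy2 hyD (by positivity) (by norm_num)
      have e4 : y ^ 2 * L' ≤ 4 * L' := by
        apply mul_le_mul_of_nonneg_right _ (by linarith)
        nlinarith
      linarith
    have hb : 0 ≤ ‖tc β (l + 1)‖ ^ 2 := by positivity
    calc y ^ 2 * ‖tc β (l + 1)‖ ^ 2 * (1 / (2 * L') + 1 / D + (1 / D) ^ 2 * L') =
          (y ^ 2 * (1 / (2 * L') + 1 / D + (1 / D) ^ 2 * L')) * ‖tc β (l + 1)‖ ^ 2 := by ring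
      _ ≤ (27 / D ^ 2 * L') * ‖tc β (l + 1)‖ ^ 2 := mul_le_mul_of_nonneg_right hkey hb
      _ = _ := by ring
  refine h1.trans ?_
  rw [← Finset.mul_sum]
  have h2 := mul_le_mul_of_nonneg_left (EE_partial hβ L) (show 0 ≤ 27 / D ^ 2 by positivity)
  refine h2.trans (le_of_eq ?_)
  ring

theorem Kq_av (hβ : IsBeta d β) {ρ : ℝ} (hρ : 0 < ρ) (hρ1 : ρ < 1) :
    (2 * π)⁻¹ * ∫ θ in (0 : ℝ)..2 * π, Kr (qq β) ρ 0 θ ≤ EE β := by
  apply Kr_av (qq_diff hβ) hρ hρ1 le_rfl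
  intro L
  refine le_trans ?_ (EE_partial hβ L)
  apply Finset.sum_le_sum
  intro l _
  rw [tc_qq_val hβ, norm_mul, mul_pow]
  have e1 : ‖(1 : ℂ) - ((l + 1 : ℕ) : ℂ)‖ = l := by
    have : (1 : ℂ) - ((l + 1 : ℕ) : ℂ) = -(l : ℂ) := by push_cast; ring
    rw [this, norm_neg, Complex.norm_natCast]
  rw [e1]
  have hl0 : (0 : ℝ) ≤ l := Nat.cast_nonneg l
  have hb : 0 ≤ ‖tc β (l + 1)‖ ^ 2 := by positivity
  have h2 : (l : ℝ) ^ 2 * (1 / (2 * ((l : ℝ) + 1)) + 0 + 0 ^ 2 * (l + 1)) ≤ (l : ℝ) + 1 := by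
    have e2 : (l : ℝ) ^ 2 * (1 / (2 * ((l : ℝ) + 1)) + 0 + 0 ^ 2 * (l + 1)) =
        (l : ℝ) ^ 2 / (2 * ((l : ℝ) + 1)) := by ring
    rw [e2, div_le_iff₀ (by positivity)]
    nlinarith
  calc (l : ℝ) ^ 2 * ‖tc β (l + 1)‖ ^ 2 * (1 / (2 * ((l : ℝ) + 1)) + 0 + 0 ^ 2 * (l + 1)) =
        ((l : ℝ) ^ 2 * (1 / (2 * ((l : ℝ) + 1)) + 0 + 0 ^ 2 * (l + 1))) * ‖tc β (l + 1)‖ ^ 2 := by ring
    _ ≤ _ := mul_le_mul_of_nonneg_right h2 hb

/-- the constant of the trivial bound -/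
noncomputable def Ct (d : ℕ) : ℝ := 2 + 2 * Real.log (Bd d)

theorem Ct_ge (hd : 2 ≤ d) : 2 ≤ Ct d := by
  unfold Ct
  have := Real.log_nonneg (show 1 ≤ Bd d by have := Bd_ge hd; linarith)
  linarith

theorem log_V_le (hd : 2 ≤ d) (hβ : IsBeta d β) {n j : ℕ} (hjn : j ≤ n) {x : ℂ}
    (hx : x ∈ ball (0 : ℂ) 1) (hxn : ‖x‖ ^ (d ^ n) ≤ (R0 d)⁻¹) :
    |Real.log ‖BB d β j x‖| ≤ Ct d / 2 * ((n - j : ℕ) + 1) := by
  have hB := Bd_ge hd
  have hlogB := Real.log_nonneg (show 1 ≤ Bd d by linarith)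
  obtain ⟨i, hi⟩ : ∃ i, i = n - j := ⟨_, rfl⟩
  have hlow := BB_low hd hβ hjn hx hxn
  have hup := AR.BB_le_two hd hβ j hx
  have hpos : 0 < ‖BB d β j x‖ := norm_pos_iff.2 (Pool.Agent.W677.MB.BB_ne hd hβ j hx)
  rw [← hi] at hlow ⊢
  have hi0 : (0 : ℝ) ≤ i := Nat.cast_nonneg i
  have h1 : Real.log ‖BB d β j x‖ ≤ 1 := by
    have h2 := Real.log_le_log hpos hup
    have h3 := Real.log_two_lt_d9
    linarith
  have h2 : -(1 + i * Real.log (Bd d)) ≤ Real.log ‖BB d β j x‖ := by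
    have h3 : Real.log (3 / 8) ≤ Real.log (Bd d ^ i * ‖BB d β j x‖) := Real.log_le_log (by norm_num) hlow
    rw [Real.log_mul (by positivity) hpos.ne', Real.log_pow] at h3
    have h4 : -1 ≤ Real.log (3 / 8) := by
      have h5 : Real.log (3 / 8) = - Real.log (8 / 3) := by
        rw [← Real.log_inv]
        norm_num
      rw [h5]
      have h6 : Real.log (8 / 3) ≤ Real.log (Real.exp 1) := by
        apply Real.log_le_log (by norm_num)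
        have := Real.exp_one_gt_d9
        linarith
      rw [Real.log_exp] at h6
      linarith
    linarith
  unfold Ct
  rw [abs_le]
  constructor <;> nlinarith

theorem log_ratio {a b : ℂ} {C r : ℝ} (ha : a ≠ 0) (hb : b ≠ 0) (hC : 1 ≤ C)
    (hC2 : |Real.log ‖b‖ - Real.log ‖a‖| ≤ C) (hr : ‖b - a‖ ≤ r * ‖a‖) :
    |Real.log ‖b‖ - Real.log ‖a‖| ≤ C * (2 * r) := by
  have han : 0 < ‖a‖ := norm_pos_iff.2 ha
  have hbn : 0 < ‖b‖ := norm_pos_iff.2 hb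
  have hr0 : 0 ≤ r := by
    by_contra h
    push Not at h
    have := norm_nonneg (b - a)
    nlinarith
  rcases le_or_gt r (1 / 2) with h | h
  · have h1 : |‖b‖ - ‖a‖| ≤ r * ‖a‖ := (abs_norm_sub_norm_le b a).trans hr
    rw [abs_le] at h1
    have h2 : |Real.log ‖b‖ - Real.log ‖a‖| ≤ 2 * r := by
      rw [abs_le]
      constructor
      · have h3 : Real.log ‖a‖ - Real.log ‖b‖ ≤ 2 * r := by
          rw [← Real.log_div han.ne' hbn.ne']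
          have h4 := Real.log_le_sub_one_of_pos (show 0 < ‖a‖ / ‖b‖ by positivity)
          have h5 : ‖a‖ / ‖b‖ - 1 ≤ 2 * r := by
            rw [sub_le_iff_le_add, div_le_iff₀ hbn]
            nlinarith
          linarith
        linarith
      · rw [← Real.log_div hbn.ne' han.ne']
        have h4 := Real.log_le_sub_one_of_pos (show 0 < ‖b‖ / ‖a‖ by positivity)
        have h5 : ‖b‖ / ‖a‖ - 1 ≤ 2 * r := by
          rw [sub_le_iff_le_add, div_le_iff₀ han]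
          nlinarith
        linarith
    nlinarith
  · refine hC2.trans ?_
    nlinarith

theorem point (hd : 2 ≤ d) (hβ : IsBeta d β) {j n J : ℕ} (hjn : j ≤ n) (hnJ : n ≤ J) {ω : ℂ}
    (hω : ‖ω‖ = 1) (hωj : ω ^ (d ^ (j + 1)) = 1) {D : ℝ} (hD : 1 ≤ D) (hωD : ‖ω - 1‖ ≤ 5 / D)
    {ρ : ℝ} (hρ : 0 < ρ) (hρ1 : ρ < 1) (hρn : ρ ^ (d ^ n) ≤ (R0 d)⁻¹) {η P κ : ℝ} (hη : 0 < η)
    (hP : P = (2 ^ (d - 1)) ^ (J - j)) (hκ : κ = 1 / (40 * (d : ℝ) ^ (n - j)))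
    (ha : 10 / D ≤ η) (hb : 6 * ((R0 d)⁻¹) ^ (d ^ (J - n)) ≤ η) (hc : 16 * P ≤ (d : ℝ) ^ j)
    (hsm : ((J : ℝ) - j + 1) * η * P ^ 4 < 1 / (4 * d) * κ ^ 3) (θ : ℝ) :
    |Real.log ‖BB d β j (ω * circleMap 0 ρ θ)‖ - Real.log ‖BB d β j (circleMap 0 ρ θ)‖| ≤
      Ct d * ((n - j : ℕ) + 1) * (2 * (((J : ℝ) - j + 1) * η * P / κ * (8 / 3 * Bd d ^ (n - j))) +
        (Kr (hr β ω) ρ (1 / D) θ * (4 * D / η ^ 2) +
          Kr (qq β) ρ 0 θ * (256 * P ^ 2 * (1 + (d : ℝ) ^ n) / ((d : ℝ) ^ j) ^ 2))) := by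
  have hd1 : (1 : ℝ) ≤ d := by exact_mod_cast (show 1 ≤ d by omega)
  have hd0 : (0 : ℝ) < d := by linarith
  have hR := R0_ge d
  have hBd := Bd_ge hd
  have hCt := Ct_ge hd
  have hD0 : 0 < D := by linarith
  have hP1 : 1 ≤ P := by rw [hP]; exact one_le_pow₀ (one_le_pow₀ (by norm_num))
  have hP0 : 0 < P := by linarith
  have hκ0 : 0 < κ := by rw [hκ]; positivity
  have hdj : (0 : ℝ) < (d : ℝ) ^ j := by positivity
  have hjJ : j ≤ J := hjn.trans hnJ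
  have hjJ' : (0 : ℝ) ≤ (J : ℝ) - j := by
    have : (j : ℝ) ≤ J := by exact_mod_cast hjJ
    linarith
  obtain ⟨T, hT⟩ : ∃ T : ℝ, T = Ct d * ((n - j : ℕ) + 1) := ⟨_, rfl⟩
  have hT1 : 1 ≤ T := by
    rw [hT]
    have : (0 : ℝ) ≤ ((n - j : ℕ) : ℝ) := Nat.cast_nonneg _
    nlinarith
  obtain ⟨ζ, hζ⟩ : ∃ ζ : ℂ, ζ = Complex.exp (θ * I) := ⟨_, rfl⟩
  have hζ1 : ‖ζ‖ = 1 := by rw [hζ]; exact Complex.norm_exp_ofReal_mul_I θ
  have hcm : ∀ t : ℝ, circleMap 0 t θ = (t : ℂ) * ζ := by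
    intro t
    unfold circleMap
    rw [zero_add, hζ]
  have hmem : ∀ s ∈ Icc 0 ρ, (s : ℂ) * ζ ∈ ball (0 : ℂ) 1 := by
    intro s hs
    rw [mem_ball_zero_iff, norm_mul, hζ1, mul_one, Complex.norm_real, Real.norm_of_nonneg hs.1]
    exact hs.2.trans_lt hρ1
  have hnormn : ∀ s ∈ Icc 0 ρ, ‖(s : ℂ) * ζ‖ ^ (d ^ n) ≤ (R0 d)⁻¹ := by
    intro s hs
    rw [norm_mul, hζ1, mul_one, Complex.norm_real, Real.norm_of_nonneg hs.1]
    exact (pow_le_pow_left₀ hs.1 hs.2 _).trans hρn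
  have hρI : ρ ∈ Icc 0 ρ := ⟨hρ.le, le_rfl⟩
  obtain ⟨x, hx⟩ : ∃ x, x = circleMap 0 ρ θ := ⟨_, rfl⟩
  have hxs : x = (ρ : ℂ) * ζ := by rw [hx, hcm]
  have hx1 : x ∈ ball (0 : ℂ) 1 := by rw [hxs]; exact hmem ρ hρI
  have hωx1 := mem_rot hω hx1
  have hxn : ‖x‖ ^ (d ^ n) ≤ (R0 d)⁻¹ := by rw [hxs]; exact hnormn ρ hρI
  have hωxn : ‖ω * x‖ ^ (d ^ n) ≤ (R0 d)⁻¹ := by rwa [norm_mul, hω, one_mul]
  -- the trivial bound
  have htriv : |Real.log ‖BB d β j (ω * x)‖ - Real.log ‖BB d β j x‖| ≤ T := by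
    have h1 := log_V_le hd hβ hjn hx1 hxn
    have h2 := log_V_le hd hβ hjn hωx1 hωxn
    rw [abs_le] at h1 h2 ⊢
    rw [hT]
    constructor <;> linarith
  obtain ⟨M, hM⟩ : ∃ M : ℝ, M = ((J : ℝ) - j + 1) * η * P / κ := ⟨_, rfl⟩
  have hM0 : 0 ≤ M := by rw [hM]; positivity
  have hKh := Kr_nonneg (hr β ω) hρ (1 / D) θ
  have hKq := Kr_nonneg (qq β) hρ 0 θ
  rw [← hT, ← hM, ← hx]
  obtain ⟨c1, hc1⟩ : ∃ c1 : ℝ, c1 = Kr (hr β ω) ρ (1 / D) θ * (4 * D / η ^ 2) := ⟨_, rfl⟩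
  obtain ⟨c2, hc2⟩ : ∃ c2 : ℝ, c2 = Kr (qq β) ρ 0 θ * (256 * P ^ 2 * (1 + (d : ℝ) ^ n) / ((d : ℝ) ^ j) ^ 2) :=
    ⟨_, rfl⟩
  have hc1' : 0 ≤ c1 := by rw [hc1]; positivity
  have hc2' : 0 ≤ c2 := by rw [hc2]; positivity
  have hc3' : 0 ≤ 2 * (M * (8 / 3 * Bd d ^ (n - j))) := by positivity
  rw [← hc1, ← hc2]
  by_cases hgh : Kr (hr β ω) ρ (1 / D) θ ≤ (η / 2) ^ 2 * (1 - ρ + 1 / D)
  swap
  · push Not at hgh
    have h1 : 1 ≤ c1 := by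
      have h2 : (η / 2) ^ 2 * (1 / D) ≤ Kr (hr β ω) ρ (1 / D) θ := by
        refine le_trans ?_ hgh.le
        apply mul_le_mul_of_nonneg_left _ (by positivity)
        linarith
      rw [hc1]
      calc (1 : ℝ) = (η / 2) ^ 2 * (1 / D) * (4 * D / η ^ 2) := by field_simp; norm_num
        _ ≤ _ := mul_le_mul_of_nonneg_right h2 (by positivity)
    refine htriv.trans ?_
    have h3 : 1 ≤ 2 * (M * (8 / 3 * Bd d ^ (n - j))) + (c1 + c2) := by linarith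
    nlinarith
  have h1ρ := one_sub_ge (N := d ^ n) (Nat.one_le_pow _ _ (by omega)) hρ.le
    (hρn.trans (inv_le_exp (by linarith)))
  push_cast at h1ρ
  have hdn1 : (1 : ℝ) ≤ (d : ℝ) ^ n := one_le_pow₀ hd1
  by_cases hgq : Kr (qq β) ρ 0 θ ≤ ((d : ℝ) ^ j / (16 * P)) ^ 2 * (1 - ρ + 0)
  swap
  · push Not at hgq
    have h1 : 1 ≤ c2 := by
      have h4 : 1 / (1 + (d : ℝ) ^ n) ≤ 1 - ρ + 0 := by
        rw [add_zero, div_le_iff₀ (by positivity)]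
        exact h1ρ
      have h2 : ((d : ℝ) ^ j / (16 * P)) ^ 2 * (1 / (1 + (d : ℝ) ^ n)) ≤ Kr (qq β) ρ 0 θ := by
        refine le_trans ?_ hgq.le
        exact mul_le_mul_of_nonneg_left h4 (by positivity)
      rw [hc2]
      calc (1 : ℝ) = ((d : ℝ) ^ j / (16 * P)) ^ 2 * (1 / (1 + (d : ℝ) ^ n)) *
            (256 * P ^ 2 * (1 + (d : ℝ) ^ n) / ((d : ℝ) ^ j) ^ 2) := by field_simp; norm_num
        _ ≤ _ := mul_le_mul_of_nonneg_right h2 (by positivity)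
    refine htriv.trans ?_
    have h3 : 1 ≤ 2 * (M * (8 / 3 * Bd d ^ (n - j))) + (c1 + c2) := by linarith
    nlinarith
  -- the good case
  have hω0 : ω ≠ 0 := by
    intro h
    rw [h, norm_zero] at hω
    exact zero_ne_one hω
  have hh0 : ‖hr β ω 0‖ ≤ η / 2 := by
    have h1 : hr β ω 0 = ω⁻¹ - 1 := by simp [hr, hβ.zero]
    have h2 : ω⁻¹ - 1 = - (ω⁻¹ * (ω - 1)) := by field_simp; ring
    rw [h1, h2, norm_neg, norm_mul, norm_inv, hω, inv_one, one_mul]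
    have h3 : 5 / D = 10 / D / 2 := by ring
    linarith
  have hsup : ∀ s ∈ Icc 0 ρ, ‖ω⁻¹ * β (ω * ((s : ℂ) * ζ)) - β ((s : ℂ) * ζ)‖ ≤ η := by
    intro s hs
    have h1 := radial_sup (hr_diff hβ hω) hρ hρ1 (show (0 : ℝ) ≤ 1 / D by positivity)
      (show 0 < η / 2 by linarith) hgh hs.1 hs.2
    rw [hcm] at h1
    have h2 := norm_add_le (hr β ω ((s : ℂ) * ζ) - hr β ω 0) (hr β ω 0)
    rw [sub_add_cancel] at h2
    have h3 : ω⁻¹ * β (ω * ((s : ℂ) * ζ)) - β ((s : ℂ) * ζ) = hr β ω ((s : ℂ) * ζ) := rfl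
    rw [h3]
    linarith
  have hqs : ∀ s ∈ Icc 0 ρ, ‖qq β ((s : ℂ) * ζ)‖ * (8 * P) ≤ (d : ℝ) ^ j := by
    intro s hs
    have h1 := radial_sup (qq_diff hβ) hρ hρ1 le_rfl
      (show 0 < (d : ℝ) ^ j / (16 * P) by positivity) hgq hs.1 hs.2
    rw [hcm, qq_zero hβ] at h1
    have h2 := norm_add_le (qq β ((s : ℂ) * ζ) - 1) 1
    rw [sub_add_cancel, norm_one] at h2
    have h3 : 1 ≤ (d : ℝ) ^ j / (16 * P) := by
      rw [one_le_div (by positivity)]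
      exact hc
    have h4 : ‖qq β ((s : ℂ) * ζ)‖ ≤ 2 * ((d : ℝ) ^ j / (16 * P)) := by linarith
    calc ‖qq β ((s : ℂ) * ζ)‖ * (8 * P) ≤ 2 * ((d : ℝ) ^ j / (16 * P)) * (8 * P) :=
          mul_le_mul_of_nonneg_right h4 (by positivity)
      _ = (d : ℝ) ^ j := by field_simp; norm_num
  have htop : ∀ s ∈ Icc 0 ρ, ‖BB d β J (ω * ((s : ℂ) * ζ)) - BB d β J ((s : ℂ) * ζ)‖ ≤ η := by
    intro s hs
    obtain ⟨y, hy⟩ : ∃ y, y = (s : ℂ) * ζ := ⟨_, rfl⟩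
    have hy1 : y ∈ ball (0 : ℂ) 1 := by rw [hy]; exact hmem s hs
    have hyn : ‖y‖ ^ (d ^ n) ≤ (R0 d)⁻¹ := by rw [hy]; exact hnormn s hs
    rw [← hy]
    have h1 := BB_sub_one_le hd hβ J hy1
    have h2 := BB_sub_one_le hd hβ J (mem_rot hω hy1)
    rw [norm_mul, hω, one_mul] at h2
    have h3 : ‖BB d β J (ω * y) - BB d β J y‖ ≤ ‖BB d β J (ω * y) - 1‖ + ‖BB d β J y - 1‖ := by
      have : BB d β J (ω * y) - BB d β J y = (BB d β J (ω * y) - 1) - (BB d β J y - 1) := by ring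
      rw [this]
      exact norm_sub_le _ _
    have hy0 := norm_nonneg y
    have hyle : ‖y‖ ≤ 1 := by rw [mem_ball_zero_iff] at hy1; exact hy1.le
    have h4 : ‖y‖ ^ (d ^ (J + 1) - 1) ≤ ((R0 d)⁻¹) ^ (d ^ (J - n)) := by
      calc ‖y‖ ^ (d ^ (J + 1) - 1) ≤ ‖y‖ ^ (d ^ J) := by
            apply pow_le_pow_of_le_one hy0 hyle
            have e1 : 1 ≤ d ^ J := Nat.one_le_pow _ _ (by omega)
            have e2 : 2 * d ^ J ≤ d ^ (J + 1) := by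
              rw [pow_succ, mul_comm]
              exact Nat.mul_le_mul_left _ hd
            omega
        _ = (‖y‖ ^ (d ^ n)) ^ (d ^ (J - n)) := by
            rw [← pow_mul, ← pow_add]
            congr 2
            omega
        _ ≤ _ := pow_le_pow_left₀ (by positivity) hyn _
    linarith
  have hprod : ∀ s ∈ Icc 0 ρ, κ ≤ ‖VP d β j J ((s : ℂ) * ζ)‖ := by
    intro s hs
    rw [hκ]
    apply prod_low hd hβ hjn hnJ (hmem s hs) (hnormn s hs)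
    rw [← hP]
    exact hqs s hs
  have hch := chain hd hβ hjJ hω hωj hζ1 hρ1 hη hκ0 hP hsup htop hprod hsm ρ hρI
  rw [← hxs, ← hM] at hch
  have hne1 := Pool.Agent.W677.MB.BB_ne hd hβ j hx1
  have hne2 := Pool.Agent.W677.MB.BB_ne hd hβ j hωx1
  have hlow := BB_low hd hβ hjn hx1 hxn
  have hBp : 0 < Bd d ^ (n - j) := by positivity
  have hratio := log_ratio hne1 hne2 hT1 htriv (r := M * (8 / 3 * Bd d ^ (n - j))) (by
    refine hch.trans ?_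
    have : M * (8 / 3 * Bd d ^ (n - j)) * ‖BB d β j x‖ =
        M * (8 / 3 * (Bd d ^ (n - j) * ‖BB d β j x‖)) := by ring
    rw [this]
    nlinarith)
  refine hratio.trans ?_
  have : 0 ≤ T * (c1 + c2) := by positivity
  nlinarith

end Pool.Agent.TH653.MC
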