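import Mathlib
import Pool.Agent.TH653.MC.C10

set_option autoImplicit false

/-! # The coefficients of `log V_j` away from the multiples of `d ^ (j + 1)` -/

namespace Pool.Agent.TH653.MC

open Complex Set Topology Filter Metric MeasureTheory N62a1eb23 Pool.Agent.H712R2 Pool.Agent.H713R2
open Pool.Agent.TH653.MB Real

variable {d : ℕ} {β : ℂ → ℂ}

/-- the coefficients through the averages of the differences -/
theorem tV_le_diff (hd : 2 ≤ d) (hβ : IsBeta d β) {j n m : ℕ} (hm : 1 ≤ m) (hmn : m ≤ d ^ (n + 1))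
    {ω : ℂ} (hω : ‖ω‖ = 1) (hωm : 1 ≤ ‖ω ^ m - 1‖) {ρ : ℝ} (hρ : 0 < ρ) (hρ1 : ρ < 1)
    (hρn : (2 * R0 d)⁻¹ ≤ ρ ^ (d ^ n)) {W : ℝ → ℝ} (hW : Continuous W)
    (h : ∀ θ, |Real.log ‖BB d β j (ω * circleMap 0 ρ θ)‖ - Real.log ‖BB d β j (circleMap 0 ρ θ)‖| ≤ W θ) :
    ‖tV d β j m‖ ≤ 2 * (2 * R0 d) ^ d * ((2 * π)⁻¹ * ∫ θ in (0 : ℝ)..2 * π, W θ) := by
  have hpi := Real.pi_pos
  have hR := R0_ge d
  have hRd : 0 < (2 * R0 d) ^ d := by positivity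
  have hmemb : ∀ θ, circleMap 0 ρ θ ∈ ball (0 : ℂ) 1 := fun θ => by
    rw [mem_ball_zero_iff, norm_circleMap_zero, abs_of_pos hρ]; exact hρ1
  have hVc : ContinuousOn (fun x => Real.log ‖BB d β j x‖) (ball 0 1) := by
    apply ContinuousOn.log (BB_diff hβ.diff j).continuousOn.norm
    intro x hx
    exact (norm_pos_iff.2 (Pool.Agent.W677.MB.BB_ne hd hβ j hx)).ne'
  have hc1 : Continuous fun θ => Real.log ‖BB d β j (circleMap 0 ρ θ)‖ :=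
    hVc.comp_continuous (continuous_circleMap 0 ρ) hmemb
  have hc2 : Continuous fun θ => Real.log ‖BB d β j (ω * circleMap 0 ρ θ)‖ :=
    hVc.comp_continuous (continuous_const.mul (continuous_circleMap 0 ρ)) (fun θ => mem_rot hω (hmemb θ))
  have hc3 : Continuous fun θ => -Real.log ‖BB d β j (circleMap 0 ρ θ)‖ := hc1.neg
  have e1 := tV_eq hd hβ j hm hρ hρ1
  have e2 := fc_rot hd hβ j hω hm hρ hρ1
  have e3 : fc (fun x => Real.log ‖BB d β j (ω * x)‖) ρ m =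
      fc (fun x => (Real.log ‖BB d β j (ω * x)‖ - Real.log ‖BB d β j x‖) + Real.log ‖BB d β j x‖) ρ m := by
    apply fc_congr
    intro θ
    ring
  have e4 := fc_add (v := fun x => Real.log ‖BB d β j (ω * x)‖ - Real.log ‖BB d β j x‖)
    (w := fun x => Real.log ‖BB d β j x‖) hρ m (hc2.sub hc1) hc1
  have e5 : (ω ^ m - 1) * tV d β j m =
      2 * fc (fun x => Real.log ‖BB d β j (ω * x)‖ - Real.log ‖BB d β j x‖) ρ m := by
    rw [e3, e4] at e2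
    linear_combination (-1 : ℂ) * e2 + e1
  have e6 : ‖tV d β j m‖ ≤ 2 * ‖fc (fun x => Real.log ‖BB d β j (ω * x)‖ - Real.log ‖BB d β j x‖) ρ m‖ := by
    have := congrArg norm e5
    rw [norm_mul, norm_mul, Complex.norm_two] at this
    rw [← this]
    have h0 := norm_nonneg (tV d β j m)
    nlinarith
  have e7 : ‖fc (fun x => Real.log ‖BB d β j (ω * x)‖ - Real.log ‖BB d β j x‖) ρ m‖ * ρ ^ m ≤
      (2 * π)⁻¹ * ∫ θ in (0 : ℝ)..2 * π, W θ := by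
    refine (norm_fc_le hρ m).trans ?_
    unfold circleAverage
    rw [smul_eq_mul]
    apply mul_le_mul_of_nonneg_left _ (by positivity)
    apply intervalIntegral.integral_mono_on (by positivity) ((hc2.sub hc1).abs.intervalIntegrable _ _)
      (hW.intervalIntegrable _ _)
    intro θ _
    exact h θ
  have hrm : ((2 * R0 d) ^ d)⁻¹ ≤ ρ ^ m := by
    calc ((2 * R0 d) ^ d)⁻¹ = ((2 * R0 d)⁻¹) ^ d := (inv_pow _ _).symm
      _ ≤ (ρ ^ (d ^ n)) ^ d := pow_le_pow_left₀ (by positivity) hρn d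
      _ = ρ ^ (d ^ (n + 1)) := by rw [← pow_mul, pow_succ]
      _ ≤ ρ ^ m := pow_le_pow_of_le_one hρ.le hρ1.le hmn
  obtain ⟨F, hF⟩ : ∃ F, F = ‖fc (fun x => Real.log ‖BB d β j (ω * x)‖ - Real.log ‖BB d β j x‖) ρ m‖ := ⟨_, rfl⟩
  rw [← hF] at e6 e7
  have hF0 : 0 ≤ F := by rw [hF]; exact norm_nonneg _
  have e8 : F * ((2 * R0 d) ^ d)⁻¹ ≤ (2 * π)⁻¹ * ∫ θ in (0 : ℝ)..2 * π, W θ :=
    (mul_le_mul_of_nonneg_left hrm hF0).trans e7
  rw [← div_eq_mul_inv, div_le_iff₀ hRd] at e8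
  calc ‖tV d β j m‖ ≤ 2 * F := e6
    _ ≤ 2 * (((2 * π)⁻¹ * ∫ θ in (0 : ℝ)..2 * π, W θ) * (2 * R0 d) ^ d) := by linarith
    _ = _ := by ring

theorem tV_triv (hd : 2 ≤ d) (hβ : IsBeta d β) {j n m : ℕ} (hjn : j ≤ n) (hm : 1 ≤ m)
    (hmn : m ≤ d ^ (n + 1)) : ‖tV d β j m‖ ≤ (2 * R0 d) ^ d * (Ct d * ((n - j : ℕ) + 1)) := by
  obtain ⟨r₁, r₂, h1, h2, h3, h4, h5⟩ := radii hd n
  obtain ⟨ρ, hρdef⟩ : ∃ ρ, ρ = (r₁ + r₂) / 2 := ⟨_, rfl⟩
  have hρI : ρ ∈ Ioo r₁ r₂ := by rw [hρdef]; constructor <;> linarith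
  have hρ : 0 < ρ := h1.trans hρI.1
  have hρ1 : ρ < 1 := hρI.2.trans h3
  have hR := R0_ge d
  have hRd : 0 < (2 * R0 d) ^ d := by positivity
  have hmemb : ∀ θ, circleMap 0 ρ θ ∈ ball (0 : ℂ) 1 := fun θ => by
    rw [mem_ball_zero_iff, norm_circleMap_zero, abs_of_pos hρ]; exact hρ1
  have e1 := tV_eq hd hβ j hm hρ hρ1
  have hVc : ContinuousOn (fun x => Real.log ‖BB d β j x‖) (ball 0 1) := by
    apply ContinuousOn.log (BB_diff hβ.diff j).continuousOn.norm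
    intro x hx
    exact (norm_pos_iff.2 (Pool.Agent.W677.MB.BB_ne hd hβ j hx)).ne'
  have hc1 : Continuous fun θ => Real.log ‖BB d β j (circleMap 0 ρ θ)‖ :=
    hVc.comp_continuous (continuous_circleMap 0 ρ) hmemb
  obtain ⟨T, hT⟩ : ∃ T : ℝ, T = Ct d / 2 * ((n - j : ℕ) + 1) := ⟨_, rfl⟩
  have e2 : ‖fc (fun x => Real.log ‖BB d β j x‖) ρ m‖ * ρ ^ m ≤ T := by
    refine (norm_fc_le hρ m).trans ?_
    apply Real.circleAverage_mono_on_of_le_circle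
    · exact (hc1.abs).intervalIntegrable _ _
    · intro x hx
      rw [mem_sphere_zero_iff_norm, abs_of_pos hρ] at hx
      rw [hT]
      apply log_V_le hd hβ hjn
      · rw [mem_ball_zero_iff, hx]; exact hρ1
      · rw [hx]; exact (h4 ρ hρI).2
  have hrm : ((2 * R0 d) ^ d)⁻¹ ≤ ρ ^ m := by
    calc ((2 * R0 d) ^ d)⁻¹ = ((2 * R0 d)⁻¹) ^ d := (inv_pow _ _).symm
      _ ≤ (ρ ^ (d ^ n)) ^ d := pow_le_pow_left₀ (by positivity) (h4 ρ hρI).1 d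
      _ = ρ ^ (d ^ (n + 1)) := by rw [← pow_mul, pow_succ]
      _ ≤ ρ ^ m := pow_le_pow_of_le_one hρ.le hρ1.le hmn
  obtain ⟨F, hF⟩ : ∃ F, F = ‖fc (fun x => Real.log ‖BB d β j x‖) ρ m‖ := ⟨_, rfl⟩
  rw [← hF] at e2
  have hF0 : 0 ≤ F := by rw [hF]; exact norm_nonneg _
  have e8 : F * ((2 * R0 d) ^ d)⁻¹ ≤ T := (mul_le_mul_of_nonneg_left hrm hF0).trans e2
  rw [← div_eq_mul_inv, div_le_iff₀ hRd] at e8
  rw [← e1, norm_mul, Complex.norm_two, ← hF]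
  calc 2 * F ≤ 2 * (T * (2 * R0 d) ^ d) := by linarith
    _ = (2 * R0 d) ^ d * (Ct d * ((n - j : ℕ) + 1)) := by rw [hT]; ring

end Pool.Agent.TH653.MC
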