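import Mathlib
import Pool.Agent.TH653.MC.C11

set_option autoImplicit false

/-! # The structure bound -/

namespace Pool.Agent.TH653.MC

open Complex Set Topology Filter Metric MeasureTheory N62a1eb23 Pool.Agent.H712R2 Pool.Agent.H713R2
open Pool.Agent.TH653.MB Real

variable {d : ℕ} {β : ℂ → ℂ}

theorem two_le_log_R0 (d : ℕ) : 2 ≤ Real.log (R0 d) := by
  have hR := R0_ge d
  rw [Real.le_log_iff_exp_le (by linarith)]
  have h1 := Real.exp_one_lt_d9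
  have h2 : Real.exp 2 = Real.exp 1 * Real.exp 1 := by rw [← Real.exp_add]; norm_num
  rw [h2]
  have h3 := Real.exp_pos 1
  nlinarith

/-- the choice of the level `u` -/
theorem choose_u (hd : 2 ≤ d) {D : ℝ} (hD : R0 d ^ 8 ≤ D) : ∃ (u : ℕ) (w : ℝ), 0 < w ∧ w ≤ 1 ∧
    w ^ 2 = ((R0 d)⁻¹) ^ (d ^ u) ∧ w ≤ D ^ (-(1 / (16 * d) : ℝ)) ∧
    (∀ q : ℕ, ((d : ℝ) ^ u) ^ q * w ≤ (q.factorial : ℝ)) ∧
    1 / (D * w ^ 4) ≤ D ^ (-(1 / (16 * d) : ℝ)) ∧ 10 / D ≤ 6 * w ^ 2 := by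
  have hR := R0_ge d
  have hR0 : 0 < R0 d := by linarith
  have hlR := two_le_log_R0 d
  have hd2 : (2 : ℝ) ≤ d := by exact_mod_cast hd
  have hR8 : (24 : ℝ) ^ 8 ≤ R0 d ^ 8 := pow_le_pow_left₀ (by norm_num) hR 8
  have hD0 : 0 < D := by
    have : (0 : ℝ) < 24 ^ 8 := by norm_num
    linarith
  have hlD : 8 * Real.log (R0 d) ≤ Real.log D := by
    have h1 := Real.log_le_log (by positivity) hD
    rw [Real.log_pow] at h1
    push_cast at h1
    exact h1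
  obtain ⟨L, hL⟩ : ∃ L, L = Real.log D / (8 * Real.log (R0 d)) := ⟨_, rfl⟩
  have hL1 : 1 ≤ L := by
    rw [hL, one_le_div (by linarith)]
    exact hlD
  obtain ⟨u, hu1, hu2⟩ := exists_nat_pow_near hL1 (show (1 : ℝ) < d by linarith)
  obtain ⟨y, hy⟩ : ∃ y : ℝ, y = (d : ℝ) ^ u := ⟨_, rfl⟩
  have hy1 : 1 ≤ y := by rw [hy]; exact one_le_pow₀ (by linarith)
  rw [← hy] at hu1
  rw [pow_succ, ← hy] at hu2
  have hLD : Real.log D = 8 * Real.log (R0 d) * L := by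
    rw [hL]
    have : Real.log (R0 d) ≠ 0 := by linarith
    field_simp
  obtain ⟨w, hw⟩ : ∃ w, w = Real.exp (-(Real.log (R0 d) / 2 * y)) := ⟨_, rfl⟩
  have hw0 : 0 < w := by rw [hw]; exact Real.exp_pos _
  have hlw : Real.log w = -(Real.log (R0 d) / 2 * y) := by rw [hw, Real.log_exp]
  have hyLR : Real.log (R0 d) * y ≤ Real.log D / 8 := by
    rw [hLD]
    nlinarith
  have hylow : Real.log D / (16 * d) ≤ Real.log (R0 d) / 2 * y := by
    rw [div_le_iff₀ (by positivity), hLD]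
    have : 0 ≤ Real.log (R0 d) := by linarith
    nlinarith
  refine ⟨u, w, hw0, ?_, ?_, ?_, ?_, ?_, ?_⟩
  · rw [hw, Real.exp_le_one_iff]
    have : 0 ≤ Real.log (R0 d) / 2 * y := by positivity
    linarith
  · rw [hw, ← Real.exp_nat_mul, ← Real.exp_log (show 0 < (R0 d)⁻¹ by positivity), ← Real.exp_nat_mul,
      Real.log_inv]
    congr 1
    push_cast
    rw [← hy]
    ring
  · rw [Real.rpow_def_of_pos hD0, hw]
    apply Real.exp_le_exp.2
    have : Real.log D * -(1 / (16 * d)) = -(Real.log D / (16 * d)) := by ring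
    rw [this]
    linarith
  · intro q
    rw [← hy]
    have h1 := Real.pow_div_factorial_le_exp y (by linarith) q
    have h2 : (0 : ℝ) < q.factorial := by exact_mod_cast q.factorial_pos
    rw [div_le_iff₀ h2] at h1
    have h3 : w ≤ Real.exp (-y) := by
      rw [hw]
      apply Real.exp_le_exp.2
      nlinarith
    calc y ^ q * w ≤ (Real.exp y * q.factorial) * Real.exp (-y) :=
          mul_le_mul h1 h3 hw0.le (by positivity)
      _ = q.factorial := by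
          rw [mul_right_comm, ← Real.exp_add]
          simp
  · rw [one_div, Real.rpow_neg hD0.le]
    apply inv_anti₀ (by positivity)
    rw [← Real.log_le_log_iff (by positivity) (by positivity), Real.log_rpow hD0,
      Real.log_mul hD0.ne' (by positivity), Real.log_pow, hlw]
    push_cast
    have h1 : 1 / (16 * (d : ℝ)) ≤ 1 / 32 := by
      apply div_le_div_of_nonneg_left (by norm_num) (by norm_num)
      linarith
    have h2 : 0 ≤ Real.log D := by linarith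
    have h3 : 1 / (16 * (d : ℝ)) * Real.log D ≤ 1 / 32 * Real.log D := mul_le_mul_of_nonneg_right h1 h2
    linarith
  · rw [div_le_iff₀ hD0]
    have h1 : 2 ≤ D * w ^ 2 := by
      rw [← Real.log_le_log_iff (by norm_num) (by positivity), Real.log_mul hD0.ne' (by positivity),
        Real.log_pow, hlw]
      push_cast
      have h2 := Real.log_two_lt_d9
      linarith
    linarith

theorem two_pow_ge (i : ℕ) : (i : ℝ) + 1 ≤ 2 ^ i := by
  have : i + 1 ≤ 2 ^ i := Nat.lt_two_pow_self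
  exact_mod_cast this

theorem st_bases {G dd B A : ℝ} (hG : 2 ≤ G) (hd : 2 ≤ dd) (hB : 1 ≤ B) (hA : A = 4 * G ^ 4 * dd ^ 3 * B) :
    2 ≤ A ∧ 2 * (2 * G ^ 4 * dd ^ 3) ≤ A ∧ 2 * G ≤ A ∧ 2 * (2 * G * dd * B) ≤ A ∧
    2 * (G ^ 2 * dd ^ 2) ≤ A := by
  have hG4 : G ^ 2 ≤ G ^ 4 := pow_le_pow_right₀ (by linarith) (by norm_num)
  have hG1 : G ≤ G ^ 4 := by
    calc G = G ^ 1 := (pow_one _).symm
      _ ≤ G ^ 4 := pow_le_pow_right₀ (by linarith) (by norm_num)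
  have hd23 : dd ^ 2 ≤ dd ^ 3 := pow_le_pow_right₀ (by linarith) (by norm_num)
  have hd13 : dd ≤ dd ^ 3 := by
    calc dd = dd ^ 1 := (pow_one _).symm
      _ ≤ dd ^ 3 := pow_le_pow_right₀ (by linarith) (by norm_num)
  have hd1 : 1 ≤ dd ^ 3 := one_le_pow₀ (by linarith)
  have hG0 : 1 ≤ G ^ 4 := one_le_pow₀ (by linarith)
  obtain ⟨z, hz⟩ : ∃ z, z = G ^ 4 * dd ^ 3 := ⟨_, rfl⟩
  have hz1 : 1 ≤ z := by rw [hz]; exact one_le_mul_of_one_le_of_one_le hG0 hd1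
  have hGz : G ≤ z := by rw [hz]; exact hG1.trans (le_mul_of_one_le_right (by positivity) hd1)
  have hA2 : A = 4 * (z * B) := by rw [hA, hz]; ring
  have hzB : z ≤ z * B := le_mul_of_one_le_right (by linarith) hB
  refine ⟨by linarith, ?_, by linarith, ?_, ?_⟩
  · have : 2 * (2 * G ^ 4 * dd ^ 3) = 4 * z := by rw [hz]; ring
    linarith
  · have h1 : G * dd ≤ z := by rw [hz]; exact mul_le_mul hG1 hd13 (by linarith) (by positivity)
    have h2 : G * dd * B ≤ z * B := mul_le_mul_of_nonneg_right h1 (by linarith)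
    have h3 : 2 * (2 * G * dd * B) = 4 * (G * dd * B) := by ring
    linarith
  · have h1 : G ^ 2 * dd ^ 2 ≤ z := by rw [hz]; exact mul_le_mul hG4 hd23 (by positivity) (by positivity)
    linarith

theorem st_S {Jj P G y w dd X f κ η S : ℝ} {i e : ℕ} (hG : 2 ≤ G) (hdd : 2 ≤ dd) (hy : 1 ≤ y)
    (hw0 : 0 < w) (hP0 : 0 < P) (hPle : P ≤ G ^ i * y ^ e) (hiu : Jj ≤ 2 ^ i * y)
    (hiu0 : 0 ≤ Jj) (hκ : κ = 1 / (40 * dd ^ i)) (hη : η = 6 * w ^ 2)
    (hS : S = Jj * η * P ^ 4 * (4 * dd) / κ ^ 3) (hf : 0 ≤ f) (hyq : y ^ (4 * e + 1) * w ≤ f) (hwX : w ≤ X) :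
    S ≤ 1536000 * dd * f * (2 * G ^ 4 * dd ^ 3) ^ i * X := by
  have hdd0 : 0 < dd := by linarith
  have hG0 : 0 < G := by linarith
  have hy0 : 0 < y := by linarith
  have e1 : P ^ 4 ≤ (G ^ i * y ^ e) ^ 4 := pow_le_pow_left₀ hP0.le hPle 4
  have e2 : S = Jj * (6 * w ^ 2) * P ^ 4 * (4 * dd) * (64000 * (dd ^ i) ^ 3) := by
    rw [hS, hκ, hη]
    field_simp
    norm_num
  have e3 : Jj * (6 * w ^ 2) * P ^ 4 * (4 * dd) * (64000 * (dd ^ i) ^ 3) ≤
      (2 ^ i * y) * (6 * w ^ 2) * (G ^ i * y ^ e) ^ 4 * (4 * dd) * (64000 * (dd ^ i) ^ 3) := by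
    apply mul_le_mul_of_nonneg_right _ (by positivity)
    apply mul_le_mul_of_nonneg_right _ (by positivity)
    apply mul_le_mul _ e1 (by positivity) (by positivity)
    exact mul_le_mul_of_nonneg_right hiu (by positivity)
  have e4 : (2 ^ i * y) * (6 * w ^ 2) * (G ^ i * y ^ e) ^ 4 * (4 * dd) * (64000 * (dd ^ i) ^ 3) =
      1536000 * dd * (y ^ (4 * e + 1) * w) * (2 * G ^ 4 * dd ^ 3) ^ i * w := by
    have a1 : (2 * G ^ 4 * dd ^ 3) ^ i = 2 ^ i * (G ^ i) ^ 4 * (dd ^ i) ^ 3 := by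
      rw [mul_pow, mul_pow]
      ring
    have a2 : y ^ (4 * e + 1) = (y ^ e) ^ 4 * y := by
      rw [pow_succ, mul_comm 4, pow_mul]
    rw [a1, a2]
    ring
  rw [e2]
  refine e3.trans ?_
  rw [e4]
  apply mul_le_mul _ hwX hw0.le (by positivity)
  apply mul_le_mul_of_nonneg_right _ (by positivity)
  exact mul_le_mul_of_nonneg_left hyq (by positivity)

theorem st_t1 {Jj P G y w dd B X f κ η M : ℝ} {i e : ℕ} (hG : 2 ≤ G) (hdd : 2 ≤ dd) (hB : 1 ≤ B)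
    (hy : 1 ≤ y) (hw0 : 0 < w) (hP0 : 0 < P) (hPle : P ≤ G ^ i * y ^ e) (hiu : Jj ≤ 2 ^ i * y)
    (hκ : κ = 1 / (40 * dd ^ i)) (hη : η = 6 * w ^ 2)
    (hM : M = 2 * (Jj * η * P / κ * (8 / 3 * B ^ i))) (hf : 0 ≤ f)
    (hyq : y ^ (e + 1) * w ≤ f) (hwX : w ≤ X) :
    M ≤ 1280 * f * (2 * G * dd * B) ^ i * X := by
  have hdd0 : 0 < dd := by linarith
  have hG0 : 0 < G := by linarith
  have hy0 : 0 < y := by linarith
  have hB0 : 0 < B := by linarith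
  have e1 : M = 2 * (Jj * (6 * w ^ 2) * P * (40 * dd ^ i) * (8 / 3 * B ^ i)) := by
    rw [hM, hκ, hη]
    field_simp
  have e2 : 2 * (Jj * (6 * w ^ 2) * P * (40 * dd ^ i) * (8 / 3 * B ^ i)) ≤
      2 * ((2 ^ i * y) * (6 * w ^ 2) * (G ^ i * y ^ e) * (40 * dd ^ i) * (8 / 3 * B ^ i)) := by
    apply mul_le_mul_of_nonneg_left _ (by norm_num)
    apply mul_le_mul_of_nonneg_right _ (by positivity)
    apply mul_le_mul_of_nonneg_right _ (by positivity)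
    apply mul_le_mul _ hPle (by positivity) (by positivity)
    exact mul_le_mul_of_nonneg_right hiu (by positivity)
  have e3 : 2 * ((2 ^ i * y) * (6 * w ^ 2) * (G ^ i * y ^ e) * (40 * dd ^ i) *
      (8 / 3 * B ^ i)) = 1280 * (y ^ (e + 1) * w) * (2 * G * dd * B) ^ i * w := by
    rw [mul_pow, mul_pow, mul_pow, pow_succ y]
    ring
  rw [e1]
  refine e2.trans ?_
  rw [e3]
  apply mul_le_mul _ hwX hw0.le (by positivity)
  apply mul_le_mul_of_nonneg_right _ (by positivity)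
  exact mul_le_mul_of_nonneg_left hyq (by norm_num)

theorem st_t3 {P G y w dd X f E D a2 dj dn : ℝ} {i e : ℕ} (hG : 2 ≤ G) (hdd : 2 ≤ dd)
    (hy : 1 ≤ y) (hw0 : 0 < w) (hP0 : 0 < P) (hPle : P ≤ G ^ i * y ^ e) (hE : 0 ≤ E)
    (hD0 : 0 < D) (hdj0 : 0 < dj) (hdn : dn = dj * dd ^ i) (hDn : D ≤ dn) (hdn1 : 1 ≤ dn)
    (ha2 : a2 = 256 * P ^ 2 * (1 + dn) / dj ^ 2) (hf : 0 ≤ f)
    (hyq : y ^ (2 * e) * w ≤ f) (hwD1 : 1 / (D * w) ≤ X) :
    E * a2 ≤ 512 * E * f * (G ^ 2 * dd ^ 2) ^ i * X := by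
  have hdd0 : 0 < dd := by linarith
  have hG0 : 0 < G := by linarith
  have hy0 : 0 < y := by linarith
  have hdi0 : 0 < dd ^ i := by positivity
  have e1 : a2 ≤ 512 * P ^ 2 * (dd ^ i) ^ 2 * (1 / D) := by
    rw [ha2, div_le_iff₀ (by positivity)]
    have e2 : 512 * P ^ 2 * (dd ^ i) ^ 2 * (1 / D) * dj ^ 2 =
        512 * P ^ 2 * (dn ^ 2 / D) := by rw [hdn]; ring
    rw [e2]
    have e3 : dn ≤ dn ^ 2 / D := by
      rw [le_div_iff₀ hD0]
      nlinarith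
    have e4 : 1 + dn ≤ 2 * (dn ^ 2 / D) := by linarith
    have e5 : 0 < P ^ 2 := by positivity
    calc 256 * P ^ 2 * (1 + dn) ≤ 256 * P ^ 2 * (2 * (dn ^ 2 / D)) :=
          mul_le_mul_of_nonneg_left e4 (by positivity)
      _ = 512 * P ^ 2 * (dn ^ 2 / D) := by ring
  have e2 : P ^ 2 ≤ (G ^ i * y ^ e) ^ 2 := pow_le_pow_left₀ hP0.le hPle 2
  calc E * a2 ≤ E * (512 * P ^ 2 * (dd ^ i) ^ 2 * (1 / D)) :=
        mul_le_mul_of_nonneg_left e1 hE
    _ ≤ E * (512 * (G ^ i * y ^ e) ^ 2 * (dd ^ i) ^ 2 * (1 / D)) := by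
        apply mul_le_mul_of_nonneg_left _ hE
        apply mul_le_mul_of_nonneg_right _ (by positivity)
        apply mul_le_mul_of_nonneg_right _ (by positivity)
        exact mul_le_mul_of_nonneg_left e2 (by norm_num)
    _ = 512 * E * (y ^ (2 * e) * w) * (G ^ 2 * dd ^ 2) ^ i * (1 / (D * w)) := by
        have b1 : (G ^ 2 * dd ^ 2) ^ i = (G ^ i) ^ 2 * (dd ^ i) ^ 2 := by
          rw [mul_pow]
          ring
        have b2 : y ^ (2 * e) = (y ^ e) ^ 2 := by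
          rw [mul_comm 2, pow_mul]
        rw [b1, b2]
        field_simp
    _ ≤ 512 * E * f * (G ^ 2 * dd ^ 2) ^ i * X := by
        apply mul_le_mul _ hwD1 (by positivity) (by positivity)
        apply mul_le_mul_of_nonneg_right _ (by positivity)
        exact mul_le_mul_of_nonneg_left hyq (by positivity)

theorem st_t2 {E D w a1 η X : ℝ} (hE : 0 ≤ E) (hD : 0 < D) (hw : 0 < w) (hη : η = 6 * w ^ 2)
    (ha1 : a1 = 4 * D / η ^ 2) (hwD : 1 / (D * w ^ 4) ≤ X) :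
    27 * E / D ^ 2 * a1 ≤ 3 * E * X := by
  have e1 : 27 * E / D ^ 2 * a1 = 3 * E * (1 / (D * w ^ 4)) := by
    rw [ha1, hη]
    field_simp
    ring
  rw [e1]
  exact mul_le_mul_of_nonneg_left hwD (by positivity)

theorem st_sum {f3 E f4 A G dd B X M b2 b3 : ℝ} {i : ℕ} (hG : 2 ≤ G) (hdd : 2 ≤ dd) (hB : 1 ≤ B)
    (hA1 : 2 ≤ A) (c1 : 2 * (2 * G * dd * B) ≤ A) (c3 : 2 * (G ^ 2 * dd ^ 2) ≤ A) (hX : 0 ≤ X)
    (hf3 : 0 ≤ f3) (hE : 0 ≤ E) (hf4 : 0 ≤ f4)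
    (t1 : M ≤ 1280 * f3 * (2 * G * dd * B) ^ i * X) (t2 : b2 ≤ 3 * E * X)
    (t3 : b3 ≤ 512 * E * f4 * (G ^ 2 * dd ^ 2) ^ i * X) :
    (2 : ℝ) ^ i * (M + (b2 + b3)) ≤ (1280 * f3 + 3 * E + 512 * E * f4) * A ^ i * X := by
  have hdd0 : 0 < dd := by linarith
  have hG0 : 0 < G := by linarith
  have hB0 : 0 < B := by linarith
  have s1 : (2 : ℝ) ^ i * M ≤ 1280 * f3 * A ^ i * X := by
    calc (2 : ℝ) ^ i * M ≤ 2 ^ i * (1280 * f3 * (2 * G * dd * B) ^ i * X) :=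
          mul_le_mul_of_nonneg_left t1 (by positivity)
      _ = 1280 * f3 * (2 * (2 * G * dd * B)) ^ i * X := by
          rw [mul_pow 2 (2 * G * dd * B)]
          ring
      _ ≤ 1280 * f3 * A ^ i * X := by
          apply mul_le_mul_of_nonneg_right _ hX
          apply mul_le_mul_of_nonneg_left _ (by positivity)
          exact pow_le_pow_left₀ (by positivity) c1 i
  have s2 : (2 : ℝ) ^ i * b2 ≤ 3 * E * A ^ i * X := by
    calc (2 : ℝ) ^ i * b2 ≤ 2 ^ i * (3 * E * X) :=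
          mul_le_mul_of_nonneg_left t2 (by positivity)
      _ ≤ A ^ i * (3 * E * X) :=
          mul_le_mul_of_nonneg_right (pow_le_pow_left₀ (by norm_num) hA1 i) (by positivity)
      _ = 3 * E * A ^ i * X := by ring
  have s3 : (2 : ℝ) ^ i * b3 ≤ 512 * E * f4 * A ^ i * X := by
    calc (2 : ℝ) ^ i * b3 ≤ 2 ^ i * (512 * E * f4 * (G ^ 2 * dd ^ 2) ^ i * X) :=
          mul_le_mul_of_nonneg_left t3 (by positivity)
      _ = 512 * E * f4 * (2 * (G ^ 2 * dd ^ 2)) ^ i * X := by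
          rw [mul_pow 2 (G ^ 2 * dd ^ 2)]
          ring
      _ ≤ 512 * E * f4 * A ^ i * X := by
          apply mul_le_mul_of_nonneg_right _ hX
          apply mul_le_mul_of_nonneg_left _ (by positivity)
          exact pow_le_pow_left₀ (by positivity) c3 i
  have s4 : (2 : ℝ) ^ i * (M + (b2 + b3)) = 2 ^ i * M + 2 ^ i * b2 + 2 ^ i * b3 := by ring
  have s5 : (1280 * f3 + 3 * E + 512 * E * f4) * A ^ i * X = 1280 * f3 * A ^ i * X + 3 * E * A ^ i * X +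
      512 * E * f4 * A ^ i * X := by ring
  linarith

theorem structure_bound (hd : 2 ≤ d) (hβ : IsBeta d β) : ∃ C A : ℝ, 0 < C ∧ 1 ≤ A ∧
    ∀ n j m : ℕ, j < n → 1 ≤ m → m ≤ d ^ (n + 1) → 1 ≤ dst (d ^ (j + 1)) m →
    ‖tV d β j m‖ ≤ C * A ^ (n - j) * ((dst (d ^ (j + 1)) m : ℕ) : ℝ) ^ (-(1 / (16 * d) : ℝ)) := by
  have hR := R0_ge d
  have hR0 : 0 < R0 d := by linarith
  have hd2 : (2 : ℝ) ≤ d := by exact_mod_cast hd
  have hd0 : (0 : ℝ) < d := by linarith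
  have hBd := Bd_ge hd
  have hCt := Ct_ge hd
  have hEE := EE_nonneg β
  obtain ⟨G, hG⟩ : ∃ G : ℝ, G = 2 ^ (d - 1) := ⟨_, rfl⟩
  have hG2 : 2 ≤ G := by
    rw [hG]
    calc (2 : ℝ) = 2 ^ 1 := (pow_one _).symm
      _ ≤ 2 ^ (d - 1) := pow_le_pow_right₀ (by norm_num) (by omega)
  obtain ⟨T, hT⟩ : ∃ T : ℝ, T = 2 * (2 * R0 d) ^ d * Ct d := ⟨_, rfl⟩
  have hT0 : 0 < T := by rw [hT]; positivity
  obtain ⟨A, hA⟩ : ∃ A : ℝ, A = 4 * G ^ 4 * d ^ 3 * Bd d := ⟨_, rfl⟩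
  have hGp : ∀ k : ℕ, 1 ≤ G ^ k := fun k => one_le_pow₀ (by linarith)
  have hdp : ∀ k : ℕ, 1 ≤ (d : ℝ) ^ k := fun k => one_le_pow₀ (by linarith)
  obtain ⟨hA1, hb1, hb2, b1, b3⟩ := st_bases hG2 hd2 (show (1 : ℝ) ≤ Bd d by linarith) hA
  have hbase : ∀ {a : ℝ} (i : ℕ), 0 ≤ a → a ≤ A → a ^ i ≤ A ^ i := fun i h0 h => pow_le_pow_left₀ h0 h i
  obtain ⟨f1, hf1⟩ : ∃ f1 : ℝ, f1 = ((4 * (d - 1) + 1).factorial : ℝ) := ⟨_, rfl⟩
  obtain ⟨f2, hf2⟩ : ∃ f2 : ℝ, f2 = ((d - 1).factorial : ℝ) := ⟨_, rfl⟩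
  obtain ⟨f3, hf3⟩ : ∃ f3 : ℝ, f3 = ((d - 1 + 1).factorial : ℝ) := ⟨_, rfl⟩
  obtain ⟨f4, hf4⟩ : ∃ f4 : ℝ, f4 = ((2 * (d - 1)).factorial : ℝ) := ⟨_, rfl⟩
  have hf1' : 0 ≤ f1 := by rw [hf1]; positivity
  have hf2' : 0 ≤ f2 := by rw [hf2]; positivity
  have hf3' : 0 ≤ f3 := by rw [hf3]; positivity
  have hf4' : 0 ≤ f4 := by rw [hf4]; positivity
  obtain ⟨C0', hC0'⟩ : ∃ C : ℝ, C = ((R0 d ^ 8) ^ (1 / (16 * d) : ℝ)) := ⟨_, rfl⟩
  have hC0'' : 0 < C0' := by rw [hC0']; positivity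
  refine ⟨T * (C0' + 1536000 * d * f1 + 16 * d * f2 + (1280 * f3 + 3 * EE β + 512 * EE β * f4)), A,
    by positivity, by linarith, ?_⟩
  intro n j m hjn hm hmn hD1
  obtain ⟨D, hD⟩ : ∃ D : ℝ, D = ((dst (d ^ (j + 1)) m : ℕ) : ℝ) := ⟨_, rfl⟩
  have hD1' : 1 ≤ D := by rw [hD]; exact_mod_cast hD1
  have hD0 : 0 < D := by linarith
  obtain ⟨i, hi⟩ : ∃ i, i = n - j := ⟨_, rfl⟩
  obtain ⟨X, hX⟩ : ∃ X : ℝ, X = D ^ (-(1 / (16 * d) : ℝ)) := ⟨_, rfl⟩
  have hX0 : 0 < X := by rw [hX]; positivity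
  rw [← hD, ← hX, ← hi]
  have htriv := tV_triv hd hβ hjn.le hm hmn
  rw [← hi] at htriv
  have h2i := two_pow_ge i
  have hAi : 0 < A ^ i := by positivity
  have htriv' : ‖tV d β j m‖ ≤ T * 2 ^ i := by
    refine htriv.trans ?_
    rw [hT]
    have h1 : (0 : ℝ) < (2 * R0 d) ^ d * Ct d := by positivity
    have h2 : (0 : ℝ) ≤ i := Nat.cast_nonneg i
    calc (2 * R0 d) ^ d * (Ct d * ((i : ℝ) + 1)) = ((2 * R0 d) ^ d * Ct d) * ((i : ℝ) + 1) := by ring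
      _ ≤ ((2 * R0 d) ^ d * Ct d) * 2 ^ i := mul_le_mul_of_nonneg_left h2i h1.le
      _ ≤ 2 * (2 * R0 d) ^ d * Ct d * 2 ^ i := by
          have : (0 : ℝ) < 2 ^ i := by positivity
          nlinarith
  have hfin : ∀ {K : ℝ}, 0 ≤ K → ‖tV d β j m‖ ≤ T * K * A ^ i * X →
      K ≤ C0' + 1536000 * d * f1 + 16 * d * f2 + (1280 * f3 + 3 * EE β + 512 * EE β * f4) →
      ‖tV d β j m‖ ≤ T * (C0' + 1536000 * d * f1 + 16 * d * f2 +
        (1280 * f3 + 3 * EE β + 512 * EE β * f4)) * A ^ i * X := by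
    intro K _ h1 h2
    refine h1.trans ?_
    apply mul_le_mul_of_nonneg_right _ hX0.le
    apply mul_le_mul_of_nonneg_right _ hAi.le
    exact mul_le_mul_of_nonneg_left h2 hT0.le
  have p1 : 0 ≤ 1536000 * d * f1 := by positivity
  have p2 : 0 ≤ 16 * d * f2 := by positivity
  have p3 : 0 ≤ 1280 * f3 + 3 * EE β + 512 * EE β * f4 := by positivity
  -- small `D`
  rcases lt_or_ge D (R0 d ^ 8) with hDs | hDl
  · apply hfin hC0''.le _ (by linarith)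
    have h1 : 1 ≤ C0' * X := by
      rw [hC0', hX, Real.rpow_neg hD0.le, ← div_eq_mul_inv, one_le_div (by positivity)]
      exact Real.rpow_le_rpow hD0.le hDs.le (by positivity)
    calc ‖tV d β j m‖ ≤ T * 2 ^ i := htriv'
      _ ≤ T * A ^ i := mul_le_mul_of_nonneg_left (hbase i (by norm_num) hA1) hT0.le
      _ ≤ T * A ^ i * (C0' * X) := le_mul_of_one_le_right (by positivity) h1
      _ = T * C0' * A ^ i * X := by ring
  -- large `D`
  obtain ⟨u, w, hw0, hw1, hw2, hwX, hyq, hwD, hDη⟩ := choose_u hd hDl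
  rw [← hX] at hwX hwD
  obtain ⟨y, hy⟩ : ∃ y : ℝ, y = (d : ℝ) ^ u := ⟨_, rfl⟩
  have hy1 : 1 ≤ y := by rw [hy]; exact hdp u
  rw [← hy] at hyq
  obtain ⟨J, hJ⟩ : ∃ J, J = n + u := ⟨_, rfl⟩
  obtain ⟨P, hP⟩ : ∃ P : ℝ, P = (2 ^ (d - 1)) ^ (J - j) := ⟨_, rfl⟩
  have hJj : J - j = i + u := by omega
  have hJjr : (J : ℝ) - j = i + u := by
    have : J = j + (i + u) := by omega
    rw [this]
    push_cast
    ring
  have hu2 : (2 : ℝ) ^ u ≤ y := by rw [hy]; exact pow_le_pow_left₀ (by norm_num) hd2 u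
  have hPle : P ≤ G ^ i * y ^ (d - 1) := by
    rw [hP, hJj, pow_add, ← hG]
    apply mul_le_mul_of_nonneg_left _ (by positivity)
    rw [hG, ← pow_mul, mul_comm, pow_mul]
    exact pow_le_pow_left₀ (by positivity) hu2 _
  have hP1 : 1 ≤ P := by rw [hP, ← hG]; exact hGp _
  have hP0 : 0 < P := by linarith
  have hiu : (J : ℝ) - j + 1 ≤ 2 ^ i * y := by
    rw [hJjr]
    have h1 := two_pow_ge u
    have h2 : (0 : ℝ) ≤ i := Nat.cast_nonneg i
    have h3 : (0 : ℝ) ≤ u := Nat.cast_nonneg u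
    calc (i : ℝ) + u + 1 ≤ ((i : ℝ) + 1) * (u + 1) := by nlinarith
      _ ≤ 2 ^ i * y := mul_le_mul h2i (h1.trans hu2) (by positivity) (by positivity)
  have hiu0 : 0 ≤ (J : ℝ) - j + 1 := by
    rw [hJjr]
    positivity
  obtain ⟨κ, hκ⟩ : ∃ κ : ℝ, κ = 1 / (40 * (d : ℝ) ^ i) := ⟨_, rfl⟩
  have hκ0 : 0 < κ := by rw [hκ]; positivity
  obtain ⟨η, hη⟩ : ∃ η : ℝ, η = 6 * w ^ 2 := ⟨_, rfl⟩
  have hη0 : 0 < η := by rw [hη]; positivity
  -- the case of large quantities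
  obtain ⟨S, hS⟩ : ∃ S : ℝ, S = ((J : ℝ) - j + 1) * η * P ^ 4 * (4 * d) / κ ^ 3 := ⟨_, rfl⟩
  have hSle : S ≤ 1536000 * d * f1 * (2 * G ^ 4 * d ^ 3) ^ i * X := by
    exact st_S hG2 hd2 hy1 hw0 hP0 hPle hiu hiu0 hκ hη hS hf1' (by rw [hf1]; exact hyq _) hwX
  rcases le_or_gt 1 S with hS1 | hS1
  · apply hfin p1 _ (by linarith)
    calc ‖tV d β j m‖ ≤ T * 2 ^ i := htriv'
      _ ≤ T * 2 ^ i * S := le_mul_of_one_le_right (by positivity) hS1
      _ ≤ T * 2 ^ i * (1536000 * d * f1 * (2 * G ^ 4 * d ^ 3) ^ i * X) :=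
          mul_le_mul_of_nonneg_left hSle (by positivity)
      _ = T * (1536000 * d * f1) * (2 * (2 * G ^ 4 * d ^ 3)) ^ i * X := by
          rw [mul_pow 2 (2 * G ^ 4 * (d : ℝ) ^ 3)]
          ring
      _ ≤ T * (1536000 * d * f1) * A ^ i * X := by
          apply mul_le_mul_of_nonneg_right _ hX0.le
          apply mul_le_mul_of_nonneg_left _ (by positivity)
          exact hbase i (by positivity) hb1
  have hDdj : D ≤ (d : ℝ) ^ (j + 1) := by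
    rw [hD]
    have : dst (d ^ (j + 1)) m ≤ d ^ (j + 1) := by
      unfold dst
      exact (min_le_right _ _).trans (Nat.sub_le _ _)
    exact_mod_cast this
  have hwD1 : 1 / (D * w) ≤ X := by
    refine le_trans ?_ hwD
    apply div_le_div_of_nonneg_left (by norm_num) (by positivity)
    apply mul_le_mul_of_nonneg_left _ hD0.le
    calc w ^ 4 ≤ w ^ 1 := pow_le_pow_of_le_one hw0.le hw1 (by norm_num)
      _ = w := pow_one w
  rcases lt_or_ge ((d : ℝ) ^ j) (16 * P) with hc | hc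
  · apply hfin p2 _ (by linarith)
    have h1 : 1 ≤ 16 * d * f2 * G ^ i * X := by
      have e1 : D ≤ 16 * d * P := by
        refine hDdj.trans ?_
        rw [pow_succ]
        nlinarith
      have e2 : 1 ≤ 16 * d * P / D := by
        rw [one_le_div hD0]
        exact e1
      have e3 := hyq (d - 1)
      rw [← hf2] at e3
      calc (1 : ℝ) ≤ 16 * d * P / D := e2
        _ ≤ 16 * d * (G ^ i * y ^ (d - 1)) / D := by
            apply div_le_div_of_nonneg_right _ hD0.le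
            exact mul_le_mul_of_nonneg_left hPle (by positivity)
        _ = 16 * d * G ^ i * (y ^ (d - 1) * w) * (1 / (D * w)) := by field_simp
        _ ≤ 16 * d * G ^ i * f2 * X := by
            apply mul_le_mul _ hwD1 (by positivity) (by positivity)
            exact mul_le_mul_of_nonneg_left e3 (by positivity)
        _ = 16 * d * f2 * G ^ i * X := by ring
    calc ‖tV d β j m‖ ≤ T * 2 ^ i := htriv'
      _ ≤ T * 2 ^ i * (16 * d * f2 * G ^ i * X) := le_mul_of_one_le_right (by positivity) h1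
      _ = T * (16 * d * f2) * (2 * G) ^ i * X := by rw [mul_pow 2 G]; ring
      _ ≤ T * (16 * d * f2) * A ^ i * X := by
          apply mul_le_mul_of_nonneg_right _ hX0.le
          apply mul_le_mul_of_nonneg_left _ (by positivity)
          exact hbase i (by positivity) hb2
  -- the main case
  apply hfin p3 _ (by linarith)
  obtain ⟨ω, hω1, hω2, hω3, hω4⟩ := exists_rot (N := d ^ (j + 1)) (m := m)
    (Nat.one_le_pow _ _ (by omega)) hD1
  rw [← hD] at hω4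
  obtain ⟨r₁, r₂, h1, h2, h3, h4, h5⟩ := radii hd n
  obtain ⟨ρ, hρdef⟩ : ∃ ρ, ρ = (r₁ + r₂) / 2 := ⟨_, rfl⟩
  have hρI : ρ ∈ Ioo r₁ r₂ := by rw [hρdef]; constructor <;> linarith
  have hρ : 0 < ρ := h1.trans hρI.1
  have hρ1 : ρ < 1 := hρI.2.trans h3
  have hsm : ((J : ℝ) - j + 1) * η * P ^ 4 < 1 / (4 * d) * κ ^ 3 := by
    rw [hS, div_lt_one (by positivity)] at hS1
    rw [div_mul_eq_mul_div, one_mul, lt_div_iff₀ (by positivity)]
    exact hS1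
  have hpt := point hd hβ hjn.le (show n ≤ J by omega) hω1 hω2 hD1' hω4 hρ hρ1 (h4 ρ hρI).2
    (η := η) (P := P) (κ := κ) hη0 hP (by rw [hκ, hi]) (by rw [hη]; exact hDη) (by
      have : J - n = u := by omega
      rw [this, ← hw2, hη]) hc hsm
  rw [← hi] at hpt
  obtain ⟨M, hM⟩ : ∃ M : ℝ, M = 2 * (((J : ℝ) - j + 1) * η * P / κ * (8 / 3 * Bd d ^ i)) := ⟨_, rfl⟩
  obtain ⟨a1, ha1⟩ : ∃ a1 : ℝ, a1 = 4 * D / η ^ 2 := ⟨_, rfl⟩
  obtain ⟨a2, ha2⟩ : ∃ a2 : ℝ, a2 = 256 * P ^ 2 * (1 + (d : ℝ) ^ n) / ((d : ℝ) ^ j) ^ 2 := ⟨_, rfl⟩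
  rw [← hM, ← ha1, ← ha2] at hpt
  obtain ⟨Q, hQ⟩ : ∃ Q : ℝ, Q = Ct d * ((i : ℝ) + 1) := ⟨_, rfl⟩
  rw [← hQ] at hpt
  have hKhc := Kr_cont (hr_diff hβ hω1) hρ hρ1 (1 / D)
  have hKqc := Kr_cont (qq_diff hβ) hρ hρ1 0
  have hdiff := tV_le_diff hd hβ hm hmn hω1 hω3 hρ hρ1 (h4 ρ hρI).1
    (W := fun θ => Q * (M + (Kr (hr β ω) ρ (1 / D) θ * a1 + Kr (qq β) ρ 0 θ * a2)))
    (continuous_const.mul (continuous_const.add ((hKhc.mul continuous_const).add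
      (hKqc.mul continuous_const)))) hpt
  -- the average
  have hpi := Real.pi_pos
  have hav : (2 * π)⁻¹ * ∫ θ in (0 : ℝ)..2 * π,
      Q * (M + (Kr (hr β ω) ρ (1 / D) θ * a1 + Kr (qq β) ρ 0 θ * a2)) ≤
      Q * (M + (27 * EE β / D ^ 2 * a1 + EE β * a2)) := by
    have i1 : IntervalIntegrable (fun θ => Kr (hr β ω) ρ (1 / D) θ * a1) volume 0 (2 * π) :=
      (hKhc.mul continuous_const).intervalIntegrable _ _
    have i2 : IntervalIntegrable (fun θ => Kr (qq β) ρ 0 θ * a2) volume 0 (2 * π) :=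
      (hKqc.mul continuous_const).intervalIntegrable _ _
    have i3 : IntervalIntegrable (fun _ : ℝ => M) volume 0 (2 * π) :=
      continuous_const.intervalIntegrable _ _
    rw [intervalIntegral.integral_const_mul, intervalIntegral.integral_add i3 (i1.add i2),
      intervalIntegral.integral_add i1 i2, intervalIntegral.integral_mul_const,
      intervalIntegral.integral_mul_const, intervalIntegral.integral_const, smul_eq_mul, sub_zero]
    have k1 := Kh_av hβ hω1 hD1' hω4 hρ hρ1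
    have k2 := Kq_av hβ hρ hρ1
    have ha1' : 0 ≤ a1 := by rw [ha1]; positivity
    have ha2' : 0 ≤ a2 := by rw [ha2]; positivity
    have hQ0 : 0 ≤ Q := by rw [hQ]; positivity
    have k3 := mul_le_mul_of_nonneg_right k1 ha1'
    have k4 := mul_le_mul_of_nonneg_right k2 ha2'
    have e1 : (2 * π)⁻¹ * (Q * (2 * π * M + ((∫ θ in (0 : ℝ)..2 * π, Kr (hr β ω) ρ (1 / D) θ) * a1 +
        (∫ θ in (0 : ℝ)..2 * π, Kr (qq β) ρ 0 θ) * a2))) =
        Q * (M + (((2 * π)⁻¹ * ∫ θ in (0 : ℝ)..2 * π, Kr (hr β ω) ρ (1 / D) θ) * a1 +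
        ((2 * π)⁻¹ * ∫ θ in (0 : ℝ)..2 * π, Kr (qq β) ρ 0 θ) * a2)) := by
      field_simp
    rw [e1]
    apply mul_le_mul_of_nonneg_left _ hQ0
    linarith
  -- the three terms
  have t1 : M ≤ 1280 * f3 * (2 * G * d * Bd d) ^ i * X := by
    exact st_t1 hG2 hd2 (show (1 : ℝ) ≤ Bd d by linarith) hy1 hw0 hP0 hPle hiu hκ hη hM hf3'
      (by rw [hf3]; exact hyq _) hwX
  have t2 : 27 * EE β / D ^ 2 * a1 ≤ 3 * EE β * X := by
    exact st_t2 hEE hD0 hw0 hη ha1 hwD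
  have t3 : EE β * a2 ≤ 512 * EE β * f4 * (G ^ 2 * (d : ℝ) ^ 2) ^ i * X := by
    have hdn : (d : ℝ) ^ n = (d : ℝ) ^ j * (d : ℝ) ^ i := by
      rw [← pow_add]
      congr 1
      omega
    have hDn : D ≤ (d : ℝ) ^ n := by
      refine hDdj.trans ?_
      exact pow_le_pow_right₀ (by linarith) (by omega)
    exact st_t3 hG2 hd2 hy1 hw0 hP0 hPle hEE hD0 (by positivity) hdn hDn (hdp n) ha2 hf4'
      (by rw [hf4]; exact hyq _) hwD1
  have hsum : (2 : ℝ) ^ i * (M + (27 * EE β / D ^ 2 * a1 + EE β * a2)) ≤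
      (1280 * f3 + 3 * EE β + 512 * EE β * f4) * A ^ i * X :=
    st_sum hG2 hd2 (show (1 : ℝ) ≤ Bd d by linarith) hA1 b1 b3 hX0.le hf3' hEE hf4' t1 t2 t3
  have hM0 : 0 ≤ M := by rw [hM]; positivity
  have ha1' : 0 ≤ a1 := by rw [ha1]; positivity
  have ha2' : 0 ≤ a2 := by rw [ha2]; positivity
  have hsum0 : 0 ≤ M + (27 * EE β / D ^ 2 * a1 + EE β * a2) := by positivity
  refine hdiff.trans ?_
  calc 2 * (2 * R0 d) ^ d * ((2 * π)⁻¹ * ∫ θ in (0 : ℝ)..2 * π,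
        Q * (M + (Kr (hr β ω) ρ (1 / D) θ * a1 + Kr (qq β) ρ 0 θ * a2))) ≤
        2 * (2 * R0 d) ^ d * (Q * (M + (27 * EE β / D ^ 2 * a1 + EE β * a2))) :=
        mul_le_mul_of_nonneg_left hav (by positivity)
    _ = T * (((i : ℝ) + 1) * (M + (27 * EE β / D ^ 2 * a1 + EE β * a2))) := by rw [hT, hQ]; ring
    _ ≤ T * (2 ^ i * (M + (27 * EE β / D ^ 2 * a1 + EE β * a2))) :=
        mul_le_mul_of_nonneg_left (mul_le_mul_of_nonneg_right h2i hsum0) hT0.le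
    _ ≤ T * ((1280 * f3 + 3 * EE β + 512 * EE β * f4) * A ^ i * X) :=
        mul_le_mul_of_nonneg_left hsum hT0.le
    _ = T * (1280 * f3 + 3 * EE β + 512 * EE β * f4) * A ^ i * X := by ring

end Pool.Agent.TH653.MC
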