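import Mathlib
import Pool.Agent.TH653.MC.C12

set_option autoImplicit false

/-! # Decay of the coefficients of the logarithm of the derivative -/

namespace Pool.Agent.TH653.MC

open Complex Set Topology Filter Metric MeasureTheory N62a1eb23 Pool.Agent.H712R2 Pool.Agent.H713R2
open Pool.Agent.TH653.MB Real

variable {d : ℕ} {β : ℂ → ℂ}

theorem lin_geo {s : ℝ} (hs0 : 0 < s) (hs1 : s < 1) :
    ∃ C : ℝ, 1 ≤ C ∧ ∀ t : ℕ, ((t : ℝ) + 1) * s ^ t ≤ C := by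
  obtain ⟨C, hC⟩ := (tendsto_self_mul_const_pow_of_lt_one hs0.le hs1).bddAbove_range
  refine ⟨|C| + 1, by linarith [abs_nonneg C], fun t => ?_⟩
  have h2 : (t : ℝ) * s ^ t ≤ C := hC ⟨t, rfl⟩
  have h3 : s ^ t ≤ 1 := pow_le_one₀ hs0.le hs1.le
  have h4 := le_abs_self C
  rw [add_mul, one_mul]
  linarith

theorem combine {σ A Ca Cb c₀ : ℝ} (hσ0 : 0 < σ) (hσ1 : σ < 1) (hA : 1 ≤ A) (hCa : 0 < Ca)
    (hCb : 0 < Cb) (hc : 0 < c₀) :
    ∃ C τ c : ℝ, 0 < C ∧ 0 < τ ∧ τ < 1 ∧ 0 < c ∧ ∀ (i D : ℕ) (x : ℝ), 0 ≤ x → x ≤ Ca * σ ^ i →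
      (1 ≤ D → x ≤ Cb * A ^ i * (D : ℝ) ^ (-c₀)) → x ≤ C * τ ^ i * (1 + (D : ℝ)) ^ (-c) := by
  obtain ⟨q, hq⟩ := exists_pow_lt_of_lt_one (show 0 < A⁻¹ by positivity) hσ1
  have hA0 : 0 < A := by linarith
  have hqA : σ ^ q * A ≤ 1 := by
    calc σ ^ q * A ≤ A⁻¹ * A := mul_le_mul_of_nonneg_right hq.le hA0.le
      _ = 1 := inv_mul_cancel₀ hA0.ne'
  have hN : (q + 2 : ℕ) ≠ 0 := by omega
  have hN0 : (0 : ℝ) < ((q + 2 : ℕ) : ℝ) := by exact_mod_cast (show 0 < q + 2 by omega)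
  obtain ⟨τ, hτ⟩ : ∃ τ : ℝ, τ = σ ^ ((((q + 2 : ℕ) : ℝ))⁻¹) := ⟨_, rfl⟩
  have hτ0 : 0 < τ := by rw [hτ]; positivity
  have hτN : τ ^ (q + 2) = σ := by rw [hτ]; exact Real.rpow_inv_natCast_pow hσ0.le hN
  have hτ1 : τ < 1 := by rw [hτ]; exact Real.rpow_lt_one hσ0.le hσ1 (by positivity)
  have hστ : σ ≤ τ := by
    calc σ = τ ^ (q + 2) := hτN.symm
      _ ≤ τ ^ 1 := pow_le_pow_of_le_one hτ0.le hτ1.le (by omega)
      _ = τ := pow_one τ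
  obtain ⟨c, hcd⟩ : ∃ c : ℝ, c = c₀ / ((q + 2 : ℕ) : ℝ) := ⟨_, rfl⟩
  have hc0 : 0 < c := by rw [hcd]; positivity
  obtain ⟨K, hK⟩ : ∃ K : ℝ, K = (Ca ^ (q + 1) * Cb) ^ ((((q + 2 : ℕ) : ℝ))⁻¹) := ⟨_, rfl⟩
  have hK0 : 0 < K := by rw [hK]; positivity
  have hKN : K ^ (q + 2) = Ca ^ (q + 1) * Cb := by
    rw [hK]
    exact Real.rpow_inv_natCast_pow (by positivity) hN
  refine ⟨K * 2 ^ c + Ca, τ, c, by positivity, hτ0, hτ1, hc0, ?_⟩
  intro i D x hx0 hxa hxb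
  rcases Nat.eq_zero_or_pos D with hD | hD
  · rw [hD]
    simp only [Nat.cast_zero, add_zero, Real.one_rpow, mul_one]
    calc x ≤ Ca * σ ^ i := hxa
      _ ≤ Ca * τ ^ i := mul_le_mul_of_nonneg_left (pow_le_pow_left₀ hσ0.le hστ i) hCa.le
      _ ≤ (K * 2 ^ c + Ca) * τ ^ i := by
          apply mul_le_mul_of_nonneg_right _ (by positivity)
          have : 0 < K * 2 ^ c := by positivity
          linarith
  · have hD1 : (1 : ℝ) ≤ D := by exact_mod_cast hD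
    have hD0 : (0 : ℝ) < D := by linarith
    have hxb' := hxb hD
    have h1 : x ^ (q + 2) ≤ (K * τ ^ i * (D : ℝ) ^ (-c)) ^ (q + 2) := by
      have e1 : (K * τ ^ i * (D : ℝ) ^ (-c)) ^ (q + 2) = Ca ^ (q + 1) * Cb * σ ^ i * (D : ℝ) ^ (-c₀) := by
        rw [mul_pow, mul_pow, hKN, ← pow_mul, mul_comm i, pow_mul, hτN, ← Real.rpow_natCast _ (q + 2),
          ← Real.rpow_mul hD0.le]
        congr 2
        rw [hcd]
        field_simp
      rw [e1]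
      calc x ^ (q + 2) = x ^ (q + 1) * x := pow_succ x (q + 1)
        _ ≤ (Ca * σ ^ i) ^ (q + 1) * (Cb * A ^ i * (D : ℝ) ^ (-c₀)) :=
            mul_le_mul (pow_le_pow_left₀ hx0 hxa _) hxb' hx0 (by positivity)
        _ = Ca ^ (q + 1) * Cb * σ ^ i * (D : ℝ) ^ (-c₀) * (σ ^ q * A) ^ i := by
            rw [mul_pow, mul_pow, ← pow_mul, ← pow_mul]
            have : σ ^ (i * (q + 1)) = σ ^ i * σ ^ (q * i) := by rw [← pow_add]; congr 1; ring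
            rw [this]
            ring
        _ ≤ Ca ^ (q + 1) * Cb * σ ^ i * (D : ℝ) ^ (-c₀) * 1 := by
            apply mul_le_mul_of_nonneg_left _ (by positivity)
            exact pow_le_one₀ (by positivity) hqA
        _ = _ := mul_one _
    have h2 : x ≤ K * τ ^ i * (D : ℝ) ^ (-c) := by
      rwa [pow_le_pow_iff_left₀ hx0 (by positivity) hN] at h1
    have h3 : (D : ℝ) ^ (-c) ≤ 2 ^ c * (1 + (D : ℝ)) ^ (-c) := by
      rw [Real.rpow_neg hD0.le, Real.rpow_neg (by positivity), ← div_eq_mul_inv,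
        inv_eq_one_div, div_le_div_iff₀ (by positivity) (by positivity), one_mul,
        ← Real.mul_rpow (by norm_num) hD0.le]
      exact Real.rpow_le_rpow (by positivity) (by linarith) hc0.le
    calc x ≤ K * τ ^ i * (D : ℝ) ^ (-c) := h2
      _ ≤ K * τ ^ i * (2 ^ c * (1 + (D : ℝ)) ^ (-c)) := mul_le_mul_of_nonneg_left h3 (by positivity)
      _ = K * 2 ^ c * τ ^ i * (1 + (D : ℝ)) ^ (-c) := by ring
      _ ≤ (K * 2 ^ c + Ca) * τ ^ i * (1 + (D : ℝ)) ^ (-c) := by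
          apply mul_le_mul_of_nonneg_right _ (by positivity)
          apply mul_le_mul_of_nonneg_right _ (by positivity)
          linarith

theorem err_one {σ : ℝ} (hσ0 : 0 < σ) (hσ1 : σ < 1) {L : ℕ} (hL : 1 ≤ L) :
    ∃ C ρ : ℝ, 0 < C ∧ 0 < ρ ∧ ρ < 1 ∧ ∀ n : ℕ, ((n : ℝ) + 1) * (σ ^ 2) ^ (n / L) ≤ C * ρ ^ n := by
  obtain ⟨G, hG1, hG⟩ := lin_geo hσ0 hσ1
  obtain ⟨ρ, hρ⟩ : ∃ ρ : ℝ, ρ = σ ^ (((L : ℕ) : ℝ)⁻¹) := ⟨_, rfl⟩
  have hL0 : (0 : ℝ) < L := by exact_mod_cast hL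
  have hρ0 : 0 < ρ := by rw [hρ]; positivity
  have hρL : ρ ^ L = σ := by rw [hρ]; exact Real.rpow_inv_natCast_pow hσ0.le (by omega)
  have hρ1 : ρ < 1 := by rw [hρ]; exact Real.rpow_lt_one hσ0.le hσ1 (by positivity)
  refine ⟨L * G / σ, ρ, by positivity, hρ0, hρ1, fun n => ?_⟩
  obtain ⟨t, ht⟩ : ∃ t, t = n / L := ⟨_, rfl⟩
  rw [← ht]
  have h1 : n + 1 ≤ L * (t + 1) := by
    have := Nat.lt_mul_div_succ n (show 0 < L by omega)
    rw [ht]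
    omega
  have h2 : ((n : ℝ) + 1) ≤ L * (t + 1) := by exact_mod_cast h1
  have h3 : σ ^ (t + 1) ≤ ρ ^ n := by
    rw [← hρL, ← pow_mul]
    exact pow_le_pow_of_le_one hρ0.le hρ1.le (by omega)
  have h4 := hG t
  calc ((n : ℝ) + 1) * (σ ^ 2) ^ t ≤ (L * (t + 1)) * (σ ^ 2) ^ t :=
        mul_le_mul_of_nonneg_right h2 (by positivity)
    _ = L * (((t : ℝ) + 1) * σ ^ t) * σ ^ t := by
        rw [← pow_mul, mul_comm 2, pow_mul]
        ring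
    _ ≤ L * G * σ ^ t := by
        apply mul_le_mul_of_nonneg_right _ (by positivity)
        exact mul_le_mul_of_nonneg_left h4 hL0.le
    _ = L * G / σ * σ ^ (t + 1) := by
        rw [pow_succ]
        field_simp
    _ ≤ L * G / σ * ρ ^ n := mul_le_mul_of_nonneg_left h3 (by positivity)

theorem err_two (hd : 2 ≤ d) {σ : ℝ} (hσ0 : 0 < σ) (hσ1 : σ < 1) (hσ2 : σ ^ 2 = (Real.sqrt d)⁻¹)
    {n t : ℕ} (htn : t ≤ n) (ht : 4 * d * t ≤ n) :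
    ((2 : ℝ) ^ (d - 1)) ^ t / (d : ℝ) ^ (n - t) * Real.sqrt ((d : ℝ) ^ n) ≤ σ ^ n := by
  have hd0 : (0 : ℝ) < d := by exact_mod_cast (show 0 < d by omega)
  have hd2 : (2 : ℝ) ≤ d := by exact_mod_cast hd
  have hs : 0 < Real.sqrt d := Real.sqrt_pos.2 hd0
  have hss : Real.sqrt d * Real.sqrt d = d := Real.mul_self_sqrt hd0.le
  have hσ4 : σ ^ 4 * d = 1 := by
    have : σ ^ 4 = (σ ^ 2) ^ 2 := by ring
    rw [this, hσ2, inv_pow, Real.sq_sqrt hd0.le]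
    exact inv_mul_cancel₀ hd0.ne'
  have hsq : Real.sqrt ((d : ℝ) ^ n) = Real.sqrt d ^ n := by
    rw [Real.sqrt_eq_iff_mul_self_eq (by positivity) (by positivity), ← mul_pow, hss]
  have e1 : ((2 : ℝ) ^ (d - 1)) ^ t / (d : ℝ) ^ (n - t) * Real.sqrt ((d : ℝ) ^ n) =
      (((2 : ℝ) ^ (d - 1) * d) ^ t * σ ^ n) * σ ^ n := by
    have a1 : (d : ℝ) ^ n = (d : ℝ) ^ (n - t) * (d : ℝ) ^ t := by
      rw [← pow_add]
      congr 1
      omega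
    have a2 : σ ^ n * σ ^ n = (Real.sqrt d)⁻¹ ^ n := by rw [← mul_pow, ← sq, hσ2]
    rw [mul_assoc, a2, hsq, mul_pow, div_mul_eq_mul_div, div_eq_iff (by positivity)]
    have a3 : (Real.sqrt d)⁻¹ ^ n * (d : ℝ) ^ n = Real.sqrt d ^ n := by
      rw [← mul_pow]
      congr 1
      nth_rewrite 2 [← hss]
      field_simp
    calc ((2 : ℝ) ^ (d - 1)) ^ t * Real.sqrt d ^ n = ((2 : ℝ) ^ (d - 1)) ^ t * ((Real.sqrt d)⁻¹ ^ n * (d : ℝ) ^ n) := by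
          rw [a3]
      _ = ((2 : ℝ) ^ (d - 1)) ^ t * ((Real.sqrt d)⁻¹ ^ n * ((d : ℝ) ^ (n - t) * (d : ℝ) ^ t)) := by rw [← a1]
      _ = _ := by ring
  rw [e1]
  have e2 : ((2 : ℝ) ^ (d - 1) * d) ^ t * σ ^ n ≤ 1 := by
    have b1 : (2 : ℝ) ^ (d - 1) * d ≤ (d : ℝ) ^ d := by
      obtain ⟨e, rfl⟩ : ∃ e, d = e + 1 := ⟨d - 1, by omega⟩
      rw [Nat.add_sub_cancel, pow_succ (((e + 1 : ℕ) : ℝ)) e]
      apply mul_le_mul_of_nonneg_right _ hd0.le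
      exact pow_le_pow_left₀ (by norm_num) hd2 e
    calc ((2 : ℝ) ^ (d - 1) * d) ^ t * σ ^ n ≤ ((d : ℝ) ^ d) ^ t * σ ^ (4 * d * t) := by
          apply mul_le_mul (pow_le_pow_left₀ (by positivity) b1 t) _ (by positivity) (by positivity)
          exact pow_le_pow_of_le_one hσ0.le hσ1.le ht
      _ = (σ ^ 4 * d) ^ (d * t) := by
          rw [mul_pow, ← pow_mul, ← pow_mul, mul_assoc 4 d t]
          ring
      _ = 1 := by rw [hσ4, one_pow]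
  calc ((2 : ℝ) ^ (d - 1) * d) ^ t * σ ^ n * σ ^ n ≤ 1 * σ ^ n :=
        mul_le_mul_of_nonneg_right e2 (by positivity)
    _ = σ ^ n := one_mul _

/-- **Decay of the coefficients** of `log ψ'`, away from the base-`d`-resonant frequencies. -/
theorem decay (hd : 2 ≤ d) (hβ : IsBeta d β) : ∃ C ρ c : ℝ, 0 < C ∧ 0 < ρ ∧ ρ < 1 ∧ 0 < c ∧
    ∀ n m : ℕ, 1 ≤ n → 1 ≤ m → d ^ n ≤ 2 * m → m < d ^ (n + 1) - 1 →
      ‖tc (logDeriv (qq β)) (m - 1) / m‖ ≤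
        C * (ρ ^ n + ∑ j ∈ Finset.range n,
          ρ ^ (n - j) * (1 + ((dst (d ^ (j + 1)) m : ℕ) : ℝ)) ^ (-c)) := by
  have hd0 : (0 : ℝ) < d := by exact_mod_cast (show 0 < d by omega)
  have hd2 : (2 : ℝ) ≤ d := by exact_mod_cast hd
  have hs1 : 1 < Real.sqrt d := by
    rw [Real.lt_sqrt (by norm_num)]
    linarith
  have hs0 : 0 < Real.sqrt d := by linarith
  obtain ⟨σ, hσ⟩ : ∃ σ : ℝ, σ = Real.sqrt ((Real.sqrt d)⁻¹) := ⟨_, rfl⟩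
  have hσ0 : 0 < σ := by rw [hσ]; exact Real.sqrt_pos.2 (by positivity)
  have hσ2 : σ ^ 2 = (Real.sqrt d)⁻¹ := by rw [hσ, Real.sq_sqrt (by positivity)]
  have hσ1 : σ < 1 := by
    have : σ ^ 2 < 1 := by
      rw [hσ2]
      exact inv_lt_one_of_one_lt₀ hs1
    nlinarith
  obtain ⟨Cr, hCr, hred⟩ := reduction hd hβ
  obtain ⟨Cc, hCc, hcr⟩ := crude hd hβ
  obtain ⟨Cs, A, hCs, hA, hst⟩ := structure_bound hd hβ
  obtain ⟨L, hL1, hL⟩ := lin_geo hσ0 hσ1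
  obtain ⟨C1, τ, c, hC1, hτ0, hτ1, hc, hcomb⟩ := combine hσ0 hσ1 hA (show 0 < Cc * L by positivity)
    hCs (show (0 : ℝ) < 1 / (16 * d) by positivity)
  obtain ⟨C2, ρ2, hC2, hρ20, hρ21, herr⟩ := err_one hσ0 hσ1 (show 1 ≤ 4 * d by omega)
  obtain ⟨ρ, hρ⟩ : ∃ ρ : ℝ, ρ = max τ (max ρ2 σ) := ⟨_, rfl⟩
  have hτρ : τ ≤ ρ := by rw [hρ]; exact le_max_left _ _
  have h2ρ : ρ2 ≤ ρ := by rw [hρ]; exact (le_max_left _ _).trans (le_max_right _ _)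
  have hσρ : σ ≤ ρ := by rw [hρ]; exact (le_max_right _ _).trans (le_max_right _ _)
  have hρ0 : 0 < ρ := by linarith
  have hρ1 : ρ < 1 := by rw [hρ]; exact max_lt hτ1 (max_lt hρ21 hσ1)
  refine ⟨d * C1 + Cr * (C2 + 1), ρ, c, by positivity, hρ0, hρ1, hc, ?_⟩
  intro n m hn hm h1 h2
  obtain ⟨t, ht⟩ : ∃ t, t = n / (4 * d) := ⟨_, rfl⟩
  have ht1 : 4 * d * t ≤ n := by rw [ht]; exact Nat.mul_div_le n (4 * d)
  have ht2 : 8 * t ≤ n := by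
    have : 8 * t ≤ 4 * d * t := Nat.mul_le_mul_right t (by omega)
    omega
  have hkn : n - (n - t) = t := by omega
  have hr := hred n (n - t) m (by omega) (by omega) hm h1 h2
  rw [hkn] at hr
  -- the errors
  have e1 : (((n - t : ℕ) : ℝ) + 1) * (Real.sqrt d)⁻¹ ^ t ≤ C2 * ρ ^ n := by
    rw [← hσ2]
    have a1 : ((n - t : ℕ) : ℝ) ≤ n := by exact_mod_cast Nat.sub_le n t
    calc (((n - t : ℕ) : ℝ) + 1) * (σ ^ 2) ^ t ≤ ((n : ℝ) + 1) * (σ ^ 2) ^ t :=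
          mul_le_mul_of_nonneg_right (by linarith) (by positivity)
      _ ≤ C2 * ρ2 ^ n := by rw [ht]; exact herr n
      _ ≤ C2 * ρ ^ n := mul_le_mul_of_nonneg_left (pow_le_pow_left₀ hρ20.le h2ρ n) hC2.le
  have e2 : ((2 : ℝ) ^ (d - 1)) ^ t / (d : ℝ) ^ (n - t) * Real.sqrt ((d : ℝ) ^ n) ≤ ρ ^ n :=
    (err_two hd hσ0 hσ1 hσ2 (by omega) ht1).trans (pow_le_pow_left₀ hσ0.le hσρ n)
  -- the individual terms
  have e3 : ∀ j ∈ Finset.Ico (n - t) n, ‖tV d β j m‖ ≤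
      C1 * (ρ ^ (n - j) * (1 + ((dst (d ^ (j + 1)) m : ℕ) : ℝ)) ^ (-c)) := by
    intro j hj
    rw [Finset.mem_Ico] at hj
    have b0 : m ≤ d ^ (n + 1) := by omega
    have b1 := hcr n j m hj.2.le hm h1 b0
    have b2 : ‖tV d β j m‖ ≤ Cc * L * σ ^ (n - j) := by
      refine b1.trans ?_
      rw [← hσ2, ← pow_mul]
      have := hL (n - j)
      calc Cc * (((n - j : ℕ) : ℝ) + 1) * σ ^ (2 * (n - j)) =
            Cc * ((((n - j : ℕ) : ℝ) + 1) * σ ^ (n - j)) * σ ^ (n - j) := by ring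
        _ ≤ Cc * L * σ ^ (n - j) := by
            apply mul_le_mul_of_nonneg_right _ (by positivity)
            exact mul_le_mul_of_nonneg_left this hCc.le
    have b3 := hcomb (n - j) (dst (d ^ (j + 1)) m) ‖tV d β j m‖ (norm_nonneg _) b2
      (fun hD => hst n j m hj.2 hm b0 hD)
    refine b3.trans ?_
    rw [mul_assoc]
    apply mul_le_mul_of_nonneg_left _ hC1.le
    apply mul_le_mul_of_nonneg_right _ (by positivity)
    exact pow_le_pow_left₀ hτ0.le hτρ _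
  have e4 : ‖((d - 1 : ℕ) : ℂ) * ∑ i ∈ Finset.Ico (n - t) n, tV d β i m‖ ≤
      d * (C1 * ∑ j ∈ Finset.range n, ρ ^ (n - j) * (1 + ((dst (d ^ (j + 1)) m : ℕ) : ℝ)) ^ (-c)) := by
    rw [norm_mul, Complex.norm_natCast]
    apply mul_le_mul _ _ (norm_nonneg _) hd0.le
    · exact_mod_cast Nat.sub_le d 1
    · calc ‖∑ i ∈ Finset.Ico (n - t) n, tV d β i m‖ ≤ ∑ i ∈ Finset.Ico (n - t) n, ‖tV d β i m‖ :=
            norm_sum_le _ _
        _ ≤ ∑ j ∈ Finset.Ico (n - t) n,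
            C1 * (ρ ^ (n - j) * (1 + ((dst (d ^ (j + 1)) m : ℕ) : ℝ)) ^ (-c)) := Finset.sum_le_sum e3
        _ ≤ ∑ j ∈ Finset.range n,
            C1 * (ρ ^ (n - j) * (1 + ((dst (d ^ (j + 1)) m : ℕ) : ℝ)) ^ (-c)) := by
            apply Finset.sum_le_sum_of_subset_of_nonneg
            · intro j hj
              rw [Finset.mem_Ico] at hj
              rw [Finset.mem_range]
              exact hj.2
            · intro j _ _
              positivity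
        _ = _ := by rw [Finset.mul_sum]
  obtain ⟨S, hS⟩ : ∃ S, S = ∑ j ∈ Finset.range n,
    ρ ^ (n - j) * (1 + ((dst (d ^ (j + 1)) m : ℕ) : ℝ)) ^ (-c) := ⟨_, rfl⟩
  have hS0 : 0 ≤ S := by
    rw [hS]
    apply Finset.sum_nonneg
    intro j _
    positivity
  rw [← hS] at e4 ⊢
  have hρn : 0 < ρ ^ n := by positivity
  calc ‖tc (logDeriv (qq β)) (m - 1) / m‖ ≤
        ‖tc (logDeriv (qq β)) (m - 1) / m + ((d - 1 : ℕ) : ℂ) * ∑ i ∈ Finset.Ico (n - t) n, tV d β i m‖ +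
        ‖((d - 1 : ℕ) : ℂ) * ∑ i ∈ Finset.Ico (n - t) n, tV d β i m‖ := by
        have := norm_sub_le (tc (logDeriv (qq β)) (m - 1) / m +
          ((d - 1 : ℕ) : ℂ) * ∑ i ∈ Finset.Ico (n - t) n, tV d β i m)
          (((d - 1 : ℕ) : ℂ) * ∑ i ∈ Finset.Ico (n - t) n, tV d β i m)
        rwa [add_sub_cancel_right] at this
    _ ≤ Cr * (C2 * ρ ^ n + ρ ^ n) + d * (C1 * S) := by
        apply add_le_add _ e4
        refine hr.trans ?_
        exact mul_le_mul_of_nonneg_left (add_le_add e1 e2) hCr.le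
    _ ≤ (d * C1 + Cr * (C2 + 1)) * (ρ ^ n + S) := by
        have p1 : 0 ≤ d * C1 * ρ ^ n := by positivity
        have p2 : 0 ≤ Cr * (C2 + 1) * S := by positivity
        have p3 : (d * C1 + Cr * (C2 + 1)) * (ρ ^ n + S) =
            d * C1 * ρ ^ n + Cr * (C2 + 1) * S + (Cr * (C2 * ρ ^ n + ρ ^ n) + d * (C1 * S)) := by ring
        linarith

end Pool.Agent.TH653.MC
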