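import Mathlib

set_option autoImplicit false

/-! # Riesz products: the majorant recursion -/

namespace Pool.Agent.TH653.MC

/-- the majorant of the Fourier coefficients of a Riesz product times a function -/
noncomputable def TT (lam : ℕ → ℤ) (ε : ℝ) : ℕ → (ℤ → ℝ) → ℤ → ℝ
  | 0, w, m => w m
  | (l + 1), w, m => TT lam ε l w m + ε / 2 * (TT lam ε l w (m + lam l) + TT lam ε l w (m - lam l))

variable {lam : ℕ → ℤ} {ε : ℝ}

theorem TT_mono (hl : ∀ i, 0 ≤ lam i) (hε : 0 ≤ ε) {w w' : ℤ → ℝ} (l : ℕ) (m : ℤ)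
    (h : ∀ k, |k - m| ≤ ∑ i ∈ Finset.range l, lam i → w k ≤ w' k) :
    TT lam ε l w m ≤ TT lam ε l w' m := by
  induction l generalizing m with
  | zero => exact h m (by simp)
  | succ l ih =>
    have hl' := hl l
    rw [Finset.sum_range_succ] at h
    have h1 := ih m (fun k hk => h k (by linarith))
    have h2 := ih (m + lam l) (fun k hk => h k (by
      rw [abs_le] at hk ⊢
      constructor <;> linarith [hk.1, hk.2]))
    have h3 := ih (m - lam l) (fun k hk => h k (by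
      rw [abs_le] at hk ⊢
      constructor <;> linarith [hk.1, hk.2]))
    simp only [TT]
    have := mul_le_mul_of_nonneg_left (add_le_add h2 h3) (show 0 ≤ ε / 2 by linarith)
    linarith

theorem TT_const (B : ℝ) (l : ℕ) (m : ℤ) : TT lam ε l (fun _ => B) m = (1 + ε) ^ l * B := by
  induction l generalizing m with
  | zero => simp [TT]
  | succ l ih =>
    simp only [TT]
    rw [ih, ih, ih]
    ring

theorem TT_smul (C : ℝ) (w : ℤ → ℝ) (l : ℕ) (m : ℤ) :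
    TT lam ε l (fun k => C * w k) m = C * TT lam ε l w m := by
  induction l generalizing m with
  | zero => simp [TT]
  | succ l ih =>
    simp only [TT]
    rw [ih, ih, ih]
    ring

theorem TT_add (w w' : ℤ → ℝ) (l : ℕ) (m : ℤ) :
    TT lam ε l (fun k => w k + w' k) m = TT lam ε l w m + TT lam ε l w' m := by
  induction l generalizing m with
  | zero => simp [TT]
  | succ l ih =>
    simp only [TT]
    rw [ih, ih, ih]
    ring

theorem TT_sum (n : ℕ) (f : ℕ → ℤ → ℝ) (l : ℕ) (m : ℤ) :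
    TT lam ε l (fun k => ∑ j ∈ Finset.range n, f j k) m =
      ∑ j ∈ Finset.range n, TT lam ε l (f j) m := by
  induction n with
  | zero =>
    simp only [Finset.range_zero, Finset.sum_empty]
    rw [TT_const, mul_zero]
  | succ n ih =>
    simp only [Finset.sum_range_succ]
    rw [TT_add, ih]

theorem TT_periodic {w : ℤ → ℝ} {N : ℤ} (hw : ∀ m k, w (m + k * N) = w m) (l : ℕ) (m k : ℤ) :
    TT lam ε l w (m + k * N) = TT lam ε l w m := by
  induction l generalizing m with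
  | zero => exact hw m k
  | succ l ih =>
    simp only [TT]
    rw [ih m, show m + k * N + lam l = (m + lam l) + k * N by ring,
      show m + k * N - lam l = (m - lam l) + k * N by ring, ih, ih]

/-- distance of an integer to the multiples of `N` -/
def dZ (N : ℕ) (m : ℤ) : ℤ := min (m % N) (N - m % N)

theorem dZ_add (N : ℕ) (m k : ℤ) : dZ N (m + k * N) = dZ N m := by
  unfold dZ
  rw [Int.add_mul_emod_self_right]

theorem dZ_nonneg {N : ℕ} (hN : 1 ≤ N) (m : ℤ) : 0 ≤ dZ N m := by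
  unfold dZ
  have hN' : (0 : ℤ) < N := by exact_mod_cast hN
  have h1 := Int.emod_nonneg m hN'.ne'
  have h2 := Int.emod_lt_of_pos m hN'
  exact le_min h1 (by linarith)

theorem dZ_zero {N : ℕ} : dZ N 0 = 0 := by
  unfold dZ
  simp

theorem dZ_ge {N : ℕ} {m : ℤ} {B : ℝ} (hB : 0 < B) (h1 : B ≤ |(m : ℝ)|) (h2 : |(m : ℝ)| ≤ N - B) :
    B ≤ (dZ N m : ℝ) := by
  unfold dZ
  have h3 : |(m : ℝ)| < N := by linarith
  have h4 : |m| < (N : ℤ) := by exact_mod_cast h3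
  push_cast
  rcases le_or_gt 0 m with h | h
  · have h0 : (0 : ℝ) ≤ m := by exact_mod_cast h
    rw [abs_of_nonneg h0] at h1 h2
    rw [abs_of_nonneg h] at h4
    rw [Int.emod_eq_of_lt h h4]
    exact le_min h1 (by linarith)
  · have h0 : (m : ℝ) < 0 := by exact_mod_cast h
    rw [abs_of_neg h0] at h1 h2
    rw [abs_of_neg h] at h4
    have h5 : m % (N : ℤ) = m + N := by
      rw [← Int.add_emod_right, Int.emod_eq_of_lt (by linarith) (by linarith)]
    rw [h5]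
    push_cast
    exact le_min (by linarith) (by linarith)

/-- the lacunary frequencies -/
def lamd (d k₀ K : ℕ) (l : ℕ) : ℤ := (d - 1) * d ^ (k₀ + K * l)

variable {d k₀ K : ℕ}

theorem lamd_pos (hd : 2 ≤ d) (l : ℕ) : 0 ≤ lamd d k₀ K l := by
  unfold lamd
  have : (2 : ℤ) ≤ d := by exact_mod_cast hd
  have h1 : (0 : ℤ) ≤ (d : ℤ) - 1 := by linarith
  positivity

theorem lamd_ge (hd : 2 ≤ d) (l : ℕ) : (d : ℤ) ^ (k₀ + K * l) ≤ lamd d k₀ K l := by
  unfold lamd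
  have : (2 : ℤ) ≤ d := by exact_mod_cast hd
  have h0 : (0 : ℤ) ≤ (d : ℤ) ^ (k₀ + K * l) := by positivity
  nlinarith

theorem lamd_sum (hd : 2 ≤ d) (hK : 2 ≤ K) (l : ℕ) :
    2 * ∑ i ∈ Finset.range l, lamd d k₀ K i < (d : ℤ) ^ (k₀ + K * l) := by
  have hd2 : (2 : ℤ) ≤ d := by exact_mod_cast hd
  induction l with
  | zero => simp; positivity
  | succ l ih =>
    rw [Finset.sum_range_succ]
    have h1 : lamd d k₀ K l = (d - 1) * d ^ (k₀ + K * l) := rfl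
    have h2 : (d : ℤ) ^ (k₀ + K * l) * (d : ℤ) ^ 2 ≤ (d : ℤ) ^ (k₀ + K * (l + 1)) := by
      rw [← pow_add]
      apply pow_le_pow_right₀ (by linarith)
      rw [mul_add]
      omega
    have h0 : (0 : ℤ) < (d : ℤ) ^ (k₀ + K * l) := by positivity
    rw [h1]
    obtain ⟨x, hx⟩ : ∃ x, x = (d : ℤ) ^ (k₀ + K * l) := ⟨_, rfl⟩
    rw [← hx] at ih h2 h0 ⊢
    nlinarith [mul_pos h0 (show (0 : ℤ) < (d - 1) ^ 2 by nlinarith)]

theorem lamd_lac (hd : 2 ≤ d) (hK : 2 ≤ K) (l : ℕ) :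
    2 * ∑ i ∈ Finset.range l, lamd d k₀ K i < lamd d k₀ K l :=
  (lamd_sum hd hK l).trans_le (lamd_ge hd l)

/-- the weight attached to the level `j` -/
noncomputable def ww (c : ℝ) (N : ℕ) (m : ℤ) : ℝ := (1 + (dZ N m : ℝ)) ^ (-c)

theorem ww_per (c : ℝ) (N : ℕ) (m k : ℤ) : ww c N (m + k * N) = ww c N m := by
  unfold ww
  rw [dZ_add]

theorem ww_zero (c : ℝ) (N : ℕ) : ww c N 0 = 1 := by
  unfold ww
  rw [dZ_zero]
  simp

theorem ww_far (hd : 2 ≤ d) (hK : 2 ≤ K) {c : ℝ} (hc : 0 < c) (hKc : ((d : ℝ) ^ K) ^ (-c) ≤ 1 / 4)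
    {j l : ℕ} (hjl : k₀ + K * l ≤ j) {m : ℤ} (h1 : (d : ℤ) ^ (k₀ + K * l) ≤ 2 * |m|)
    (h2 : 2 * |m| ≤ 2 * (d : ℤ) ^ (j + 1) - (d : ℤ) ^ (k₀ + K * l)) :
    ww c (d ^ (j + 1)) m ≤ 2 ^ c * (1 / 4) ^ l := by
  have hd2 : (2 : ℝ) ≤ d := by exact_mod_cast hd
  have hd0 : (0 : ℝ) < d := by linarith
  obtain ⟨x, hx⟩ : ∃ x : ℝ, x = (d : ℝ) ^ (k₀ + K * l) := ⟨_, rfl⟩
  have hx0 : 0 < x := by rw [hx]; positivity
  have h1' : x ≤ 2 * |(m : ℝ)| := by rw [hx]; exact_mod_cast h1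
  have h2' : 2 * |(m : ℝ)| ≤ 2 * (d : ℝ) ^ (j + 1) - x := by rw [hx]; exact_mod_cast h2
  have h3 : x / 2 ≤ (dZ (d ^ (j + 1)) m : ℝ) := by
    apply dZ_ge (by positivity) (by linarith)
    push_cast
    linarith
  unfold ww
  have h4 : (1 + (dZ (d ^ (j + 1)) m : ℝ)) ^ (-c) ≤ (x / 2) ^ (-c) :=
    Real.rpow_le_rpow_of_nonpos (by positivity) (by linarith) (by linarith)
  refine h4.trans ?_
  rw [Real.div_rpow hx0.le (by norm_num), Real.rpow_neg (by norm_num : (0 : ℝ) ≤ 2), div_inv_eq_mul,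
    mul_comm]
  apply mul_le_mul_of_nonneg_left _ (by positivity)
  calc x ^ (-c) ≤ (((d : ℝ) ^ K) ^ l) ^ (-c) := by
        apply Real.rpow_le_rpow_of_nonpos (by positivity) _ (by linarith)
        rw [hx, ← pow_mul]
        exact pow_le_pow_right₀ (by linarith) (by omega)
    _ = (((d : ℝ) ^ K) ^ (-c)) ^ l := by
        rw [← Real.rpow_natCast _ l, ← Real.rpow_natCast _ l, ← Real.rpow_mul (by positivity),
          ← Real.rpow_mul (by positivity), mul_comm]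
    _ ≤ (1 / 4) ^ l := pow_le_pow_left₀ (by positivity) hKc l

theorem TT_far (hd : 2 ≤ d) (hK : 2 ≤ K) {c : ℝ} (hc : 0 < c) (hKc : ((d : ℝ) ^ K) ^ (-c) ≤ 1 / 4)
    (hε0 : 0 ≤ ε) (hε1 : ε ≤ 1) {j l : ℕ} (hjl : k₀ + K * l ≤ j) {m : ℤ}
    (hm : |m| = lamd d k₀ K l) :
    TT (lamd d k₀ K) ε l (ww c (d ^ (j + 1))) m ≤ 2 ^ c * (1 / 2) ^ l := by
  have hd2 : (2 : ℤ) ≤ d := by exact_mod_cast hd
  have hs := lamd_sum (k₀ := k₀) hd hK l
  have hlam : lamd d k₀ K l = (d - 1) * d ^ (k₀ + K * l) := rfl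
  have hj : (d : ℤ) * (d : ℤ) ^ (k₀ + K * l) ≤ (d : ℤ) ^ (j + 1) := by
    rw [← pow_succ']
    exact pow_le_pow_right₀ (by linarith) (by omega)
  have h0 : (0 : ℤ) < (d : ℤ) ^ (k₀ + K * l) := by positivity
  have h1 : TT (lamd d k₀ K) ε l (ww c (d ^ (j + 1))) m ≤
      TT (lamd d k₀ K) ε l (fun _ => 2 ^ c * (1 / 4) ^ l) m := by
    apply TT_mono (lamd_pos hd) hε0
    intro k hk
    have a1 : |m| ≤ |k| + |k - m| := by
      calc |m| = |k - (k - m)| := by congr 1; ring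
        _ ≤ |k| + |k - m| := abs_sub _ _
    have a2 : |k| ≤ |m| + |k - m| := by
      calc |k| = |m + (k - m)| := by congr 1; ring
        _ ≤ |m| + |k - m| := abs_add_le _ _
    apply ww_far hd hK hc hKc hjl
    · rw [hm, hlam] at a1
      nlinarith
    · rw [hm, hlam] at a2
      nlinarith
  refine h1.trans ?_
  rw [TT_const]
  have h3 : (1 + ε) ^ l ≤ 2 ^ l := pow_le_pow_left₀ (by linarith) (by linarith) l
  calc (1 + ε) ^ l * (2 ^ c * (1 / 4) ^ l) ≤ 2 ^ l * (2 ^ c * (1 / 4) ^ l) :=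
        mul_le_mul_of_nonneg_right h3 (by positivity)
    _ = 2 ^ c * (2 * (1 / 4)) ^ l := by rw [mul_pow]; ring
    _ = 2 ^ c * (1 / 2) ^ l := by norm_num

theorem TT_level (hd : 2 ≤ d) (hK : 2 ≤ K) {c : ℝ} (hc : 0 < c)
    (hKc : ((d : ℝ) ^ K) ^ (-c) ≤ 1 / 4) (hε0 : 0 ≤ ε) (hε1 : ε ≤ 1) (j l : ℕ) :
    TT (lamd d k₀ K) ε l (ww c (d ^ (j + 1))) 0 ≤
      (1 + ε) ^ (k₀ + K * l - j) * (1 + 2 * 2 ^ c * ε * (1 - (1 / 2) ^ l)) := by
  induction l with
  | zero =>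
    simp only [TT, pow_zero, sub_self, mul_zero, add_zero, mul_one]
    rw [ww_zero]
    exact one_le_pow₀ (by linarith)
  | succ l ih =>
    have h2c : (0 : ℝ) < 2 ^ c := by positivity
    have hhl : ((1 : ℝ) / 2) ^ l ≤ 1 := pow_le_one₀ (by norm_num) (by norm_num)
    have hU : 0 ≤ 1 + 2 * 2 ^ c * ε * (1 - (1 / 2) ^ l) := by
      have : 0 ≤ 2 * 2 ^ c * ε * (1 - (1 / 2) ^ l) := by
        apply mul_nonneg (by positivity)
        linarith
      linarith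
    have hUU : 1 + 2 * 2 ^ c * ε * (1 - (1 / 2) ^ l) + ε * 2 ^ c * (1 / 2) ^ l =
        1 + 2 * 2 ^ c * ε * (1 - (1 / 2) ^ (l + 1)) := by
      rw [pow_succ]
      ring
    simp only [TT]
    rcases le_or_gt (k₀ + K * l) j with h | h
    · have e1 := TT_far (k₀ := k₀) (m := 0 + lamd d k₀ K l) hd hK hc hKc hε0 hε1 h (by
        rw [zero_add, abs_of_nonneg (lamd_pos hd l)])
      have e2 := TT_far (k₀ := k₀) (m := 0 - lamd d k₀ K l) hd hK hc hKc hε0 hε1 h (by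
        rw [zero_sub, abs_neg, abs_of_nonneg (lamd_pos hd l)])
      have e3 : k₀ + K * l - j = 0 := by omega
      rw [e3, pow_zero, one_mul] at ih
      have e4 := mul_le_mul_of_nonneg_left (add_le_add e1 e2) (show 0 ≤ ε / 2 by linarith)
      have e5 : 1 ≤ (1 + ε) ^ (k₀ + K * (l + 1) - j) := one_le_pow₀ (by linarith)
      have e6 : 0 ≤ 1 + 2 * 2 ^ c * ε * (1 - (1 / 2) ^ (l + 1)) := by
        rw [← hUU]
        positivity
      have e7 := le_mul_of_one_le_left e6 e5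
      linarith
    · have hN : ∀ a : ℤ, TT (lamd d k₀ K) ε l (ww c (d ^ (j + 1))) (a * lamd d k₀ K l) =
          TT (lamd d k₀ K) ε l (ww c (d ^ (j + 1))) 0 := by
        intro a
        have e1 : a * lamd d k₀ K l =
            0 + (a * (d - 1) * d ^ (k₀ + K * l - (j + 1))) * ((d ^ (j + 1) : ℕ) : ℤ) := by
          have : (d : ℤ) ^ (k₀ + K * l) = d ^ (k₀ + K * l - (j + 1)) * d ^ (j + 1) := by
            rw [← pow_add]
            congr 1
            omega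
          unfold lamd
          rw [this]
          push_cast
          ring
        rw [e1]
        exact TT_periodic (fun m k => ww_per c _ m k) l 0 _
      have e1 := hN 1
      have e2 := hN (-1)
      rw [one_mul] at e1
      rw [zero_add, zero_sub, e1, show -lamd d k₀ K l = -1 * lamd d k₀ K l by ring, e2]
      have e3 : (1 + ε) ^ (k₀ + K * l - j) * (1 + ε) ≤ (1 + ε) ^ (k₀ + K * (l + 1) - j) := by
        rw [← pow_succ]
        apply pow_le_pow_right₀ (by linarith)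
        rw [mul_add]
        omega
      have e4 : 1 + 2 * 2 ^ c * ε * (1 - (1 / 2) ^ l) ≤ 1 + 2 * 2 ^ c * ε * (1 - (1 / 2) ^ (l + 1)) := by
        rw [← hUU]
        have : 0 ≤ ε * 2 ^ c * (1 / 2) ^ l := by positivity
        linarith
      calc TT (lamd d k₀ K) ε l (ww c (d ^ (j + 1))) 0 +
            ε / 2 * (TT (lamd d k₀ K) ε l (ww c (d ^ (j + 1))) 0 +
              TT (lamd d k₀ K) ε l (ww c (d ^ (j + 1))) 0) =
            (1 + ε) * TT (lamd d k₀ K) ε l (ww c (d ^ (j + 1))) 0 := by ring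
        _ ≤ (1 + ε) * ((1 + ε) ^ (k₀ + K * l - j) * (1 + 2 * 2 ^ c * ε * (1 - (1 / 2) ^ l))) :=
            mul_le_mul_of_nonneg_left ih (by linarith)
        _ = ((1 + ε) ^ (k₀ + K * l - j) * (1 + ε)) * (1 + 2 * 2 ^ c * ε * (1 - (1 / 2) ^ l)) := by ring
        _ ≤ _ := mul_le_mul e3 e4 hU (by positivity)

theorem one_add_pow_sub (hε0 : 0 ≤ ε) (i : ℕ) : (1 + ε) ^ i - 1 ≤ ε * (i * (1 + ε) ^ i) := by
  induction i with
  | zero => simp
  | succ i ih =>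
    have h1 : 1 ≤ (1 + ε) ^ i := one_le_pow₀ (by linarith)
    have h2 : (0 : ℝ) ≤ i := Nat.cast_nonneg i
    have h3 : (1 + ε) ^ (i + 1) = (1 + ε) ^ i * (1 + ε) := pow_succ _ _
    rw [h3]
    push_cast
    have h4 : 0 ≤ (i : ℝ) * (1 + ε) ^ i * ε := by positivity
    have h5 : 0 ≤ (1 + ε) ^ i * ε := by positivity
    nlinarith [mul_nonneg hε0 h4, mul_nonneg hε0 h5]

theorem geo_refl {s : ℝ} (hs0 : 0 < s) (hs1 : s < 1) (k : ℕ) :
    ∑ j ∈ Finset.range k, s ^ (k - j) ≤ 1 / (1 - s) := by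
  have hs : 0 < 1 - s := by linarith
  induction k with
  | zero => simp; linarith
  | succ k ih =>
    rw [Finset.sum_range_succ]
    have h1 : ∑ j ∈ Finset.range k, s ^ (k + 1 - j) = s * ∑ j ∈ Finset.range k, s ^ (k - j) := by
      rw [Finset.mul_sum]
      apply Finset.sum_congr rfl
      intro j hj
      rw [Finset.mem_range] at hj
      rw [← pow_succ']
      congr 1
      omega
    rw [h1, show k + 1 - k = 1 by omega, pow_one]
    have h2 := mul_le_mul_of_nonneg_left ih hs0.le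
    have h3 : s * (1 / (1 - s)) + s ≤ 1 / (1 - s) := by
      rw [mul_one_div, div_add' _ _ _ hs.ne', div_le_div_iff_of_pos_right hs]
      nlinarith [sq_nonneg (1 - s)]
    linarith

theorem TT_err (hd : 2 ≤ d) {C ρ c : ℝ} (hC : 0 < C) (hρ0 : 0 < ρ) (hρ1 : ρ < 1) (hc : 0 < c) :
    ∃ C' : ℝ, 0 < C' ∧ ∀ (k₀ K : ℕ), 2 ≤ K → ((d : ℝ) ^ K) ^ (-c) ≤ 1 / 4 → ∀ ε : ℝ, 0 ≤ ε →
      ε ≤ (1 - ρ) / 2 → ∀ ι : ℕ, TT (lamd d k₀ K) ε ι (fun m => C * (ρ ^ (k₀ + K * ι) +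
        ∑ j ∈ Finset.range (k₀ + K * ι), ρ ^ (k₀ + K * ι - j) * ww c (d ^ (j + 1)) m))
          (lamd d k₀ K ι) ≤ C * (ρ ^ (k₀ + K * ι) +
        ∑ j ∈ Finset.range (k₀ + K * ι), ρ ^ (k₀ + K * ι - j) *
          ww c (d ^ (j + 1)) (lamd d k₀ K ι)) + C' * ε := by
  obtain ⟨s, hs⟩ : ∃ s : ℝ, s = Real.sqrt ((1 + ρ) / 2) := ⟨_, rfl⟩
  have hs2 : s * s = (1 + ρ) / 2 := by rw [hs]; exact Real.mul_self_sqrt (by linarith)
  have hs0 : 0 < s := by rw [hs]; exact Real.sqrt_pos.2 (by linarith)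
  have hs1 : s < 1 := by nlinarith
  obtain ⟨G0, hG0⟩ := (tendsto_self_mul_const_pow_of_lt_one hs0.le hs1).bddAbove_range
  obtain ⟨G, hG⟩ : ∃ G : ℝ, G = |G0| + 1 := ⟨_, rfl⟩
  have hG1 : 1 ≤ G := by rw [hG]; linarith [abs_nonneg G0]
  have hGs : ∀ t : ℕ, ((t : ℝ) + 1) * s ^ t ≤ G := by
    intro t
    have h2 : (t : ℝ) * s ^ t ≤ G0 := hG0 ⟨t, rfl⟩
    have h3 : s ^ t ≤ 1 := pow_le_one₀ hs0.le hs1.le
    have h4 := le_abs_self G0
    rw [add_mul, one_mul, hG]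
    linarith
  obtain ⟨C2, hC2⟩ : ∃ C2 : ℝ, C2 = 2 * 2 ^ c := ⟨_, rfl⟩
  have hC20 : 0 < C2 := by rw [hC2]; positivity
  have hs' : 0 < 1 - s := by linarith
  refine ⟨C * (G + (1 + C2) * G * (1 / (1 - s))), by positivity, ?_⟩
  intro k₀ K hK hKc ε hε0 hε1 ι
  have hε1' : ε ≤ 1 := by linarith
  obtain ⟨k, hk⟩ : ∃ k, k = k₀ + K * ι := ⟨_, rfl⟩
  rw [← hk]
  have hρε : ρ * (1 + ε) ≤ s * s := by rw [hs2]; nlinarith
  have hιk : ι ≤ k := by
    rw [hk]
    nlinarith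
  have h1ε : 0 < 1 + ε := by linarith
  -- the individual pieces
  have hpow : ∀ i : ℕ, ρ ^ i * (1 + ε) ^ i ≤ s ^ i * s ^ i := by
    intro i
    rw [← mul_pow, ← mul_pow]
    exact pow_le_pow_left₀ (by positivity) hρε i
  have hp1 : ρ ^ k * (1 + ε) ^ ι - ρ ^ k ≤ G * ε := by
    have a1 := one_add_pow_sub hε0 ι
    have a2 : ρ ^ k ≤ ρ ^ ι := pow_le_pow_of_le_one hρ0.le hρ1.le hιk
    have a3 := hGs ι
    have a4 : s ^ ι ≤ 1 := pow_le_one₀ hs0.le hs1.le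
    have a5 : (0 : ℝ) ≤ ι := Nat.cast_nonneg ι
    calc ρ ^ k * (1 + ε) ^ ι - ρ ^ k = ρ ^ k * ((1 + ε) ^ ι - 1) := by ring
      _ ≤ ρ ^ k * (ε * (ι * (1 + ε) ^ ι)) := mul_le_mul_of_nonneg_left a1 (by positivity)
      _ ≤ ρ ^ ι * (ε * (ι * (1 + ε) ^ ι)) := mul_le_mul_of_nonneg_right a2 (by positivity)
      _ = ε * (ι * (ρ ^ ι * (1 + ε) ^ ι)) := by ring
      _ ≤ ε * (ι * (s ^ ι * s ^ ι)) := by
          apply mul_le_mul_of_nonneg_left _ hε0
          exact mul_le_mul_of_nonneg_left (hpow ι) a5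
      _ = ε * ((ι * s ^ ι) * s ^ ι) := by ring
      _ ≤ ε * (G * 1) := by
          apply mul_le_mul_of_nonneg_left _ hε0
          apply mul_le_mul _ a4 (by positivity) (by linarith)
          have : 0 < s ^ ι := by positivity
          nlinarith
      _ = G * ε := by ring
  have hper : ∀ j ∈ Finset.range k, ∀ l, TT (lamd d k₀ K) ε l (ww c (d ^ (j + 1))) (lamd d k₀ K ι) =
      TT (lamd d k₀ K) ε l (ww c (d ^ (j + 1))) 0 := by
    intro j hj l
    rw [Finset.mem_range] at hj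
    have e1 : lamd d k₀ K ι =
        0 + ((d - 1) * d ^ (k₀ + K * ι - (j + 1))) * ((d ^ (j + 1) : ℕ) : ℤ) := by
      have : (d : ℤ) ^ (k₀ + K * ι) = d ^ (k₀ + K * ι - (j + 1)) * d ^ (j + 1) := by
        rw [← pow_add]
        congr 1
        omega
      unfold lamd
      rw [this]
      push_cast
      ring
    rw [e1]
    exact TT_periodic (fun m k => ww_per c _ m k) l 0 _
  have hp2 : ∀ j ∈ Finset.range k, ρ ^ (k - j) * TT (lamd d k₀ K) ε ι (ww c (d ^ (j + 1))) (lamd d k₀ K ι) ≤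
      ρ ^ (k - j) * ww c (d ^ (j + 1)) (lamd d k₀ K ι) + (1 + C2) * G * s ^ (k - j) * ε := by
    intro j hj
    have b0 : ww c (d ^ (j + 1)) (lamd d k₀ K ι) = 1 := by
      have := hper j hj 0
      simp only [TT] at this
      rw [this, ww_zero]
    rw [b0, hper j hj ι]
    have b1 := TT_level (k₀ := k₀) hd hK hc hKc hε0 hε1' j ι
    rw [← hk, ← hC2] at b1
    obtain ⟨i, hi⟩ : ∃ i, i = k - j := ⟨_, rfl⟩
    rw [← hi] at b1 ⊢
    have b2 : ((1 : ℝ) / 2) ^ ι ≤ 1 := pow_le_one₀ (by norm_num) (by norm_num)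
    have b2' : 0 < ((1 : ℝ) / 2) ^ ι := by positivity
    have b3 : TT (lamd d k₀ K) ε ι (ww c (d ^ (j + 1))) 0 ≤ (1 + ε) ^ i * (1 + C2 * ε) := by
      refine b1.trans ?_
      apply mul_le_mul_of_nonneg_left _ (by positivity)
      have : C2 * ε * (1 - (1 / 2) ^ ι) ≤ C2 * ε * 1 :=
        mul_le_mul_of_nonneg_left (by linarith) (by positivity)
      linarith
    have b4 := one_add_pow_sub hε0 i
    have b5 : (0 : ℝ) ≤ i := Nat.cast_nonneg i
    have b6 := hGs i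
    have b7 : 0 < (1 + ε) ^ i := by positivity
    have b8 : (1 + ε) ^ i * (1 + C2 * ε) ≤ 1 + ε * (((1 + C2) * (i + 1)) * (1 + ε) ^ i) := by
      have e1 : (1 + ε) ^ i * (1 + C2 * ε) = ((1 + ε) ^ i - 1) + 1 + C2 * ε * (1 + ε) ^ i := by ring
      have e2 : ε * (((1 + C2) * (i + 1)) * (1 + ε) ^ i) = ε * (i * (1 + ε) ^ i) + C2 * ε * (1 + ε) ^ i +
          (ε * (1 + ε) ^ i + C2 * i * ε * (1 + ε) ^ i) := by ring
      have e3 : 0 ≤ ε * (1 + ε) ^ i + C2 * i * ε * (1 + ε) ^ i := by positivity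
      linarith
    calc ρ ^ i * TT (lamd d k₀ K) ε ι (ww c (d ^ (j + 1))) 0 ≤
          ρ ^ i * (1 + ε * (((1 + C2) * (i + 1)) * (1 + ε) ^ i)) :=
          mul_le_mul_of_nonneg_left (b3.trans b8) (by positivity)
      _ = ρ ^ i * 1 + ε * ((1 + C2) * (i + 1)) * (ρ ^ i * (1 + ε) ^ i) := by ring
      _ ≤ ρ ^ i * 1 + ε * ((1 + C2) * (i + 1)) * (s ^ i * s ^ i) := by
          have := mul_le_mul_of_nonneg_left (hpow i) (show 0 ≤ ε * ((1 + C2) * (i + 1)) by positivity)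
          linarith
      _ = ρ ^ i * 1 + ε * (1 + C2) * s ^ i * (((i : ℝ) + 1) * s ^ i) := by ring
      _ ≤ ρ ^ i * 1 + ε * (1 + C2) * s ^ i * G := by
          have := mul_le_mul_of_nonneg_left b6 (show 0 ≤ ε * (1 + C2) * s ^ i by positivity)
          linarith
      _ = ρ ^ i * 1 + (1 + C2) * G * s ^ i * ε := by ring
  rw [TT_smul, TT_add, TT_const, TT_sum]
  simp only [TT_smul]
  have hsum := Finset.sum_le_sum hp2
  rw [Finset.sum_add_distrib, ← Finset.sum_mul, ← Finset.mul_sum] at hsum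
  have hgeo := geo_refl hs0 hs1 k
  have hfin : ρ ^ k * (1 + ε) ^ ι + ∑ j ∈ Finset.range k,
      ρ ^ (k - j) * TT (lamd d k₀ K) ε ι (ww c (d ^ (j + 1))) (lamd d k₀ K ι) ≤
      ρ ^ k + ∑ j ∈ Finset.range k, ρ ^ (k - j) * ww c (d ^ (j + 1)) (lamd d k₀ K ι) +
        (G + (1 + C2) * G * (1 / (1 - s))) * ε := by
    have e1 : (1 + C2) * G * ∑ j ∈ Finset.range k, s ^ (k - j) ≤ (1 + C2) * G * (1 / (1 - s)) :=
      mul_le_mul_of_nonneg_left hgeo (by positivity)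
    have e2 := mul_le_mul_of_nonneg_right e1 hε0
    linarith
  rw [mul_comm ((1 + ε) ^ ι) (ρ ^ k)]
  calc _ ≤ C * (ρ ^ k + ∑ j ∈ Finset.range k, ρ ^ (k - j) * ww c (d ^ (j + 1)) (lamd d k₀ K ι) +
        (G + (1 + C2) * G * (1 / (1 - s))) * ε) := mul_le_mul_of_nonneg_left hfin hC.le
    _ = _ := by ring

end Pool.Agent.TH653.MC
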