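import Mathlib
import Pool.Agent.TH653.MC.C14

set_option autoImplicit false

/-! # Riesz products: the integrals -/

namespace Pool.Agent.TH653.MC

open Real MeasureTheory

/-- the oscillating factor of the Riesz product -/
noncomputable def XX (lam : ℕ → ℤ) (u : ℂ) (l : ℕ) (θ : ℝ) : ℝ :=
  (u * Complex.exp (lam l * θ * Complex.I)).re

/-- the Riesz product -/
noncomputable def RR (lam : ℕ → ℤ) (u : ℂ) (ε : ℝ) : ℕ → ℝ → ℝ
  | 0, _ => 1
  | (l + 1), θ => RR lam u ε l θ * (1 + ε * XX lam u l θ)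

/-- the Fourier coefficients of the Riesz product times a function -/
noncomputable def JJ (lam : ℕ → ℤ) (u : ℂ) (ε : ℝ) (F : ℝ → ℂ) (n : ℕ) (m : ℤ) : ℂ :=
  ∫ θ in (0 : ℝ)..2 * π, (RR lam u ε n θ : ℂ) * Complex.exp (-(m * θ * Complex.I)) * F θ

variable {lam : ℕ → ℤ} {u : ℂ} {ε : ℝ} {F : ℝ → ℂ}

theorem XX_cont (l : ℕ) : Continuous (XX lam u l) := by
  unfold XX
  apply Complex.continuous_re.comp
  fun_prop

theorem XX_abs (hu : ‖u‖ ≤ 1) (l : ℕ) (θ : ℝ) : |XX lam u l θ| ≤ 1 := by
  unfold XX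
  refine (Complex.abs_re_le_norm _).trans ?_
  rw [norm_mul, Complex.norm_exp]
  have : (lam l * θ * Complex.I).re = 0 := by
    simp
  rw [this, Real.exp_zero, mul_one]
  exact hu

theorem XX_eq (l : ℕ) (θ : ℝ) : (XX lam u l θ : ℂ) =
    (u * Complex.exp (lam l * θ * Complex.I) +
      (starRingEnd ℂ) u * Complex.exp (-(lam l * θ * Complex.I))) / 2 := by
  unfold XX
  rw [Complex.re_eq_add_conj, map_mul, ← Complex.exp_conj]
  congr 4
  simp

theorem RR_cont (n : ℕ) : Continuous (RR lam u ε n) := by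
  induction n with
  | zero => exact continuous_const
  | succ n ih =>
    have : RR lam u ε (n + 1) = fun θ => RR lam u ε n θ * (1 + ε * XX lam u n θ) := rfl
    rw [this]
    exact ih.mul (continuous_const.add (continuous_const.mul (XX_cont n)))

theorem RR_nonneg (hu : ‖u‖ ≤ 1) (hε0 : 0 ≤ ε) (hε1 : ε ≤ 1) (n : ℕ) (θ : ℝ) : 0 ≤ RR lam u ε n θ := by
  induction n with
  | zero => exact zero_le_one
  | succ n ih =>
    have h1 := XX_abs (lam := lam) hu n θ
    rw [abs_le] at h1
    simp only [RR]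
    apply mul_nonneg ih
    nlinarith [h1.1]

theorem RR_le (hu : ‖u‖ ≤ 1) (hε0 : 0 ≤ ε) (hε1 : ε ≤ 1) (n : ℕ) (θ : ℝ) :
    RR lam u ε n θ ≤ Real.exp (∑ l ∈ Finset.range n, ε * XX lam u l θ) := by
  induction n with
  | zero => simp [RR]
  | succ n ih =>
    have h0 := RR_nonneg (lam := lam) hu hε0 hε1 n θ
    have h1 := XX_abs (lam := lam) hu n θ
    rw [abs_le] at h1
    simp only [RR]
    rw [Finset.sum_range_succ, Real.exp_add]
    apply mul_le_mul ih _ _ (Real.exp_pos _).le
    · have := Real.add_one_le_exp (ε * XX lam u n θ)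
      linarith
    · nlinarith [h1.1]

theorem JJ_succ (hF : Continuous F) (n : ℕ) (m : ℤ) : JJ lam u ε F (n + 1) m = JJ lam u ε F n m +
    (ε : ℂ) / 2 * (u * JJ lam u ε F n (m - lam n) + (starRingEnd ℂ) u * JJ lam u ε F n (m + lam n)) := by
  unfold JJ
  have hR : Continuous fun θ => (RR lam u ε n θ : ℂ) := Complex.continuous_ofReal.comp (RR_cont n)
  have hc : ∀ k : ℤ, Continuous fun θ : ℝ => (RR lam u ε n θ : ℂ) *
      Complex.exp (-(k * θ * Complex.I)) * F θ := by
    intro k
    apply Continuous.mul _ hF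
    apply hR.mul
    fun_prop
  have hi : ∀ k : ℤ, IntervalIntegrable (fun θ : ℝ => (RR lam u ε n θ : ℂ) *
      Complex.exp (-(k * θ * Complex.I)) * F θ) volume 0 (2 * π) :=
    fun k => (hc k).intervalIntegrable _ _
  rw [← intervalIntegral.integral_const_mul, ← intervalIntegral.integral_const_mul,
    ← intervalIntegral.integral_add ((hi _).const_mul _) ((hi _).const_mul _),
    ← intervalIntegral.integral_const_mul, ← intervalIntegral.integral_add (hi _)
      (((hi _).const_mul _).add ((hi _).const_mul _) |>.const_mul _)]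
  apply intervalIntegral.integral_congr
  intro θ _
  simp only [RR]
  push_cast
  rw [XX_eq]
  have e1 : Complex.exp (-(((m : ℂ) - lam n) * θ * Complex.I)) =
      Complex.exp (-(m * θ * Complex.I)) * Complex.exp (lam n * θ * Complex.I) := by
    rw [← Complex.exp_add]
    congr 1
    ring
  have e2 : Complex.exp (-(((m : ℂ) + lam n) * θ * Complex.I)) =
      Complex.exp (-(m * θ * Complex.I)) * Complex.exp (-(lam n * θ * Complex.I)) := by
    rw [← Complex.exp_add]
    congr 1
    ring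
  rw [e1, e2]
  ring

theorem JJ_diff (hl : ∀ i, 0 ≤ lam i) (hu : ‖u‖ ≤ 1) (hε : 0 ≤ ε) (hF : Continuous F) {w : ℤ → ℝ}
    (n : ℕ) (m : ℤ) (h : ∀ k, |k - m| ≤ ∑ i ∈ Finset.range n, lam i → ‖JJ lam u ε F 0 k‖ ≤ w k) :
    ‖JJ lam u ε F n m - JJ lam u ε F 0 m‖ ≤ TT lam ε n w m - w m := by
  induction n generalizing m with
  | zero => simp [TT]
  | succ n ih =>
    have hl' := hl n
    rw [Finset.sum_range_succ] at h
    have hS : 0 ≤ ∑ i ∈ Finset.range n, lam i := Finset.sum_nonneg (fun i _ => hl i)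
    have h1 := ih m (fun k hk => h k (by linarith))
    have h2 := ih (m + lam n) (fun k hk => h k (by
      rw [abs_le] at hk ⊢
      constructor <;> linarith [hk.1, hk.2]))
    have h3 := ih (m - lam n) (fun k hk => h k (by
      rw [abs_le] at hk ⊢
      constructor <;> linarith [hk.1, hk.2]))
    have h2' := h (m + lam n) (by
      rw [show m + lam n - m = lam n by ring, abs_of_nonneg hl']
      linarith)
    have h3' := h (m - lam n) (by
      rw [show m - lam n - m = -lam n by ring, abs_neg, abs_of_nonneg hl']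
      linarith)
    have n2 : ‖JJ lam u ε F n (m + lam n)‖ ≤ TT lam ε n w (m + lam n) := by
      have := norm_add_le (JJ lam u ε F n (m + lam n) - JJ lam u ε F 0 (m + lam n))
        (JJ lam u ε F 0 (m + lam n))
      rw [sub_add_cancel] at this
      linarith
    have n3 : ‖JJ lam u ε F n (m - lam n)‖ ≤ TT lam ε n w (m - lam n) := by
      have := norm_add_le (JJ lam u ε F n (m - lam n) - JJ lam u ε F 0 (m - lam n))
        (JJ lam u ε F 0 (m - lam n))
      rw [sub_add_cancel] at this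
      linarith
    rw [JJ_succ hF]
    simp only [TT]
    have e1 : JJ lam u ε F n m + (ε : ℂ) / 2 * (u * JJ lam u ε F n (m - lam n) +
        (starRingEnd ℂ) u * JJ lam u ε F n (m + lam n)) - JJ lam u ε F 0 m =
        (JJ lam u ε F n m - JJ lam u ε F 0 m) + (ε : ℂ) / 2 * (u * JJ lam u ε F n (m - lam n) +
        (starRingEnd ℂ) u * JJ lam u ε F n (m + lam n)) := by ring
    rw [e1]
    have e2 : ‖(ε : ℂ) / 2 * (u * JJ lam u ε F n (m - lam n) +
        (starRingEnd ℂ) u * JJ lam u ε F n (m + lam n))‖ ≤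
        ε / 2 * (TT lam ε n w (m + lam n) + TT lam ε n w (m - lam n)) := by
      rw [norm_mul, norm_div, Complex.norm_real, Real.norm_of_nonneg hε, Complex.norm_ofNat]
      apply mul_le_mul_of_nonneg_left _ (by linarith)
      refine (norm_add_le _ _).trans ?_
      rw [norm_mul, norm_mul, Complex.norm_conj]
      have := mul_le_mul hu n3 (norm_nonneg _) zero_le_one
      have := mul_le_mul hu n2 (norm_nonneg _) zero_le_one
      linarith
    have e3 := norm_add_le (JJ lam u ε F n m - JJ lam u ε F 0 m)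
      ((ε : ℂ) / 2 * (u * JJ lam u ε F n (m - lam n) +
        (starRingEnd ℂ) u * JJ lam u ε F n (m + lam n)))
    linarith

theorem JJ_zero (hl : ∀ i, 0 ≤ lam i) (hu : ‖u‖ ≤ 1) (hε : 0 ≤ ε) (hF : Continuous F)
    (n : ℕ) (m : ℤ) (h : ∀ k, |k - m| ≤ ∑ i ∈ Finset.range n, lam i → JJ lam u ε F 0 k = 0) :
    JJ lam u ε F n m = 0 := by
  have h1 := JJ_diff hl hu hε hF (w := fun _ => 0) n m (fun k hk => by rw [h k hk, norm_zero])
  rw [TT_const, mul_zero, sub_zero] at h1
  have h2 : JJ lam u ε F 0 m = 0 := h m (by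
    rw [sub_self, abs_zero]
    exact Finset.sum_nonneg (fun i _ => hl i))
  rw [h2, sub_zero] at h1
  exact norm_le_zero_iff.1 h1

theorem int_exp (m : ℤ) : ∫ θ in (0 : ℝ)..2 * π, Complex.exp (-(m * θ * Complex.I)) =
    if m = 0 then (2 * π : ℂ) else 0 := by
  split_ifs with h
  · rw [h]
    simp
  · have hc : (-(m * Complex.I) : ℂ) ≠ 0 := by
      rw [neg_ne_zero]
      exact mul_ne_zero (by exact_mod_cast h) Complex.I_ne_zero
    have e1 : (fun θ : ℝ => Complex.exp (-(m * θ * Complex.I))) =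
        fun θ : ℝ => Complex.exp ((-(m * Complex.I)) * θ) := by
      funext θ
      congr 1
      ring
    rw [e1, integral_exp_mul_complex hc]
    have e2 : Complex.exp (-(m * Complex.I) * ((2 * π : ℝ) : ℂ)) = 1 := by
      have := Complex.exp_int_mul_two_pi_mul_I (-m)
      rw [← this]
      congr 1
      push_cast
      ring
    rw [e2]
    simp

theorem JJ_one_zero (m : ℤ) : JJ lam u ε (fun _ => 1) 0 m = if m = 0 then (2 * π : ℂ) else 0 := by
  unfold JJ
  rw [← int_exp m]
  apply intervalIntegral.integral_congr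
  intro θ _
  simp [RR]

theorem JJ_one_far (hl : ∀ i, 0 ≤ lam i) (hu : ‖u‖ ≤ 1) (hε : 0 ≤ ε) {n : ℕ} {m : ℤ}
    (h : ∑ i ∈ Finset.range n, lam i < |m|) : JJ lam u ε (fun _ => 1) n m = 0 := by
  apply JJ_zero hl hu hε continuous_const
  intro k hk
  rw [JJ_one_zero, if_neg]
  intro hk0
  rw [hk0, zero_sub, abs_neg] at hk
  linarith

theorem JJ_one_at (hl : ∀ i, 0 ≤ lam i) (hlac : ∀ l, 2 * ∑ i ∈ Finset.range l, lam i < lam l)
    (hu : ‖u‖ ≤ 1) (hε : 0 ≤ ε) (n : ℕ) : JJ lam u ε (fun _ => 1) n 0 = 2 * π := by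
  induction n with
  | zero => rw [JJ_one_zero, if_pos rfl]
  | succ n ih =>
    have hS : 0 ≤ ∑ i ∈ Finset.range n, lam i := Finset.sum_nonneg (fun i _ => hl i)
    have h1 := hlac n
    rw [JJ_succ continuous_const, ih, JJ_one_far hl hu hε (by
      rw [zero_sub, abs_neg, abs_of_nonneg (hl n)]; linarith), JJ_one_far hl hu hε (by
      rw [zero_add, abs_of_nonneg (hl n)]; linarith)]
    simp

theorem JJ_one_lam (hl : ∀ i, 0 ≤ lam i) (hlac : ∀ l, 2 * ∑ i ∈ Finset.range l, lam i < lam l)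
    (hu : ‖u‖ ≤ 1) (hε : 0 ≤ ε) {l n : ℕ} (hln : l < n) :
    JJ lam u ε (fun _ => 1) n (-lam l) = (ε : ℂ) / 2 * ((starRingEnd ℂ) u * (2 * π)) := by
  induction n with
  | zero => omega
  | succ n ih =>
    have hS : 0 ≤ ∑ i ∈ Finset.range n, lam i := Finset.sum_nonneg (fun i _ => hl i)
    have h1 := hlac n
    have h2 := hl n
    rw [JJ_succ continuous_const]
    rcases Nat.lt_or_ge l n with h | h
    · have h3 : lam l ≤ ∑ i ∈ Finset.range n, lam i :=
        Finset.single_le_sum (fun i _ => hl i) (Finset.mem_range.2 h)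
      have h4 := hl l
      rw [ih h, JJ_one_far hl hu hε (m := -lam l - lam n) (by
        rw [show -lam l - lam n = -(lam l + lam n) by ring, abs_neg, abs_of_nonneg (by linarith)]
        linarith), JJ_one_far hl hu hε (m := -lam l + lam n) (by
        rw [abs_of_nonneg (by linarith)]
        linarith)]
      simp
    · have hnl : n = l := by omega
      subst hnl
      rw [JJ_one_far hl hu hε (m := -lam n) (by
        rw [abs_neg, abs_of_nonneg h2]
        linarith), JJ_one_far hl hu hε (m := -lam n - lam n) (by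
        rw [show -lam n - lam n = -(lam n + lam n) by ring, abs_neg, abs_of_nonneg (by linarith)]
        linarith), neg_add_cancel, JJ_one_at hl hlac hu hε]
      simp

theorem int_RR (hl : ∀ i, 0 ≤ lam i) (hlac : ∀ l, 2 * ∑ i ∈ Finset.range l, lam i < lam l)
    (hu : ‖u‖ ≤ 1) (hε : 0 ≤ ε) (n : ℕ) : ∫ θ in (0 : ℝ)..2 * π, RR lam u ε n θ = 2 * π := by
  have h1 := JJ_one_at hl hlac hu hε n
  have h2 : JJ lam u ε (fun _ => 1) n 0 = ((∫ θ in (0 : ℝ)..2 * π, RR lam u ε n θ : ℝ) : ℂ) := by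
    unfold JJ
    rw [← intervalIntegral.integral_ofReal]
    apply intervalIntegral.integral_congr
    intro θ _
    simp
  rw [h2] at h1
  exact_mod_cast h1

theorem int_RR_re {p : ℂ} (hF : Continuous F) (n : ℕ) (m : ℤ) :
    ∫ θ in (0 : ℝ)..2 * π, RR lam u ε n θ * (p * (Complex.exp (-(m * θ * Complex.I)) * F θ)).re =
      (p * JJ lam u ε F n m).re := by
  unfold JJ
  have hc : Continuous fun θ : ℝ => p * ((RR lam u ε n θ : ℂ) *
      Complex.exp (-(m * θ * Complex.I)) * F θ) := by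
    apply continuous_const.mul
    apply Continuous.mul _ hF
    apply (Complex.continuous_ofReal.comp (RR_cont n)).mul
    fun_prop
  rw [← intervalIntegral.integral_const_mul]
  have h1 := (Complex.reCLM).intervalIntegral_comp_comm (hc.intervalIntegrable (μ := volume) 0 (2 * π))
  simp only [Complex.reCLM_apply] at h1
  rw [← h1]
  apply intervalIntegral.integral_congr
  intro θ _
  simp only
  rw [← Complex.re_ofReal_mul]
  congr 1
  ring

theorem int_RR_XX (hl : ∀ i, 0 ≤ lam i) (hlac : ∀ l, 2 * ∑ i ∈ Finset.range l, lam i < lam l)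
    (hu : ‖u‖ = 1) (hε : 0 ≤ ε) {l n : ℕ} (hln : l < n) :
    ∫ θ in (0 : ℝ)..2 * π, RR lam u ε n θ * XX lam u l θ = π * ε := by
  have h1 := int_RR_re (lam := lam) (u := u) (ε := ε) (F := fun _ => 1) (p := u) continuous_const n (-lam l)
  rw [JJ_one_lam hl hlac hu.le hε hln] at h1
  have h2 : ∫ θ in (0 : ℝ)..2 * π, RR lam u ε n θ * XX lam u l θ = ∫ θ in (0 : ℝ)..2 * π,
      RR lam u ε n θ * (u * (Complex.exp (-(((-lam l : ℤ) : ℂ) * θ * Complex.I)) * 1)).re := by
    apply intervalIntegral.integral_congr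
    intro θ _
    simp only
    unfold XX
    congr 3
    rw [mul_one]
    congr 1
    push_cast
    ring
  rw [h2, h1]
  have h3 : u * ((ε : ℂ) / 2 * ((starRingEnd ℂ) u * (2 * π))) = ((π * ε : ℝ) : ℂ) := by
    have : u * (starRingEnd ℂ) u = 1 := by
      rw [Complex.mul_conj, Complex.normSq_eq_norm_sq, hu]
      simp
    calc u * ((ε : ℂ) / 2 * ((starRingEnd ℂ) u * (2 * π))) = (u * (starRingEnd ℂ) u) * (π * ε) := by ring
      _ = ((π * ε : ℝ) : ℂ) := by
          rw [this]
          push_cast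
          ring
  rw [h3, Complex.ofReal_re]

/-- the Gibbs variational inequality for a Riesz product -/
theorem gibbs {g : ℝ → ℝ} (hg : Continuous g) (hl : ∀ i, 0 ≤ lam i)
    (hlac : ∀ l, 2 * ∑ i ∈ Finset.range l, lam i < lam l)
    (hu : ‖u‖ = 1) (hε0 : 0 ≤ ε) (hε1 : ε ≤ 1) (n : ℕ) {b : ℝ}
    (hb : 2 * π * b ≤ (∫ θ in (0 : ℝ)..2 * π, RR lam u ε n θ * g θ) - n * (π * ε ^ 2)) :
    2 * π * Real.exp b ≤ ∫ θ in (0 : ℝ)..2 * π, Real.exp (g θ) := by
  have hR : Continuous (RR lam u ε n) := RR_cont n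
  have hX : ∀ l, Continuous (XX lam u l) := fun l => XX_cont l
  have hS : Continuous fun θ => ∑ l ∈ Finset.range n, ε * (RR lam u ε n θ * XX lam u l θ) :=
    continuous_finsetSum _ (fun l _ => continuous_const.mul (hR.mul (hX l)))
  have h1 : ∀ θ, Real.exp b * (RR lam u ε n θ * (1 - b) + RR lam u ε n θ * g θ -
      ∑ l ∈ Finset.range n, ε * (RR lam u ε n θ * XX lam u l θ)) ≤ Real.exp (g θ) := by
    intro θ
    obtain ⟨S, hSd⟩ : ∃ S, S = ∑ l ∈ Finset.range n, ε * XX lam u l θ := ⟨_, rfl⟩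
    have e1 : ∑ l ∈ Finset.range n, ε * (RR lam u ε n θ * XX lam u l θ) = RR lam u ε n θ * S := by
      rw [hSd, Finset.mul_sum]
      apply Finset.sum_congr rfl
      intro l _
      ring
    have e2 := RR_le (lam := lam) hu.le hε0 hε1 n θ
    have e3 := RR_nonneg (lam := lam) hu.le hε0 hε1 n θ
    rw [← hSd] at e2
    rw [e1]
    have e4 : Real.exp (g θ) = Real.exp S * (Real.exp b * Real.exp (g θ - S - b)) := by
      rw [← Real.exp_add, ← Real.exp_add]
      congr 1
      ring
    have e5 : RR lam u ε n θ * (Real.exp b * Real.exp (g θ - S - b)) ≤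
        Real.exp S * (Real.exp b * Real.exp (g θ - S - b)) :=
      mul_le_mul_of_nonneg_right e2 (by positivity)
    have e6 := Real.add_one_le_exp (g θ - S - b)
    have e7 : RR lam u ε n θ * (Real.exp b * (g θ - S - b + 1)) ≤
        RR lam u ε n θ * (Real.exp b * Real.exp (g θ - S - b)) :=
      mul_le_mul_of_nonneg_left (mul_le_mul_of_nonneg_left e6 (Real.exp_pos b).le) e3
    rw [e4]
    refine le_trans (le_of_eq ?_) (e7.trans e5)
    ring
  have hpi := Real.pi_pos
  have i1 : IntervalIntegrable (fun θ => RR lam u ε n θ * (1 - b)) volume 0 (2 * π) :=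
    (hR.mul continuous_const).intervalIntegrable _ _
  have i2 : IntervalIntegrable (fun θ => RR lam u ε n θ * g θ) volume 0 (2 * π) :=
    (hR.mul hg).intervalIntegrable _ _
  have i3 : IntervalIntegrable (fun θ => ∑ l ∈ Finset.range n, ε * (RR lam u ε n θ * XX lam u l θ))
      volume 0 (2 * π) := hS.intervalIntegrable _ _
  have h2 : ∫ θ in (0 : ℝ)..2 * π, Real.exp b * (RR lam u ε n θ * (1 - b) + RR lam u ε n θ * g θ -
      ∑ l ∈ Finset.range n, ε * (RR lam u ε n θ * XX lam u l θ)) ≤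
      ∫ θ in (0 : ℝ)..2 * π, Real.exp (g θ) := by
    apply intervalIntegral.integral_mono_on (by positivity)
    · exact ((i1.add i2).sub i3).const_mul _
    · exact (Real.continuous_exp.comp hg).intervalIntegrable _ _
    · intro θ _
      exact h1 θ
  rw [intervalIntegral.integral_const_mul, intervalIntegral.integral_sub (i1.add i2) i3,
    intervalIntegral.integral_add i1 i2, intervalIntegral.integral_mul_const,
    int_RR hl hlac hu.le hε0] at h2
  have h3 : ∫ θ in (0 : ℝ)..2 * π, ∑ l ∈ Finset.range n, ε * (RR lam u ε n θ * XX lam u l θ) =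
      n * (π * ε ^ 2) := by
    have hcl : ∀ l ∈ Finset.range n, IntervalIntegrable
        (fun θ => ε * (RR lam u ε n θ * XX lam u l θ)) volume 0 (2 * π) := by
      intro l _
      exact (continuous_const.mul (hR.mul (hX l))).intervalIntegrable _ _
    rw [intervalIntegral.integral_finsetSum hcl]
    have : ∀ l ∈ Finset.range n, ∫ θ in (0 : ℝ)..2 * π, ε * (RR lam u ε n θ * XX lam u l θ) =
        π * ε ^ 2 := by
      intro l hln
      rw [intervalIntegral.integral_const_mul, int_RR_XX hl hlac hu hε0 (Finset.mem_range.1 hln)]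
      ring
    rw [Finset.sum_congr rfl this, Finset.sum_const, Finset.card_range, nsmul_eq_mul]
  rw [h3] at h2
  refine le_trans ?_ h2
  rw [mul_comm (2 * π)]
  apply mul_le_mul_of_nonneg_left _ (Real.exp_pos b).le
  linarith

/-- the mean of a function against a Riesz product -/
theorem JJ_mean (hl : ∀ i, 0 ≤ lam i) (hlac : ∀ l, 2 * ∑ i ∈ Finset.range l, lam i < lam l)
    (hu : ‖u‖ ≤ 1) (hε : 0 ≤ ε) (hF : Continuous F) (hneg : ∀ k ≤ 0, JJ lam u ε F 0 k = 0) (n : ℕ) :
    JJ lam u ε F n 0 = ∑ l ∈ Finset.range n,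
      (ε : ℂ) / 2 * ((starRingEnd ℂ) u * JJ lam u ε F l (lam l)) := by
  induction n with
  | zero => rw [hneg 0 le_rfl, Finset.range_zero, Finset.sum_empty]
  | succ n ih =>
    rw [JJ_succ hF, ih, Finset.sum_range_succ]
    have hS : 0 ≤ ∑ i ∈ Finset.range n, lam i := Finset.sum_nonneg (fun i _ => hl i)
    have h1 := hlac n
    have h2 : JJ lam u ε F n (0 - lam n) = 0 := by
      apply JJ_zero hl hu hε hF
      intro k hk
      apply hneg
      rw [abs_le] at hk
      linarith [hk.2]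
    rw [h2, zero_add]
    simp

/-- **Riesz product lower bound** for exponential means. -/
theorem riesz_lower (hl : ∀ i, 0 ≤ lam i) (hlac : ∀ l, 2 * ∑ i ∈ Finset.range l, lam i < lam l)
    (hε0 : 0 ≤ ε) (hε1 : ε ≤ 1) (hF : Continuous F) {p : ℂ} (hp : p ≠ 0)
    (hu : u = -(p / ‖p‖)) (hneg : ∀ k ≤ 0, JJ lam u ε F 0 k = 0) {n : ℕ} {κ : ℝ}
    (hmain : ∀ l < n, 2 * π * κ ≤ -(JJ lam u ε F l (lam l)).re) :
    2 * π * Real.exp (n * (ε / 2 * (κ * ‖p‖ - ε))) ≤
      ∫ θ in (0 : ℝ)..2 * π, Real.exp ((p * F θ).re) := by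
  have hpn : 0 < ‖p‖ := norm_pos_iff.2 hp
  have hpC : (‖p‖ : ℂ) ≠ 0 := by exact_mod_cast hpn.ne'
  have hu1 : ‖u‖ = 1 := by
    rw [hu, norm_neg, norm_div, Complex.norm_real, norm_norm, div_self hpn.ne']
  have hpu : p * (starRingEnd ℂ) u = -(‖p‖ : ℂ) := by
    rw [hu, map_neg, map_div₀, Complex.conj_ofReal, mul_neg, mul_div_assoc', Complex.mul_conj,
      Complex.normSq_eq_norm_sq]
    push_cast
    field_simp
  have hg : Continuous fun θ => (p * F θ).re := Complex.continuous_re.comp (continuous_const.mul hF)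
  apply gibbs hg hl hlac hu1 hε0 hε1 n
  have h1 := int_RR_re (lam := lam) (u := u) (ε := ε) (p := p) hF n 0
  have h2 : ∫ θ in (0 : ℝ)..2 * π, RR lam u ε n θ * (p * F θ).re = (p * JJ lam u ε F n 0).re := by
    rw [← h1]
    apply intervalIntegral.integral_congr
    intro θ _
    simp
  rw [h2, JJ_mean hl hlac hu1.le hε0 hF hneg, Finset.mul_sum, Complex.re_sum]
  have h3 : ∀ l ∈ Finset.range n, π * ε * (‖p‖ * κ) ≤
      (p * ((ε : ℂ) / 2 * ((starRingEnd ℂ) u * JJ lam u ε F l (lam l)))).re := by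
    intro l hln
    have e1 : p * ((ε : ℂ) / 2 * ((starRingEnd ℂ) u * JJ lam u ε F l (lam l))) =
        ((-(ε / 2 * ‖p‖) : ℝ) : ℂ) * JJ lam u ε F l (lam l) := by
      calc p * ((ε : ℂ) / 2 * ((starRingEnd ℂ) u * JJ lam u ε F l (lam l))) =
            (p * (starRingEnd ℂ) u) * ((ε : ℂ) / 2) * JJ lam u ε F l (lam l) := by ring
        _ = ((-(ε / 2 * ‖p‖) : ℝ) : ℂ) * JJ lam u ε F l (lam l) := by
            rw [hpu]
            push_cast
            ring
    rw [e1, Complex.re_ofReal_mul]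
    have e2 := hmain l (Finset.mem_range.1 hln)
    have e3 := mul_le_mul_of_nonneg_left e2 (show 0 ≤ ε / 2 * ‖p‖ by positivity)
    linarith
  have h4 := Finset.sum_le_sum h3
  rw [Finset.sum_const, Finset.card_range, nsmul_eq_mul] at h4
  have h5 : 2 * π * (n * (ε / 2 * (κ * ‖p‖ - ε))) =
      n * (π * ε * (‖p‖ * κ)) - n * (π * ε ^ 2) := by ring
  rw [h5]
  linarith

end Pool.Agent.TH653.MC
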