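import Mathlib
import Pool.Agent.TH653.MC.C13
import Pool.Agent.TH653.MC.C15
import Pool.Agent.TH653.MB.A14

set_option autoImplicit false

/-! # Power growth of the exponential means in the disc -/

namespace Pool.Agent.TH653.MC

open Complex Set Topology Filter Metric MeasureTheory N62a1eb23 Pool.Agent.H712R2 Pool.Agent.H713R2
open Pool.Agent.TH653.MB Real

variable {d : ℕ} {β : ℂ → ℂ}

theorem dZ_nat {N : ℕ} (hN : 1 ≤ N) (m : ℕ) : dZ N (m : ℤ) = (dst N m : ℤ) := by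
  unfold dZ dst
  rw [Nat.cast_min, Nat.cast_sub (Nat.mod_lt m (by omega)).le]
  push_cast
  rfl

theorem circle_exp {ρ : ℝ} (hρ : 0 < ρ) (m : ℕ) (θ : ℝ) :
    Complex.exp (-((m : ℂ) * θ * I)) = (ρ : ℂ) ^ m / (circleMap 0 ρ θ) ^ m := by
  have hρC : (ρ : ℂ) ≠ 0 := by exact_mod_cast hρ.ne'
  rw [circleMap_zero, mul_pow, ← Complex.exp_nat_mul, Complex.exp_neg]
  rw [show (m : ℂ) * (θ * I) = m * θ * I by ring]
  have := Complex.exp_ne_zero ((m : ℂ) * θ * I)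
  field_simp

theorem circle_exp' {ρ : ℝ} (hρ : 0 < ρ) (m : ℕ) (θ : ℝ) :
    Complex.exp ((m : ℂ) * θ * I) = (circleMap 0 ρ θ) ^ m / (ρ : ℂ) ^ m := by
  have hρC : (ρ : ℂ) ≠ 0 := by exact_mod_cast hρ.ne'
  rw [circleMap_zero, mul_pow, ← Complex.exp_nat_mul]
  rw [show (m : ℂ) * (θ * I) = m * θ * I by ring]
  field_simp

theorem int_circle {F : ℂ → ℂ} {ρ : ℝ} :
    ∫ θ in (0 : ℝ)..2 * π, F (circleMap 0 ρ θ) = 2 * π * circleAverage F 0 ρ := by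
  have hpi : (π : ℂ) ≠ 0 := by exact_mod_cast Real.pi_ne_zero
  unfold circleAverage
  rw [Complex.real_smul]
  push_cast
  field_simp

theorem JJ_nat {B : ℂ → ℂ} (hB : DifferentiableOn ℂ B (ball 0 1)) {ρ : ℝ} (hρ : 0 < ρ) (hρ1 : ρ < 1)
    (lam : ℕ → ℤ) (u : ℂ) (ε : ℝ) (m : ℕ) :
    JJ lam u ε (fun θ => B (circleMap 0 ρ θ)) 0 (m : ℤ) = 2 * π * (tc B m * (ρ : ℂ) ^ m) := by
  have h1 := av_div_pow hρ hρ1 hB m
  have h2 := int_circle (F := fun x => B x / x ^ m) (ρ := ρ)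
  rw [h1] at h2
  unfold JJ
  have h3 : ∫ θ in (0 : ℝ)..2 * π, (RR lam u ε 0 θ : ℂ) * Complex.exp (-(((m : ℤ) : ℂ) * θ * I)) *
      B (circleMap 0 ρ θ) = ∫ θ in (0 : ℝ)..2 * π, (ρ : ℂ) ^ m *
      (B (circleMap 0 ρ θ) / (circleMap 0 ρ θ) ^ m) := by
    apply intervalIntegral.integral_congr
    intro θ _
    simp only [RR]
    rw [Int.cast_natCast, circle_exp hρ]
    push_cast
    ring
  rw [h3, intervalIntegral.integral_const_mul, h2]
  ring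

theorem JJ_neg {B : ℂ → ℂ} (hB : DifferentiableOn ℂ B (ball 0 1)) (hB0 : B 0 = 0) {ρ : ℝ}
    (hρ : 0 < ρ) (hρ1 : ρ < 1) (lam : ℕ → ℤ) (u : ℂ) (ε : ℝ) {k : ℤ} (hk : k ≤ 0) :
    JJ lam u ε (fun θ => B (circleMap 0 ρ θ)) 0 k = 0 := by
  obtain ⟨m, hm⟩ : ∃ m : ℕ, k = -(m : ℤ) := ⟨(-k).toNat, by omega⟩
  have hF : DifferentiableOn ℂ (fun x => x ^ m * B x) (ball 0 1) :=
    (differentiable_pow m).differentiableOn.mul hB
  have h1 := av_div_pow hρ hρ1 hF 0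
  have h0 : tc (fun x => x ^ m * B x) 0 = 0 := by
    unfold tc
    simp [hB0]
  rw [h0] at h1
  have h2 := int_circle (F := fun x => x ^ m * B x / x ^ 0) (ρ := ρ)
  rw [h1, mul_zero] at h2
  unfold JJ
  have h3 : ∫ θ in (0 : ℝ)..2 * π, (RR lam u ε 0 θ : ℂ) * Complex.exp (-((k : ℂ) * θ * I)) *
      B (circleMap 0 ρ θ) = ∫ θ in (0 : ℝ)..2 * π, ((ρ : ℂ) ^ m)⁻¹ *
      ((circleMap 0 ρ θ) ^ m * B (circleMap 0 ρ θ) / (circleMap 0 ρ θ) ^ 0) := by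
    apply intervalIntegral.integral_congr
    intro θ _
    simp only [RR]
    have e1 : -((k : ℂ) * θ * I) = (m : ℂ) * θ * I := by
      rw [hm]
      push_cast
      ring
    rw [e1, circle_exp' hρ]
    push_cast
    ring
  rw [h3, intervalIntegral.integral_const_mul, h2, mul_zero]

/-- the coefficient bound, for the logarithm itself -/
theorem decay_log (hd : 2 ≤ d) (hβ : IsBeta d β) : ∃ C ρ c : ℝ, 0 < C ∧ 0 < ρ ∧ ρ < 1 ∧ 0 < c ∧
    ∀ B : ℂ → ℂ, (∀ x ∈ ball (0 : ℂ) 1, deriv B x = logDeriv (qq β) x) →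
    ∀ n m : ℕ, 1 ≤ n → 1 ≤ m → d ^ n ≤ 2 * m → m < d ^ (n + 1) - 1 →
      ‖tc B m‖ ≤ C * (ρ ^ n + ∑ j ∈ Finset.range n, ρ ^ (n - j) * ww c (d ^ (j + 1)) (m : ℤ)) := by
  obtain ⟨C, ρ, c, hC, hρ0, hρ1, hc, h⟩ := decay hd hβ
  refine ⟨C, ρ, c, hC, hρ0, hρ1, hc, ?_⟩
  intro B hBd n m hn hm h1 h2
  have h3 := h n m hn hm h1 h2
  have h4 := tc_log hβ hBd (m - 1)
  rw [Nat.sub_add_cancel hm] at h4
  have h5 : (((m - 1 : ℕ) : ℂ) + 1) = m := by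
    rw [← Nat.cast_add_one, Nat.sub_add_cancel hm]
  have hmC : (m : ℂ) ≠ 0 := by exact_mod_cast (by omega : m ≠ 0)
  rw [h5] at h4
  rw [h4, mul_div_cancel_left₀ _ hmC] at h3
  refine h3.trans (le_of_eq ?_)
  congr 2
  apply Finset.sum_congr rfl
  intro j _
  unfold ww
  rw [dZ_nat (Nat.one_le_pow _ _ (by omega)), Int.cast_natCast]

theorem exists_K (hd : 2 ≤ d) {c : ℝ} (hc : 0 < c) : ∃ K : ℕ, 2 ≤ K ∧ ((d : ℝ) ^ K) ^ (-c) ≤ 1 / 4 := by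
  have hd1 : (1 : ℝ) < d := by exact_mod_cast (show 1 < d by omega)
  have hd0 : (0 : ℝ) < d := by linarith
  have h1 : (d : ℝ) ^ (-c) < 1 := Real.rpow_lt_one_of_one_lt_of_neg hd1 (by linarith)
  have h0 : 0 < (d : ℝ) ^ (-c) := by positivity
  obtain ⟨K, hK⟩ := exists_pow_lt_of_lt_one (show (0 : ℝ) < 1 / 4 by norm_num) h1
  refine ⟨K + 2, by omega, ?_⟩
  have h2 : ((d : ℝ) ^ (K + 2)) ^ (-c) = ((d : ℝ) ^ (-c)) ^ (K + 2) := by
    rw [← Real.rpow_natCast _ (K + 2), ← Real.rpow_natCast _ (K + 2), ← Real.rpow_mul hd0.le,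
      ← Real.rpow_mul hd0.le, mul_comm]
  rw [h2]
  exact (pow_le_pow_of_le_one h0.le h1.le (by omega)).trans hK.le

/-- the Fourier coefficient at `lam ι` of the logarithm against the partial Riesz product -/
theorem JJ_main (hd : 2 ≤ d) {C δ c : ℝ} {B : ℂ → ℂ}
    (hB : DifferentiableOn ℂ B (ball 0 1))
    (hdec : ∀ n m : ℕ, 1 ≤ n → 1 ≤ m → d ^ n ≤ 2 * m → m < d ^ (n + 1) - 1 →
      ‖tc B m‖ ≤ C * (δ ^ n + ∑ j ∈ Finset.range n, δ ^ (n - j) * ww c (d ^ (j + 1)) (m : ℤ)))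
    {ρ : ℝ} (hρ : 0 < ρ) (hρ1 : ρ < 1) {k₀ K : ℕ} (hk₀ : 1 ≤ k₀) (hK : 2 ≤ K) {u : ℂ} (hu : ‖u‖ ≤ 1)
    {ε : ℝ} (hε : 0 ≤ ε) (ι : ℕ) :
    ‖JJ (lamd d k₀ K) u ε (fun θ => B (circleMap 0 ρ θ)) ι (lamd d k₀ K ι) -
      JJ (lamd d k₀ K) u ε (fun θ => B (circleMap 0 ρ θ)) 0 (lamd d k₀ K ι)‖ ≤
      2 * π * (TT (lamd d k₀ K) ε ι (fun m => C * (δ ^ (k₀ + K * ι) +
        ∑ j ∈ Finset.range (k₀ + K * ι), δ ^ (k₀ + K * ι - j) * ww c (d ^ (j + 1)) m))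
          (lamd d k₀ K ι) - C * (δ ^ (k₀ + K * ι) +
        ∑ j ∈ Finset.range (k₀ + K * ι), δ ^ (k₀ + K * ι - j) *
          ww c (d ^ (j + 1)) (lamd d k₀ K ι))) := by
  have hd2 : (2 : ℤ) ≤ d := by exact_mod_cast hd
  have hpi := Real.pi_pos
  have hF : Continuous fun θ : ℝ => B (circleMap 0 ρ θ) := by
    apply hB.continuousOn.comp_continuous (continuous_circleMap 0 ρ)
    intro θ
    rw [mem_ball_zero_iff, norm_circleMap_zero, abs_of_pos hρ]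
    exact hρ1
  have hmain := JJ_diff (lam := lamd d k₀ K) (u := u) (ε := ε) (lamd_pos hd) hu hε hF
    (w := fun m => 2 * π * (C * (δ ^ (k₀ + K * ι) +
        ∑ j ∈ Finset.range (k₀ + K * ι), δ ^ (k₀ + K * ι - j) * ww c (d ^ (j + 1)) m)))
    ι (lamd d k₀ K ι) (by
    intro k hk
    have hs := lamd_sum (k₀ := k₀) hd hK ι
    have hlam : lamd d k₀ K ι = (d - 1) * d ^ (k₀ + K * ι) := rfl
    have hx2 : (2 : ℤ) ≤ (d : ℤ) ^ (k₀ + K * ι) := by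
      calc (2 : ℤ) ≤ d := hd2
        _ = (d : ℤ) ^ 1 := (pow_one _).symm
        _ ≤ (d : ℤ) ^ (k₀ + K * ι) := pow_le_pow_right₀ (by linarith) (by omega)
    have hx1 : (d : ℤ) ^ (k₀ + K * ι + 1) = d * d ^ (k₀ + K * ι) := pow_succ' _ _
    obtain ⟨x, hx⟩ : ∃ x, x = (d : ℤ) ^ (k₀ + K * ι) := ⟨_, rfl⟩
    rw [← hx] at hs hlam hx2 hx1
    rw [abs_le, hlam] at hk
    have b1 : x ≤ 2 * k := by nlinarith [hk.1]
    have b2 : 2 * k ≤ 2 * (d * x) - 3 := by nlinarith [hk.2]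
    obtain ⟨m, hm⟩ : ∃ m : ℕ, k = (m : ℤ) := ⟨k.toNat, by omega⟩
    rw [hm] at b1 b2 ⊢
    rw [JJ_nat hB hρ hρ1, norm_mul]
    have e1 : ‖(2 * π : ℂ)‖ = 2 * π := by
      rw [norm_mul, Complex.norm_ofNat, Complex.norm_real, Real.norm_of_nonneg hpi.le]
    rw [e1]
    apply mul_le_mul_of_nonneg_left _ (by positivity)
    have e2 : ‖tc B m * (ρ : ℂ) ^ m‖ ≤ ‖tc B m‖ := by
      rw [norm_mul, norm_pow, Complex.norm_real, Real.norm_of_nonneg hρ.le]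
      exact mul_le_of_le_one_right (norm_nonneg _) (pow_le_one₀ hρ.le hρ1.le)
    refine e2.trans (hdec _ m (by omega) ?_ ?_ ?_)
    · by_contra h0
      have : m = 0 := by omega
      rw [this] at b1
      simp only [Nat.cast_zero, mul_zero] at b1
      linarith
    · have : ((d ^ (k₀ + K * ι) : ℕ) : ℤ) ≤ ((2 * m : ℕ) : ℤ) := by
        push_cast
        rw [← hx]
        exact b1
      exact_mod_cast this
    · have h3 : ((m : ℕ) : ℤ) + 1 < ((d ^ (k₀ + K * ι + 1) : ℕ) : ℤ) := by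
        push_cast
        rw [hx1]
        omega
      have h4 : m + 1 < d ^ (k₀ + K * ι + 1) := by exact_mod_cast h3
      omega)
  refine hmain.trans (le_of_eq ?_)
  rw [TT_smul]
  ring

theorem log_choice {dd L : ℝ} {k₀ K : ℕ} (hd : 2 ≤ dd) (hK : 1 ≤ K)
    (hL : 2 * (Real.log (2 * dd ^ k₀) + K * Real.log dd) ≤ L) :
    ∃ n : ℕ, dd ^ (k₀ + K * n) * Real.exp (-L) ≤ 1 / 2 ∧ L / (2 * K * Real.log dd) ≤ n := by
  have hdd0 : 0 < dd := by linarith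
  have hld : 0 < Real.log dd := Real.log_pos (by linarith)
  have hK0 : (0 : ℝ) < K := by exact_mod_cast hK
  have hx0 : 0 < 2 * dd ^ k₀ := by positivity
  have hKl : 0 < K * Real.log dd := by positivity
  have h1 : (1 : ℝ) ≤ 2 * dd ^ k₀ := by
    have : (1 : ℝ) ≤ dd ^ k₀ := one_le_pow₀ (by linarith)
    linarith
  have hlx : 0 ≤ Real.log (2 * dd ^ k₀) := Real.log_nonneg h1
  obtain ⟨x, hx⟩ : ∃ x, x = Real.exp L / (2 * dd ^ k₀) := ⟨_, rfl⟩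
  have hx1 : 1 ≤ x := by
    rw [hx, one_le_div hx0, ← Real.exp_log hx0]
    apply Real.exp_le_exp.2
    linarith
  have hy : 1 < dd ^ K := one_lt_pow₀ (by linarith) (by omega)
  obtain ⟨n, hn1, hn2⟩ := exists_nat_pow_near hx1 hy
  refine ⟨n, ?_, ?_⟩
  · rw [Real.exp_neg, pow_add, pow_mul]
    rw [hx, le_div_iff₀ hx0] at hn1
    have := Real.exp_pos L
    rw [← div_eq_mul_inv, div_le_div_iff₀ this (by norm_num)]
    linarith
  · have h2 : Real.log x < Real.log ((dd ^ K) ^ (n + 1)) := Real.log_lt_log (by linarith) hn2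
    rw [Real.log_pow, Real.log_pow, hx, Real.log_div (Real.exp_pos L).ne' hx0.ne', Real.log_exp] at h2
    push_cast at h2
    rw [div_le_iff₀ (by positivity)]
    nlinarith

theorem disc_power (hd : 2 ≤ d) (hβ : IsBeta d β) {B : ℂ → ℂ}
    (hB : DifferentiableOn ℂ B (ball 0 1)) (hB0 : B 0 = 0)
    (hBd : ∀ x ∈ ball (0 : ℂ) 1, deriv B x = logDeriv (qq β) x) :
    ∃ c ρ₀ : ℝ, 0 < c ∧ 0 < ρ₀ ∧ ρ₀ < 1 ∧ ∀ ρ : ℝ, ρ₀ < ρ → ρ < 1 → ∀ p : ℂ,
      Real.exp (c * min ‖p‖ (‖p‖ ^ 2) * Real.log (1 / (1 - ρ))) ≤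
        (2 * π)⁻¹ * ∫ θ in (0 : ℝ)..2 * π, Real.exp ((p * B (circleMap 0 ρ θ)).re) := by
  have hpi := Real.pi_pos
  have hd2 : (2 : ℝ) ≤ d := by exact_mod_cast hd
  have hd0 : (0 : ℝ) < d := by linarith
  obtain ⟨C, δ, c, hC, hδ0, hδ1, hc, hdec⟩ := decay_log hd hβ
  have hdec' := hdec B hBd
  obtain ⟨C', hC', hErr⟩ := TT_err hd hC hδ0 hδ1 hc
  obtain ⟨K, hK, hKc⟩ := exists_K hd hc
  obtain ⟨κ₀, hκ₀⟩ : ∃ κ₀ : ℝ, κ₀ = ((d - 1 : ℕ) : ℝ) / (d : ℝ) ^ 2 := ⟨_, rfl⟩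
  have hκ₀0 : 0 < κ₀ := by
    rw [hκ₀]
    have : (0 : ℝ) < ((d - 1 : ℕ) : ℝ) := by exact_mod_cast (show 0 < d - 1 by omega)
    positivity
  -- the limit of the coefficients
  have hlim := log_coef_limit hd hβ hBd
  have hlim' : Tendsto (fun n => -(tc B ((d - 1) * d ^ n)).re) atTop (𝓝 κ₀) := by
    have h1 := ((Complex.continuous_re.tendsto _).comp hlim).neg
    refine (h1.congr fun n => rfl).trans (le_of_eq ?_)
    congr 1
    rw [hκ₀, Complex.neg_re, neg_neg]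
    have : (((d - 1 : ℕ) : ℂ) / (d : ℂ) ^ 2) = (((((d - 1 : ℕ) : ℝ) / (d : ℝ) ^ 2) : ℝ) : ℂ) := by
      push_cast
      rfl
    rw [this, Complex.ofReal_re]
  obtain ⟨n₀, hn₀⟩ := eventually_atTop.1 (hlim'.eventually (lt_mem_nhds (show κ₀ / 2 < κ₀ by linarith)))
  obtain ⟨k₀, hk₀⟩ : ∃ k₀, k₀ = max n₀ 1 := ⟨_, rfl⟩
  have hk₀1 : 1 ≤ k₀ := by rw [hk₀]; exact le_max_right _ _
  have hk₀n : n₀ ≤ k₀ := by rw [hk₀]; exact le_max_left _ _
  -- constants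
  obtain ⟨ε₀, hε₀⟩ : ∃ ε₀ : ℝ, ε₀ = min ((1 - δ) / 2) (κ₀ / (8 * C')) := ⟨_, rfl⟩
  have hε₀0 : 0 < ε₀ := by
    rw [hε₀]
    apply lt_min
    · linarith
    · positivity
  have hε₀1 : ε₀ ≤ (1 - δ) / 2 := by rw [hε₀]; exact min_le_left _ _
  have hε₀2 : C' * ε₀ ≤ κ₀ / 8 := by
    have : ε₀ ≤ κ₀ / (8 * C') := by rw [hε₀]; exact min_le_right _ _
    calc C' * ε₀ ≤ C' * (κ₀ / (8 * C')) := mul_le_mul_of_nonneg_left this hC'.le
      _ = κ₀ / 8 := by field_simp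
  obtain ⟨c₃, hc₃⟩ : ∃ c₃ : ℝ, c₃ = κ₀ / 32 * min ε₀ (κ₀ / 16) := ⟨_, rfl⟩
  have hc₃0 : 0 < c₃ := by
    rw [hc₃]
    have : 0 < min ε₀ (κ₀ / 16) := lt_min hε₀0 (by positivity)
    positivity
  have hld : 0 < Real.log d := Real.log_pos (by linarith)
  obtain ⟨L₀, hL₀⟩ : ∃ L₀ : ℝ, L₀ = 2 * (Real.log (2 * (d : ℝ) ^ k₀) + K * Real.log d) := ⟨_, rfl⟩
  have hK0 : (0 : ℝ) < K := by exact_mod_cast (show 0 < K by omega)
  have hL₀0 : 0 < L₀ := by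
    rw [hL₀]
    have h1 : (1 : ℝ) ≤ 2 * (d : ℝ) ^ k₀ := by
      have : (1 : ℝ) ≤ (d : ℝ) ^ k₀ := one_le_pow₀ (by linarith)
      linarith
    have := Real.log_nonneg h1
    positivity
  refine ⟨c₃ / (2 * K * Real.log d), 1 - Real.exp (-L₀), by positivity, ?_, ?_, ?_⟩
  · have : Real.exp (-L₀) < 1 := by
      rw [Real.exp_lt_one_iff]
      linarith
    linarith
  · linarith [Real.exp_pos (-L₀)]
  intro ρ hρl hρ1 p
  have hρ : 0 < ρ := by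
    have : Real.exp (-L₀) < 1 := by
      rw [Real.exp_lt_one_iff]
      linarith
    linarith
  obtain ⟨L, hL⟩ : ∃ L, L = Real.log (1 / (1 - ρ)) := ⟨_, rfl⟩
  have h1ρ : 0 < 1 - ρ := by linarith
  have hexpL : Real.exp (-L) = 1 - ρ := by
    rw [hL, one_div, Real.log_inv, neg_neg, Real.exp_log h1ρ]
  have hLL : L₀ ≤ L := by
    have : Real.exp (-L) < Real.exp (-L₀) := by rw [hexpL]; linarith
    rw [Real.exp_lt_exp] at this
    linarith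
  rw [← hL]
  obtain ⟨n, hn1, hn2⟩ := log_choice (L := L) (k₀ := k₀) (K := K) hd2 (show 1 ≤ K by omega)
    (le_trans (le_of_eq hL₀.symm) hLL)
  rw [hexpL] at hn1
  have hF : Continuous fun θ : ℝ => B (circleMap 0 ρ θ) := by
    apply hB.continuousOn.comp_continuous (continuous_circleMap 0 ρ)
    intro θ
    rw [mem_ball_zero_iff, norm_circleMap_zero, abs_of_pos hρ]
    exact hρ1
  rcases eq_or_ne p 0 with hp | hp
  · rw [hp]
    simp
    rw [inv_mul_eq_div, div_mul_eq_mul_div, le_div_iff₀ (by positivity)]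
    linarith
  have hpn : 0 < ‖p‖ := norm_pos_iff.2 hp
  obtain ⟨ε, hε⟩ : ∃ ε : ℝ, ε = min ε₀ (κ₀ * ‖p‖ / 16) := ⟨_, rfl⟩
  have hε0 : 0 < ε := by
    rw [hε]
    exact lt_min hε₀0 (by positivity)
  have hεε₀ : ε ≤ ε₀ := by rw [hε]; exact min_le_left _ _
  have hεp : ε ≤ κ₀ * ‖p‖ / 16 := by rw [hε]; exact min_le_right _ _
  obtain ⟨u, hu⟩ : ∃ u : ℂ, u = -(p / ‖p‖) := ⟨_, rfl⟩
  have hu1 : ‖u‖ = 1 := by
    rw [hu, norm_neg, norm_div, Complex.norm_real, norm_norm, div_self hpn.ne']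
  have hR := riesz_lower (lam := lamd d k₀ K) (lamd_pos hd) (lamd_lac hd hK) hε0.le
    (by linarith : ε ≤ 1) hF hp hu (fun k hk => JJ_neg hB hB0 hρ hρ1 _ u ε hk) (n := n) (κ := κ₀ / 8) (by
      intro l hl
      have e1 := JJ_main hd hB hdec' hρ hρ1 hk₀1 hK hu1.le hε0.le l
      have e2 := hErr k₀ K hK hKc ε hε0.le (by linarith) l
      obtain ⟨M, hM⟩ : ∃ M : ℕ, M = (d - 1) * d ^ (k₀ + K * l) := ⟨_, rfl⟩
      have hMl : lamd d k₀ K l = (M : ℤ) := by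
        unfold lamd
        rw [hM]
        push_cast
        rw [Nat.cast_sub (by omega)]
        push_cast
        rfl
      have e3 := JJ_nat hB hρ hρ1 (lamd d k₀ K) u ε M
      rw [← hMl] at e3
      have e4 := hn₀ (k₀ + K * l) (by omega)
      rw [← hM] at e4
      -- the power of `ρ`
      have e5 : (1 : ℝ) / 2 ≤ ρ ^ M := by
        have a1 := one_add_mul_le_pow (a := -(1 - ρ)) (by linarith) M
        have a2 : 1 + -(1 - ρ) = ρ := by ring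
        rw [a2] at a1
        have a3 : (M : ℝ) ≤ (d : ℝ) ^ (k₀ + K * n) := by
          have : M ≤ d ^ (k₀ + K * n) := by
            calc M ≤ d * d ^ (k₀ + K * l) := by
                  rw [hM]
                  exact Nat.mul_le_mul_right _ (Nat.sub_le d 1)
              _ = d ^ (k₀ + K * l + 1) := (pow_succ' _ _).symm
              _ ≤ d ^ (k₀ + K * n) := by
                  apply Nat.pow_le_pow_right (by omega)
                  have : K * (l + 1) ≤ K * n := Nat.mul_le_mul_left K hl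
                  rw [mul_add] at this
                  omega
          exact_mod_cast this
        have a4 : (M : ℝ) * (1 - ρ) ≤ 1 / 2 :=
          (mul_le_mul_of_nonneg_right a3 h1ρ.le).trans hn1
        linarith
      have e6 : (JJ (lamd d k₀ K) u ε (fun θ => B (circleMap 0 ρ θ)) 0 (lamd d k₀ K l)).re =
          2 * π * ((tc B M).re * ρ ^ M) := by
        rw [e3]
        have : (2 * π * (tc B M * (ρ : ℂ) ^ M) : ℂ) = ((2 * π * ρ ^ M : ℝ) : ℂ) * tc B M := by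
          push_cast
          ring
        rw [this, Complex.re_ofReal_mul]
        ring
      have e7 := (Complex.abs_re_le_norm _).trans e1
      rw [Complex.sub_re, e6, abs_le] at e7
      have e8 : 2 * π * (κ₀ / 4) ≤ 2 * π * (-(tc B M).re * ρ ^ M) := by
        apply mul_le_mul_of_nonneg_left _ (by positivity)
        nlinarith
      have e9 : C' * ε ≤ κ₀ / 8 := (mul_le_mul_of_nonneg_left hεε₀ hC'.le).trans hε₀2
      have e10 := e7.2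
      have e11 : TT (lamd d k₀ K) ε l (fun m => C * (δ ^ (k₀ + K * l) +
        ∑ j ∈ Finset.range (k₀ + K * l), δ ^ (k₀ + K * l - j) * ww c (d ^ (j + 1)) m))
          (lamd d k₀ K l) - C * (δ ^ (k₀ + K * l) +
        ∑ j ∈ Finset.range (k₀ + K * l), δ ^ (k₀ + K * l - j) *
          ww c (d ^ (j + 1)) (lamd d k₀ K l)) ≤ κ₀ / 8 := by linarith
      have e12 := mul_le_mul_of_nonneg_left e11 (show 0 ≤ 2 * π by positivity)
      linarith)
  -- conclusion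
  rw [inv_mul_eq_div, le_div_iff₀ (by positivity), mul_comm]
  refine le_trans ?_ hR
  apply mul_le_mul_of_nonneg_left _ (by positivity)
  apply Real.exp_le_exp.2
  have hL0 : 0 < L := by linarith
  have hn0 : (0 : ℝ) ≤ n := Nat.cast_nonneg n
  obtain ⟨μ, hμ⟩ : ∃ μ, μ = min ‖p‖ (‖p‖ ^ 2) := ⟨_, rfl⟩
  have hμ0 : 0 ≤ μ := by rw [hμ]; positivity
  have hμ1 : μ ≤ ‖p‖ := by rw [hμ]; exact min_le_left _ _
  have hμ2 : μ ≤ ‖p‖ ^ 2 := by rw [hμ]; exact min_le_right _ _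
  rw [← hμ]
  have g1 : c₃ * μ ≤ ε / 2 * (κ₀ / 8 * ‖p‖ - ε) := by
    have a1 : ε / 2 * (κ₀ / 16 * ‖p‖) ≤ ε / 2 * (κ₀ / 8 * ‖p‖ - ε) := by
      apply mul_le_mul_of_nonneg_left _ (by linarith)
      linarith
    refine le_trans ?_ a1
    have a2 : min ε₀ (κ₀ / 16) * μ ≤ ε * ‖p‖ := by
      rcases le_total ε₀ (κ₀ * ‖p‖ / 16) with h | h
      · rw [hε, min_eq_left h]
        calc min ε₀ (κ₀ / 16) * μ ≤ ε₀ * μ := mul_le_mul_of_nonneg_right (min_le_left _ _) hμ0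
          _ ≤ ε₀ * ‖p‖ := mul_le_mul_of_nonneg_left hμ1 hε₀0.le
      · rw [hε, min_eq_right h]
        calc min ε₀ (κ₀ / 16) * μ ≤ (κ₀ / 16) * μ := mul_le_mul_of_nonneg_right (min_le_right _ _) hμ0
          _ ≤ (κ₀ / 16) * ‖p‖ ^ 2 := mul_le_mul_of_nonneg_left hμ2 (by positivity)
          _ = κ₀ * ‖p‖ / 16 * ‖p‖ := by ring
    rw [hc₃]
    have a3 := mul_le_mul_of_nonneg_left a2 (show 0 ≤ κ₀ / 32 by positivity)
    linarith
  calc c₃ / (2 * K * Real.log d) * μ * L = (L / (2 * K * Real.log d)) * (c₃ * μ) := by ring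
    _ ≤ n * (c₃ * μ) := mul_le_mul_of_nonneg_right hn2 (by positivity)
    _ ≤ n * (ε / 2 * (κ₀ / 8 * ‖p‖ - ε)) := mul_le_mul_of_nonneg_left g1 hn0

end Pool.Agent.TH653.MC
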