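import Mathlib
import Pool.Agent.TH653.MC.C16

set_option autoImplicit false

/-! # The derivative of the exterior map: power growth of the means, decay of the coefficients -/

namespace Pool.Agent.TH653.MC

open Complex Set Topology Filter Metric MeasureTheory N62a1eb23 Pool.Agent.H712R2 Pool.Agent.H713R2
open Pool.Agent.TH653.MB Real

/-- **Power growth of the means of the derivative of the exterior map.** -/
theorem power_means {d : ℕ} (hd : 2 ≤ d) {ψ : ℂ → ℂ} (hψ : IsExteriorMap (multibrotSet d) ψ) :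
    ∃ a : ℕ → ℂ, a 0 = 0 ∧
      (∀ z : ℂ, 1 < ‖z‖ →
        Summable (fun m : ℕ => a m / z ^ m) ∧ exp (∑' m : ℕ, a m / z ^ m) = deriv ψ z) ∧
      ∃ c r₀ : ℝ, 0 < c ∧ 1 < r₀ ∧ ∀ r : ℝ, 1 < r → r < r₀ →
        (∀ p : ℂ, (1 / (r - 1)) ^ (c * min ‖p‖ (‖p‖ ^ 2)) ≤ (2 * Real.pi)⁻¹ *
            ∫ θ in (0 : ℝ)..2 * Real.pi, ‖exp (p * ∑' m : ℕ, a m / (r * exp (θ * I)) ^ m)‖) ∧
        ∀ p : ℝ, (1 / (r - 1)) ^ (c * min |p| (p ^ 2)) ≤
          (2 * Real.pi)⁻¹ * ∫ θ in (0 : ℝ)..2 * Real.pi, ‖deriv ψ (r * exp (θ * I))‖ ^ p := by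
  obtain ⟨β, hβ⟩ := exists_beta hd
  obtain ⟨B, hB, hB0, hBe, hBd⟩ := exists_log hβ
  -- the series
  have hsum : ∀ z : ℂ, 1 < ‖z‖ → HasSum (fun m : ℕ => tc B m / z ^ m) (B z⁻¹) := by
    intro z hz
    have h1 := hasSum_tc hB (inv_mem_ball hz).1
    refine h1.congr_fun ?_ |> id
    intro m
    rw [inv_pow, div_eq_mul_inv]
  have hts : ∀ z : ℂ, 1 < ‖z‖ → ∑' m : ℕ, tc B m / z ^ m = B z⁻¹ := fun z hz => (hsum z hz).tsum_eq
  obtain ⟨c, ρ0, hc, hρ0p, hρ01, hpow⟩ := disc_power hd hβ hB hB0 hBd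
  refine ⟨tc B, ?_, fun z hz => ⟨(hsum z hz).summable, ?_⟩, c, ρ0⁻¹, hc,
    (one_lt_inv₀ hρ0p).2 hρ01, ?_⟩
  · rw [tc_zero, hB0]
  · rw [hts z hz, hBe _ (inv_mem_ball hz).1, (hasDerivAt_psi hβ hψ hz).deriv]
  intro r hr1 hr2
  have hrp : 0 < r := by linarith
  obtain ⟨ρ, hρ⟩ : ∃ ρ, ρ = r⁻¹ := ⟨_, rfl⟩
  have hρp : 0 < ρ := by rw [hρ]; positivity
  have hρlt : ρ < 1 := by rw [hρ]; exact inv_lt_one_of_one_lt₀ hr1
  have hρgt : ρ0 < ρ := by
    rw [hρ]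
    rwa [lt_inv_comm₀ hρ0p hrp]
  have hy : 0 < 1 - ρ := by linarith
  have hy1 : 1 - ρ = (r - 1) / r := by rw [hρ]; field_simp
  have hr1' : 0 < r - 1 := by linarith
  have hz : ∀ θ : ℝ, ‖(r : ℂ) * exp (θ * I)‖ = r := by
    intro θ
    rw [norm_mul, Complex.norm_exp_ofReal_mul_I, mul_one, Complex.norm_real, Real.norm_of_nonneg hrp.le]
  have hz1 : ∀ θ : ℝ, 1 < ‖(r : ℂ) * exp (θ * I)‖ := fun θ => by rw [hz]; exact hr1
  have hlog : Real.log (1 / (r - 1)) ≤ Real.log (1 / (1 - ρ)) := by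
    apply Real.log_le_log (by positivity)
    apply one_div_le_one_div_of_le hy
    rw [hy1, div_le_iff₀ hrp]
    nlinarith
  have hexpc : ∀ p : ℂ, (1 / (r - 1)) ^ (c * min ‖p‖ (‖p‖ ^ 2)) ≤ (2 * Real.pi)⁻¹ *
      ∫ θ in (0 : ℝ)..2 * Real.pi, ‖exp (p * ∑' m : ℕ, tc B m / (r * exp (θ * I)) ^ m)‖ := by
    intro p
    have h1 := hpow ρ hρgt hρlt p
    have h2 : (2 * Real.pi)⁻¹ * ∫ θ in (0 : ℝ)..2 * Real.pi, Real.exp ((p * B (circleMap 0 ρ θ)).re) =
        circleAverage (fun x => Real.exp ((p * B x).re)) 0 ρ := by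
      unfold circleAverage
      rw [smul_eq_mul]
    have h3 : (2 * Real.pi)⁻¹ *
        ∫ θ in (0 : ℝ)..2 * Real.pi, ‖exp (p * ∑' m : ℕ, tc B m / (r * exp (θ * I)) ^ m)‖ =
        circleAverage (fun x => Real.exp ((p * B x).re)) 0 ρ := by
      rw [hρ, ← av_inv, av_eq]
      congr 1
      apply intervalIntegral.integral_congr
      intro θ _
      simp only
      rw [hts _ (hz1 θ), Complex.norm_exp]
    rw [h3, ← h2]
    refine le_trans ?_ h1
    rw [Real.rpow_def_of_pos (by positivity), mul_comm]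
    apply Real.exp_le_exp.2
    apply mul_le_mul_of_nonneg_left hlog
    have : 0 ≤ min ‖p‖ (‖p‖ ^ 2) := by positivity
    positivity
  refine ⟨hexpc, ?_⟩
  intro p
  have h1 := hexpc (p : ℂ)
  rw [Complex.norm_real, Real.norm_eq_abs, sq_abs] at h1
  refine h1.trans (le_of_eq ?_)
  congr 1
  apply intervalIntegral.integral_congr
  intro θ _
  simp only
  rw [hts _ (hz1 θ), Complex.norm_exp, Complex.re_ofReal_mul,
    (hasDerivAt_psi hβ hψ (hz1 θ)).deriv, ← hBe _ (inv_mem_ball (hz1 θ)).1, Complex.norm_exp,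
    ← Real.exp_mul]
  congr 1
  ring

/-- **Decay of the coefficients** of the logarithm of the derivative of the exterior map. -/
theorem coef_decay {d : ℕ} (hd : 2 ≤ d) {ψ : ℂ → ℂ} (hψ : IsExteriorMap (multibrotSet d) ψ) :
    ∃ a : ℕ → ℂ, a 0 = 0 ∧
      (∀ z : ℂ, 1 < ‖z‖ →
        Summable (fun m : ℕ => a m / z ^ m) ∧ exp (∑' m : ℕ, a m / z ^ m) = deriv ψ z) ∧
      Tendsto (fun n : ℕ => a ((d - 1) * d ^ n)) atTop (𝓝 (-(((d - 1 : ℕ) : ℂ) / (d : ℂ) ^ 2))) ∧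
      ∃ C c : ℝ, 0 < C ∧ 0 < c ∧ ∀ m : ℕ, 1 ≤ m → ‖a m‖ ≤ C *
        ∑ j ∈ Finset.range (Nat.log d (2 * m) + 1),
          ((d : ℝ) ^ j / (m * (1 + ((min (m % d ^ j) (d ^ j - m % d ^ j) : ℕ) : ℝ)))) ^ c := by
  obtain ⟨β, hβ⟩ := exists_beta hd
  obtain ⟨B, hB, hB0, hBe, hBd⟩ := exists_log hβ
  have hsum : ∀ z : ℂ, 1 < ‖z‖ → HasSum (fun m : ℕ => tc B m / z ^ m) (B z⁻¹) := by
    intro z hz
    have h1 := hasSum_tc hB (inv_mem_ball hz).1
    refine h1.congr_fun ?_ |> id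
    intro m
    rw [inv_pow, div_eq_mul_inv]
  have hts : ∀ z : ℂ, 1 < ‖z‖ → ∑' m : ℕ, tc B m / z ^ m = B z⁻¹ := fun z hz => (hsum z hz).tsum_eq
  refine ⟨tc B, ?_, fun z hz => ⟨(hsum z hz).summable, ?_⟩, log_coef_limit hd hβ hBd, ?_⟩
  · rw [tc_zero, hB0]
  · rw [hts z hz, hBe _ (inv_mem_ball hz).1, (hasDerivAt_psi hβ hψ hz).deriv]
  have hd2 : (2 : ℝ) ≤ d := by exact_mod_cast hd
  have hd0 : (0 : ℝ) < d := by linarith
  have hd1 : (1 : ℝ) < d := by linarith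
  obtain ⟨C, ρ, c, hC, hρ0, hρ1, hc, hdec⟩ := decay_log hd hβ
  -- `ρ = d ^ (-e)`
  obtain ⟨e, he⟩ : ∃ e : ℝ, e = -(Real.log ρ / Real.log d) := ⟨_, rfl⟩
  have hld : 0 < Real.log d := Real.log_pos hd1
  have hlρ : Real.log ρ < 0 := Real.log_neg hρ0 hρ1
  have he0 : 0 < e := by
    rw [he, neg_pos]
    exact div_neg_of_neg_of_pos hlρ hld
  have hρe : ρ = (d : ℝ) ^ (-e) := by
    rw [Real.rpow_def_of_pos hd0, he, neg_neg, mul_div_cancel₀ _ hld.ne', Real.exp_log hρ0]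
  obtain ⟨c', hc'⟩ : ∃ c' : ℝ, c' = min c e := ⟨_, rfl⟩
  have hc'0 : 0 < c' := by rw [hc']; exact lt_min hc he0
  have hc'c : c' ≤ c := by rw [hc']; exact min_le_left _ _
  have hc'e : c' ≤ e := by rw [hc']; exact min_le_right _ _
  -- the finitely many exceptional coefficients
  obtain ⟨C1, hC1, hC1'⟩ : ∃ C1 : ℝ, 0 < C1 ∧ ∀ m ≤ d, ‖tc B m‖ ≤ C1 := by
    refine ⟨1 + ∑ m ∈ Finset.range (d + 1), ‖tc B m‖, ?_, ?_⟩
    · have : 0 ≤ ∑ m ∈ Finset.range (d + 1), ‖tc B m‖ := Finset.sum_nonneg (fun _ _ => norm_nonneg _)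
      linarith
    · intro m hm
      have := Finset.single_le_sum (f := fun m => ‖tc B m‖) (fun _ _ => norm_nonneg _)
        (Finset.mem_range.2 (show m < d + 1 by omega))
      linarith
  refine ⟨C1 * d ^ c' + C * (d ^ c' + 1), c', by positivity, hc'0, ?_⟩
  intro m hm
  have hm0 : (0 : ℝ) < m := by exact_mod_cast hm
  obtain ⟨n, hn⟩ : ∃ n, n = Nat.log d (2 * m) := ⟨_, rfl⟩
  rw [← hn]
  obtain ⟨D, hD⟩ : ∃ D : ℕ → ℕ, D = fun j => min (m % d ^ j) (d ^ j - m % d ^ j) := ⟨_, rfl⟩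
  have hDe : ∀ j, (min (m % d ^ j) (d ^ j - m % d ^ j) : ℕ) = D j := by
    intro j
    rw [hD]
  have hterm : ∀ j, ((d : ℝ) ^ j / (m * (1 + ((min (m % d ^ j) (d ^ j - m % d ^ j) : ℕ) : ℝ)))) ^ c' =
      ((d : ℝ) ^ j / (m * (1 + (D j : ℝ)))) ^ c' := by
    intro j
    rw [hDe]
  simp only [hterm]
  have hpos : ∀ j, 0 ≤ ((d : ℝ) ^ j / (m * (1 + (D j : ℝ)))) ^ c' := by
    intro j
    positivity
  have hS0 : 0 ≤ ∑ j ∈ Finset.range (n + 1), ((d : ℝ) ^ j / (m * (1 + (D j : ℝ)))) ^ c' :=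
    Finset.sum_nonneg (fun j _ => hpos j)
  have hzero : (1 / (m : ℝ)) ^ c' ≤ ∑ j ∈ Finset.range (n + 1),
      ((d : ℝ) ^ j / (m * (1 + (D j : ℝ)))) ^ c' := by
    have h1 := Finset.single_le_sum (f := fun j => ((d : ℝ) ^ j / (m * (1 + (D j : ℝ)))) ^ c')
      (fun j _ => hpos j) (Finset.mem_range.2 (show 0 < n + 1 by omega))
    refine le_trans (le_of_eq ?_) h1
    simp only [hD, pow_zero, Nat.mod_one]
    simp
  rcases le_or_gt m d with hmd | hmd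
  · -- small `m`
    calc ‖tc B m‖ ≤ C1 := hC1' m hmd
      _ ≤ C1 * (d ^ c' * (1 / (m : ℝ)) ^ c') := by
          apply le_mul_of_one_le_right hC1.le
          rw [← Real.mul_rpow hd0.le (by positivity)]
          apply Real.one_le_rpow _ hc'0.le
          rw [mul_one_div, one_le_div hm0]
          exact_mod_cast hmd
      _ = C1 * d ^ c' * (1 / (m : ℝ)) ^ c' := by ring
      _ ≤ C1 * d ^ c' * ∑ j ∈ Finset.range (n + 1), ((d : ℝ) ^ j / (m * (1 + (D j : ℝ)))) ^ c' :=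
          mul_le_mul_of_nonneg_left hzero (by positivity)
      _ ≤ _ := by
          apply mul_le_mul_of_nonneg_right _ hS0
          have : 0 < C * (d ^ c' + 1) := by positivity
          linarith
  · -- large `m`
    have h2m : 2 * m ≠ 0 := by omega
    have hn1 : d ^ n ≤ 2 * m := by rw [hn]; exact Nat.pow_log_le_self d h2m
    have hn2 : 2 * m < d ^ (n + 1) := by
      rw [hn]
      exact Nat.lt_pow_succ_log_self (by omega) _
    have hn0 : 1 ≤ n := by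
      rw [hn]
      apply Nat.log_pos (by omega)
      omega
    have h3 := hdec B hBd n m hn0 hm hn1 (by omega)
    -- the powers of `ρ`
    have hm2 : (2 : ℝ) * m < d ^ (n + 1) := by exact_mod_cast hn2
    have hρpow : ∀ i j : ℕ, i + j = n + 1 → ρ ^ i ≤ ((d : ℝ) ^ j / m) ^ c' := by
      intro i j hij
      have e1 : ρ ^ i ≤ ((d : ℝ) ^ (-(i : ℝ))) ^ c' := by
        rw [hρe, ← Real.rpow_natCast _ i, ← Real.rpow_mul hd0.le, ← Real.rpow_mul hd0.le]
        apply Real.rpow_le_rpow_of_exponent_le hd1.le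
        have : (0 : ℝ) ≤ i := Nat.cast_nonneg i
        nlinarith
      refine e1.trans ?_
      apply Real.rpow_le_rpow (by positivity) _ hc'0.le
      rw [Real.rpow_neg hd0.le, Real.rpow_natCast, ← one_div, div_le_div_iff₀ (by positivity)
        (by positivity), one_mul, ← pow_add, add_comm j i, hij]
      linarith
    have hA : ρ ^ n ≤ d ^ c' * ∑ j ∈ Finset.range (n + 1),
        ((d : ℝ) ^ j / (m * (1 + (D j : ℝ)))) ^ c' := by
      calc ρ ^ n ≤ ((d : ℝ) ^ 1 / m) ^ c' := hρpow n 1 rfl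
        _ = d ^ c' * (1 / (m : ℝ)) ^ c' := by
            rw [← Real.mul_rpow hd0.le (by positivity), pow_one, mul_one_div]
        _ ≤ _ := mul_le_mul_of_nonneg_left hzero (by positivity)
    have hB' : ∑ j ∈ Finset.range n, ρ ^ (n - j) * ww c (d ^ (j + 1)) (m : ℤ) ≤
        ∑ j ∈ Finset.range (n + 1), ((d : ℝ) ^ j / (m * (1 + (D j : ℝ)))) ^ c' := by
      rw [Finset.sum_range_succ']
      have h4 : ∑ j ∈ Finset.range n, ρ ^ (n - j) * ww c (d ^ (j + 1)) (m : ℤ) ≤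
          ∑ j ∈ Finset.range n, ((d : ℝ) ^ (j + 1) / (m * (1 + (D (j + 1) : ℝ)))) ^ c' := by
        apply Finset.sum_le_sum
        intro j hj
        rw [Finset.mem_range] at hj
        have e1 := hρpow (n - j) (j + 1) (by omega)
        have e2 : ww c (d ^ (j + 1)) (m : ℤ) ≤ (1 + (D (j + 1) : ℝ)) ^ (-c') := by
          unfold ww
          rw [dZ_nat (Nat.one_le_pow _ _ (by omega)), Int.cast_natCast]
          have : dst (d ^ (j + 1)) m = D (j + 1) := by rw [hD]; rfl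
          rw [this]
          have h5 : (0 : ℝ) ≤ D (j + 1) := Nat.cast_nonneg _
          exact Real.rpow_le_rpow_of_exponent_le (by linarith) (by linarith)
        have e3 : 0 ≤ ww c (d ^ (j + 1)) (m : ℤ) := by
          unfold ww
          have : (0 : ℝ) ≤ (dZ (d ^ (j + 1)) (m : ℤ) : ℝ) := by
            exact_mod_cast dZ_nonneg (Nat.one_le_pow _ _ (by omega)) _
          positivity
        calc ρ ^ (n - j) * ww c (d ^ (j + 1)) (m : ℤ) ≤
              ((d : ℝ) ^ (j + 1) / m) ^ c' * (1 + (D (j + 1) : ℝ)) ^ (-c') :=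
              mul_le_mul e1 e2 e3 (by positivity)
          _ = ((d : ℝ) ^ (j + 1) / (m * (1 + (D (j + 1) : ℝ)))) ^ c' := by
              rw [Real.rpow_neg (by positivity), ← div_eq_mul_inv, ← Real.div_rpow (by positivity)
                (by positivity), div_div]
      have h6 := hpos 0
      linarith
    calc ‖tc B m‖ ≤ C * (ρ ^ n + ∑ j ∈ Finset.range n, ρ ^ (n - j) * ww c (d ^ (j + 1)) (m : ℤ)) := h3
      _ ≤ C * (d ^ c' * ∑ j ∈ Finset.range (n + 1), ((d : ℝ) ^ j / (m * (1 + (D j : ℝ)))) ^ c' +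
          ∑ j ∈ Finset.range (n + 1), ((d : ℝ) ^ j / (m * (1 + (D j : ℝ)))) ^ c') :=
          mul_le_mul_of_nonneg_left (add_le_add hA hB') hC.le
      _ = C * (d ^ c' + 1) * ∑ j ∈ Finset.range (n + 1), ((d : ℝ) ^ j / (m * (1 + (D j : ℝ)))) ^ c' := by
          ring
      _ ≤ _ := by
          apply mul_le_mul_of_nonneg_right _ hS0
          have : 0 < C1 * d ^ c' := by positivity
          linarith

end Pool.Agent.TH653.MC
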